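import Pool.Agent.WNH.F

/-!
Compact operators have no infinite chain of eigenvalues of modulus `> 1`.
-/

namespace WNH
open Filter Topology Metric
universe u
variable {X : Type u} [NormedAddCommGroup X] [NormedSpace ℂ X]

theorem not_infChain_of_compact (T : X →L[ℂ] X) (hT : IsCompactOperator T) : ¬ InfChain T := by
  rintro ⟨μ, hμ, h1, hanti⟩
  choose x hx0 hx using hμ
  have hinj : Function.Injective μ := fun i j hij => hanti.injective (by simp [hij])
  have hli : LinearIndependent ℂ x := by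
    refine Module.End.eigenvectors_linearIndependent' (T : X →ₗ[ℂ] X) μ hinj x ?_
    intro i
    exact ⟨by rw [Module.End.mem_eigenspace_iff]; exact hx i, hx0 i⟩
  let V : ℕ → Submodule ℂ X := fun n => Submodule.span ℂ (x '' Set.Iio n)
  have hfin : ∀ n, FiniteDimensional ℂ (V n) := fun n =>
    FiniteDimensional.span_of_finite ℂ ((Set.finite_Iio n).image x)
  have hmono : Monotone V := fun m n hmn =>
    Submodule.span_mono (Set.image_mono (Set.Iio_subset_Iio hmn))
  have hnot : ∀ n, x n ∉ V n := by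
    intro n hn
    have := hli.notMem_span_image (s := Set.Iio n) (x := n) (by simp)
    exact this hn
  have hxmem : ∀ n, x n ∈ V (n + 1) := fun n =>
    Submodule.subset_span ⟨n, by simp, rfl⟩
  have hTV : ∀ n, ∀ y ∈ V n, T y ∈ V n := by
    intro n y hy
    refine Submodule.span_induction ?_ ?_ ?_ ?_ hy
    · rintro _ ⟨i, hi, rfl⟩
      rw [hx]
      exact (V n).smul_mem _ (Submodule.subset_span ⟨i, hi, rfl⟩)
    · simp
    · intro a b _ _ ha hb; rw [map_add]; exact (V n).add_mem ha hb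
    · intro c a _ ha; rw [map_smul]; exact (V n).smul_mem _ ha
  have hTV' : ∀ n, ∀ y ∈ V (n + 1), T y - μ n • y ∈ V n := by
    intro n y hy
    refine Submodule.span_induction ?_ ?_ ?_ ?_ hy
    · rintro _ ⟨i, hi, rfl⟩
      rw [hx, ← sub_smul]
      rcases Nat.lt_succ_iff_lt_or_eq.mp hi with h | h
      · exact (V n).smul_mem _ (Submodule.subset_span ⟨i, h, rfl⟩)
      · subst h; simp
    · simp
    · intro a b _ _ ha hb
      have : T (a + b) - μ n • (a + b) = (T a - μ n • a) + (T b - μ n • b) := by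
        rw [map_add, smul_add]; abel
      rw [this]; exact (V n).add_mem ha hb
    · intro c a _ ha
      have : T (c • a) - μ n • (c • a) = c • (T a - μ n • a) := by
        rw [map_smul, smul_sub, smul_comm]
      rw [this]; exact (V n).smul_mem _ ha
  have hR : ∀ n, ∃ y ∈ V (n + 1), ‖y‖ = 1 ∧ ∀ w ∈ V n, (1 / 2 : ℝ) ≤ ‖y - w‖ := by
    intro n
    have := hfin n
    have := hfin (n + 1)
    let F : Submodule ℂ (V (n + 1)) := (V n).comap (V (n + 1)).subtype
    have hFc : IsClosed (F : Set (V (n + 1))) := by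
      exact ((V n).closed_of_finiteDimensional).preimage continuous_subtype_val
    have hF : ∃ z : V (n + 1), z ∉ F := ⟨⟨x n, hxmem n⟩, fun h => hnot n h⟩
    obtain ⟨z, -, hz1, hz2⟩ := riesz_lemma_of_lt_one (𝕜 := ℂ) hFc hF (r := 1 / 2) (by norm_num)
    refine ⟨z, z.2, hz1, fun w hw => ?_⟩
    exact hz2 ⟨w, hmono (Nat.le_succ n) hw⟩ hw
  choose y hyV hy1 hy2 using hR
  obtain ⟨K, hK, hKsub⟩ := hT.image_closedBall_subset_compact 1
  have hyK : ∀ n, T (y n) ∈ K := fun n => hKsub ⟨y n, by simp [hy1 n], rfl⟩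
  obtain ⟨a, -, φ, hφ, ha⟩ := hK.tendsto_subseq hyK
  have hcau := ha.cauchySeq
  rw [Metric.cauchySeq_iff] at hcau
  obtain ⟨N, hN⟩ := hcau (1 / 2) (by norm_num)
  have h2 := hN (N + 1) (Nat.le_succ N) N le_rfl
  have hlt : φ N < φ (N + 1) := hφ (Nat.lt_succ_self N)
  set m := φ N with hm
  set n := φ (N + 1) with hn
  have hμ0 : μ n ≠ 0 := by
    intro h; have := h1 n; rw [h] at this; simp at this; linarith
  have hw : (μ n)⁻¹ • (T (y m) - (T (y n) - μ n • y n)) ∈ V n := by
    refine (V n).smul_mem _ ((V n).sub_mem ?_ (hTV' n _ (hyV n)))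
    exact hmono (Nat.succ_le_of_lt hlt) (hTV (m + 1) _ (hyV m))
  have h3 := hy2 n _ hw
  have h4 : T (y n) - T (y m) =
      μ n • (y n - (μ n)⁻¹ • (T (y m) - (T (y n) - μ n • y n))) := by
    rw [smul_sub, smul_inv_smul₀ hμ0]; abel
  have h5 : (1 / 2 : ℝ) ≤ ‖T (y n) - T (y m)‖ := by
    rw [h4, norm_smul]
    nlinarith [h1 n, h3, norm_nonneg (y n - (μ n)⁻¹ • (T (y m) - (T (y n) - μ n • y n)))]
  rw [dist_eq_norm] at h2
  simp only [Function.comp] at h2
  linarith

end WNH
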