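import Pool.Agent.WNH.P10

/-!
Row [WN-P11]. Uses `peel` (P10), `top_eigen` (P7a), G0.
-/

namespace WNH
open Filter Topology Metric
universe u
variable {X : Type u} [NormedAddCommGroup X] [NormedSpace ℂ X] [CompleteSpace X]

namespace P11Aux

theorem gr_smul_le (S : X →L[ℂ] X) (r : ℝ) (hr : 0 < r) : gr ((r : ℂ) • S) ≤ r * gr S := by
  have h : ∀ R : ℝ, gr S < R → gr ((r : ℂ) • S) ≤ r * R := by
    intro R hR
    obtain ⟨C, hC, hCn⟩ := gr_bound S hR
    have hR0 : 0 < R := lt_of_le_of_lt (gr_nonneg S) hR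
    apply gr_le_of_bound (C := C) _ (by positivity)
    intro n
    rw [smul_pow, norm_smul, norm_pow, Complex.norm_real, Real.norm_eq_abs, abs_of_pos hr, mul_pow]
    calc r ^ n * ‖S ^ n‖ ≤ r ^ n * (C * R ^ n) :=
          mul_le_mul_of_nonneg_left (hCn n) (by positivity)
      _ = C * (r ^ n * R ^ n) := by ring
  by_contra hcon
  push Not at hcon
  have h1 : gr S < gr ((r : ℂ) • S) / r := by
    rw [lt_div_iff₀ hr]; linarith
  obtain ⟨R, hR1, hR2⟩ := exists_between h1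
  have h2 := h R hR1
  rw [lt_div_iff₀ hr] at hR2
  linarith

theorem gr_smul (S : X →L[ℂ] X) (r : ℝ) (hr : 0 < r) : gr ((r : ℂ) • S) = r * gr S := by
  apply le_antisymm (gr_smul_le S r hr)
  have h1 := gr_smul_le ((r : ℂ) • S) r⁻¹ (by positivity)
  have h2 : ((r⁻¹ : ℝ) : ℂ) • ((r : ℂ) • S) = S := by
    rw [smul_smul]
    have : ((r⁻¹ : ℝ) : ℂ) * (r : ℂ) = 1 := by
      rw [← Complex.ofReal_mul, inv_mul_cancel₀ hr.ne', Complex.ofReal_one]
    rw [this, one_smul]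
  rw [h2] at h1
  have h3 : r * gr S ≤ r * (r⁻¹ * gr ((r : ℂ) • S)) := mul_le_mul_of_nonneg_left h1 hr.le
  have h4 : r * (r⁻¹ * gr ((r : ℂ) • S)) = gr ((r : ℂ) • S) := by field_simp
  linarith

/-- a state of the iteration. -/
structure State (T : X →L[ℂ] X) where
  P : X →L[ℂ] X
  q : Polynomial ℂ
  hPP : P * P = P
  hcomm : ∀ U : X →L[ℂ] X, U * T = T * U → U * P = P * U
  hq : q ≠ 0
  hqP : Polynomial.aeval T q * P = 0

theorem aeval_restrict (T I : X →L[ℂ] X) (hI : I * I = I) (hTI : T * I = I * T)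
    (q : Polynomial ℂ) : Polynomial.aeval (T * I) q * I = Polynomial.aeval T q * I := by
  induction q using Polynomial.induction_on' with
  | add p q hp hq => rw [map_add, map_add, add_mul, add_mul, hp, hq]
  | monomial n a =>
    rw [Polynomial.aeval_monomial, Polynomial.aeval_monomial, mul_assoc, mul_assoc]
    congr 1
    have hc : Commute T I := hTI
    rw [hc.mul_pow, mul_assoc, ← pow_succ]
    congr 1
    have h1 : IsIdempotentElem I := hI
    exact h1.pow_eq (by omega)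

theorem step (T : X →L[ℂ] X) (r : ℝ) (hr : 1 < r) (hW : ¬ W ((r : ℂ) • T)) (s : State T)
    (hs : 1 ≤ gr (T * (1 - s.P))) :
    ∃ (s' : State T) (μ : ℂ), (∃ x : X, x ≠ 0 ∧ T x = μ • x) ∧ ‖μ‖ = gr (T * (1 - s.P)) ∧
      gr (T * (1 - s'.P)) < gr (T * (1 - s.P)) := by
  obtain ⟨P, q, hPP, hcomm, hq, hqP⟩ := s
  simp only at hs ⊢
  have hr0 : 0 < r := by linarith
  have hrc : (r : ℂ) ≠ 0 := by exact_mod_cast hr0.ne'
  have hTP : T * P = P * T := hcomm T rfl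
  obtain ⟨I, hI⟩ : ∃ I : X →L[ℂ] X, I = 1 - P := ⟨_, rfl⟩
  rw [← hI] at hs ⊢
  have hII : I * I = I := by
    rw [hI, sub_mul, mul_sub, mul_sub, hPP, mul_one, one_mul, mul_one]; abel
  have hPI : P * I = 0 := by rw [hI, mul_sub, hPP, mul_one, sub_self]
  have hIP : I * P = 0 := by rw [hI, sub_mul, hPP, one_mul, sub_self]
  have hTI : T * I = I * T := by rw [hI, mul_sub, sub_mul, hTP, mul_one, one_mul]
  obtain ⟨T₁, hT₁⟩ : ∃ T₁ : X →L[ℂ] X, T₁ = T * I := ⟨_, rfl⟩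
  rw [← hT₁] at hs ⊢
  obtain ⟨S₁, hS₁⟩ : ∃ S₁ : X →L[ℂ] X, S₁ = (r : ℂ) • T₁ := ⟨_, rfl⟩
  have hgrS : gr S₁ = r * gr T₁ := by rw [hS₁]; exact gr_smul T₁ r hr0
  have hgr1 : 1 < gr S₁ := by
    rw [hgrS]; nlinarith
  have hT₁pow : ∀ n : ℕ, 1 ≤ n → T₁ ^ n = T ^ n * I := by
    intro n hn
    have hc : Commute T I := hTI
    rw [hT₁, hc.mul_pow]
    congr 1
    have h1 : IsIdempotentElem I := hII
    exact h1.pow_eq (by omega)
  have hWS : ¬ W S₁ := by
    rintro ⟨x, f, hd⟩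
    apply hW
    refine ⟨I x, f, ?_⟩
    refine (hd.diff_singleton (f x)).mono ?_
    rintro _ ⟨⟨n, rfl⟩, hne⟩
    by_cases hn : n = 0
    · exfalso
      apply hne
      rw [hn]
      simp
    · refine ⟨n, ?_⟩
      change f ((((r : ℂ) • T) ^ n) (I x)) = f ((S₁ ^ n) x)
      rw [hS₁, smul_pow, smul_pow, hT₁pow n (by omega)]
      rfl
  obtain ⟨⟨μ', hμ', x, hx, hSx⟩, -⟩ := top_eigen S₁ hWS hgr1
  obtain ⟨μ, hμ⟩ : ∃ μ : ℂ, μ = μ' / r := ⟨_, rfl⟩
  have hμn : ‖μ‖ = gr T₁ := by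
    rw [hμ, norm_div, hμ', hgrS, Complex.norm_real, Real.norm_eq_abs, abs_of_pos hr0]
    field_simp
  have hμ0 : μ ≠ 0 := by
    intro h
    rw [h, norm_zero] at hμn
    linarith
  have hT₁x : T₁ x = μ • x := by
    have h1 : (r : ℂ) • T₁ x = μ' • x := by
      rw [← hSx, hS₁]; rfl
    have h2 : T₁ x = (r : ℂ)⁻¹ • ((r : ℂ) • T₁ x) := by
      rw [smul_smul, inv_mul_cancel₀ hrc, one_smul]
    rw [h2, h1, smul_smul, hμ]
    congr 1
    field_simp
  have hIx : I x = x := by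
    have h1 : x = μ⁻¹ • T₁ x := by rw [hT₁x, smul_smul, inv_mul_cancel₀ hμ0, one_smul]
    have h2 : I (T₁ x) = T₁ x := by
      have h3 : I * T₁ = T₁ := by rw [hT₁, hTI, ← mul_assoc, hII]
      exact congrArg (fun S : X →L[ℂ] X => S x) h3
    rw [h1, map_smul, h2]
  have hTx : T x = μ • x := by
    rw [← hT₁x, hT₁]
    change T x = T (I x)
    rw [hIx]
  obtain ⟨P', q', hP'P', hcomm', hq', hqP', hgr'⟩ := peel S₁ hWS hgr1
  -- commutation facts
  have hPT₁ : P * T₁ = 0 := by rw [hT₁, ← mul_assoc, ← hTP, mul_assoc, hPI, mul_zero]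
  have hT₁P : T₁ * P = 0 := by rw [hT₁, mul_assoc, hIP, mul_zero]
  have hPP'comm : P * P' = P' * P := by
    apply hcomm'
    rw [hS₁, mul_smul_comm, smul_mul_assoc, hPT₁, hT₁P]
  have hIP'comm : I * P' = P' * I := by
    rw [hI, sub_mul, mul_sub, hPP'comm, one_mul, mul_one]
  obtain ⟨P₂, hP₂⟩ : ∃ P₂ : X →L[ℂ] X, P₂ = P + P' * I := ⟨_, rfl⟩
  have h1P₂ : 1 - P₂ = I * (1 - P') := by
    rw [hP₂, mul_sub, mul_one, hIP'comm]
    rw [← sub_sub, ← hI]
  have hP₂P₂ : P₂ * P₂ = P₂ := by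
    have h1 : P * (P' * I) = 0 := by
      rw [← hIP'comm, ← mul_assoc, hPI, zero_mul]
    have h2 : P' * I * P = 0 := by rw [mul_assoc, hIP, mul_zero]
    have h3 : P' * I * (P' * I) = P' * I := by
      calc P' * I * (P' * I) = P' * (I * P') * I := by simp only [mul_assoc]
        _ = (P' * P') * (I * I) := by rw [hIP'comm]; simp only [mul_assoc]
        _ = P' * I := by rw [hP'P', hII]
    rw [hP₂, add_mul, mul_add, mul_add, hPP, h1, h2, h3, add_zero, zero_add]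
  have hP₂comm : ∀ U : X →L[ℂ] X, U * T = T * U → U * P₂ = P₂ * U := by
    intro U hU
    have h1 : U * P = P * U := hcomm U hU
    have h2 : U * I = I * U := by rw [hI, mul_sub, sub_mul, h1, mul_one, one_mul]
    have h3 : U * T₁ = T₁ * U := by
      rw [hT₁, ← mul_assoc, hU, mul_assoc, h2, mul_assoc]
    have h4 : U * P' = P' * U := by
      apply hcomm'
      rw [hS₁, mul_smul_comm, smul_mul_assoc, h3]
    rw [hP₂, mul_add, add_mul, h1, ← mul_assoc, h4, mul_assoc, h2, mul_assoc]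
  obtain ⟨q₂, hq₂⟩ : ∃ q₂ : Polynomial ℂ,
    q₂ = q'.comp (Polynomial.C (r : ℂ) * Polynomial.X) := ⟨_, rfl⟩
  have hq₂0 : q₂ ≠ 0 := by
    intro h
    apply hq'
    ext n
    have h1 := congrArg (fun p : Polynomial ℂ => p.coeff n) h
    simp only [hq₂, Polynomial.comp_C_mul_X_coeff, Polynomial.coeff_zero] at h1
    rw [Polynomial.coeff_zero]
    exact (mul_eq_zero.mp h1).resolve_right (pow_ne_zero _ hrc)
  have haev : Polynomial.aeval T₁ q₂ = Polynomial.aeval S₁ q' := by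
    rw [hq₂, Polynomial.aeval_comp, map_mul, Polynomial.aeval_C, Polynomial.aeval_X, hS₁,
      Algebra.smul_def]
  have hrestr : Polynomial.aeval T₁ q₂ * I = Polynomial.aeval T q₂ * I := by
    rw [hT₁]; exact aeval_restrict T I hII hTI q₂
  have hq₂P₂ : Polynomial.aeval T (q * q₂) * P₂ = 0 := by
    rw [hP₂, mul_add]
    have h1 : Polynomial.aeval T (q * q₂) * P = 0 := by
      rw [mul_comm q q₂, map_mul, mul_assoc, hqP, mul_zero]
    have h2 : Polynomial.aeval T (q * q₂) * (P' * I) = 0 := by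
      rw [map_mul, ← hIP'comm, ← mul_assoc, mul_assoc _ _ I, ← hrestr, haev]
      rw [mul_assoc (Polynomial.aeval T q), mul_assoc (Polynomial.aeval S₁ q'), hIP'comm,
        ← mul_assoc (Polynomial.aeval S₁ q'), hqP', zero_mul, mul_zero]
    rw [h1, h2, add_zero]
  refine ⟨⟨P₂, q * q₂, hP₂P₂, hP₂comm, mul_ne_zero hq hq₂0, hq₂P₂⟩, μ, ⟨x, hx, hTx⟩, hμn, ?_⟩
  simp only
  have h1 : T * (1 - P₂) = T₁ * (1 - P') := by rw [h1P₂, ← mul_assoc, hT₁]
  rw [h1]
  have h2 : gr (S₁ * (1 - P')) = r * gr (T₁ * (1 - P')) := by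
    rw [hS₁, smul_mul_assoc]
    exact gr_smul _ r hr0
  rw [h2, hgrS] at hgr'
  exact lt_of_mul_lt_mul_left hgr' hr0.le

end P11Aux

open P11Aux

theorem dec_of_notW (T : X →L[ℂ] X) (r : ℝ) (hr : 1 < r) (hW : ¬ W ((r : ℂ) • T))
    (hno : ¬ ∃ μ : ℕ → ℂ, (∀ j, ∃ x : X, x ≠ 0 ∧ T x = μ j • x) ∧ (∀ j, 1 < ‖μ j‖) ∧
      StrictAnti fun j => ‖μ j‖) : Dec T := by
  by_contra hDec
  have hge : ∀ s : State T, 1 ≤ gr (T * (1 - s.P)) := by
    intro s
    by_contra hlt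
    push Not at hlt
    exact hDec ⟨s.P, s.q, s.hPP, s.hcomm, s.hq, s.hqP, hlt⟩
  have hstep := fun s : State T => step T r hr hW s (hge s)
  choose nxt μ h1 h2 h3 using hstep
  let s₀ : State T := ⟨0, 1, by simp, by simp, one_ne_zero, by simp⟩
  let s : ℕ → State T := fun n => nxt^[n] s₀
  have hs : ∀ n, s (n + 1) = nxt (s n) := fun n => Function.iterate_succ_apply' nxt n s₀
  apply hno
  refine ⟨fun j => μ (s j), fun j => h1 (s j), ?_, ?_⟩
  · intro j
    change 1 < ‖μ (s j)‖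
    rw [h2]
    have h4 := h3 (s j)
    rw [← hs] at h4
    exact lt_of_le_of_lt (hge (s (j + 1))) h4
  · apply strictAnti_nat_of_succ_lt
    intro j
    change ‖μ (s (j + 1))‖ < ‖μ (s j)‖
    rw [h2, h2, hs]
    exact h3 (s j)

end WNH
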