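import Pool.Agent.WNH.P9
import Pool.Agent.WNH.P11

/-!
Row [WN-K1]. A compact operator is (algebraic) ⊕ (spectral radius `< 1`): `Dec T`.

Proof (Riesz theory). Facts for compact `T` on a complex Banach space:
(i) `chain`: for `λ ≠ 0` there is `N` with `(T - λ)^(N+1) x = 0 → (T - λ)^N x = 0` for all `x`. (If not,
the closed subspaces `V_j = ker (T - λ)^j` increase strictly for ever; Riesz lemma
(`riesz_lemma_of_lt_one` inside `V_(j+1)`) gives `y_j ∈ V_(j+1)`, `‖y_j‖ = 1`, at distance `≥ 1/2` from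
`V_j`; for `i < j`, `T y_j - T y_i = λ y_j + w` with `w = (T - λ) y_j - T y_i ∈ V_j`, so
`‖T y_j - T y_i‖ ≥ ‖λ‖ / 2`: no convergent subsequence, against
`IsCompactOperator.image_closedBall_subset_compact`.)
(ii) for every `ε > 0` there are only finitely many eigenvalues `λ`, `‖λ‖ ≥ ε` (same argument with
spans of eigenvectors of distinct eigenvalues; a model proof is in file Cpt.lean:
`not_infChain_of_compact`).
(iii) every `λ ≠ 0` in `spectrum ℂ T` is an eigenvalue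
(`IsCompactOperator.hasEigenvalue_iff_mem_spectrum`, `hasEigenvalue_or_mem_resolventSet` in
Mathlib.Analysis.Normed.Operator.Compact.FredholmAlternative); the spectral radius is attained
(`spectrum.exists_nnnorm_eq_spectralRadius`).
Step: if `T` is compact with `ρ = gr T ≥ 1` (`> 0`): let `E` be the finite set of eigenvalues of modulus
`ρ`, `p = ∏_{λ ∈ E} (X - C λ)^(N λ)` (`N` from (i)). As in file P7d:
`‖μ‖ = ρ`, `p(T) (T - μ) x = 0` implies `p(T) x = 0`. Let `M = ker p(T)`, `Z = X ⧸ M`, `TZ` the induced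
operator. It is compact: `TZ` maps the open unit ball of `Z` into `π (T (ball))`, or
`TZ ∘ π = π ∘ T` is compact and `π` is open. `gr TZ ≤ gr T` (as in file P10), and if `gr TZ = ρ` then by
(iii) for `TZ` there is an eigenvalue `μ` of `TZ`, `‖μ‖ = ρ`: `π (T x - μ x) = 0`, `π x ≠ 0`, against
the property of `p`. So `gr TZ < ρ` and `splitting` (P9) gives `P` with `P * P = P`, commuting with the
commutant of `T`, `p(T) P = 0`, `gr (T (1 - P)) < ρ = gr T`.
Iteration: as in file P11 (`dec_of_notW`): states `(P, q)` for `T`; `T (1 - P)` is compact; the values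
`gr (T (1 - P)) ≥ 1` are moduli of eigenvalues of `T` (an eigenvalue `μ ≠ 0` of `T (1 - P)` is one of
`T`), they decrease strictly, and there are only finitely many (ii), so after finitely many steps
`gr (T (1 - P)) < 1`.
-/

namespace WNH
open Filter Topology Metric
universe u
variable {X : Type u} [NormedAddCommGroup X] [NormedSpace ℂ X]

/-- No strictly increasing sequence of closed invariant subspaces on which the compact operator acts
by scalars of modulus `≥ ε` on the successive quotients. -/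
private theorem K1_riesz (T : X →L[ℂ] X) (hT : IsCompactOperator T) (V : ℕ → Submodule ℂ X)
    (hcl : ∀ n, IsClosed (V n : Set X)) (hmono : Monotone V)
    (hstr : ∀ n, ∃ z ∈ V (n + 1), z ∉ V n) (μ : ℕ → ℂ) (ε : ℝ) (hε : 0 < ε)
    (hμ : ∀ n, ε ≤ ‖μ n‖) (hTV : ∀ n, ∀ y ∈ V n, T y ∈ V n)
    (hTV' : ∀ n, ∀ y ∈ V (n + 1), T y - μ n • y ∈ V n) : False := by
  have hR : ∀ n, ∃ y ∈ V (n + 1), ‖y‖ = 1 ∧ ∀ w ∈ V n, (1 / 2 : ℝ) ≤ ‖y - w‖ := by
    intro n
    let F : Submodule ℂ (V (n + 1)) := (V n).comap (V (n + 1)).subtype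
    have hFc : IsClosed (F : Set (V (n + 1))) := (hcl n).preimage continuous_subtype_val
    have hF : ∃ z : V (n + 1), z ∉ F := by
      obtain ⟨z, hz1, hz2⟩ := hstr n
      exact ⟨⟨z, hz1⟩, fun h => hz2 h⟩
    obtain ⟨z, -, hz1, hz2⟩ := riesz_lemma_of_lt_one (𝕜 := ℂ) hFc hF (r := 1 / 2) (by norm_num)
    refine ⟨z, z.2, hz1, fun w hw => ?_⟩
    exact hz2 ⟨w, hmono (Nat.le_succ n) hw⟩ hw
  choose y hyV hy1 hy2 using hR
  obtain ⟨K, hK, hKsub⟩ := hT.image_closedBall_subset_compact 1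
  have hyK : ∀ n, T (y n) ∈ K := fun n => hKsub ⟨y n, by simp [hy1 n], rfl⟩
  obtain ⟨a, -, φ, hφ, ha⟩ := hK.tendsto_subseq hyK
  have hcau := ha.cauchySeq
  rw [Metric.cauchySeq_iff] at hcau
  obtain ⟨N, hN⟩ := hcau (ε / 2) (by positivity)
  have h2 := hN (N + 1) (Nat.le_succ N) N le_rfl
  have hlt : φ N < φ (N + 1) := hφ (Nat.lt_succ_self N)
  set m := φ N with hm
  set n := φ (N + 1) with hn
  have hμ0 : μ n ≠ 0 := by
    intro h
    have := hμ n
    rw [h, norm_zero] at this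
    linarith
  have hw : (μ n)⁻¹ • (T (y m) - (T (y n) - μ n • y n)) ∈ V n := by
    refine (V n).smul_mem _ ((V n).sub_mem ?_ (hTV' n _ (hyV n)))
    exact hmono (Nat.succ_le_of_lt hlt) (hTV (m + 1) _ (hyV m))
  have h3 := hy2 n _ hw
  have h4 : T (y n) - T (y m) =
      μ n • (y n - (μ n)⁻¹ • (T (y m) - (T (y n) - μ n • y n))) := by
    rw [smul_sub, smul_inv_smul₀ hμ0]; abel
  have h5 : (ε / 2 : ℝ) ≤ ‖T (y n) - T (y m)‖ := by
    rw [h4, norm_smul]
    calc ε / 2 = ε * (1 / 2) := by ring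
      _ ≤ ‖μ n‖ * ‖y n - (μ n)⁻¹ • (T (y m) - (T (y n) - μ n • y n))‖ :=
        mul_le_mul (hμ n) h3 (by norm_num) (norm_nonneg _)
  rw [dist_eq_norm] at h2
  simp only [Function.comp] at h2
  linarith

private theorem K1_chain (T : X →L[ℂ] X) (hT : IsCompactOperator T) (μ : ℂ) (hμ : μ ≠ 0) :
    ∃ N : ℕ, ∀ x : X, ((T - μ • (1 : X →L[ℂ] X)) ^ (N + 1)) x = 0 →
      ((T - μ • (1 : X →L[ℂ] X)) ^ N) x = 0 := by
  by_contra hcon
  push Not at hcon
  obtain ⟨B, hB⟩ : ∃ B : X →L[ℂ] X, B = T - μ • (1 : X →L[ℂ] X) := ⟨_, rfl⟩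
  rw [← hB] at hcon
  let V : ℕ → Submodule ℂ X := fun n => (B ^ n : X →L[ℂ] X).ker
  have hVm : ∀ n (x : X), x ∈ V n ↔ (B ^ n) x = 0 := fun n x => LinearMap.mem_ker
  have hBx : ∀ x : X, B x = T x - μ • x := by intro x; rw [hB]; rfl
  have hstep : ∀ n (x : X), x ∈ V (n + 1) → B x ∈ V n := by
    intro n x hx
    rw [hVm] at hx ⊢
    rw [pow_succ, mul_apply_eq_comp] at hx
    exact hx
  have hmono : Monotone V := by
    apply monotone_nat_of_le_succ
    intro n x hx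
    rw [hVm] at hx ⊢
    rw [pow_succ', mul_apply_eq_comp, hx, map_zero]
  refine K1_riesz T hT V (fun n => (B ^ n : X →L[ℂ] X).isClosed_ker) hmono ?_ (fun _ => μ) ‖μ‖
    (norm_pos_iff.2 hμ) (fun _ => le_rfl) ?_ ?_
  · intro n
    obtain ⟨x, hx1, hx2⟩ := hcon n
    exact ⟨x, (hVm _ _).2 hx1, fun h => hx2 ((hVm _ _).1 h)⟩
  · intro n y hy
    have h1 : T y = B y + μ • y := by rw [hBx]; abel
    rw [h1]
    refine (V n).add_mem ?_ ((V n).smul_mem _ hy)
    exact hstep n y (hmono (Nat.le_succ n) hy)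
  · intro n y hy
    rw [← hBx]
    exact hstep n y hy

private theorem K1_fin (T : X →L[ℂ] X) (hT : IsCompactOperator T) (ε : ℝ) (hε : 0 < ε) :
    {μ : ℂ | ε ≤ ‖μ‖ ∧ ∃ x : X, x ≠ 0 ∧ T x = μ • x}.Finite := by
  by_contra hcon
  have hinf : {μ : ℂ | ε ≤ ‖μ‖ ∧ ∃ x : X, x ≠ 0 ∧ T x = μ • x}.Infinite := hcon
  obtain ⟨μ, hinj, hμ⟩ : ∃ μ : ℕ → ℂ, Function.Injective μ ∧
      ∀ n, ε ≤ ‖μ n‖ ∧ ∃ x : X, x ≠ 0 ∧ T x = μ n • x := by
    let e := hinf.natEmbedding
    exact ⟨fun n => (e n : ℂ), fun a b hab => e.injective (Subtype.ext hab), fun n => (e n).2⟩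
  choose hμε x hx0 hx using hμ
  have hli : LinearIndependent ℂ x := by
    refine Module.End.eigenvectors_linearIndependent' (T : X →ₗ[ℂ] X) μ hinj x ?_
    intro i
    exact ⟨by rw [Module.End.mem_eigenspace_iff]; exact hx i, hx0 i⟩
  let V : ℕ → Submodule ℂ X := fun n => Submodule.span ℂ (x '' Set.Iio n)
  have hfin : ∀ n, FiniteDimensional ℂ (V n) := fun n =>
    FiniteDimensional.span_of_finite ℂ ((Set.finite_Iio n).image x)
  have hmono : Monotone V := fun m n hmn =>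
    Submodule.span_mono (Set.image_mono (Set.Iio_subset_Iio hmn))
  have hnot : ∀ n, x n ∉ V n := by
    intro n hn
    have := hli.notMem_span_image (s := Set.Iio n) (x := n) (by simp)
    exact this hn
  have hxmem : ∀ n, x n ∈ V (n + 1) := fun n =>
    Submodule.subset_span ⟨n, by simp, rfl⟩
  have hTV : ∀ n, ∀ y ∈ V n, T y ∈ V n := by
    intro n y hy
    refine Submodule.span_induction ?_ ?_ ?_ ?_ hy
    · rintro _ ⟨i, hi, rfl⟩
      rw [hx]
      exact (V n).smul_mem _ (Submodule.subset_span ⟨i, hi, rfl⟩)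
    · simp
    · intro a b _ _ ha hb; rw [map_add]; exact (V n).add_mem ha hb
    · intro c a _ ha; rw [map_smul]; exact (V n).smul_mem _ ha
  have hTV' : ∀ n, ∀ y ∈ V (n + 1), T y - μ n • y ∈ V n := by
    intro n y hy
    refine Submodule.span_induction ?_ ?_ ?_ ?_ hy
    · rintro _ ⟨i, hi, rfl⟩
      rw [hx, ← sub_smul]
      rcases Nat.lt_succ_iff_lt_or_eq.mp hi with h | h
      · exact (V n).smul_mem _ (Submodule.subset_span ⟨i, h, rfl⟩)
      · subst h; simp
    · simp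
    · intro a b _ _ ha hb
      have : T (a + b) - μ n • (a + b) = (T a - μ n • a) + (T b - μ n • b) := by
        rw [map_add, smul_add]; abel
      rw [this]; exact (V n).add_mem ha hb
    · intro c a _ ha
      have : T (c • a) - μ n • (c • a) = c • (T a - μ n • a) := by
        rw [map_smul, smul_sub, smul_comm]
      rw [this]; exact (V n).smul_mem _ ha
  refine K1_riesz T hT V (fun n => ?_) hmono (fun n => ⟨x n, hxmem n, hnot n⟩) μ ε hε hμε hTV hTV'
  have := hfin n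
  exact (V n).closed_of_finiteDimensional

private theorem K1_eig [CompleteSpace X] (T : X →L[ℂ] X) (hT : IsCompactOperator T)
    (hgr : 0 < gr T) : ∃ μ : ℂ, ‖μ‖ = gr T ∧ ∃ x : X, x ≠ 0 ∧ T x = μ • x := by
  rcases subsingleton_or_nontrivial X with hX | hX
  · exfalso
    have : Subsingleton (X →L[ℂ] X) := ⟨fun f g => by ext x; exact Subsingleton.elim _ _⟩
    have h0 : gr T = 0 := by
      unfold gr
      rw [spectrum.SpectralRadius.of_subsingleton]
      rfl
    linarith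
  · obtain ⟨μ, hμ, hμ2⟩ := spectrum.exists_nnnorm_eq_spectralRadius T
    have h1 : ‖μ‖ = gr T := by
      unfold gr
      rw [← hμ2]
      rfl
    have hμ0 : μ ≠ 0 := by
      intro h
      rw [h, norm_zero] at h1
      linarith
    refine ⟨μ, h1, ?_⟩
    have h2 := (IsCompactOperator.hasEigenvalue_iff_mem_spectrum hT hμ0).2 hμ
    obtain ⟨x, hx⟩ := h2.exists_hasEigenvector
    exact ⟨x, hx.2, hx.apply_eq_smul⟩

private theorem K1_quot {Z : Type u} [NormedAddCommGroup Z] [NormedSpace ℂ Z] [CompleteSpace X]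
    [CompleteSpace Z] (T : X →L[ℂ] X) (hT : IsCompactOperator T) (SZ : Z →L[ℂ] Z) (π : X →L[ℂ] Z)
    (hsurj : Function.Surjective π) (h : ∀ x, π (T x) = SZ (π x)) : IsCompactOperator SZ := by
  have h1 : IsCompactOperator (π ∘ T) := hT.clm_comp π
  obtain ⟨K, hK, hK2⟩ := h1
  refine ⟨K, hK, ?_⟩
  have h2 : (π ∘ T) ⁻¹' K = π ⁻¹' (SZ ⁻¹' K) := by
    ext x
    simp only [Set.mem_preimage, Function.comp_apply, h]
  rw [h2] at hK2
  have h3 := (π.isOpenMap hsurj).image_mem_nhds hK2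
  rw [Set.image_preimage_eq _ hsurj, map_zero] at h3
  exact h3

private theorem K1_top_poly (S : X →L[ℂ] X) (hS : IsCompactOperator S) (hgr : 0 < gr S) :
    ∃ p : Polynomial ℂ, p ≠ 0 ∧ (∀ z : ℂ, p.IsRoot z → ‖z‖ = gr S) ∧
      ∀ (μ : ℂ) (x : X), ‖μ‖ = gr S → (Polynomial.aeval S p) (S x - μ • x) = 0 →
        (Polynomial.aeval S p) x = 0 := by
  classical
  have hfin : {μ : ℂ | ‖μ‖ = gr S ∧ ∃ x : X, x ≠ 0 ∧ S x = μ • x}.Finite := by
    refine (K1_fin S hS (gr S) hgr).subset ?_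
    rintro μ ⟨h1, h2⟩
    exact ⟨h1.ge, h2⟩
  have hch : ∀ μ : ℂ, ∃ N : ℕ, ‖μ‖ = gr S → ∀ x : X, ((S - μ • (1 : X →L[ℂ] X)) ^ (N + 1)) x = 0 →
      ((S - μ • (1 : X →L[ℂ] X)) ^ N) x = 0 := by
    intro μ
    by_cases hμ : ‖μ‖ = gr S
    · obtain ⟨N, hN⟩ := K1_chain S hS μ (by rw [← norm_pos_iff, hμ]; exact hgr)
      exact ⟨N, fun _ => hN⟩
    · exact ⟨0, fun h => absurd h hμ⟩
  choose N hN using hch
  set E : Finset ℂ := hfin.toFinset with hE
  have hEm : ∀ μ, μ ∈ E ↔ ‖μ‖ = gr S ∧ ∃ x : X, x ≠ 0 ∧ S x = μ • x := by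
    intro μ
    rw [hE, Set.Finite.mem_toFinset]
    rfl
  have hB : ∀ μ : ℂ, Polynomial.aeval S (Polynomial.X - Polynomial.C μ) = S - μ • (1 : X →L[ℂ] X) := by
    intro μ
    rw [map_sub, Polynomial.aeval_X, Polynomial.aeval_C, Algebra.algebraMap_eq_smul_one]
  have hBx : ∀ (μ : ℂ) (x : X), S x - μ • x = (S - μ • (1 : X →L[ℂ] X)) x := fun μ x => rfl
  refine ⟨∏ μ ∈ E, (Polynomial.X - Polynomial.C μ) ^ N μ, ?_, ?_, ?_⟩
  · rw [Finset.prod_ne_zero_iff]
    intro μ _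
    exact pow_ne_zero _ (Polynomial.X_sub_C_ne_zero μ)
  · intro z hz
    rw [Polynomial.IsRoot, Polynomial.eval_prod, Finset.prod_eq_zero_iff] at hz
    obtain ⟨μ, hμ, hz⟩ := hz
    rw [Polynomial.eval_pow, Polynomial.eval_sub, Polynomial.eval_X, Polynomial.eval_C] at hz
    have h0 : N μ ≠ 0 := by
      intro h2
      rw [h2, pow_zero] at hz
      exact absurd hz one_ne_zero
    have h1 : z - μ = 0 := (pow_eq_zero_iff h0).1 hz
    rw [sub_eq_zero.1 h1]
    exact ((hEm μ).1 hμ).1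
  · intro μ x hμ hx
    by_cases hμE : μ ∈ E
    · have hp : (∏ μ ∈ E, (Polynomial.X - Polynomial.C μ) ^ N μ : Polynomial ℂ) =
          (Polynomial.X - Polynomial.C μ) ^ N μ *
            ∏ ν ∈ E.erase μ, (Polynomial.X - Polynomial.C ν) ^ N ν :=
        (Finset.mul_prod_erase E _ hμE).symm
      rw [hp] at hx ⊢
      set p₁ : Polynomial ℂ := ∏ ν ∈ E.erase μ, (Polynomial.X - Polynomial.C ν) ^ N ν with hp₁
      rw [map_mul, map_pow, hB, mul_apply_eq_comp] at hx ⊢
      apply hN μ hμ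
      have h1 : (S - μ • (1 : X →L[ℂ] X)) ((Polynomial.aeval S p₁) x) =
          (Polynomial.aeval S p₁) (S x - μ • x) := by
        rw [hBx, ← hB, ← mul_apply_eq_comp, ← mul_apply_eq_comp, ← map_mul,
          ← map_mul, mul_comm]
      rw [pow_succ, mul_apply_eq_comp, h1]
      exact hx
    · set p : Polynomial ℂ := ∏ μ ∈ E, (Polynomial.X - Polynomial.C μ) ^ N μ with hp
      by_contra hne
      apply hμE
      rw [hEm]
      refine ⟨hμ, (Polynomial.aeval S p) x, hne, ?_⟩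
      have h1 : (S - μ • (1 : X →L[ℂ] X)) ((Polynomial.aeval S p) x) =
          (Polynomial.aeval S p) (S x - μ • x) := by
        rw [hBx, ← hB, ← mul_apply_eq_comp, ← mul_apply_eq_comp, ← map_mul,
          ← map_mul, mul_comm]
      rw [hx, ← hBx, sub_eq_zero] at h1
      exact h1

private theorem K1_peel [CompleteSpace X] (S : X →L[ℂ] X) (hS : IsCompactOperator S)
    (hgr : 0 < gr S) :
    ∃ (P : X →L[ℂ] X) (q : Polynomial ℂ), P * P = P ∧
      (∀ U : X →L[ℂ] X, U * S = S * U → U * P = P * U) ∧ q ≠ 0 ∧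
      Polynomial.aeval S q * P = 0 ∧ gr (S * (1 - P)) < gr S := by
  obtain ⟨p, hp0, hproot, hp⟩ := K1_top_poly S hS hgr
  set M : Submodule ℂ X := (Polynomial.aeval S p : X →L[ℂ] X).ker with hM
  have hMm : ∀ x : X, x ∈ M ↔ (Polynomial.aeval S p) x = 0 := fun x => LinearMap.mem_ker
  haveI hcl : IsClosed (M : Set X) := (Polynomial.aeval S p).isClosed_ker
  have hcomm : ∀ x : X, (Polynomial.aeval S p) (S x) = S ((Polynomial.aeval S p) x) := by
    intro x
    have h1 : Polynomial.aeval S (p * Polynomial.X) = Polynomial.aeval S (Polynomial.X * p) := by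
      rw [mul_comm]
    rw [map_mul, map_mul, Polynomial.aeval_X] at h1
    have h2 := congrArg (fun A : X →L[ℂ] X => A x) h1
    simpa [mul_apply_eq_comp] using h2
  have hker : M ≤ (M.mkQL.comp S).ker := by
    intro x hx
    rw [LinearMap.mem_ker]
    show M.mkQL (S x) = 0
    rw [Submodule.mkQL_apply, Submodule.mkQ_apply, Submodule.Quotient.mk_eq_zero, hMm, hcomm,
      (hMm x).1 hx, map_zero]
  set SZ : (X ⧸ M) →L[ℂ] (X ⧸ M) := M.liftQL (M.mkQL.comp S) hker with hSZ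
  have hSZm : ∀ x : X, SZ (M.mkQL x) = M.mkQL (S x) := by
    intro x
    rw [hSZ, Submodule.liftQL_apply, Submodule.mkQL_apply, Submodule.mkQ_apply, Submodule.liftQ_apply]
    rfl
  have hSZn : ∀ (n : ℕ) (x : X), (SZ ^ n) (M.mkQL x) = M.mkQL ((S ^ n) x) := by
    intro n
    induction n with
    | zero => intro x; rfl
    | succ n ih =>
      intro x
      rw [pow_succ, mul_apply_eq_comp, hSZm, ih, pow_succ, mul_apply_eq_comp]
  have hnorm : ∀ n : ℕ, ‖SZ ^ n‖ ≤ ‖S ^ n‖ := by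
    intro n
    refine ContinuousLinearMap.opNorm_le_bound _ (norm_nonneg _) fun z => ?_
    have h1 : ∀ δ : ℝ, 0 < δ → ‖(SZ ^ n) z‖ ≤ ‖S ^ n‖ * (‖z‖ + δ) := by
      intro δ hδ
      obtain ⟨x, hx1, hx2⟩ := Submodule.Quotient.norm_mk_lt z hδ
      have hx3 : M.mkQL x = z := by
        rw [Submodule.mkQL_apply, Submodule.mkQ_apply]
        exact hx1
      rw [← hx3, hSZn]
      calc ‖M.mkQL ((S ^ n) x)‖ ≤ ‖(S ^ n) x‖ := Submodule.Quotient.norm_mk_le M _
        _ ≤ ‖S ^ n‖ * ‖x‖ := (S ^ n).le_opNorm x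
        _ ≤ ‖S ^ n‖ * (‖M.mkQL x‖ + δ) := by
            apply mul_le_mul_of_nonneg_left _ (norm_nonneg _)
            rw [hx3]
            exact hx2.le
    have h2 : Tendsto (fun δ : ℝ => ‖S ^ n‖ * (‖z‖ + δ)) (𝓝[>] 0) (𝓝 (‖S ^ n‖ * (‖z‖ + 0))) :=
      (((continuous_const.add continuous_id).const_mul ‖S ^ n‖).tendsto 0).mono_left
        nhdsWithin_le_nhds
    rw [add_zero] at h2
    refine ge_of_tendsto h2 ?_
    filter_upwards [self_mem_nhdsWithin] with δ hδ
    exact h1 δ hδ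
  have hgle : gr SZ ≤ gr S := by
    refine le_of_forall_gt_imp_ge_of_dense fun R hR => ?_
    obtain ⟨C, -, hC⟩ := gr_bound S hR
    exact gr_le_of_bound SZ ((gr_nonneg S).trans hR.le) fun n => (hnorm n).trans (hC n)
  have hsurj : Function.Surjective M.mkQL := M.mkQ_surjective
  have hSZc : IsCompactOperator SZ := K1_quot S hS SZ M.mkQL hsurj fun x => (hSZm x).symm
  have hzero : ∀ x : X, M.mkQL x = 0 ↔ (Polynomial.aeval S p) x = 0 := by
    intro x
    rw [Submodule.mkQL_apply, Submodule.mkQ_apply, Submodule.Quotient.mk_eq_zero, hMm]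
  have hglt : gr SZ < gr S := by
    refine lt_of_le_of_ne hgle fun heq => ?_
    obtain ⟨μ, hμ, z, hz, hz2⟩ := K1_eig SZ hSZc (by rw [heq]; exact hgr)
    obtain ⟨x, rfl⟩ := hsurj z
    apply hz
    rw [hzero]
    apply hp μ x (by rw [hμ, heq])
    rw [← hzero, map_sub, map_smul, ← hSZm, hz2, sub_self]
  obtain ⟨P, h1, h2, h3, h4⟩ := splitting S p (gr S) hp0 hproot SZ M.mkQL hsurj hzero
    (fun x => (hSZm x).symm) hglt
  exact ⟨P, p, h1, h2, hp0, h3, h4⟩

open P11Aux in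
private theorem K1_step [CompleteSpace X] (T : X →L[ℂ] X) (hT : IsCompactOperator T) (s : State T)
    (hs : 1 ≤ gr (T * (1 - s.P))) :
    ∃ (s' : State T) (μ : ℂ), (∃ x : X, x ≠ 0 ∧ T x = μ • x) ∧ ‖μ‖ = gr (T * (1 - s.P)) ∧
      gr (T * (1 - s'.P)) < gr (T * (1 - s.P)) := by
  obtain ⟨P, q, hPP, hcomm, hq, hqP⟩ := s
  simp only at hs ⊢
  have hTP : T * P = P * T := hcomm T rfl
  obtain ⟨I, hI⟩ : ∃ I : X →L[ℂ] X, I = 1 - P := ⟨_, rfl⟩
  rw [← hI] at hs ⊢
  have hII : I * I = I := by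
    rw [hI, sub_mul, mul_sub, mul_sub, hPP, mul_one, one_mul, mul_one]; abel
  have hPI : P * I = 0 := by rw [hI, mul_sub, hPP, mul_one, sub_self]
  have hIP : I * P = 0 := by rw [hI, sub_mul, hPP, one_mul, sub_self]
  have hTI : T * I = I * T := by rw [hI, mul_sub, sub_mul, hTP, mul_one, one_mul]
  obtain ⟨T₁, hT₁⟩ : ∃ T₁ : X →L[ℂ] X, T₁ = T * I := ⟨_, rfl⟩
  rw [← hT₁] at hs ⊢
  have hT₁c : IsCompactOperator T₁ := by
    rw [hT₁]
    exact hT.comp_clm I
  obtain ⟨μ, hμn, x, hx, hT₁x⟩ := K1_eig T₁ hT₁c (by linarith)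
  have hμ0 : μ ≠ 0 := by
    intro h
    rw [h, norm_zero] at hμn
    linarith
  have hIx : I x = x := by
    have h1 : x = μ⁻¹ • T₁ x := by rw [hT₁x, smul_smul, inv_mul_cancel₀ hμ0, one_smul]
    have h2 : I (T₁ x) = T₁ x := by
      have h3 : I * T₁ = T₁ := by rw [hT₁, hTI, ← mul_assoc, hII]
      exact congrArg (fun S : X →L[ℂ] X => S x) h3
    rw [h1, map_smul, h2]
  have hTx : T x = μ • x := by
    rw [← hT₁x, hT₁]
    change T x = T (I x)
    rw [hIx]
  obtain ⟨P', q', hP'P', hcomm', hq', hqP', hgr'⟩ := K1_peel T₁ hT₁c (by linarith)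
  -- commutation facts
  have hPT₁ : P * T₁ = 0 := by rw [hT₁, ← mul_assoc, ← hTP, mul_assoc, hPI, mul_zero]
  have hT₁P : T₁ * P = 0 := by rw [hT₁, mul_assoc, hIP, mul_zero]
  have hPP'comm : P * P' = P' * P := by
    apply hcomm'
    rw [hPT₁, hT₁P]
  have hIP'comm : I * P' = P' * I := by
    rw [hI, sub_mul, mul_sub, hPP'comm, one_mul, mul_one]
  obtain ⟨P₂, hP₂⟩ : ∃ P₂ : X →L[ℂ] X, P₂ = P + P' * I := ⟨_, rfl⟩
  have h1P₂ : 1 - P₂ = I * (1 - P') := by
    rw [hP₂, mul_sub, mul_one, hIP'comm]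
    rw [← sub_sub, ← hI]
  have hP₂P₂ : P₂ * P₂ = P₂ := by
    have h1 : P * (P' * I) = 0 := by
      rw [← hIP'comm, ← mul_assoc, hPI, zero_mul]
    have h2 : P' * I * P = 0 := by rw [mul_assoc, hIP, mul_zero]
    have h3 : P' * I * (P' * I) = P' * I := by
      calc P' * I * (P' * I) = P' * (I * P') * I := by simp only [mul_assoc]
        _ = (P' * P') * (I * I) := by rw [hIP'comm]; simp only [mul_assoc]
        _ = P' * I := by rw [hP'P', hII]
    rw [hP₂, add_mul, mul_add, mul_add, hPP, h1, h2, h3, add_zero, zero_add]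
  have hP₂comm : ∀ U : X →L[ℂ] X, U * T = T * U → U * P₂ = P₂ * U := by
    intro U hU
    have h1 : U * P = P * U := hcomm U hU
    have h2 : U * I = I * U := by rw [hI, mul_sub, sub_mul, h1, mul_one, one_mul]
    have h3 : U * T₁ = T₁ * U := by
      rw [hT₁, ← mul_assoc, hU, mul_assoc, h2, mul_assoc]
    have h4 : U * P' = P' * U := hcomm' U h3
    rw [hP₂, mul_add, add_mul, h1, ← mul_assoc, h4, mul_assoc, h2, mul_assoc]
  have hrestr : Polynomial.aeval T₁ q' * I = Polynomial.aeval T q' * I := by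
    rw [hT₁]; exact aeval_restrict T I hII hTI q'
  have hq₂P₂ : Polynomial.aeval T (q * q') * P₂ = 0 := by
    rw [hP₂, mul_add]
    have h1 : Polynomial.aeval T (q * q') * P = 0 := by
      rw [mul_comm q q', map_mul, mul_assoc, hqP, mul_zero]
    have h2 : Polynomial.aeval T (q * q') * (P' * I) = 0 := by
      rw [map_mul, ← hIP'comm, ← mul_assoc, mul_assoc _ _ I, ← hrestr]
      rw [mul_assoc (Polynomial.aeval T q), mul_assoc (Polynomial.aeval T₁ q'), hIP'comm,
        ← mul_assoc (Polynomial.aeval T₁ q'), hqP', zero_mul, mul_zero]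
    rw [h1, h2, add_zero]
  refine ⟨⟨P₂, q * q', hP₂P₂, hP₂comm, mul_ne_zero hq hq', hq₂P₂⟩, μ, ⟨x, hx, hTx⟩, hμn, ?_⟩
  simp only
  have h1 : T * (1 - P₂) = T₁ * (1 - P') := by rw [h1P₂, ← mul_assoc, hT₁]
  rw [h1]
  exact hgr'

variable [CompleteSpace X]

open P11Aux in
theorem dec_of_compact (T : X →L[ℂ] X) (hT : IsCompactOperator T) : Dec T := by
  by_contra hDec
  have hge : ∀ s : State T, 1 ≤ gr (T * (1 - s.P)) := by
    intro s
    by_contra hlt
    push Not at hlt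
    exact hDec ⟨s.P, s.q, s.hPP, s.hcomm, s.hq, s.hqP, hlt⟩
  have hstep := fun s : State T => K1_step T hT s (hge s)
  choose nxt μ h1 h2 h3 using hstep
  let s₀ : State T := ⟨0, 1, by simp, by simp, one_ne_zero, by simp⟩
  let s : ℕ → State T := fun n => nxt^[n] s₀
  have hs : ∀ n, s (n + 1) = nxt (s n) := fun n => Function.iterate_succ_apply' nxt n s₀
  have hanti : StrictAnti fun j => ‖μ (s j)‖ := by
    apply strictAnti_nat_of_succ_lt
    intro j
    change ‖μ (s (j + 1))‖ < ‖μ (s j)‖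
    rw [h2, h2, hs]
    exact h3 (s j)
  have hinj : Function.Injective fun j => μ (s j) := by
    intro i j hij
    apply hanti.injective
    simp only at hij ⊢
    rw [hij]
  have hfin := K1_fin T hT 1 one_pos
  refine Set.infinite_range_of_injective hinj (hfin.subset ?_)
  rintro _ ⟨j, rfl⟩
  refine ⟨?_, h1 (s j)⟩
  rw [h2]
  exact hge (s j)

end WNH
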