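import Pool.Agent.WNH.Defs

/-!
Row [WN-A0]. Kronecker's theorem for two independent unimodular numbers (Fejér kernels).
-/

namespace WNH
open Filter Topology Metric

namespace A0Aux

/-- the basic kernel. -/
noncomputable def pk (α x : ℂ) : ℝ := ‖α + x‖ ^ 2 / 4

theorem pk_nonneg (α x : ℂ) : 0 ≤ pk α x := by unfold pk; positivity

theorem pk_eq (α x : ℂ) (hα : ‖α‖ = 1) (hx : ‖x‖ = 1) : pk α x = 1 - ‖x - α‖ ^ 2 / 4 := by
  unfold pk
  have h1 : ‖α‖ ^ 2 = 1 := by rw [hα]; norm_num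
  have h2 : ‖x‖ ^ 2 = 1 := by rw [hx]; norm_num
  rw [← Complex.normSq_eq_norm_sq, Complex.normSq_apply] at h1 h2
  rw [← Complex.normSq_eq_norm_sq, ← Complex.normSq_eq_norm_sq, Complex.normSq_apply,
    Complex.normSq_apply]
  simp only [Complex.add_re, Complex.add_im, Complex.sub_re, Complex.sub_im]
  linarith

theorem pk_le_one (α x : ℂ) (hα : ‖α‖ = 1) (hx : ‖x‖ = 1) : pk α x ≤ 1 := by
  rw [pk_eq α x hα hx]
  have : 0 ≤ ‖x - α‖ ^ 2 := by positivity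
  linarith

theorem pk_pow (α x : ℂ) (hα : ‖α‖ = 1) (hx : ‖x‖ = 1) (K : ℕ) :
    ((pk α x : ℝ) : ℂ) ^ K = ∑ j ∈ Finset.range (2 * K + 1),
      (((4 : ℂ) ^ K)⁻¹ * ((2 * K).choose j : ℂ)) *
        ((starRingEnd ℂ) α * x) ^ ((j : ℤ) - K) := by
  have hα0 : α ≠ 0 := by intro h; rw [h, norm_zero] at hα; exact zero_ne_one hα
  have hx0 : x ≠ 0 := by intro h; rw [h, norm_zero] at hx; exact zero_ne_one hx
  have hαc : (starRingEnd ℂ) α = α⁻¹ := by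
    rw [Complex.inv_def, Complex.normSq_eq_norm_sq, hα]; simp
  have hxc : (starRingEnd ℂ) x = x⁻¹ := by
    rw [Complex.inv_def, Complex.normSq_eq_norm_sq, hx]; simp
  obtain ⟨y, hy⟩ : ∃ y : ℂ, y = (starRingEnd ℂ) α * x := ⟨_, rfl⟩
  have hy0 : y ≠ 0 := by rw [hy, hαc]; exact mul_ne_zero (inv_ne_zero hα0) hx0
  have h1 : ((pk α x : ℝ) : ℂ) = (1 + y) ^ 2 / (4 * y) := by
    have h2 : (((‖α + x‖ ^ 2 : ℝ)) : ℂ) = (α + x) * (starRingEnd ℂ) (α + x) := by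
      rw [Complex.mul_conj, Complex.normSq_eq_norm_sq]
    unfold pk
    push_cast at h2 ⊢
    rw [h2, map_add, hαc, hxc, hy, hαc]
    field_simp
    ring
  rw [← hy, h1, div_pow, ← pow_mul, add_comm (1 : ℂ) y, add_pow, Finset.sum_div]
  apply Finset.sum_congr rfl
  intro j _
  rw [one_pow, mul_one, mul_pow, zpow_sub₀ hy0, zpow_natCast, zpow_natCast]
  have h3 : y ^ K ≠ 0 := pow_ne_zero _ hy0
  field_simp

theorem cesaro (z : ℂ) (hz : ‖z‖ = 1) : Tendsto (fun L : ℕ => (∑ n ∈ Finset.range L, z ^ n) / (L : ℂ))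
    atTop (𝓝 (if z = 1 then 1 else 0)) := by
  by_cases h : z = 1
  · rw [if_pos h, h]
    apply tendsto_const_nhds.congr'
    filter_upwards [eventually_ge_atTop 1] with L hL
    have : (L : ℂ) ≠ 0 := by
      have : L ≠ 0 := by omega
      exact_mod_cast this
    simp [this]
  · rw [if_neg h]
    have hz1 : 0 < ‖z - 1‖ := norm_pos_iff.mpr (sub_ne_zero.mpr h)
    have h1 : Tendsto (fun L : ℕ => (2 / ‖z - 1‖) * ((L : ℝ))⁻¹) atTop (𝓝 0) := by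
      have := (tendsto_inv_atTop_nhds_zero_nat (𝕜 := ℝ)).const_mul (2 / ‖z - 1‖)
      rwa [mul_zero] at this
    refine squeeze_zero_norm ?_ h1
    intro L
    rw [geom_sum_eq h, norm_div, norm_div, Complex.norm_natCast]
    have h2 : ‖z ^ L - 1‖ ≤ 2 := by
      calc ‖z ^ L - 1‖ ≤ ‖z ^ L‖ + ‖(1 : ℂ)‖ := norm_sub_le _ _
        _ = 2 := by rw [norm_pow, hz, one_pow, norm_one]; norm_num
    rw [div_eq_mul_inv]
    apply mul_le_mul_of_nonneg_right _ (by positivity)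
    exact div_le_div_of_nonneg_right h2 hz1.le

theorem mean_tendsto (ζ ω : ℂ) (hζ : ‖ζ‖ = 1) (hω : ‖ω‖ = 1)
    (h : ∀ k l : ℤ, ζ ^ k * ω ^ l = 1 → k = 0 ∧ l = 0) (α β : ℂ) (hα : ‖α‖ = 1) (hβ : ‖β‖ = 1)
    (K : ℕ) : Tendsto (fun L : ℕ => (∑ n ∈ Finset.range L,
      (((pk α (ζ ^ n) : ℝ) : ℂ) ^ K * ((pk β (ω ^ n) : ℝ) : ℂ) ^ K)) / (L : ℂ)) atTop
      (𝓝 ((((4 : ℂ) ^ K)⁻¹ * ((2 * K).choose K : ℂ)) ^ 2)) := by
  have hζn : ∀ n : ℕ, ‖ζ ^ n‖ = 1 := fun n => by rw [norm_pow, hζ, one_pow]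
  have hωn : ∀ n : ℕ, ‖ω ^ n‖ = 1 := fun n => by rw [norm_pow, hω, one_pow]
  obtain ⟨cf, hcf⟩ : ∃ cf : ℂ → ℕ → ℂ, ∀ α j, cf α j = (((4 : ℂ) ^ K)⁻¹ * ((2 * K).choose j : ℂ)) *
    ((starRingEnd ℂ) α) ^ ((j : ℤ) - K) := ⟨_, fun _ _ => rfl⟩
  have hexp : ∀ n : ℕ, ((pk α (ζ ^ n) : ℝ) : ℂ) ^ K * ((pk β (ω ^ n) : ℝ) : ℂ) ^ K
      = ∑ j ∈ Finset.range (2 * K + 1), ∑ l ∈ Finset.range (2 * K + 1),
        (cf α j * cf β l) * (ζ ^ ((j : ℤ) - K) * ω ^ ((l : ℤ) - K)) ^ n := by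
    intro n
    rw [pk_pow α _ hα (hζn n), pk_pow β _ hβ (hωn n), Finset.sum_mul_sum]
    apply Finset.sum_congr rfl
    intro j _
    apply Finset.sum_congr rfl
    intro l _
    rw [hcf, hcf, mul_zpow, mul_zpow, mul_pow, ← zpow_natCast ζ n, ← zpow_natCast ω n,
      ← zpow_mul, ← zpow_mul, ← zpow_natCast (ζ ^ ((j : ℤ) - K)) n,
      ← zpow_natCast (ω ^ ((l : ℤ) - K)) n, ← zpow_mul, ← zpow_mul, mul_comm (n : ℤ),
      mul_comm (n : ℤ)]
    ring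
  have hmean : ∀ L : ℕ, (∑ n ∈ Finset.range L,
      (((pk α (ζ ^ n) : ℝ) : ℂ) ^ K * ((pk β (ω ^ n) : ℝ) : ℂ) ^ K)) / (L : ℂ)
      = ∑ j ∈ Finset.range (2 * K + 1), ∑ l ∈ Finset.range (2 * K + 1),
        (cf α j * cf β l) * ((∑ n ∈ Finset.range L,
          (ζ ^ ((j : ℤ) - K) * ω ^ ((l : ℤ) - K)) ^ n) / (L : ℂ)) := by
    intro L
    rw [Finset.sum_congr rfl (fun n _ => hexp n), Finset.sum_comm, Finset.sum_div]
    apply Finset.sum_congr rfl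
    intro j _
    rw [Finset.sum_comm, Finset.sum_div]
    apply Finset.sum_congr rfl
    intro l _
    rw [← Finset.mul_sum, mul_div_assoc]
  simp only [hmean]
  have hlim : Tendsto (fun L : ℕ => ∑ j ∈ Finset.range (2 * K + 1),
      ∑ l ∈ Finset.range (2 * K + 1),
        (cf α j * cf β l) * ((∑ n ∈ Finset.range L,
          (ζ ^ ((j : ℤ) - K) * ω ^ ((l : ℤ) - K)) ^ n) / (L : ℂ))) atTop
      (𝓝 (∑ j ∈ Finset.range (2 * K + 1), ∑ l ∈ Finset.range (2 * K + 1),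
        (cf α j * cf β l) * (if ζ ^ ((j : ℤ) - K) * ω ^ ((l : ℤ) - K) = 1 then 1 else 0))) := by
    apply tendsto_finsetSum
    intro j _
    apply tendsto_finsetSum
    intro l _
    apply Tendsto.const_mul
    apply cesaro
    rw [norm_mul, norm_zpow, norm_zpow, hζ, hω, one_zpow, one_zpow, one_mul]
  convert hlim using 2
  rw [Finset.sum_eq_single K, Finset.sum_eq_single K]
  · rw [hcf, hcf]
    simp
    ring
  · intro l _ hl
    rw [if_neg, mul_zero]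
    intro h1
    have := (h _ _ h1).2
    apply hl
    omega
  · intro h1
    exact absurd (Finset.mem_range.mpr (by omega)) h1
  · intro j _ hj
    apply Finset.sum_eq_zero
    intro l _
    rw [if_neg, mul_zero]
    intro h1
    have := (h _ _ h1).1
    apply hj
    omega
  · intro h1
    exact absurd (Finset.mem_range.mpr (by omega)) h1

end A0Aux

open A0Aux

theorem kronecker2 (ζ ω : ℂ) (hζ : ‖ζ‖ = 1) (hω : ‖ω‖ = 1)
    (h : ∀ k l : ℤ, ζ ^ k * ω ^ l = 1 → k = 0 ∧ l = 0) (α β : ℂ) (hα : ‖α‖ = 1) (hβ : ‖β‖ = 1)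
    (ε : ℝ) (hε : 0 < ε) (N : ℕ) : ∃ n : ℕ, N ≤ n ∧ ‖ζ ^ n - α‖ < ε ∧ ‖ω ^ n - β‖ < ε := by
  by_contra hcon
  push Not at hcon
  have hζn : ∀ n : ℕ, ‖ζ ^ n‖ = 1 := fun n => by rw [norm_pow, hζ, one_pow]
  have hωn : ∀ n : ℕ, ‖ω ^ n‖ = 1 := fun n => by rw [norm_pow, hω, one_pow]
  obtain ⟨δ, hδ⟩ : ∃ δ : ℝ, δ = min ε 1 := ⟨_, rfl⟩
  have hδ0 : 0 < δ := by rw [hδ]; exact lt_min hε one_pos
  have hδ1 : δ ≤ 1 := by rw [hδ]; exact min_le_right _ _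
  have hδε : δ ≤ ε := by rw [hδ]; exact min_le_left _ _
  obtain ⟨θ, hθ⟩ : ∃ θ : ℝ, θ = 1 - δ ^ 2 / 4 := ⟨_, rfl⟩
  have hθ0 : 0 ≤ θ := by rw [hθ]; nlinarith
  have hθ1 : θ < 1 := by rw [hθ]; nlinarith
  have hF : ∀ K n : ℕ, (pk α (ζ ^ n)) ^ K * (pk β (ω ^ n)) ^ K ≤ if n < N then 1 else θ ^ K := by
    intro K n
    have ha0 := pk_nonneg α (ζ ^ n)
    have hb0 := pk_nonneg β (ω ^ n)
    have ha1 := pk_le_one α (ζ ^ n) hα (hζn n)
    have hb1 := pk_le_one β (ω ^ n) hβ (hωn n)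
    have haK : (pk α (ζ ^ n)) ^ K ≤ 1 := pow_le_one₀ ha0 ha1
    have hbK : (pk β (ω ^ n)) ^ K ≤ 1 := pow_le_one₀ hb0 hb1
    have haK0 : 0 ≤ (pk α (ζ ^ n)) ^ K := pow_nonneg ha0 K
    have hbK0 : 0 ≤ (pk β (ω ^ n)) ^ K := pow_nonneg hb0 K
    split_ifs with hn
    · exact mul_le_one₀ haK hbK0 hbK
    · push Not at hn
      by_cases h1 : ‖ζ ^ n - α‖ < ε
      · have h2 := hcon n hn h1
        have h3 : pk β (ω ^ n) ≤ θ := by
          rw [pk_eq β _ hβ (hωn n), hθ]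
          have : δ ≤ ‖ω ^ n - β‖ := hδε.trans h2
          nlinarith
        have h4 : (pk β (ω ^ n)) ^ K ≤ θ ^ K := pow_le_pow_left₀ hb0 h3 K
        calc (pk α (ζ ^ n)) ^ K * (pk β (ω ^ n)) ^ K ≤ 1 * θ ^ K :=
              mul_le_mul haK h4 hbK0 one_pos.le
          _ = θ ^ K := one_mul _
      · push Not at h1
        have h3 : pk α (ζ ^ n) ≤ θ := by
          rw [pk_eq α _ hα (hζn n), hθ]
          have : δ ≤ ‖ζ ^ n - α‖ := hδε.trans h1
          nlinarith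
        have h4 : (pk α (ζ ^ n)) ^ K ≤ θ ^ K := pow_le_pow_left₀ ha0 h3 K
        calc (pk α (ζ ^ n)) ^ K * (pk β (ω ^ n)) ^ K ≤ θ ^ K * 1 :=
              mul_le_mul h4 hbK hbK0 (pow_nonneg hθ0 K)
          _ = θ ^ K := mul_one _
  have hsum : ∀ K L : ℕ, ∑ n ∈ Finset.range L, (pk α (ζ ^ n)) ^ K * (pk β (ω ^ n)) ^ K
      ≤ N + L * θ ^ K := by
    intro K L
    calc ∑ n ∈ Finset.range L, (pk α (ζ ^ n)) ^ K * (pk β (ω ^ n)) ^ K
        ≤ ∑ n ∈ Finset.range L, ((if n < N then (1 : ℝ) else 0) + θ ^ K) := by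
          apply Finset.sum_le_sum
          intro n _
          refine (hF K n).trans ?_
          have : 0 ≤ θ ^ K := pow_nonneg hθ0 K
          split_ifs <;> linarith
      _ = (∑ n ∈ Finset.range L, (if n < N then (1 : ℝ) else 0)) + L * θ ^ K := by
          rw [Finset.sum_add_distrib, Finset.sum_const, Finset.card_range, nsmul_eq_mul]
      _ ≤ N + L * θ ^ K := by
          have h1 : ∑ n ∈ Finset.range L, (if n < N then (1 : ℝ) else 0)
              = (((Finset.range L).filter (fun n => n < N)).card : ℝ) := by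
            rw [← Finset.sum_filter, Finset.sum_const, nsmul_eq_mul, mul_one]
          have h2 : ((Finset.range L).filter (fun n => n < N)).card ≤ N := by
            calc ((Finset.range L).filter (fun n => n < N)).card ≤ (Finset.range N).card := by
                  apply Finset.card_le_card
                  intro n hn
                  rw [Finset.mem_filter] at hn
                  exact Finset.mem_range.mpr hn.2
              _ = N := Finset.card_range N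
          rw [h1]
          have h3 : (((Finset.range L).filter (fun n => n < N)).card : ℝ) ≤ N := by
            exact_mod_cast h2
          linarith
  have hkey : ∀ K : ℕ, ((4 : ℝ) ^ K)⁻¹ * ((2 * K).choose K : ℝ) * (((4 : ℝ) ^ K)⁻¹ *
      ((2 * K).choose K : ℝ)) ≤ θ ^ K := by
    intro K
    have h1 := (Complex.continuous_re.tendsto _).comp (mean_tendsto ζ ω hζ hω h α β hα hβ K)
    have h2 : ((((4 : ℂ) ^ K)⁻¹ * ((2 * K).choose K : ℂ)) ^ 2).re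
        = ((4 : ℝ) ^ K)⁻¹ * ((2 * K).choose K : ℝ) * (((4 : ℝ) ^ K)⁻¹ *
      ((2 * K).choose K : ℝ)) := by
      have h3 : (((4 : ℂ) ^ K)⁻¹ * ((2 * K).choose K : ℂ)) ^ 2
          = ((((4 : ℝ) ^ K)⁻¹ * ((2 * K).choose K : ℝ) * (((4 : ℝ) ^ K)⁻¹ *
      ((2 * K).choose K : ℝ)) : ℝ) : ℂ) := by
        push_cast
        ring
      rw [h3, Complex.ofReal_re]
    rw [h2] at h1
    have h4 : Tendsto (fun L : ℕ => (N : ℝ) * ((L : ℝ))⁻¹ + θ ^ K) atTop (𝓝 (θ ^ K)) := by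
      have := ((tendsto_inv_atTop_nhds_zero_nat (𝕜 := ℝ)).const_mul (N : ℝ)).add_const (θ ^ K)
      rwa [mul_zero, zero_add] at this
    refine le_of_tendsto_of_tendsto h1 h4 ?_
    filter_upwards [eventually_ge_atTop 1] with L hL
    have hL0 : (0 : ℝ) < L := by exact_mod_cast hL
    have h5 : ((∑ n ∈ Finset.range L,
      (((pk α (ζ ^ n) : ℝ) : ℂ) ^ K * ((pk β (ω ^ n) : ℝ) : ℂ) ^ K)) / (L : ℂ)).re
      = (∑ n ∈ Finset.range L, (pk α (ζ ^ n)) ^ K * (pk β (ω ^ n)) ^ K) / L := by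
      have h6 : (∑ n ∈ Finset.range L,
      (((pk α (ζ ^ n) : ℝ) : ℂ) ^ K * ((pk β (ω ^ n) : ℝ) : ℂ) ^ K)) / (L : ℂ)
        = (((∑ n ∈ Finset.range L, (pk α (ζ ^ n)) ^ K * (pk β (ω ^ n)) ^ K) / L : ℝ) : ℂ) := by
        push_cast
        rfl
      rw [h6, Complex.ofReal_re]
    change ((∑ n ∈ Finset.range L,
      (((pk α (ζ ^ n) : ℝ) : ℂ) ^ K * ((pk β (ω ^ n) : ℝ) : ℂ) ^ K)) / (L : ℂ)).re ≤ _
    rw [h5, div_le_iff₀ hL0]
    have h6 : ((N : ℝ) * (L : ℝ)⁻¹ + θ ^ K) * L = N + L * θ ^ K := by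
      field_simp
    rw [h6]
    exact hsum K L
  -- contradiction for large `K`
  have hlim : Tendsto (fun K : ℕ => 4 * ((K : ℝ) ^ 2 * θ ^ K)) atTop (𝓝 0) := by
    have h1 := tendsto_pow_const_mul_const_pow_of_abs_lt_one 2
      (show |θ| < 1 by rw [abs_of_nonneg hθ0]; exact hθ1)
    have := h1.const_mul 4
    rwa [mul_zero] at this
  obtain ⟨K, hK1, hK2⟩ := ((hlim.eventually_lt_const (show (0 : ℝ) < 1 by norm_num)).and
    (eventually_ge_atTop 1)).exists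
  have h1 := hkey K
  have h2 : (4 : ℝ) ^ K ≤ 2 * K * ((2 * K).choose K : ℝ) := by
    have := Nat.four_pow_le_two_mul_self_mul_centralBinom K (by omega)
    rw [Nat.centralBinom_eq_two_mul_choose] at this
    exact_mod_cast this
  have hK0 : (0 : ℝ) < K := by exact_mod_cast hK2
  have h4 : (0 : ℝ) < (4 : ℝ) ^ K := by positivity
  have h3 : (1 : ℝ) ≤ 2 * K * (((4 : ℝ) ^ K)⁻¹ * ((2 * K).choose K : ℝ)) := by
    have h5 : 2 * K * (((4 : ℝ) ^ K)⁻¹ * ((2 * K).choose K : ℝ))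
        = (2 * K * ((2 * K).choose K : ℝ)) / (4 : ℝ) ^ K := by
      field_simp
    rw [h5, le_div_iff₀ h4, one_mul]
    exact h2
  obtain ⟨c, hc⟩ : ∃ c : ℝ, c = ((4 : ℝ) ^ K)⁻¹ * ((2 * K).choose K : ℝ) := ⟨_, rfl⟩
  rw [← hc] at h1 h3
  have hc0 : 0 ≤ c := by rw [hc]; positivity
  have h5 : 1 ≤ 4 * ((K : ℝ) ^ 2 * θ ^ K) := by
    calc (1 : ℝ) ≤ (2 * K * c) * (2 * K * c) := by nlinarith
      _ = 4 * (K : ℝ) ^ 2 * (c * c) := by ring
      _ ≤ 4 * (K : ℝ) ^ 2 * θ ^ K := mul_le_mul_of_nonneg_left h1 (by positivity)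
      _ = _ := by ring
  linarith

end WNH
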