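import Pool.Agent.WNH.Defs

/-!
Row [WN-B0]. Baire category lemmas.
-/

namespace WNH
open Filter Topology Metric

theorem baire_avoid {Z : Type*} [TopologicalSpace Z] [BaireSpace Z] (F : ℕ → Z → ℂ)
    (hF : ∀ n, Continuous (F n)) (U : Set Z) (hU : IsOpen U) (hne : U.Nonempty)
    (h : ∀ z ∈ U, ¬ Dense (Set.range fun n => F n z)) :
    ∃ (v : ℂ) (δ : ℝ), 0 < δ ∧ ∃ O : Set Z, IsOpen O ∧ O.Nonempty ∧ O ⊆ U ∧
      ∀ z ∈ O, ∀ n, δ ≤ ‖F n z - v‖ := by
  let C : ℕ × ℕ → Set Z := fun ij => {z | ∀ n, (1 : ℝ) / (ij.2 + 1) ≤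
    ‖F n z - TopologicalSpace.denseSeq ℂ ij.1‖}
  have hC : ∀ ij, IsClosed (C ij) := by
    intro ij
    have h1 : C ij = ⋂ n, {z | (1 : ℝ) / (ij.2 + 1) ≤
        ‖F n z - TopologicalSpace.denseSeq ℂ ij.1‖} := by
      ext z; simp [C]
    rw [h1]
    refine isClosed_iInter fun n => isClosed_le continuous_const ?_
    have := hF n
    fun_prop
  have hcov : ∀ z ∈ U, ∃ ij, z ∈ C ij := by
    intro z hz
    have h1 := h z hz
    rw [Metric.dense_iff] at h1
    push Not at h1
    obtain ⟨x, r, hr, hx⟩ := h1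
    obtain ⟨j, hj⟩ := exists_nat_one_div_lt (show (0 : ℝ) < r / 2 by linarith)
    have hd := (TopologicalSpace.denseRange_denseSeq ℂ)
    obtain ⟨i, hi⟩ := hd.exists_dist_lt x (show (0 : ℝ) < r / 2 by linarith)
    refine ⟨(i, j), ?_⟩
    intro n
    by_contra hcon
    push Not at hcon
    have h2 : F n z ∈ ball x r ∩ Set.range fun n => F n z := by
      refine ⟨?_, ⟨n, rfl⟩⟩
      rw [mem_ball]
      have h3 : dist (F n z) (TopologicalSpace.denseSeq ℂ i) < r / 2 := by
        rw [dist_eq_norm]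
        exact lt_trans hcon hj
      have h4 : dist (TopologicalSpace.denseSeq ℂ i) x < r / 2 := by
        rw [dist_comm]; exact hi
      calc dist (F n z) x ≤ dist (F n z) (TopologicalSpace.denseSeq ℂ i)
            + dist (TopologicalSpace.denseSeq ℂ i) x := dist_triangle _ _ _
        _ < r := by linarith
    rw [hx] at h2
    exact h2
  by_contra hcon
  push Not at hcon
  have hint : ∀ ij, U ∩ interior (C ij) = ∅ := by
    intro ij
    by_contra hne'
    rw [← Ne, ← Set.nonempty_iff_ne_empty] at hne'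
    obtain ⟨z, hz, n, hn⟩ := hcon (TopologicalSpace.denseSeq ℂ ij.1) (1 / (ij.2 + 1))
      (by positivity) (U ∩ interior (C ij)) (hU.inter isOpen_interior) hne' Set.inter_subset_left
    have h1 := interior_subset hz.2 n
    exact absurd h1 (not_le.mpr hn)
  have hdense : Dense (⋂ ij, ((C ij)ᶜ ∪ (closure U)ᶜ)) := by
    apply dense_iInter_of_isOpen
    · intro ij
      exact (hC ij).isOpen_compl.union isClosed_closure.isOpen_compl
    · intro ij
      rw [dense_iff_inter_open]
      intro V hV hVne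
      by_contra hemp
      rw [Set.not_nonempty_iff_eq_empty] at hemp
      have h1 : V ⊆ C ij ∩ closure U := by
        intro z hz
        by_contra hzz
        have : z ∈ V ∩ ((C ij)ᶜ ∪ (closure U)ᶜ) := by
          refine ⟨hz, ?_⟩
          rw [← Set.compl_inter]
          exact hzz
        rw [hemp] at this
        exact this
      obtain ⟨z, hz⟩ := hVne
      have h2 : (V ∩ U).Nonempty :=
        (mem_closure_iff.mp (h1 hz).2) V hV hz
      obtain ⟨w, hwV, hwU⟩ := h2
      have h3 : w ∈ U ∩ interior (C ij) :=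
        ⟨hwU, mem_interior.mpr ⟨V, fun x hx => (h1 hx).1, hV, hwV⟩⟩
      rw [hint] at h3
      exact h3
  obtain ⟨z, hzU, hz⟩ := hdense.inter_open_nonempty U hU hne
  obtain ⟨ij, hij⟩ := hcov z hzU
  have h1 := Set.mem_iInter.mp hz ij
  rcases h1 with h1 | h1
  · exact h1 hij
  · exact h1 (subset_closure hzU)

theorem baire_dense {Z : Type*} [TopologicalSpace Z] [BaireSpace Z] [Nonempty Z] (F : ℕ → Z → ℂ)
    (hF : ∀ n, Continuous (F n))
    (h : ∀ U : Set Z, IsOpen U → U.Nonempty → ∀ (w : ℂ) (ε : ℝ), 0 < ε →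
      ∃ z ∈ U, ∃ n, ‖F n z - w‖ < ε) :
    ∃ z, Dense (Set.range fun n => F n z) := by
  by_contra hcon
  push Not at hcon
  obtain ⟨v, δ, hδ, O, hO, hOne, -, hOn⟩ := baire_avoid F hF Set.univ isOpen_univ
    Set.univ_nonempty (fun z _ => hcon z)
  obtain ⟨z, hz, n, hn⟩ := h O hO hOne v δ hδ
  exact absurd (hOn z hz n) (not_le.mpr hn)

end WNH
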