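import Pool.Agent.WNH.A0
import Pool.Agent.WNH.B0

/-!
Row [WN-A1]. Uses `kronecker2` (A0), `baire_dense` (B0).

Proof. Apply `baire_dense` with `Z` = the unit circle (`Metric.sphere (0:ℂ) 1` or `Circle`; compact,
hence Baire), `F n γ = A n * ω^n * (1 - γ ζ^n)`. Hypothesis to verify: given a nonempty open set of
`γ`'s, a target `w`, `ε > 0`; pick `γ₀` in the open set. WLOG `w ≠ 0` (replace `w` by a point within
`ε/2`, `ε` by `ε/2`). For `n` large (so `A n > 0` large) put `t = ‖w‖ / A n` (small) and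
`γ = exp (i t) ζ^(-n)`; then `1 - γ ζ^n = 1 - exp(it) = -i t + O(t²)` (`‖exp(it) - 1 - it‖ ≤ t²`), so
`F n γ = -i ‖w‖ ω^n + O(‖w‖²/A n)`. By `kronecker2` choose `n` arbitrarily large with
`ω^n` close to `i w/‖w‖` (so `-i ‖w‖ ω^n` is close to `w`) and `ζ^n` close to `1/γ₀` (so `ζ^(-n)` and
`γ` are close to `γ₀`, in the open set).
-/

namespace WNH
open Filter Topology Metric

theorem dense_two_terms (A : ℕ → ℝ) (hA : Tendsto A atTop atTop) (ζ ω : ℂ) (hζ : ‖ζ‖ = 1)
    (hω : ‖ω‖ = 1) (h : ∀ k l : ℤ, ζ ^ k * ω ^ l = 1 → k = 0 ∧ l = 0) :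
    ∃ γ : ℂ, ‖γ‖ = 1 ∧
      Dense (Set.range fun n : ℕ => (A n : ℂ) * ω ^ n * (1 - γ * ζ ^ n)) := by
  have key : ∃ z : Metric.sphere (0 : ℂ) 1, Dense (Set.range fun n : ℕ =>
      (A n : ℂ) * ω ^ n * (1 - (z : ℂ) * ζ ^ n)) := by
    have : Nonempty (Metric.sphere (0 : ℂ) 1) := ⟨⟨1, by simp⟩⟩
    refine baire_dense (fun (n : ℕ) (z : Metric.sphere (0 : ℂ) 1) =>
      (A n : ℂ) * ω ^ n * (1 - (z : ℂ) * ζ ^ n)) (fun n => by fun_prop) ?_
    intro U hU hne w ε hε
    obtain ⟨γ₀, hγ₀⟩ := hne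
    obtain ⟨r, hr, hrU⟩ := Metric.isOpen_iff.1 hU γ₀ hγ₀
    have hγn : ‖(γ₀ : ℂ)‖ = 1 := by simp
    have hγ0 : (γ₀ : ℂ) ≠ 0 := by
      intro h0
      rw [h0, norm_zero] at hγn
      exact zero_ne_one hγn
    -- a nonzero target
    obtain ⟨w', hw'0, hw'⟩ : ∃ w' : ℂ, w' ≠ 0 ∧ ‖w' - w‖ ≤ ε / 2 := by
      by_cases hw : w = 0
      · refine ⟨((ε / 2 : ℝ) : ℂ), ?_, ?_⟩
        · exact_mod_cast (half_pos hε).ne'
        · rw [hw, sub_zero, Complex.norm_real, Real.norm_of_nonneg (half_pos hε).le]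
      · refine ⟨w, hw, ?_⟩
        rw [sub_self, norm_zero]
        exact (half_pos hε).le
    set R : ℝ := ‖w'‖ with hR
    have hR0 : 0 < R := norm_pos_iff.2 hw'0
    have hRC : (R : ℂ) ≠ 0 := by exact_mod_cast hR0.ne'
    -- the times
    obtain ⟨N, hN⟩ := eventually_atTop.1 (hA.eventually_gt_atTop
      (max R (max (4 * R ^ 2 / ε) (4 * R / r))))
    set e : ℝ := min (r / 2) (ε / (4 * R)) with he
    have he0 : 0 < e := by positivity
    obtain ⟨n, hnN, hn1, hn2⟩ := kronecker2 ζ ω hζ hω h (γ₀ : ℂ)⁻¹ (Complex.I * w' / R)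
      (by rw [norm_inv, hγn, inv_one])
      (by rw [norm_div, norm_mul, Complex.norm_I, one_mul, Complex.norm_real,
            Real.norm_of_nonneg hR0.le, ← hR, div_self hR0.ne']) e he0 N
    have hAn := hN n hnN
    have hA1 : R < A n := lt_of_le_of_lt (le_max_left _ _) hAn
    have hA2 : 4 * R ^ 2 / ε < A n :=
      lt_of_le_of_lt ((le_max_left _ _).trans (le_max_right _ _)) hAn
    have hA3 : 4 * R / r < A n :=
      lt_of_le_of_lt ((le_max_right _ _).trans (le_max_right _ _)) hAn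
    have hA0 : 0 < A n := hR0.trans hA1
    have hAC : (A n : ℂ) ≠ 0 := by exact_mod_cast hA0.ne'
    set t : ℝ := R / A n with ht
    have ht0 : 0 < t := by positivity
    have ht1 : t ≤ 1 := by rw [ht, div_le_one hA0]; exact hA1.le
    have hti : ‖((t : ℂ) * Complex.I)‖ = t := by
      rw [norm_mul, Complex.norm_I, mul_one, Complex.norm_real, Real.norm_of_nonneg ht0.le]
    have hζn : ζ ^ n ≠ 0 := by
      apply pow_ne_zero
      intro h0
      rw [h0, norm_zero] at hζ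
      exact zero_ne_one hζ
    have hζn1 : ‖ζ ^ n‖ = 1 := by rw [norm_pow, hζ, one_pow]
    have hωn1 : ‖ω ^ n‖ = 1 := by rw [norm_pow, hω, one_pow]
    set γ : ℂ := Complex.exp ((t : ℂ) * Complex.I) * (ζ ^ n)⁻¹ with hγ
    have hγnorm : ‖γ‖ = 1 := by
      rw [hγ, norm_mul, Complex.norm_exp_ofReal_mul_I, norm_inv, hζn1, inv_one, mul_one]
    have hγmem : γ ∈ Metric.sphere (0 : ℂ) 1 := by simpa using hγnorm
    refine ⟨⟨γ, hγmem⟩, hrU ?_, n, ?_⟩
    · rw [Metric.mem_ball]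
      show dist γ (γ₀ : ℂ) < r
      rw [dist_eq_norm]
      have h1 : γ - γ₀ = (Complex.exp ((t : ℂ) * Complex.I) - 1) * (ζ ^ n)⁻¹ +
          γ₀ * (ζ ^ n)⁻¹ * ((γ₀ : ℂ)⁻¹ - ζ ^ n) := by
        rw [hγ]
        field_simp
        ring
      rw [h1]
      have h2 : ‖(Complex.exp ((t : ℂ) * Complex.I) - 1) * (ζ ^ n)⁻¹‖ ≤ 2 * t := by
        rw [norm_mul, norm_inv, hζn1, inv_one, mul_one]
        have := Complex.norm_exp_sub_one_le (x := (t : ℂ) * Complex.I) (by rw [hti]; exact ht1)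
        rwa [hti] at this
      have h3 : ‖(γ₀ : ℂ) * (ζ ^ n)⁻¹ * ((γ₀ : ℂ)⁻¹ - ζ ^ n)‖ < r / 2 := by
        rw [norm_mul, norm_mul, hγn, norm_inv, hζn1, inv_one, one_mul, one_mul, norm_sub_rev]
        exact hn1.trans_le (min_le_left _ _)
      have h4 : 2 * t < r / 2 := by
        rw [ht]
        rw [div_lt_iff₀ hr] at hA3
        rw [mul_div_assoc', div_lt_iff₀ hA0]
        nlinarith
      calc _ ≤ ‖(Complex.exp ((t : ℂ) * Complex.I) - 1) * (ζ ^ n)⁻¹‖ +
            ‖(γ₀ : ℂ) * (ζ ^ n)⁻¹ * ((γ₀ : ℂ)⁻¹ - ζ ^ n)‖ := norm_add_le _ _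
        _ < r := by linarith
    · show ‖(A n : ℂ) * ω ^ n * (1 - γ * ζ ^ n) - w‖ < ε
      have h1 : γ * ζ ^ n = Complex.exp ((t : ℂ) * Complex.I) := by
        rw [hγ, mul_assoc, inv_mul_cancel₀ hζn, mul_one]
      rw [h1]
      have h2 : (A n : ℂ) * t = R := by
        rw [ht]
        push_cast
        field_simp
      have h3 : (A n : ℂ) * ω ^ n * (1 - Complex.exp ((t : ℂ) * Complex.I)) - w =
          -((A n : ℂ) * ω ^ n * (Complex.exp ((t : ℂ) * Complex.I) - 1 - (t : ℂ) * Complex.I)) +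
          (-Complex.I * R * (ω ^ n - Complex.I * w' / R)) + (w' - w) := by
        have h4 : -Complex.I * R * (ω ^ n - Complex.I * w' / R) =
            -Complex.I * R * ω ^ n - w' := by
          field_simp
          linear_combination w' * Complex.I_sq
        rw [h4, ← h2]
        ring
      rw [h3]
      have e1 : ‖-((A n : ℂ) * ω ^ n * (Complex.exp ((t : ℂ) * Complex.I) - 1 - (t : ℂ) * Complex.I))‖ <
          ε / 4 := by
        rw [norm_neg, norm_mul, norm_mul, hωn1, mul_one, Complex.norm_real, Real.norm_of_nonneg hA0.le]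
        have h5 := Complex.norm_exp_sub_one_sub_id_le (x := (t : ℂ) * Complex.I) (by rw [hti]; exact ht1)
        rw [hti] at h5
        calc A n * ‖Complex.exp ((t : ℂ) * Complex.I) - 1 - (t : ℂ) * Complex.I‖ ≤ A n * t ^ 2 :=
              mul_le_mul_of_nonneg_left h5 hA0.le
          _ = R ^ 2 / A n := by
              rw [ht]
              field_simp
          _ < ε / 4 := by
              rw [div_lt_iff₀ hε] at hA2
              rw [div_lt_iff₀ hA0]
              nlinarith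
      have e2 : ‖-Complex.I * R * (ω ^ n - Complex.I * w' / R)‖ < ε / 4 := by
        rw [norm_mul, norm_mul, norm_neg, Complex.norm_I, one_mul, Complex.norm_real,
          Real.norm_of_nonneg hR0.le]
        calc R * ‖ω ^ n - Complex.I * w' / R‖ < R * (ε / (4 * R)) :=
              mul_lt_mul_of_pos_left (hn2.trans_le (min_le_right _ _)) hR0
          _ = ε / 4 := by field_simp
      calc _ ≤ ‖-((A n : ℂ) * ω ^ n * (Complex.exp ((t : ℂ) * Complex.I) - 1 - (t : ℂ) * Complex.I))‖ +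
            ‖-Complex.I * R * (ω ^ n - Complex.I * w' / R)‖ + ‖w' - w‖ := norm_add₃_le
        _ < ε := by linarith
  obtain ⟨z, hz⟩ := key
  exact ⟨z, by simp, hz⟩

end WNH
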