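import Pool.Agent.WNH.A0
import Pool.Agent.WNH.B0

/-!
Row [WN-A2]. Uses `kronecker2` (A0), `baire_dense` (B0).

Proof. Apply `baire_dense` with `Z = (unit circle) × ℂ` (locally compact Hausdorff / complete metric,
hence Baire), `F n (γ, κ) = A n λ^n (1 - γ ζ^n) + κ B n ν^n`. Given a nonempty open set containing
`(γ₀, κ₀)`, WLOG `κ₀ ≠ 0` (perturb), target `w` and `ε > 0`. For `n` large (`A n, B n > 0`) put
`t = ‖κ₀‖ B n / A n` (`→ 0`), `γ = exp(it) ζ^(-n)` and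
`κ = (w - A n λ^n (1 - exp(it))) / (B n ν^n)`: then `F n (γ, κ) = w` exactly. Here
`A n (1 - exp(it)) / B n = -i t A n / B n + O(t² A n/B n) = -i ‖κ₀‖ + O(t ‖κ₀‖)`, so
`κ = i ‖κ₀‖ (λ/ν)^n + o(1)` (`w / B n → 0`). By `kronecker2` for `ζ` and `ω = ν/λ` choose `n`
arbitrarily large with `ζ^n` close to `1/γ₀` and `(ν/λ)^n` close to `i ‖κ₀‖/κ₀`, so that
`κ` is close to `κ₀` and `γ` close to `γ₀`.
-/

namespace WNH
open Filter Topology Metric

/-- the core: in every ball there is a point where the value is exactly `w` -/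
private theorem A2_core (A B : ℕ → ℝ) (hA : Tendsto A atTop atTop)
    (hB : Tendsto B atTop atTop) (hAB : Tendsto (fun n => B n / A n) atTop (𝓝 0))
    (ζ lam nu : ℂ) (hζ : ‖ζ‖ = 1) (hlam : ‖lam‖ = 1) (hnu : ‖nu‖ = 1)
    (h : ∀ k l : ℤ, ζ ^ k * (nu / lam) ^ l = 1 → k = 0 ∧ l = 0)
    (γ₀ κ₀ w : ℂ) (hγ₀ : ‖γ₀‖ = 1) (hκ₀ : κ₀ ≠ 0) (δ : ℝ) (hδ : 0 < δ) :
    ∃ (γ κ : ℂ) (n : ℕ), ‖γ‖ = 1 ∧ ‖γ - γ₀‖ < δ ∧ ‖κ - κ₀‖ < δ ∧
      (A n : ℂ) * lam ^ n * (1 - γ * ζ ^ n) + κ * (B n : ℂ) * nu ^ n = w := by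
  set R : ℝ := ‖κ₀‖ with hR
  have hR0 : 0 < R := norm_pos_iff.2 hκ₀
  have hζ0 : ζ ≠ 0 := by
    intro h0
    rw [h0, norm_zero] at hζ
    exact zero_ne_one hζ
  have hlam0 : lam ≠ 0 := by
    intro h0
    rw [h0, norm_zero] at hlam
    exact zero_ne_one hlam
  have hnu0 : nu ≠ 0 := by
    intro h0
    rw [h0, norm_zero] at hnu
    exact zero_ne_one hnu
  have hγ00 : γ₀ ≠ 0 := by
    intro h0
    rw [h0, norm_zero] at hγ₀
    exact zero_ne_one hγ₀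
  -- the small parameter
  have ht : Tendsto (fun n => R * (B n / A n)) atTop (𝓝 0) := by
    have := hAB.const_mul R
    rwa [mul_zero] at this
  have hwB : Tendsto (fun n => ‖w‖ / B n + R * (R * (B n / A n))) atTop (𝓝 0) := by
    have h1 := (hB.const_div_atTop ‖w‖).add (ht.const_mul R)
    rwa [mul_zero, add_zero] at h1
  have hev : ∀ᶠ n in atTop, 0 < A n ∧ 0 < B n ∧ R * (B n / A n) < δ / 2 ∧ R * (B n / A n) < 1 ∧
      ‖w‖ / B n + R * (R * (B n / A n)) < δ / 2 := by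
    filter_upwards [hA.eventually_gt_atTop 0, hB.eventually_gt_atTop 0,
      ht.eventually (gt_mem_nhds (half_pos hδ)), ht.eventually (gt_mem_nhds one_pos),
      hwB.eventually (gt_mem_nhds (half_pos hδ))] with n h1 h2 h3 h4 h5
    exact ⟨h1, h2, h3, h4, h5⟩
  obtain ⟨N, hN⟩ := eventually_atTop.1 hev
  have hω : ‖nu / lam‖ = 1 := by rw [norm_div, hnu, hlam, div_one]
  have hα : ‖γ₀⁻¹‖ = 1 := by rw [norm_inv, hγ₀, inv_one]
  have hβ : ‖Complex.I * (R : ℂ) / κ₀‖ = 1 := by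
    rw [norm_div, norm_mul, Complex.norm_I, one_mul, Complex.norm_real, Real.norm_eq_abs,
      abs_of_pos hR0, ← hR, div_self hR0.ne']
  obtain ⟨n, hnN, h1, h2⟩ := kronecker2 ζ (nu / lam) hζ hω h γ₀⁻¹ (Complex.I * (R : ℂ) / κ₀) hα hβ
    (δ / (2 * (1 + R))) (by positivity) N
  obtain ⟨hAn, hBn, ht1, ht2, ht3⟩ := hN n hnN
  set t : ℝ := R * (B n / A n) with htd
  have ht0 : 0 < t := by positivity
  set E : ℂ := Complex.exp (Complex.I * (t : ℂ)) with hE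
  have hEn : ‖E‖ = 1 := by
    rw [hE, mul_comm]
    exact Complex.norm_exp_ofReal_mul_I t
  have hAn' : (A n : ℂ) ≠ 0 := by exact_mod_cast hAn.ne'
  have hBn' : (B n : ℂ) ≠ 0 := by exact_mod_cast hBn.ne'
  have hζn : ζ ^ n ≠ 0 := pow_ne_zero _ hζ0
  have hlamn : lam ^ n ≠ 0 := pow_ne_zero _ hlam0
  have hnun : nu ^ n ≠ 0 := pow_ne_zero _ hnu0
  have hζnn : ‖ζ ^ n‖ = 1 := by rw [norm_pow, hζ, one_pow]
  have hlamnn : ‖lam ^ n‖ = 1 := by rw [norm_pow, hlam, one_pow]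
  have hnunn : ‖nu ^ n‖ = 1 := by rw [norm_pow, hnu, one_pow]
  have heps : δ / (2 * (1 + R)) ≤ δ / 2 := by
    apply div_le_div_of_nonneg_left hδ.le (by norm_num)
    linarith
  refine ⟨E / ζ ^ n, (w - (A n : ℂ) * lam ^ n * (1 - E)) / ((B n : ℂ) * nu ^ n), n, ?_, ?_, ?_, ?_⟩
  · rw [norm_div, hEn, hζnn, div_one]
  · -- `γ` is close to `γ₀`
    have e1 : E / ζ ^ n - γ₀ = (E - 1) / ζ ^ n + (1 / ζ ^ n - γ₀) := by
      field_simp
      ring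
    have e2 : ‖(1 : ℂ) / ζ ^ n - γ₀‖ = ‖ζ ^ n - γ₀⁻¹‖ := by
      have : (1 : ℂ) / ζ ^ n - γ₀ = -(γ₀ / ζ ^ n) * (ζ ^ n - γ₀⁻¹) := by
        field_simp
        ring
      rw [this, norm_mul, norm_neg, norm_div, hγ₀, hζnn, div_one, one_mul]
    have e3 : ‖(E - 1) / ζ ^ n‖ ≤ t := by
      rw [norm_div, hζnn, div_one, hE]
      refine Real.norm_exp_I_mul_ofReal_sub_one_le.trans ?_
      rw [Real.norm_eq_abs, abs_of_pos ht0]
    rw [e1]
    calc ‖(E - 1) / ζ ^ n + (1 / ζ ^ n - γ₀)‖ ≤ ‖(E - 1) / ζ ^ n‖ + ‖1 / ζ ^ n - γ₀‖ := norm_add_le _ _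
      _ < δ / 2 + δ / 2 := by
        rw [e2]
        linarith
      _ = δ := by ring
  · -- `κ` is close to `κ₀`
    set Q : ℂ := (A n : ℂ) / (B n : ℂ) * (1 - E) + Complex.I * (R : ℂ) with hQ
    have hQn : ‖Q‖ ≤ R * t := by
      have h3 : ‖Complex.I * (t : ℂ)‖ = t := by
        rw [norm_mul, Complex.norm_I, one_mul, Complex.norm_real, Real.norm_eq_abs, abs_of_pos ht0]
      have h4 := Complex.norm_exp_sub_one_sub_id_le (x := Complex.I * (t : ℂ)) (by rw [h3]; exact ht2.le)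
      rw [h3, ← hE] at h4
      have h5 : Q = -((A n : ℂ) / (B n : ℂ)) * (E - 1 - Complex.I * (t : ℂ)) := by
        have h6 : (t : ℂ) = (R : ℂ) * ((B n : ℂ) / (A n : ℂ)) := by
          rw [htd]
          push_cast
          ring
        rw [hQ, h6]
        field_simp
        ring
      rw [h5, norm_mul, norm_neg, norm_div, Complex.norm_real, Complex.norm_real, Real.norm_eq_abs,
        Real.norm_eq_abs, abs_of_pos hAn, abs_of_pos hBn]
      calc A n / B n * ‖E - 1 - Complex.I * (t : ℂ)‖ ≤ A n / B n * t ^ 2 :=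
            mul_le_mul_of_nonneg_left h4 (by positivity)
        _ = R * t := by
            rw [htd]
            field_simp
    have e1 : (w - (A n : ℂ) * lam ^ n * (1 - E)) / ((B n : ℂ) * nu ^ n) - κ₀ =
        w / ((B n : ℂ) * nu ^ n) - Q * (lam ^ n / nu ^ n) +
          κ₀ * (lam ^ n / nu ^ n) * (Complex.I * (R : ℂ) / κ₀ - (nu / lam) ^ n) := by
      rw [hQ, div_pow]
      field_simp
      ring
    have hr : ‖lam ^ n / nu ^ n‖ = 1 := by rw [norm_div, hlamnn, hnunn, div_one]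
    have e2 : ‖w / ((B n : ℂ) * nu ^ n)‖ = ‖w‖ / B n := by
      rw [norm_div, norm_mul, hnunn, mul_one, Complex.norm_real, Real.norm_eq_abs, abs_of_pos hBn]
    have e3 : ‖Complex.I * (R : ℂ) / κ₀ - (nu / lam) ^ n‖ < δ / (2 * (1 + R)) := by
      rw [norm_sub_rev]
      exact h2
    have e4 : R * (δ / (2 * (1 + R))) ≤ δ / 2 := by
      rw [mul_div_assoc', div_le_div_iff₀ (by positivity) (by norm_num)]
      nlinarith
    have e5 : R * ‖Complex.I * (R : ℂ) / κ₀ - (nu / lam) ^ n‖ < δ / 2 :=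
      lt_of_lt_of_le (mul_lt_mul_of_pos_left e3 hR0) e4
    rw [e1]
    calc ‖w / ((B n : ℂ) * nu ^ n) - Q * (lam ^ n / nu ^ n) +
          κ₀ * (lam ^ n / nu ^ n) * (Complex.I * (R : ℂ) / κ₀ - (nu / lam) ^ n)‖
        ≤ ‖w / ((B n : ℂ) * nu ^ n)‖ + ‖Q * (lam ^ n / nu ^ n)‖ +
          ‖κ₀ * (lam ^ n / nu ^ n) * (Complex.I * (R : ℂ) / κ₀ - (nu / lam) ^ n)‖ :=
          (norm_add_le _ _).trans (add_le_add (norm_sub_le _ _) le_rfl)
      _ = ‖w‖ / B n + ‖Q‖ + R * ‖Complex.I * (R : ℂ) / κ₀ - (nu / lam) ^ n‖ := by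
          rw [e2, norm_mul, norm_mul, norm_mul, hr, mul_one, mul_one, ← hR]
      _ < δ / 2 + δ / 2 := by linarith
      _ = δ := by ring
  · field_simp
    ring

theorem dense_three_terms (A B : ℕ → ℝ) (hA : Tendsto A atTop atTop)
    (hB : Tendsto B atTop atTop) (hAB : Tendsto (fun n => B n / A n) atTop (𝓝 0))
    (ζ lam nu : ℂ) (hζ : ‖ζ‖ = 1) (hlam : ‖lam‖ = 1) (hnu : ‖nu‖ = 1)
    (h : ∀ k l : ℤ, ζ ^ k * (nu / lam) ^ l = 1 → k = 0 ∧ l = 0) :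
    ∃ γ κ : ℂ, ‖γ‖ = 1 ∧
      Dense (Set.range fun n : ℕ =>
        (A n : ℂ) * lam ^ n * (1 - γ * ζ ^ n) + κ * (B n : ℂ) * nu ^ n) := by
  have hne : Nonempty (Metric.sphere (0 : ℂ) 1) := ⟨⟨1, by simp⟩⟩
  obtain ⟨z, hz⟩ := baire_dense (Z := Metric.sphere (0 : ℂ) 1 × ℂ)
    (fun n z => (A n : ℂ) * lam ^ n * (1 - (z.1 : ℂ) * ζ ^ n) + z.2 * (B n : ℂ) * nu ^ n)
    (fun n => by fun_prop) (by
      rintro U hU ⟨⟨γ₀, κ₁⟩, hp⟩ w ε hε
      -- make `κ₀` nonzero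
      have hV : IsOpen {κ : ℂ | (γ₀, κ) ∈ U} := hU.preimage (Continuous.prodMk_right γ₀)
      obtain ⟨κ₀, hκ₀U, hκ₀⟩ := (dense_compl_singleton (0 : ℂ)).inter_open_nonempty _ hV ⟨κ₁, hp⟩
      obtain ⟨δ, hδ, hball⟩ := Metric.isOpen_iff.1 hU (γ₀, κ₀) hκ₀U
      have hγ₀ : ‖(γ₀ : ℂ)‖ = 1 := by
        have := γ₀.2
        rwa [mem_sphere_zero_iff_norm] at this
      obtain ⟨γ, κ, n, h1, h2, h3, h4⟩ := A2_core A B hA hB hAB ζ lam nu hζ hlam hnu h γ₀ κ₀ w hγ₀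
        hκ₀ δ hδ
      refine ⟨(⟨γ, by rw [mem_sphere_zero_iff_norm]; exact h1⟩, κ), hball ?_, n, ?_⟩
      · rw [Metric.mem_ball, Prod.dist_eq]
        refine max_lt ?_ ?_
        · rw [Subtype.dist_eq, dist_eq_norm]
          exact h2
        · rw [dist_eq_norm]
          exact h3
      · dsimp only
        rw [h4, sub_self, norm_zero]
        exact hε)
  refine ⟨z.1, z.2, ?_, hz⟩
  have := z.1.2
  rwa [mem_sphere_zero_iff_norm] at this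

end WNH
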