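import Pool.Agent.WNH.Defs

/-!
Row [WN-A3]. Realisation of a finite exponential polynomial as a numerical orbit.
-/

namespace WNH
open Filter Topology Metric
universe u
variable {X : Type u} [NormedAddCommGroup X] [NormedSpace ℂ X]

/-- Inner independence: a Jordan chain is linearly independent. -/
theorem A3_inner (N : X →L[ℂ] X) (w : X) (d : ℕ) (h0 : (N ^ (d + 1)) w = 0)
    (h1 : (N ^ d) w ≠ 0) (a : ℕ → ℂ)
    (hs : ∑ j ∈ Finset.range (d + 1), a j • (N ^ j) w = 0) : ∀ j ≤ d, a j = 0 := by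
  intro j
  induction j using Nat.strong_induction_on with
  | _ j ih =>
    intro hj
    have hbig : ∀ m, d + 1 ≤ m → (N ^ m) w = 0 := by
      intro m hm
      obtain ⟨k, rfl⟩ := Nat.exists_eq_add_of_le hm
      rw [add_comm (d + 1) k, pow_add]
      simp only [mul_apply_eq_comp, h0, map_zero]
    have h2 : (N ^ (d - j)) (∑ i ∈ Finset.range (d + 1), a i • (N ^ i) w) = a j • (N ^ d) w := by
      rw [map_sum, Finset.sum_eq_single j]
      · rw [map_smul, ← mul_apply_eq_comp, ← pow_add, Nat.sub_add_cancel hj]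
      · intro i hi hij
        rw [map_smul, ← mul_apply_eq_comp, ← pow_add]
        rcases lt_or_gt_of_ne hij with h | h
        · rw [ih i h (by omega), zero_smul]
        · rw [hbig _ (by omega), smul_zero]
      · intro h
        exact absurd (Finset.mem_range.2 (by omega)) h
    rw [hs, map_zero] at h2
    exact (smul_eq_zero.1 h2.symm).resolve_right h1

theorem A3_pow (T : X →L[ℂ] X) (μ : ℂ) (w : X) (n : ℕ) :
    (T ^ n) w = ∑ m ∈ Finset.range (n + 1),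
      ((n.choose m : ℂ) * μ ^ (n - m)) • ((T - μ • (1 : X →L[ℂ] X)) ^ m) w := by
  have hc : Commute (T - μ • (1 : X →L[ℂ] X)) (μ • (1 : X →L[ℂ] X)) :=
    (Commute.one_right _).smul_right μ
  have h := hc.add_pow n
  rw [sub_add_cancel] at h
  rw [h, sum_apply]
  refine Finset.sum_congr rfl fun m _ => ?_
  rw [smul_pow, one_pow, mul_assoc]
  have : (μ ^ (n - m) • (1 : X →L[ℂ] X)) * ((n.choose m : ℕ) : X →L[ℂ] X)
      = ((n.choose m : ℂ) * μ ^ (n - m)) • (1 : X →L[ℂ] X) := by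
    rw [← nsmul_one, smul_mul_assoc, one_mul, ← Nat.cast_smul_eq_nsmul ℂ, smul_smul, mul_comm]
  rw [this, mul_smul_comm, mul_one]
  rfl

theorem realise (T : X →L[ℂ] X) (D : Finset ℂ) (d : ℂ → ℕ) (hJ : ∀ μ ∈ D, JP T μ (d μ))
    (c : ℂ → ℕ → ℂ) :
    ∃ (x : X) (f : StrongDual ℂ X), ∀ n : ℕ, f ((T ^ n) x) =
      ∑ μ ∈ D, ∑ j ∈ Finset.range (d μ + 1), c μ j * (n.choose j : ℂ) * μ ^ (n - j) := by
  classical
  -- chain vectors
  have hw : ∀ μ : ℂ, ∃ w : X, μ ∈ D → ((T - μ • (1 : X →L[ℂ] X)) ^ (d μ + 1)) w = 0 ∧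
      ((T - μ • (1 : X →L[ℂ] X)) ^ (d μ)) w ≠ 0 := by
    intro μ
    by_cases h : μ ∈ D
    · obtain ⟨w, h1, h2⟩ := hJ μ h
      exact ⟨w, fun _ => ⟨h1, h2⟩⟩
    · exact ⟨0, fun h' => absurd h' h⟩
  choose w hw using hw
  let N : ℂ → X →L[ℂ] X := fun μ => T - μ • (1 : X →L[ℂ] X)
  let I := Σ μ : D, Fin (d μ.1 + 1)
  let v : I → X := fun i => ((N i.1.1) ^ (i.2 : ℕ)) (w i.1.1)
  let F : (I → ℂ) →ₗ[ℂ] X := Fintype.linearCombination ℂ v
  have hF : ∀ a : I → ℂ, F a = ∑ μ : D, ∑ j : Fin (d μ.1 + 1), a ⟨μ, j⟩ • v ⟨μ, j⟩ := by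
    intro a
    rw [Fintype.linearCombination_apply, Fintype.sum_sigma]
  have hinj : Function.Injective F := by
    rw [injective_iff_map_eq_zero]
    intro a ha
    rw [hF] at ha
    let U : D → X := fun μ => ∑ j : Fin (d μ.1 + 1), a ⟨μ, j⟩ • v ⟨μ, j⟩
    have hU : ∀ μ : D, U μ ∈ Module.End.maxGenEigenspace (T : X →ₗ[ℂ] X) μ.1 := by
      intro μ
      rw [Module.End.mem_maxGenEigenspace]
      refine ⟨d μ.1 + 1, ?_⟩
      have e : ∀ (k : ℕ) (y : X), (((T : X →ₗ[ℂ] X) - μ.1 • (1 : Module.End ℂ X)) ^ k) y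
          = ((N μ.1) ^ k) y := by
        intro k
        induction k with
        | zero => intro y; rfl
        | succ k ih =>
          intro y
          rw [pow_succ, pow_succ]
          exact ih _
      rw [e]
      show ((N μ.1) ^ (d μ.1 + 1)) (∑ j : Fin (d μ.1 + 1), a ⟨μ, j⟩ • v ⟨μ, j⟩) = 0
      rw [map_sum]
      refine Finset.sum_eq_zero fun j _ => ?_
      rw [map_smul]
      show a ⟨μ, j⟩ • ((N μ.1) ^ (d μ.1 + 1)) (((N μ.1) ^ (j : ℕ)) (w μ.1)) = 0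
      rw [← mul_apply_eq_comp, ← pow_add, add_comm, pow_add,
        mul_apply_eq_comp]
      show a ⟨μ, j⟩ • ((N μ.1) ^ (j : ℕ)) (((T - μ.1 • (1 : X →L[ℂ] X)) ^ (d μ.1 + 1)) (w μ.1)) = 0
      rw [(hw μ.1 μ.2).1, map_zero, smul_zero]
    have hind : iSupIndep fun μ : D => Module.End.maxGenEigenspace (T : X →ₗ[ℂ] X) μ.1 :=
      (Module.End.independent_maxGenEigenspace (T : X →ₗ[ℂ] X)).comp Subtype.val_injective
    have hU0 : ∀ μ : D, U μ = 0 := by
      by_contra hcon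
      push Not at hcon
      obtain ⟨μ0, hμ0⟩ := hcon
      let s := {μ : D // U μ ≠ 0}
      have h1 : LinearIndependent ℂ (fun μ : s => U μ.1) :=
        iSupIndep.linearIndependent (fun μ : s => Module.End.maxGenEigenspace (T : X →ₗ[ℂ] X) μ.1.1)
          (hind.comp Subtype.val_injective) (fun μ => hU μ.1) (fun μ => μ.2)
      have h2 : ∑ μ : s, (1 : ℂ) • U μ.1 = 0 := by
        have h3 : ∑ μ : D, U μ = 0 := ha
        simp only [one_smul]
        have h4 : ∑ μ : D, U μ = ∑ μ ∈ Finset.univ.filter (fun μ : D => U μ ≠ 0), U μ := by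
          rw [Finset.sum_filter_ne_zero]
        refine Eq.trans ?_ h3
        rw [h4]
        exact (Finset.sum_subtype (Finset.univ.filter (fun μ : D => U μ ≠ 0))
          (by intro x; simp) U).symm
      have h5 := Fintype.linearIndependent_iff.1 h1 (fun _ => (1 : ℂ)) h2 ⟨μ0, hμ0⟩
      exact one_ne_zero h5
    funext i
    obtain ⟨μ, j⟩ := i
    have h6 := A3_inner (N μ.1) (w μ.1) (d μ.1) (hw μ.1 μ.2).1 (hw μ.1 μ.2).2
      (fun m => if h : m < d μ.1 + 1 then a ⟨μ, ⟨m, h⟩⟩ else 0) ?_ j (Nat.lt_succ_iff.1 j.2)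
    · simp only [j.2, dif_pos] at h6
      exact h6
    · have h7 : ∑ j : Fin (d μ.1 + 1), a ⟨μ, j⟩ • v ⟨μ, j⟩ = 0 := hU0 μ
      rw [Finset.sum_range, ← h7]
      refine Finset.sum_congr rfl fun m _ => ?_
      simp only [m.2, dif_pos]
      rfl
  obtain ⟨f, hf⟩ := (SeparatingDual.dualMap_surjective_iff (R := ℂ) (V := X)).2 hinj
    (Fintype.linearCombination ℂ (fun i : I => c i.1.1 i.2))
  have hfv : ∀ μ (hμ : μ ∈ D) (j : ℕ) (hj : j ≤ d μ), f (((N μ) ^ j) (w μ)) = c μ j := by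
    intro μ hμ j hj
    have h8 := congrArg (fun L : Module.Dual ℂ (I → ℂ) => L (Pi.single ⟨⟨μ, hμ⟩, ⟨j, Nat.lt_succ_iff.2 hj⟩⟩ 1)) hf
    simp only [Function.comp_apply, LinearMap.dualMap_apply] at h8
    rw [show F (Pi.single ⟨⟨μ, hμ⟩, ⟨j, Nat.lt_succ_iff.2 hj⟩⟩ 1) = v ⟨⟨μ, hμ⟩, ⟨j, Nat.lt_succ_iff.2 hj⟩⟩ by
      show Fintype.linearCombination ℂ v _ = _
      rw [Fintype.linearCombination_apply_single, one_smul]] at h8
    rw [Fintype.linearCombination_apply_single, one_smul] at h8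
    exact h8
  refine ⟨∑ μ ∈ D, w μ, f, fun n => ?_⟩
  rw [map_sum, map_sum]
  refine Finset.sum_congr rfl fun μ hμ => ?_
  rw [A3_pow T μ, map_sum]
  have hbig : ∀ m, d μ + 1 ≤ m → ((N μ) ^ m) (w μ) = 0 := by
    intro m hm
    obtain ⟨k, rfl⟩ := Nat.exists_eq_add_of_le hm
    rw [add_comm (d μ + 1) k, pow_add, mul_apply_eq_comp]
    show ((N μ) ^ k) (((T - μ • (1 : X →L[ℂ] X)) ^ (d μ + 1)) (w μ)) = 0
    rw [(hw μ hμ).1, map_zero]
  let M := max (n + 1) (d μ + 1)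
  have e1 : ∑ m ∈ Finset.range (n + 1), f (((n.choose m : ℂ) * μ ^ (n - m)) •
      ((T - μ • (1 : X →L[ℂ] X)) ^ m) (w μ)) = ∑ m ∈ Finset.range M,
      f (((n.choose m : ℂ) * μ ^ (n - m)) • ((T - μ • (1 : X →L[ℂ] X)) ^ m) (w μ)) := by
    refine Finset.sum_subset (Finset.range_subset_range.2 (le_max_left _ _)) ?_
    intro m _ hm
    rw [Nat.choose_eq_zero_of_lt (by simpa using hm)]
    simp
  have e2 : ∑ j ∈ Finset.range (d μ + 1), c μ j * (n.choose j : ℂ) * μ ^ (n - j)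
      = ∑ j ∈ Finset.range (d μ + 1),
      f (((n.choose j : ℂ) * μ ^ (n - j)) • ((T - μ • (1 : X →L[ℂ] X)) ^ j) (w μ)) := by
    refine Finset.sum_congr rfl fun j hj => ?_
    rw [map_smul, smul_eq_mul]
    have := hfv μ hμ j (by simpa [Nat.lt_succ_iff] using hj)
    show _ = _ * f (((N μ) ^ j) (w μ))
    rw [this]; ring
  have e3 : ∑ j ∈ Finset.range (d μ + 1),
      f (((n.choose j : ℂ) * μ ^ (n - j)) • ((T - μ • (1 : X →L[ℂ] X)) ^ j) (w μ))
      = ∑ m ∈ Finset.range M,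
      f (((n.choose m : ℂ) * μ ^ (n - m)) • ((T - μ • (1 : X →L[ℂ] X)) ^ m) (w μ)) := by
    refine Finset.sum_subset (Finset.range_subset_range.2 (le_max_right _ _)) ?_
    intro m _ hm
    have : ((N μ) ^ m) (w μ) = 0 := hbig m (by simpa using hm)
    show f (_ • ((N μ) ^ m) (w μ)) = 0
    rw [this, smul_zero, map_zero]
  rw [e1, e2, e3]

end WNH
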