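import Pool.Agent.WNH.A1
import Pool.Agent.WNH.A2
import Pool.Agent.WNH.A3

/-!
Row [WN-A4]. Uses `dense_two_terms` (A1), `dense_three_terms` (A2), `realise` (A3).
-/

namespace WNH
open Filter Topology Metric
universe u
variable {X : Type u} [NormedAddCommGroup X] [NormedSpace ℂ X]

theorem A4_choose_lb (e : ℕ) (he : 1 ≤ e) (m : ℕ) : m + 1 ≤ (m + e).choose e := by
  induction m with
  | zero => simp
  | succ m ih =>
    obtain ⟨k, rfl⟩ := Nat.exists_eq_add_of_le he
    have h1 : (m + 1 + (1 + k)).choose (1 + k) = (m + 1 + k).choose k + (m + 1 + k).choose (k + 1) := by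
      have : m + 1 + (1 + k) = (m + 1 + k) + 1 := by ring
      rw [this, add_comm 1 k, Nat.choose_succ_succ]
    have h2 : (m + (1 + k)).choose (1 + k) = (m + 1 + k).choose (k + 1) := by
      rw [show m + (1 + k) = m + 1 + k by ring, add_comm 1 k]
    have h3 : 0 < (m + 1 + k).choose k := Nat.choose_pos (by omega)
    rw [h1]
    rw [h2] at ih
    omega

theorem A4_choose_tendsto (e : ℕ) (he : 1 ≤ e) :
    Tendsto (fun n : ℕ => (n.choose e : ℝ)) atTop atTop := by
  refine tendsto_atTop_mono' atTop (f₁ := fun n : ℕ => (n : ℝ) - e) ?_ ?_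
  · filter_upwards [eventually_ge_atTop e] with n hn
    have h := A4_choose_lb e he (n - e)
    rw [Nat.sub_add_cancel hn] at h
    have h' : ((n - e + 1 : ℕ) : ℝ) ≤ (n.choose e : ℝ) := by exact_mod_cast h
    push_cast [Nat.cast_sub hn] at h'
    linarith
  · exact tendsto_atTop_add_const_right _ _ tendsto_natCast_atTop_atTop

theorem A4_growth (r : ℝ) (e : ℕ) (h : 1 < r ∨ (r = 1 ∧ 1 ≤ e)) :
    Tendsto (fun n : ℕ => (n.choose e : ℝ) * r ^ n) atTop atTop := by
  rcases h with h | ⟨rfl, h⟩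
  · refine tendsto_atTop_mono' atTop (f₁ := fun n : ℕ => r ^ n) ?_
      (tendsto_pow_atTop_atTop_of_one_lt h)
    filter_upwards [eventually_ge_atTop e] with n hn
    have h1 : (1 : ℝ) ≤ (n.choose e : ℝ) := by exact_mod_cast Nat.choose_pos hn
    have h2 : 0 < r ^ n := pow_pos (by linarith) n
    nlinarith
  · simpa using A4_choose_tendsto e h

theorem A4_ratio (ra rc : ℝ) (d e : ℕ) (hrc : 0 < rc) (h : rc < ra ∨ (rc = ra ∧ e < d)) :
    Tendsto (fun n : ℕ => ((n.choose e : ℝ) * rc ^ n) / ((n.choose d : ℝ) * ra ^ n)) atTop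
      (𝓝 0) := by
  rcases h with h | ⟨rfl, h⟩
  · have hra : 0 < ra := hrc.trans h
    have h1 : Tendsto (fun n : ℕ => (n : ℝ) ^ e * (rc / ra) ^ n) atTop (𝓝 0) :=
      tendsto_pow_const_mul_const_pow_of_lt_one e (by positivity) ((div_lt_one hra).2 h)
    refine tendsto_of_tendsto_of_tendsto_of_le_of_le' tendsto_const_nhds h1 ?_ ?_
    · exact Eventually.of_forall fun n => by positivity
    · filter_upwards [eventually_ge_atTop d] with n hn
      have h2 : (1 : ℝ) ≤ (n.choose d : ℝ) := by exact_mod_cast Nat.choose_pos hn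
      have h3 : (n.choose e : ℝ) ≤ (n : ℝ) ^ e := by exact_mod_cast Nat.choose_le_pow n e
      rw [div_pow, ← mul_div_assoc]
      rw [div_le_div_iff₀ (by positivity) (by positivity)]
      have h4 : 0 < ra ^ n := pow_pos hra n
      have h5 : 0 < rc ^ n := pow_pos hrc n
      calc (n.choose e : ℝ) * rc ^ n * ra ^ n ≤ (n : ℝ) ^ e * rc ^ n * ra ^ n := by gcongr
        _ = (n : ℝ) ^ e * rc ^ n * (1 * ra ^ n) := by ring
        _ ≤ (n : ℝ) ^ e * rc ^ n * ((n.choose d : ℝ) * ra ^ n) := by gcongr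
  · have h1 : Tendsto (fun n : ℕ => (d.choose e : ℝ) / ((n - e).choose (d - e) : ℝ)) atTop
        (𝓝 0) := by
      refine Tendsto.div_atTop tendsto_const_nhds ?_
      exact (A4_choose_tendsto (d - e) (by omega)).comp (tendsto_sub_atTop_nat e)
    refine h1.congr' ?_
    filter_upwards [eventually_ge_atTop d] with n hn
    have h2 : n.choose d * d.choose e = n.choose e * (n - e).choose (d - e) :=
      Nat.choose_mul h.le
    have h3 : 0 < n.choose d := Nat.choose_pos hn
    have h4 : 0 < (n - e).choose (d - e) := Nat.choose_pos (by omega)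
    have h5 : (n.choose d : ℝ) * d.choose e = n.choose e * (n - e).choose (d - e) := by
      exact_mod_cast h2
    have h6 : (0 : ℝ) < (n.choose d : ℝ) := by exact_mod_cast h3
    have h7 : (0 : ℝ) < ((n - e).choose (d - e) : ℝ) := by exact_mod_cast h4
    have h8 : 0 < rc ^ n := pow_pos hrc n
    rw [mul_div_mul_right _ _ h8.ne', div_eq_div_iff h7.ne' h6.ne']
    linarith

theorem A4_three (T : X →L[ℂ] X) (a b c : ℂ) (d e : ℕ) (ha : JP T a d) (hb : JP T b d)
    (hc : JP T c e) (hce : c = a ∨ c = b → e ≤ d) (α β κ : ℂ) :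
    ∃ (x : X) (f : StrongDual ℂ X), ∀ n : ℕ, f ((T ^ n) x) =
      α * (n.choose d : ℂ) * a ^ n + β * (n.choose d : ℂ) * b ^ n +
        κ * (n.choose e : ℂ) * c ^ n := by
  classical
  let D : Finset ℂ := {a, b, c}
  let dd : ℂ → ℕ := fun μ => if μ = a ∨ μ = b then d else e
  have hJ : ∀ μ ∈ D, JP T μ (dd μ) := by
    intro μ hμ
    simp only [D, Finset.mem_insert, Finset.mem_singleton] at hμ
    by_cases h : μ = a ∨ μ = b
    · simp only [dd, if_pos h]
      rcases h with rfl | rfl <;> assumption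
    · simp only [dd, if_neg h]
      have : μ = c := by tauto
      rw [this]; exact hc
  let co : ℂ → ℕ → ℂ := fun μ j =>
    ((if μ = a then (if j = d then α else 0) else 0) + (if μ = b then (if j = d then β else 0) else 0)
      + (if μ = c then (if j = e then κ else 0) else 0)) * μ ^ j
  obtain ⟨x, f, hf⟩ := realise T D dd hJ co
  refine ⟨x, f, fun n => ?_⟩
  rw [hf n]
  have key : ∀ (μ : ℂ) (j : ℕ), co μ j * (n.choose j : ℂ) * μ ^ (n - j) =
      (if μ = a then (if j = d then α * (n.choose d : ℂ) * a ^ n else 0) else 0)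
      + (if μ = b then (if j = d then β * (n.choose d : ℂ) * b ^ n else 0) else 0)
      + (if μ = c then (if j = e then κ * (n.choose e : ℂ) * c ^ n else 0) else 0) := by
    intro μ j
    have hch : μ ^ j * (n.choose j : ℂ) * μ ^ (n - j) = (n.choose j : ℂ) * μ ^ n := by
      rcases le_or_gt j n with h | h
      · rw [mul_right_comm, ← pow_add, Nat.add_sub_cancel' h, mul_comm]
      · rw [Nat.choose_eq_zero_of_lt h]; simp
    have : co μ j * (n.choose j : ℂ) * μ ^ (n - j) =
      ((if μ = a then (if j = d then α else 0) else 0) +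
        (if μ = b then (if j = d then β else 0) else 0)
      + (if μ = c then (if j = e then κ else 0) else 0)) * ((n.choose j : ℂ) * μ ^ n) := by
      rw [← hch]; simp only [co]; ring
    rw [this, add_mul, add_mul]
    congr 1
    · congr 1
      · split_ifs with h1 h2
        · subst h1; subst h2; ring
        · ring
        · ring
      · split_ifs with h1 h2
        · subst h1; subst h2; ring
        · ring
        · ring
    · split_ifs with h1 h2
      · subst h1; subst h2; ring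
      · ring
      · ring
  simp only [key, Finset.sum_add_distrib]
  have haD : a ∈ D := by simp [D]
  have hbD : b ∈ D := by simp [D]
  have hcD : c ∈ D := by simp [D]
  have e1 : ∑ μ ∈ D, ∑ j ∈ Finset.range (dd μ + 1),
      (if μ = a then (if j = d then α * (n.choose d : ℂ) * a ^ n else 0) else 0)
      = α * (n.choose d : ℂ) * a ^ n := by
    rw [Finset.sum_eq_single_of_mem a haD]
    · have : dd a = d := by simp [dd]
      rw [this]
      simp
    · intro μ _ hμ
      simp [hμ]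
  have e2 : ∑ μ ∈ D, ∑ j ∈ Finset.range (dd μ + 1),
      (if μ = b then (if j = d then β * (n.choose d : ℂ) * b ^ n else 0) else 0)
      = β * (n.choose d : ℂ) * b ^ n := by
    rw [Finset.sum_eq_single_of_mem b hbD]
    · have : dd b = d := by simp [dd]
      rw [this]
      simp
    · intro μ _ hμ
      simp [hμ]
  have e3 : ∑ μ ∈ D, ∑ j ∈ Finset.range (dd μ + 1),
      (if μ = c then (if j = e then κ * (n.choose e : ℂ) * c ^ n else 0) else 0)
      = κ * (n.choose e : ℂ) * c ^ n := by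
    rw [Finset.sum_eq_single_of_mem c hcD]
    · have hle : e < dd c + 1 := by
        by_cases h : c = a ∨ c = b
        · simp only [dd, if_pos h]; have := hce h; omega
        · simp only [dd, if_neg h]; omega
      simp [Finset.sum_ite_eq', hle]
    · intro μ _ hμ
      simp [hμ]
  rw [e1, e2, e3]

theorem W_of_star (T : X →L[ℂ] X) (h : StarPred (JP T)) : W T := by
  obtain ⟨a, b, c, d, e, ha, hb, hc, hab, hca, hg, hind⟩ := h
  have hrc1 : 1 ≤ ‖c‖ := by
    rcases hg with h | h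
    · exact h.le
    · exact h.1.ge
  have hrc : 0 < ‖c‖ := by linarith
  have hra1 : ‖c‖ ≤ ‖a‖ := by
    rcases hca with h | h
    · exact h.le
    · exact h.1.le
  have hra : 0 < ‖a‖ := by linarith
  have hrb : 0 < ‖b‖ := hab ▸ hra
  have ha0 : a ≠ 0 := norm_pos_iff.1 hra
  have hb0 : b ≠ 0 := norm_pos_iff.1 hrb
  have hc0 : c ≠ 0 := norm_pos_iff.1 hrc
  have hga : 1 < ‖a‖ ∨ (‖a‖ = 1 ∧ 1 ≤ d) := by
    rcases hca with h | ⟨h, h'⟩
    · left; linarith
    · rcases hg with hg | ⟨hg, hg'⟩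
      · left; linarith
      · right; exact ⟨by linarith, by omega⟩
  have hA := A4_growth ‖a‖ d hga
  have hB := A4_growth ‖c‖ e hg
  have hna : (‖a‖ : ℂ) ≠ 0 := by exact_mod_cast hra.ne'
  have hnb : (‖b‖ : ℂ) ≠ 0 := by exact_mod_cast hrb.ne'
  have hnc : (‖c‖ : ℂ) ≠ 0 := by exact_mod_cast hrc.ne'
  set ζ : ℂ := b / a with hζ
  set ah : ℂ := a / (‖a‖ : ℂ) with hah
  set ch : ℂ := c / (‖c‖ : ℂ) with hch
  have hζ0 : ζ ≠ 0 := div_ne_zero hb0 ha0
  have hah0 : ah ≠ 0 := div_ne_zero ha0 hna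
  have hch0 : ch ≠ 0 := div_ne_zero hc0 hnc
  have hζ1 : ‖ζ‖ = 1 := by rw [hζ, norm_div, hab, div_self hrb.ne']
  have hunit : ∀ z : ℂ, z ≠ 0 → ‖z / (‖z‖ : ℂ)‖ = 1 := by
    intro z hz
    rw [norm_div, Complex.norm_real, norm_norm, div_self (norm_ne_zero_iff.2 hz)]
  -- general two-term argument
  have two : ∀ (p q : ℂ), JP T p d → JP T q d → ‖p‖ = ‖a‖ → ‖q‖ = ‖a‖ →
      (∀ k l : ℤ, (q / p) ^ k * (p / (‖p‖ : ℂ)) ^ l = 1 → k = 0 ∧ l = 0) → W T := by
    intro p q hp hq hpa hqa hi
    have hp0 : p ≠ 0 := norm_pos_iff.1 (hpa ▸ hra)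
    obtain ⟨γ, _, hγ⟩ := dense_two_terms (fun n => (n.choose d : ℝ) * ‖a‖ ^ n) hA (q / p)
      (p / (‖p‖ : ℂ)) (by rw [norm_div, hpa, hqa, div_self hra.ne']) (hunit p hp0) hi
    obtain ⟨x, f, hf⟩ := A4_three T p q p d d hp hq hp (fun _ => le_rfl) 1 (-γ) 0
    refine ⟨x, f, ?_⟩
    have : (fun n : ℕ => f ((T ^ n) x)) = fun n : ℕ =>
        (((n.choose d : ℝ) * ‖a‖ ^ n : ℝ) : ℂ) * (p / (‖p‖ : ℂ)) ^ n * (1 - γ * (q / p) ^ n) := by
      funext n
      rw [hf n, hpa]
      push_cast
      rw [div_pow, div_pow]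
      have h1 : (‖a‖ : ℂ) ^ n ≠ 0 := pow_ne_zero _ hna
      have h2 : p ^ n ≠ 0 := pow_ne_zero _ hp0
      field_simp
      ring
    rw [this]
    exact hγ
  by_cases hcase : ∀ k l : ℤ, ζ ^ k * ah ^ l = 1 → k = 0 ∧ l = 0
  · exact two a b ha hb rfl hab.symm hcase
  · push Not at hcase
    obtain ⟨k, l, hkl, hne⟩ := hcase
    have hζroot : ∀ m : ℤ, ζ ^ m = 1 → m = 0 := by
      intro m hm
      exact (hind m 0 (by rw [hm, zpow_zero, mul_one])).1
    have hl : l ≠ 0 := by
      intro hl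
      rw [hl, zpow_zero, mul_one] at hkl
      exact hne (hζroot k hkl) hl
    by_cases h2a : ‖c‖ = ‖a‖ ∧ e = d
    · obtain ⟨hca', rfl⟩ := h2a
      -- key independence
      have key : ∀ (p : ℂ) (k' : ℤ), ‖p‖ = ‖a‖ → ζ ^ k' * (p / (‖p‖ : ℂ)) ^ l = 1 → k' ≠ 0 →
          ∀ m n : ℤ, (c / p) ^ m * (p / (‖p‖ : ℂ)) ^ n = 1 → m = 0 ∧ n = 0 := by
        intro p k' hp hk' hk0 m n hmn
        have hp0 : p ≠ 0 := norm_pos_iff.1 (hp ▸ hra)
        have hnp : (‖p‖ : ℂ) ≠ 0 := by rw [hp]; exact hna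
        set ph : ℂ := p / (‖p‖ : ℂ) with hph
        have hph0 : ph ≠ 0 := div_ne_zero hp0 hnp
        have e1 : c / p = ch / ph := by
          rw [hch, hph, hca', hp]
          field_simp
        have e2 : ph ^ l = ζ ^ (-k') := by
          rw [zpow_neg]
          exact eq_inv_of_mul_eq_one_right hk'
        rw [e1, div_zpow] at hmn
        have e3 : ch ^ m * ph ^ (n - m) = 1 := by
          rw [zpow_sub₀ hph0, ← hmn]; ring
        have e4 : ζ ^ (-k' * (n - m)) * ch ^ (m * l) = 1 := by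
          have : (ch ^ m * ph ^ (n - m)) ^ l = 1 := by rw [e3, one_zpow]
          rw [mul_zpow, ← zpow_mul, ← zpow_mul, mul_comm (n - m) l, zpow_mul ph, e2, ← zpow_mul]
            at this
          rw [mul_comm]; exact this
        obtain ⟨h1, h2⟩ := hind _ _ e4
        have h3 : m = 0 := by
          rcases mul_eq_zero.1 h2 with h | h
          · exact h
          · exact absurd h hl
        have h4 : n - m = 0 := by
          rcases mul_eq_zero.1 h1 with h | h
          · exact absurd (neg_eq_zero.1 h) hk0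
          · exact h
        exact ⟨h3, by omega⟩
      by_cases hk0 : k = 0
      · -- ah is a root of unity, use b
        have hbh : b / (‖b‖ : ℂ) = ah * ζ := by
          rw [hah, hζ, ← hab]; field_simp
        have hk' : ζ ^ (k - l) * (b / (‖b‖ : ℂ)) ^ l = 1 := by
          rw [hbh, mul_zpow, zpow_sub₀ hζ0]
          have : ζ ^ l ≠ 0 := zpow_ne_zero _ hζ0
          field_simp
          rw [← hkl]
        exact two b c hb hc hab.symm hca' (key b (k - l) hab.symm hk' (by omega))
      · exact two a c ha hc rfl hca' (key a k rfl hkl hk0)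
    · have hlt : ‖c‖ < ‖a‖ ∨ (‖c‖ = ‖a‖ ∧ e < d) := by
        rcases hca with h | ⟨h, h'⟩
        · exact Or.inl h
        · right
          refine ⟨h, lt_of_le_of_ne h' ?_⟩
          intro h''
          exact h2a ⟨h, h''⟩
      have hBA := A4_ratio ‖a‖ ‖c‖ d e hrc hlt
      have hi : ∀ m n : ℤ, ζ ^ m * (ch / ah) ^ n = 1 → m = 0 ∧ n = 0 := by
        intro m n hmn
        have e2 : ah ^ l = ζ ^ (-k) := by
          rw [zpow_neg]
          exact eq_inv_of_mul_eq_one_right hkl
        have e3 : (ζ ^ m * (ch / ah) ^ n) ^ l = 1 := by rw [hmn, one_zpow]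
        have e4 : ζ ^ (m * l + k * n) * ch ^ (n * l) = 1 := by
          rw [mul_zpow, ← zpow_mul, ← zpow_mul, div_zpow ch ah, mul_comm n l, zpow_mul ah, e2,
            ← zpow_mul] at e3
          rw [zpow_add₀ hζ0, ← e3, show (-k * n) = -(k * n) by ring, zpow_neg, div_inv_eq_mul,
            mul_comm n l]
          ring
        obtain ⟨h1, h2⟩ := hind _ _ e4
        have h3 : n = 0 := by
          rcases mul_eq_zero.1 h2 with h | h
          · exact h
          · exact absurd h hl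
        rw [h3, mul_zero, add_zero] at h1
        have h4 : m = 0 := by
          rcases mul_eq_zero.1 h1 with h | h
          · exact h
          · exact absurd h hl
        exact ⟨h4, h3⟩
      obtain ⟨γ, κ, _, hγ⟩ := dense_three_terms (fun n => (n.choose d : ℝ) * ‖a‖ ^ n)
        (fun n => (n.choose e : ℝ) * ‖c‖ ^ n) hA hB hBA ζ ah ch hζ1 (hunit a ha0) (hunit c hc0) hi
      have hce : c = a ∨ c = b → e ≤ d := by
        intro h
        have hn : ‖c‖ = ‖a‖ := by
          rcases h with h | h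
          · rw [h]
          · rw [h, hab]
        rcases hlt with h' | h'
        · exact absurd hn h'.ne
        · exact h'.2.le
      obtain ⟨x, f, hf⟩ := A4_three T a b c d e ha hb hc hce 1 (-γ) κ
      refine ⟨x, f, ?_⟩
      have : (fun n : ℕ => f ((T ^ n) x)) = fun n : ℕ =>
          (((n.choose d : ℝ) * ‖a‖ ^ n : ℝ) : ℂ) * ah ^ n * (1 - γ * ζ ^ n) +
            κ * (((n.choose e : ℝ) * ‖c‖ ^ n : ℝ) : ℂ) * ch ^ n := by
        funext n
        rw [hf n, hah, hζ, hch]
        push_cast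
        rw [div_pow, div_pow, div_pow]
        have h1 : (‖a‖ : ℂ) ^ n ≠ 0 := pow_ne_zero _ hna
        have h2 : a ^ n ≠ 0 := pow_ne_zero _ ha0
        have h3 : (‖c‖ : ℂ) ^ n ≠ 0 := pow_ne_zero _ hnc
        field_simp
        ring
      rw [this]
      exact hγ

theorem A4_JP_smul (T : X →L[ℂ] X) (r : ℝ) (hr : r ≠ 0) (μ : ℂ) (d : ℕ) (h : JP T μ d) :
    JP ((r : ℂ) • T) ((r : ℂ) * μ) d := by
  obtain ⟨x, h1, h2⟩ := h
  have hr' : (r : ℂ) ≠ 0 := by exact_mod_cast hr
  have e : ∀ k : ℕ, (((r : ℂ) • T - ((r : ℂ) * μ) • (1 : X →L[ℂ] X)) ^ k) x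
      = (r : ℂ) ^ k • ((T - μ • (1 : X →L[ℂ] X)) ^ k) x := by
    intro k
    rw [mul_smul, ← smul_sub, smul_pow]
    rfl
  refine ⟨x, ?_, ?_⟩
  · rw [e, h1, smul_zero]
  · rw [e]
    exact smul_ne_zero (pow_ne_zero _ hr') h2

theorem star_smul (T : X →L[ℂ] X) (r : ℝ) (hr : 1 ≤ r) (h : StarPred (JP T)) :
    StarPred (JP ((r : ℂ) • T)) := by
  obtain ⟨a, b, c, d, e, ha, hb, hc, hab, hca, hg, hind⟩ := h
  have hr0 : 0 < r := by linarith
  have hr' : (r : ℂ) ≠ 0 := by exact_mod_cast hr0.ne'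
  have hn : ∀ z : ℂ, ‖(r : ℂ) * z‖ = r * ‖z‖ := by
    intro z
    rw [norm_mul, Complex.norm_real, Real.norm_of_nonneg hr0.le]
  refine ⟨(r : ℂ) * a, (r : ℂ) * b, (r : ℂ) * c, d, e, A4_JP_smul T r hr0.ne' _ _ ha,
    A4_JP_smul T r hr0.ne' _ _ hb, A4_JP_smul T r hr0.ne' _ _ hc, ?_, ?_, ?_, ?_⟩
  · rw [hn, hn, hab]
  · rw [hn, hn]
    rcases hca with h | ⟨h, h'⟩
    · left; exact mul_lt_mul_of_pos_left h hr0
    · right; exact ⟨by rw [h], h'⟩
  · rw [hn]
    rcases hg with h | ⟨h, h'⟩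
    · left; nlinarith
    · rcases hr.eq_or_lt with h1 | h1
      · right; exact ⟨by rw [h, ← h1, mul_one], h'⟩
      · left; rw [h, mul_one]; exact h1
  · intro k l hkl
    apply hind k l
    rw [← hkl, mul_div_mul_left _ _ hr', hn]
    push_cast
    rw [mul_div_mul_left _ _ hr']

end WNH
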