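import Pool.Agent.WNH.Defs

/-!
Definitions for the ray case.
-/

namespace WNH
open Filter Topology Metric
universe u
variable {X : Type u} [NormedAddCommGroup X] [NormedSpace ℂ X]

/-- `(z - T)⁻¹` is a norm limit of polynomials in `T`. -/
def Appr (T : X →L[ℂ] X) (z : ℂ) : Prop :=
  ∀ ε : ℝ, 0 < ε → ∃ p : Polynomial ℂ,
    ‖(z • (1 : X →L[ℂ] X) - T) * Polynomial.aeval T p - 1‖ < ε

/-- All points of the spectrum of `T` outside the open unit disc lie on finitely many rays from the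
origin, any two of which differ by a rational angle. -/
def RayCond (T : X →L[ℂ] X) : Prop :=
  ∃ (N : ℕ) (u : ℂ), 0 < N ∧ ∀ z ∈ spectrum ℂ T, 1 ≤ ‖z‖ → z ^ N = (‖z‖ : ℂ) ^ N * u

end WNH
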