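import Pool.Agent.WNH.D0

/-!
Row [WN-D1]. `Appr T z` off a ray.
-/

namespace WNH
open Filter Topology Metric
universe u
variable {X : Type u} [NormedAddCommGroup X] [NormedSpace ℂ X] [CompleteSpace X]

theorem appr_of_small (T : X →L[ℂ] X) (z : ℂ) (p : Polynomial ℂ)
    (h : ‖(z • (1 : X →L[ℂ] X) - T) * Polynomial.aeval T p - 1‖ < 1) : Appr T z := by
  intro ε hε
  obtain ⟨E, hE⟩ : ∃ E : X →L[ℂ] X, E = 1 - (z • (1 : X →L[ℂ] X) - T) * Polynomial.aeval T p :=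
    ⟨_, rfl⟩
  have hEn : ‖E‖ < 1 := by
    rw [hE, norm_sub_rev]; exact h
  obtain ⟨e, he⟩ : ∃ e : Polynomial ℂ, e = 1 - (Polynomial.C z - Polynomial.X) * p := ⟨_, rfl⟩
  have haev : Polynomial.aeval T (Polynomial.C z - Polynomial.X) = z • (1 : X →L[ℂ] X) - T := by
    rw [map_sub, Polynomial.aeval_C, Polynomial.aeval_X, Algebra.algebraMap_eq_smul_one]
  have heE : Polynomial.aeval T e = E := by
    rw [he, map_sub, map_one, map_mul, haev, hE]
  obtain ⟨k, hk⟩ := exists_pow_lt_of_lt_one hε hEn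
  refine ⟨p * ∑ i ∈ Finset.range (k + 1), e ^ i, ?_⟩
  have h1 : (z • (1 : X →L[ℂ] X) - T) * Polynomial.aeval T (p * ∑ i ∈ Finset.range (k + 1), e ^ i)
      = 1 - E ^ (k + 1) := by
    rw [map_mul, map_sum, ← mul_assoc]
    have h2 : (z • (1 : X →L[ℂ] X) - T) * Polynomial.aeval T p = 1 - E := by rw [hE]; abel
    rw [h2]
    have h3 : ∑ i ∈ Finset.range (k + 1), Polynomial.aeval T (e ^ i)
        = ∑ i ∈ Finset.range (k + 1), E ^ i := by
      apply Finset.sum_congr rfl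
      intro i _
      rw [map_pow, heE]
    rw [h3, mul_neg_geom_sum]
  rw [h1]
  have h4 : (1 : X →L[ℂ] X) - E ^ (k + 1) - 1 = -(E ^ (k + 1)) := by abel
  rw [h4, norm_neg]
  calc ‖E ^ (k + 1)‖ ≤ ‖E‖ ^ (k + 1) := norm_pow_le' E (Nat.succ_pos k)
    _ ≤ ‖E‖ ^ k := pow_le_pow_of_le_one (norm_nonneg E) hEn.le (Nat.le_succ k)
    _ < ε := hk

theorem not_mem_spectrum_of_appr (T : X →L[ℂ] X) (z : ℂ) (h : Appr T z) :
    z ∉ spectrum ℂ T := by
  obtain ⟨p, hp⟩ := h 1 one_pos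
  rw [spectrum.notMem_iff, Algebra.algebraMap_eq_smul_one]
  have h1 : IsUnit ((z • (1 : X →L[ℂ] X) - T) * Polynomial.aeval T p) := by
    have h2 : ‖1 - (z • (1 : X →L[ℂ] X) - T) * Polynomial.aeval T p‖ < 1 := by
      rw [norm_sub_rev]; exact hp
    refine ⟨Units.oneSub _ h2, ?_⟩
    rw [Units.val_oneSub]
    abel
  have hc : Commute (z • (1 : X →L[ℂ] X) - T) (Polynomial.aeval T p) := by
    have haev : Polynomial.aeval T (Polynomial.C z - Polynomial.X) = z • (1 : X →L[ℂ] X) - T := by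
      rw [map_sub, Polynomial.aeval_C, Polynomial.aeval_X, Algebra.algebraMap_eq_smul_one]
    rw [← haev, commute_iff_eq, ← map_mul, ← map_mul, mul_comm]
  exact (hc.isUnit_mul_iff.mp h1).1

theorem D1_isOpen (T : X →L[ℂ] X) : IsOpen {z : ℂ | Appr T z} := by
  rw [Metric.isOpen_iff]
  intro z hz
  obtain ⟨p, hp⟩ := hz (1 / 2) (by norm_num)
  refine ⟨1 / (2 * (‖Polynomial.aeval T p‖ + 1)), by positivity, ?_⟩
  intro w hw
  rw [mem_ball, dist_eq_norm, lt_div_iff₀ (by positivity)] at hw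
  apply appr_of_small T w p
  have h1 : (w • (1 : X →L[ℂ] X) - T) * Polynomial.aeval T p - 1
      = ((z • (1 : X →L[ℂ] X) - T) * Polynomial.aeval T p - 1)
        + (w - z) • Polynomial.aeval T p := by
    rw [sub_mul, sub_mul, smul_mul_assoc, smul_mul_assoc, one_mul, sub_smul]
    abel
  rw [h1]
  have h2 : ‖(w - z) • Polynomial.aeval T p‖ ≤ 1 / 2 := by
    rw [norm_smul]
    nlinarith [norm_nonneg (w - z), norm_nonneg (Polynomial.aeval T p)]
  have h3 := norm_add_le ((z • (1 : X →L[ℂ] X) - T) * Polynomial.aeval T p - 1)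
    ((w - z) • Polynomial.aeval T p)
  linarith

theorem D1_closed (T : X →L[ℂ] X) (w : ℂ) (hw : w ∈ closure {z : ℂ | Appr T z})
    (hws : w ∉ spectrum ℂ T) : Appr T w := by
  rw [spectrum.notMem_iff, Algebra.algebraMap_eq_smul_one] at hws
  obtain ⟨R, hR⟩ := hws.exists_left_inv
  have hR0 : 0 ≤ ‖R‖ := norm_nonneg R
  obtain ⟨z, hz, hzw⟩ := Metric.mem_closure_iff.mp hw (1 / (4 * (‖R‖ + 1))) (by positivity)
  rw [dist_eq_norm, lt_div_iff₀ (by positivity)] at hzw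
  obtain ⟨p, hp⟩ := hz (1 / 4) (by norm_num)
  apply appr_of_small T w p
  obtain ⟨A, hA⟩ : ∃ A : X →L[ℂ] X, A = Polynomial.aeval T p := ⟨_, rfl⟩
  rw [← hA] at hp ⊢
  have hone : ‖(1 : X →L[ℂ] X)‖ ≤ 1 := ContinuousLinearMap.norm_id_le
  have h1 : (w • (1 : X →L[ℂ] X) - T) * A - 1
      = ((z • (1 : X →L[ℂ] X) - T) * A - 1) + (w - z) • A := by
    rw [sub_mul, sub_mul, smul_mul_assoc, smul_mul_assoc, one_mul, sub_smul]
    abel
  have hd0 : 0 ≤ ‖w - z‖ := norm_nonneg _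
  have hA0 : 0 ≤ ‖A‖ := norm_nonneg A
  have h2 : ‖A‖ ≤ ‖R‖ * (1 + 1 / 4 + ‖w - z‖ * ‖A‖) := by
    have h3 : A = R * ((w • (1 : X →L[ℂ] X) - T) * A) := by
      rw [← mul_assoc, hR, one_mul]
    have h4 : (w • (1 : X →L[ℂ] X) - T) * A
        = 1 + ((z • (1 : X →L[ℂ] X) - T) * A - 1) + (w - z) • A := by
      rw [sub_mul, sub_mul, smul_mul_assoc, smul_mul_assoc, one_mul, sub_smul]
      abel
    calc ‖A‖ = ‖R * ((w • (1 : X →L[ℂ] X) - T) * A)‖ := by rw [← h3]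
      _ ≤ ‖R‖ * ‖(w • (1 : X →L[ℂ] X) - T) * A‖ := norm_mul_le _ _
      _ ≤ ‖R‖ * (1 + 1 / 4 + ‖w - z‖ * ‖A‖) := by
          apply mul_le_mul_of_nonneg_left _ hR0
          rw [h4]
          refine (norm_add_le _ _).trans ?_
          rw [norm_smul]
          have h5 := norm_add_le (1 : X →L[ℂ] X) ((z • (1 : X →L[ℂ] X) - T) * A - 1)
          linarith
  have h3 : ‖R‖ * ‖w - z‖ ≤ 1 / 4 := by nlinarith
  have h4 : ‖R‖ * (‖w - z‖ * ‖A‖) ≤ 1 / 4 * ‖A‖ := by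
    rw [← mul_assoc]
    exact mul_le_mul_of_nonneg_right h3 hA0
  have h5 : ‖A‖ ≤ 5 / 3 * ‖R‖ := by nlinarith
  have h6 : ‖w - z‖ * ‖A‖ ≤ 5 / 12 := by
    calc ‖w - z‖ * ‖A‖ ≤ ‖w - z‖ * (5 / 3 * ‖R‖) := mul_le_mul_of_nonneg_left h5 hd0
      _ = 5 / 3 * (‖R‖ * ‖w - z‖) := by ring
      _ ≤ 5 / 12 := by linarith
  rw [h1]
  have h7 := norm_add_le ((z • (1 : X →L[ℂ] X) - T) * A - 1) ((w - z) • A)
  rw [norm_smul] at h7
  linarith

theorem D1_far (T : X →L[ℂ] X) (w : ℂ) (hw : ‖T‖ < ‖w‖) : Appr T w := by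
  have hw0 : w ≠ 0 := by
    intro h
    rw [h, norm_zero] at hw
    exact absurd (norm_nonneg T) (not_le.mpr hw)
  have hwn : 0 < ‖w‖ := norm_pos_iff.mpr hw0
  apply appr_of_small T w (Polynomial.C w⁻¹)
  have h1 : (w • (1 : X →L[ℂ] X) - T) * Polynomial.aeval T (Polynomial.C w⁻¹) - 1
      = -(w⁻¹ • T) := by
    rw [Polynomial.aeval_C, Algebra.algebraMap_eq_smul_one, mul_smul_comm, mul_one, smul_sub,
      smul_smul, inv_mul_cancel₀ hw0, one_smul]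
    abel
  rw [h1, norm_neg, norm_smul, norm_inv, inv_mul_eq_div, div_lt_one hwn]
  exact hw

theorem appr_off_ray (T : X →L[ℂ] X) (u : ℂ) (hu : ‖u‖ = 1)
    (h : ∀ z ∈ spectrum ℂ T, 1 ≤ ‖z‖ → z = (‖z‖ : ℂ) * u) (z : ℂ) (hz : 1 ≤ ‖z‖)
    (hne : z ≠ (‖z‖ : ℂ) * u) : Appr T z := by
  have hz0 : 0 < ‖z‖ := by linarith
  have hcont : Continuous fun s : ℝ => (s : ℂ) * z := by fun_prop
  obtain ⟨V, hV⟩ : ∃ V : Set ℝ, V = (fun s : ℝ => (s : ℂ) * z) ⁻¹' {w : ℂ | Appr T w} := ⟨_, rfl⟩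
  have hVo : IsOpen V := by rw [hV]; exact (D1_isOpen T).preimage hcont
  have hnorm : ∀ s : ℝ, 0 ≤ s → ‖(s : ℂ) * z‖ = s * ‖z‖ := by
    intro s hs
    rw [norm_mul, Complex.norm_real, Real.norm_eq_abs, abs_of_nonneg hs]
  have hne' : (Set.Ici (1 : ℝ) ∩ V).Nonempty := by
    refine ⟨‖T‖ + 1, ?_, ?_⟩
    · have := norm_nonneg T
      rw [Set.mem_Ici]; linarith
    · rw [hV]
      apply D1_far
      have h1 := norm_nonneg T
      rw [hnorm _ (by linarith)]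
      nlinarith
  have hcl : closure V ∩ Set.Ici (1 : ℝ) ⊆ V := by
    rintro s ⟨hs, hs1⟩
    rw [Set.mem_Ici] at hs1
    rw [hV]
    apply D1_closed
    · rw [hV] at hs
      exact (hcont.closure_preimage_subset _) hs
    · intro hsp
      have h1 := h _ hsp (by rw [hnorm s (by linarith)]; nlinarith)
      rw [hnorm s (by linarith)] at h1
      apply hne
      have hs0 : (s : ℂ) ≠ 0 := by
        have : s ≠ 0 := by linarith
        exact_mod_cast this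
      push_cast at h1
      have h2 : (s : ℂ) * z = (s : ℂ) * ((‖z‖ : ℂ) * u) := by rw [h1]; ring
      exact mul_left_cancel₀ hs0 h2
  have h1 := isPreconnected_Ici.subset_of_closure_inter_subset hVo hne' hcl
  have h2 := h1 (Set.mem_Ici.mpr (le_refl (1 : ℝ)))
  rw [hV] at h2
  have h3 : Appr T (((1 : ℝ) : ℂ) * z) := h2
  simpa using h3

end WNH
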