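import Pool.Agent.WNH.Defs

/-!
Row [WN-P8]. `W` passes up from factors and from (isometrically embedded) invariant subspaces.

`W_of_factor`: `f ∘ π` and a `π`-preimage of the vector; `π (S ^ n x) = SZ ^ n (π x)` by induction.
`W_of_sub`: `ι y` and a Hahn–Banach extension of the functional from `range ι`
(`exists_extension_norm_eq` on the submodule `LinearMap.range ι`, with the functional transported by
the linear isometry `ι`), `ι (SY ^ n y) = S ^ n (ι y)`.
-/

namespace WNH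
open Filter Topology Metric
universe u v
variable {X : Type u} [NormedAddCommGroup X] [NormedSpace ℂ X]

theorem P8_iter {Y : Type v} [NormedAddCommGroup Y] [NormedSpace ℂ Y] (S : X →L[ℂ] X)
    (SY : Y →L[ℂ] Y) (ι : X →L[ℂ] Y) (h : ∀ y, ι (S y) = SY (ι y)) (n : ℕ) (y : X) :
    ι ((S ^ n) y) = (SY ^ n) (ι y) := by
  induction n generalizing y with
  | zero => rfl
  | succ n ih =>
    rw [pow_succ, pow_succ]
    show ι ((S ^ n) (S y)) = (SY ^ n) (SY (ι y))
    rw [ih, h]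

theorem W_of_factor {Z : Type v} [NormedAddCommGroup Z] [NormedSpace ℂ Z] (S : X →L[ℂ] X)
    (SZ : Z →L[ℂ] Z) (π : X →L[ℂ] Z) (hπ : Function.Surjective π)
    (h : ∀ x, π (S x) = SZ (π x)) (hW : W SZ) : W S := by
  obtain ⟨z, f, hd⟩ := hW
  obtain ⟨x, rfl⟩ := hπ z
  refine ⟨x, f.comp π, ?_⟩
  have e : (fun n : ℕ => (f.comp π) ((S ^ n) x)) = fun n : ℕ => f ((SZ ^ n) (π x)) := by
    funext n
    show f (π ((S ^ n) x)) = _
    rw [P8_iter S SZ π h]
  rw [e]
  exact hd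

theorem W_of_sub {Y : Type v} [NormedAddCommGroup Y] [NormedSpace ℂ Y] (S : X →L[ℂ] X)
    (SY : Y →L[ℂ] Y) (ι : Y →L[ℂ] X) (hι : ∀ y, ‖ι y‖ = ‖y‖)
    (h : ∀ y, ι (SY y) = S (ι y)) (hW : W SY) : W S := by
  obtain ⟨y, f, hd⟩ := hW
  let ιi : Y →ₗᵢ[ℂ] X := ⟨ι.toLinearMap, hι⟩
  have hιi : ∀ y, ιi y = ι y := fun _ => rfl
  let e := ιi.equivRange
  let f' : StrongDual ℂ (LinearMap.range ιi.toLinearMap) :=
    f.comp (e.symm.toContinuousLinearEquiv : _ →L[ℂ] Y)
  obtain ⟨g, hg, -⟩ := exists_extension_norm_eq (LinearMap.range ιi.toLinearMap) f'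
  have hgι : ∀ y, g (ι y) = f y := by
    intro y
    have h1 := hg (e y)
    have h2 : ((e y : LinearMap.range ιi.toLinearMap) : X) = ι y := rfl
    rw [h2] at h1
    rw [h1]
    show f (e.symm (e y)) = f y
    rw [e.symm_apply_apply]
  refine ⟨ι y, g, ?_⟩
  have e : (fun n : ℕ => g ((S ^ n) (ι y))) = fun n : ℕ => f ((SY ^ n) y) := by
    funext n
    rw [← hgι, P8_iter SY S ι h]
  rw [e]
  exact hd

end WNH
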