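import Pool.Agent.WNH.D0
import Pool.Agent.WNH.P8

/-!
Row [WN-D2]. Reduction to a cyclic and cocyclic pair. Uses `W_of_factor`, `W_of_sub` (P8).
-/

namespace WNH
open Filter Topology Metric
universe u
variable {X : Type u} [NormedAddCommGroup X] [NormedSpace ℂ X] [CompleteSpace X]

theorem D2_aeval {X₁ X₂ : Type*} [NormedAddCommGroup X₁] [NormedSpace ℂ X₁]
    [NormedAddCommGroup X₂] [NormedSpace ℂ X₂] (S₁ : X₁ →L[ℂ] X₁) (S₂ : X₂ →L[ℂ] X₂)
    (ι : X₁ →L[ℂ] X₂) (h : ∀ y, ι (S₁ y) = S₂ (ι y)) (q : Polynomial ℂ) (y : X₁) :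
    ι ((Polynomial.aeval S₁ q) y) = (Polynomial.aeval S₂ q) (ι y) := by
  induction q using Polynomial.induction_on' with
  | add p q hp hq =>
    rw [map_add, map_add]
    change ι ((Polynomial.aeval S₁ p) y + (Polynomial.aeval S₁ q) y)
      = (Polynomial.aeval S₂ p) (ι y) + (Polynomial.aeval S₂ q) (ι y)
    rw [map_add, hp, hq]
  | monomial n a =>
    rw [Polynomial.aeval_monomial, Polynomial.aeval_monomial, Algebra.algebraMap_eq_smul_one,
      Algebra.algebraMap_eq_smul_one, smul_mul_assoc, smul_mul_assoc, one_mul, one_mul]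
    change ι (a • (S₁ ^ n) y) = a • (S₂ ^ n) (ι y)
    rw [map_smul]
    congr 1
    induction n generalizing y with
    | zero => rfl
    | succ n ih =>
      rw [pow_succ, pow_succ]
      change ι ((S₁ ^ n) (S₁ y)) = (S₂ ^ n) (S₂ (ι y))
      rw [ih, h]

theorem reduce (T : X →L[ℂ] X) (x : X) (f : StrongDual ℂ X) :
    ∃ (Y : Type u) (_ : NormedAddCommGroup Y) (_ : NormedSpace ℂ Y) (_ : CompleteSpace Y)
      (TY : Y →L[ℂ] Y) (y₀ : Y) (g : StrongDual ℂ Y),
      (∀ n : ℕ, g ((TY ^ n) y₀) = f ((T ^ n) x)) ∧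
      Dense ((Submodule.span ℂ (Set.range fun n : ℕ => (TY ^ n) y₀) : Submodule ℂ Y) : Set Y) ∧
      (∀ y : Y, (∀ n : ℕ, g ((TY ^ n) y) = 0) → y = 0) ∧
      (∀ c : ℂ, W (c • TY) → W (c • T)) ∧ (∀ z : ℂ, Appr T z → Appr TY z) := by
  have hsucc : ∀ (n : ℕ) (y : X), (T ^ n) (T y) = (T ^ (n + 1)) y := by
    intro n y
    rw [pow_succ]
    rfl
  let M₀ : Submodule ℂ X := Submodule.span ℂ (Set.range fun n : ℕ => (T ^ n) x)
  let M : Submodule ℂ X := M₀.topologicalClosure
  have hM₀T : ∀ y ∈ M₀, T y ∈ M₀ := by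
    intro y hy
    have h1 : M₀ ≤ M₀.comap T.toLinearMap := by
      rw [Submodule.span_le]
      rintro _ ⟨n, rfl⟩
      change T ((T ^ n) x) ∈ M₀
      apply Submodule.subset_span
      refine ⟨n + 1, ?_⟩
      change (T ^ (n + 1)) x = T ((T ^ n) x)
      rw [pow_succ']
      rfl
    exact h1 hy
  have hMT : ∀ y ∈ M, T y ∈ M := by
    intro y hy
    exact map_mem_closure T.continuous hy (fun z hz => hM₀T z hz)
  have hMc : IsClosed (M : Set X) := Submodule.isClosed_topologicalClosure _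
  haveI : CompleteSpace M := hMc.completeSpace_coe
  let TM : M →L[ℂ] M := (T.comp M.subtypeL).codRestrict M (fun y => hMT y y.2)
  have hTM : ∀ y : M, M.subtypeL (TM y) = T (M.subtypeL y) := fun y => rfl
  have hTMn : ∀ (n : ℕ) (y : M), M.subtypeL ((TM ^ n) y) = (T ^ n) (M.subtypeL y) :=
    P8_iter TM T M.subtypeL hTM
  let K : Submodule ℂ M := ⨅ n : ℕ, LinearMap.ker (f.comp ((T ^ n).comp M.subtypeL)).toLinearMap
  have hKmem : ∀ y : M, y ∈ K ↔ ∀ n : ℕ, f ((T ^ n) (y : X)) = 0 := by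
    intro y
    simp only [K, Submodule.mem_iInf, LinearMap.mem_ker]
    rfl
  haveI hKc : IsClosed (K : Set M) := by
    have h1 : (K : Set M) = ⋂ n : ℕ, {y : M | f ((T ^ n) (y : X)) = 0} := by
      ext y
      simp only [SetLike.mem_coe, hKmem, Set.mem_iInter, Set.mem_setOf_eq]
    rw [h1]
    refine isClosed_iInter fun n => isClosed_eq ?_ continuous_const
    fun_prop
  have hKT : K ≤ LinearMap.ker (K.mkQL.comp TM).toLinearMap := by
    intro y hy
    rw [LinearMap.mem_ker]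
    change K.mkQ (TM y) = 0
    rw [Submodule.mkQ_apply, Submodule.Quotient.mk_eq_zero, hKmem]
    intro n
    change f ((T ^ n) (T (y : X))) = 0
    rw [hsucc]
    exact (hKmem y).mp hy (n + 1)
  have hKf : K ≤ LinearMap.ker (f.comp M.subtypeL).toLinearMap := by
    intro y hy
    rw [LinearMap.mem_ker]
    exact (hKmem y).mp hy 0
  let TY : (M ⧸ K) →L[ℂ] (M ⧸ K) := K.liftQL (K.mkQL.comp TM) hKT
  let g : StrongDual ℂ (M ⧸ K) := K.liftQL (f.comp M.subtypeL) hKf
  have hTY : ∀ y : M, K.mkQL (TM y) = TY (K.mkQL y) := fun y => rfl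
  have hTYn : ∀ (n : ℕ) (y : M), K.mkQL ((TM ^ n) y) = (TY ^ n) (K.mkQL y) :=
    P8_iter TM TY K.mkQL hTY
  have hg : ∀ y : M, g (K.mkQL y) = f (y : X) := fun y => rfl
  have hgn : ∀ (n : ℕ) (y : M), g ((TY ^ n) (K.mkQL y)) = f ((T ^ n) (y : X)) := by
    intro n y
    rw [← hTYn, hg]
    have := hTMn n y
    change ((TM ^ n) y : X) = (T ^ n) (y : X) at this
    rw [this]
  have hsurj : Function.Surjective K.mkQL := K.mkQ_surjective
  have hx₀ : x ∈ M₀ := Submodule.subset_span ⟨0, rfl⟩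
  have hx : x ∈ M := M₀.le_topologicalClosure hx₀
  refine ⟨M ⧸ K, inferInstance, inferInstance, inferInstance, TY, K.mkQL ⟨x, hx⟩, g, ?_, ?_, ?_,
    ?_, ?_⟩
  · intro n
    exact hgn n ⟨x, hx⟩
  · -- cyclic
    let S' : Submodule ℂ M := Submodule.span ℂ (Set.range fun n : ℕ => (TM ^ n) ⟨x, hx⟩)
    have h1 : S'.map M.subtype = M₀ := by
      rw [Submodule.map_span, ← Set.range_comp]
      congr 2
      funext n
      exact hTMn n ⟨x, hx⟩
    have h2 : Dense (S' : Set M) := by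
      rw [Subtype.dense_iff]
      intro y hy
      have h3 : (Subtype.val '' (S' : Set M)) = (M₀ : Set X) := by
        rw [← h1]; rfl
      have h6 : y ∈ closure (M₀ : Set X) := hy
      rw [← h3] at h6
      exact h6
    have h3 : Dense (K.mkQL '' (S' : Set M)) :=
      hsurj.denseRange.dense_image K.mkQL.continuous h2
    have h4 : (K.mkQL '' (S' : Set M))
        = ((Submodule.span ℂ (Set.range fun n : ℕ => (TY ^ n) (K.mkQL ⟨x, hx⟩)) :
          Submodule ℂ (M ⧸ K)) : Set (M ⧸ K)) := by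
      have h5 : S'.map K.mkQ = Submodule.span ℂ (Set.range fun n : ℕ => (TY ^ n)
          (K.mkQL ⟨x, hx⟩)) := by
        rw [Submodule.map_span, ← Set.range_comp]
        congr 2
        funext n
        exact hTYn n ⟨x, hx⟩
      rw [← h5]
      rfl
    rw [← h4]
    exact h3
  · intro y hy
    obtain ⟨m, rfl⟩ := hsurj y
    have h1 : m ∈ K := by
      rw [hKmem]
      intro n
      rw [← hgn n m]
      exact hy n
    change K.mkQ m = 0
    rw [Submodule.mkQ_apply, Submodule.Quotient.mk_eq_zero]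
    exact h1
  · intro c hW
    have h1 : W (c • TM) := by
      refine W_of_factor (c • TM) (c • TY) K.mkQL hsurj ?_ hW
      intro y
      change K.mkQL (c • TM y) = c • TY (K.mkQL y)
      rw [map_smul, hTY]
    refine W_of_sub (c • T) (c • TM) M.subtypeL (fun y => rfl) ?_ h1
    intro y
    rfl
  · intro z hz ε hε
    obtain ⟨p, hp⟩ := hz ε hε
    refine ⟨p, ?_⟩
    obtain ⟨q, hq⟩ : ∃ q : Polynomial ℂ, q = (Polynomial.C z - Polynomial.X) * p - 1 := ⟨_, rfl⟩
    have hqT : (z • (1 : X →L[ℂ] X) - T) * Polynomial.aeval T p - 1 = Polynomial.aeval T q := by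
      rw [hq, map_sub, map_one, map_mul, map_sub, Polynomial.aeval_C, Polynomial.aeval_X,
        Algebra.algebraMap_eq_smul_one]
    have hqTY : (z • (1 : (M ⧸ K) →L[ℂ] (M ⧸ K)) - TY) * Polynomial.aeval TY p - 1
        = Polynomial.aeval TY q := by
      rw [hq, map_sub, map_one, map_mul, map_sub, Polynomial.aeval_C, Polynomial.aeval_X,
        Algebra.algebraMap_eq_smul_one]
    rw [hqT] at hp
    rw [hqTY]
    refine lt_of_le_of_lt ?_ hp
    have hM1 : ∀ y : M, ‖(Polynomial.aeval TM q) y‖ ≤ ‖Polynomial.aeval T q‖ * ‖y‖ := by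
      intro y
      have h1 := D2_aeval TM T M.subtypeL hTM q y
      have h2 : ‖(Polynomial.aeval TM q) y‖ = ‖M.subtypeL ((Polynomial.aeval TM q) y)‖ := rfl
      rw [h2, h1]
      exact (Polynomial.aeval T q).le_opNorm _
    apply ContinuousLinearMap.opNorm_le_bound _ (norm_nonneg _)
    intro y
    apply le_of_forall_pos_le_add
    intro δ hδ
    obtain ⟨η, hη⟩ : ∃ η : ℝ, η = δ / (‖Polynomial.aeval T q‖ + 1) := ⟨_, rfl⟩
    have hη0 : 0 < η := by rw [hη]; positivity
    have hηδ : ‖Polynomial.aeval T q‖ * η ≤ δ := by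
      rw [hη, mul_div_assoc', div_le_iff₀ (by positivity)]
      nlinarith [norm_nonneg (Polynomial.aeval T q)]
    obtain ⟨m, hm, hmn⟩ := Submodule.Quotient.norm_mk_lt y hη0
    have h1 : K.mkQL m = y := hm
    have h2 := D2_aeval TM TY K.mkQL hTY q m
    rw [← h1, ← h2]
    have h3 : ‖K.mkQL ((Polynomial.aeval TM q) m)‖ ≤ ‖(Polynomial.aeval TM q) m‖ :=
      Submodule.Quotient.norm_mk_le K _
    rw [h1]
    calc ‖K.mkQL ((Polynomial.aeval TM q) m)‖ ≤ ‖(Polynomial.aeval TM q) m‖ := h3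
      _ ≤ ‖Polynomial.aeval T q‖ * ‖m‖ := hM1 m
      _ ≤ ‖Polynomial.aeval T q‖ * (‖y‖ + η) :=
          mul_le_mul_of_nonneg_left hmn.le (norm_nonneg _)
      _ ≤ ‖Polynomial.aeval T q‖ * ‖y‖ + δ := by rw [mul_add]; linarith

end WNH
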