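import Pool.Agent.WNH.Defs

/-!
Row [WN-N1t]. Trichotomy on a residue class.
-/

namespace WNH
open Filter Topology Metric

namespace N1tAux

theorem choose_lower (n d : ℕ) (h : 2 * d ≤ n) (hn : 1 ≤ n) :
    (n : ℝ) ^ d ≤ (d.factorial * 2 ^ d : ℝ) * (n.choose d : ℝ) := by
  have h1 : (((n + 1 - d : ℕ) ^ d : ℕ) : ℝ) ≤ (d.factorial : ℝ) * (n.choose d : ℝ) := by
    have := Nat.pow_le_choose (α := ℝ) d n
    rw [div_le_iff₀ (by positivity)] at this
    push_cast at this ⊢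
    linarith
  have h2 : (n : ℝ) / 2 ≤ ((n + 1 - d : ℕ) : ℝ) := by
    have h3 : n ≤ 2 * (n + 1 - d) := by omega
    have h4 : (n : ℝ) ≤ 2 * ((n + 1 - d : ℕ) : ℝ) := by exact_mod_cast h3
    linarith
  have h3 : ((n : ℝ) / 2) ^ d ≤ ((n + 1 - d : ℕ) : ℝ) ^ d :=
    pow_le_pow_left₀ (by positivity) h2 d
  rw [div_pow, div_le_iff₀ (by positivity)] at h3
  push_cast at h1 h3
  calc (n : ℝ) ^ d ≤ ((n + 1 - d : ℕ) : ℝ) ^ d * 2 ^ d := h3
    _ ≤ ((d.factorial : ℝ) * (n.choose d : ℝ)) * 2 ^ d :=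
        mul_le_mul_of_nonneg_right h1 (by positivity)
    _ = (d.factorial * 2 ^ d : ℝ) * (n.choose d : ℝ) := by ring

theorem choose_upper (n j : ℕ) : (n.choose j : ℝ) ≤ (n : ℝ) ^ j := by
  have h1 := Nat.choose_le_pow_div (α := ℝ) j n
  refine h1.trans ?_
  apply div_le_self (by positivity)
  exact_mod_cast Nat.succ_le_of_lt (Nat.factorial_pos j)

theorem growth (ρ : ℝ) (d : ℕ) (h : 1 < ρ ∨ (ρ = 1 ∧ 1 ≤ d)) :
    Tendsto (fun n : ℕ => (n.choose d : ℝ) * ρ ^ n) atTop atTop := by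
  rcases h with h | ⟨h1, h2⟩
  · refine tendsto_atTop_mono' _ ?_ (tendsto_pow_atTop_atTop_of_one_lt h)
    filter_upwards [eventually_ge_atTop d] with n hn
    have h1 : (1 : ℝ) ≤ n.choose d := by exact_mod_cast Nat.choose_pos hn
    have h2 : 0 < ρ ^ n := by positivity
    nlinarith
  · subst h1
    have h3 : Tendsto (fun n : ℕ => (n : ℝ) / (d.factorial * 2 ^ d : ℝ)) atTop atTop :=
      tendsto_natCast_atTop_atTop.atTop_div_const (by positivity)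
    refine tendsto_atTop_mono' _ ?_ h3
    filter_upwards [eventually_ge_atTop (2 * d), eventually_ge_atTop 1] with n hn hn1
    have h4 := choose_lower n d hn hn1
    have h5 : (n : ℝ) ≤ (n : ℝ) ^ d := by
      have : (1 : ℝ) ≤ n := by exact_mod_cast hn1
      exact le_self_pow₀ this (by omega)
    rw [one_pow, mul_one, div_le_iff₀ (by positivity)]
    linarith

theorem ratio (σ ρ : ℝ) (j d : ℕ) (hσ : 0 ≤ σ) (hρ : 0 < ρ) (h : σ < ρ ∨ (σ = ρ ∧ j < d)) :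
    Tendsto (fun n : ℕ => ((n.choose j : ℝ) * σ ^ n) / ((n.choose d : ℝ) * ρ ^ n)) atTop
      (𝓝 0) := by
  rcases h with h | ⟨h1, h2⟩
  · have hr : |σ / ρ| < 1 := by
      rw [abs_of_nonneg (by positivity), div_lt_one hρ]
      exact h
    have h1 := tendsto_pow_const_mul_const_pow_of_abs_lt_one j hr
    refine squeeze_zero' (Eventually.of_forall fun m => by positivity) ?_ h1
    filter_upwards [eventually_ge_atTop d] with n hn
    have h2 : (1 : ℝ) ≤ n.choose d := by exact_mod_cast Nat.choose_pos hn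
    have h3 := choose_upper n j
    rw [div_pow, div_le_iff₀ (by positivity)]
    have h4 : (n : ℝ) ^ j * (σ ^ n / ρ ^ n) * ((n.choose d : ℝ) * ρ ^ n)
        = (n : ℝ) ^ j * σ ^ n * (n.choose d : ℝ) := by field_simp
    rw [h4]
    have h5 : 0 ≤ σ ^ n := by positivity
    calc (n.choose j : ℝ) * σ ^ n ≤ (n : ℝ) ^ j * σ ^ n := mul_le_mul_of_nonneg_right h3 h5
      _ = (n : ℝ) ^ j * σ ^ n * 1 := by ring
      _ ≤ (n : ℝ) ^ j * σ ^ n * (n.choose d : ℝ) :=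
          mul_le_mul_of_nonneg_left h2 (by positivity)
  · subst h1
    have h3 : Tendsto (fun n : ℕ => (d.factorial * 2 ^ d : ℝ) * ((n : ℝ))⁻¹) atTop (𝓝 0) := by
      have := (tendsto_inv_atTop_nhds_zero_nat (𝕜 := ℝ)).const_mul (d.factorial * 2 ^ d : ℝ)
      rwa [mul_zero] at this
    refine squeeze_zero' (Eventually.of_forall fun m => by positivity) ?_ h3
    filter_upwards [eventually_ge_atTop (2 * d), eventually_ge_atTop 1] with n hn hn1
    have h4 := choose_lower n d hn hn1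
    have h5 := choose_upper n j
    have hσn : 0 < σ ^ n := by positivity
    have hn0 : (0 : ℝ) < n := by exact_mod_cast hn1
    have hn1' : (1 : ℝ) ≤ n := by exact_mod_cast hn1
    have hch : (0 : ℝ) < n.choose d := by
      have := Nat.choose_pos (show d ≤ n by omega)
      exact_mod_cast this
    rw [mul_div_mul_right _ _ hσn.ne', div_le_iff₀ hch]
    have h6 : (n : ℝ) ^ j * n ≤ (n : ℝ) ^ d := by
      rw [← pow_succ]
      exact pow_le_pow_right₀ hn1' (by omega)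
    have h7 : (n.choose j : ℝ) * n ≤ (d.factorial * 2 ^ d : ℝ) * (n.choose d : ℝ) := by
      calc (n.choose j : ℝ) * n ≤ (n : ℝ) ^ j * n := mul_le_mul_of_nonneg_right h5 hn0.le
        _ ≤ (n : ℝ) ^ d := h6
        _ ≤ _ := h4
    have h8 : (d.factorial * 2 ^ d : ℝ) * (n : ℝ)⁻¹ * (n.choose d : ℝ)
        = ((d.factorial * 2 ^ d : ℝ) * (n.choose d : ℝ)) / n := by
      field_simp
    rw [h8, le_div_iff₀ hn0]
    exact h7

end N1tAux

open N1tAux

theorem trichotomy (A : Finset (ℂ × ℕ)) (c : ℂ × ℕ → ℂ)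
    (hA : ∀ a ∈ A, 1 < ‖a.1‖ ∨ (‖a.1‖ = 1 ∧ 1 ≤ a.2)) (N i : ℕ) (hN : 0 < N) :
    Tendsto (fun m : ℕ => ‖∑ a ∈ A, c a * ((N * m + i).choose a.2 : ℂ) * a.1 ^ (N * m + i)‖)
        atTop atTop ∨
    (∀ m : ℕ, ∑ a ∈ A, c a * ((N * m + i).choose a.2 : ℂ) * a.1 ^ (N * m + i) = 0) ∨
    (∃ a ∈ A, ∃ b ∈ A, a.2 = b.2 ∧ ‖a.1‖ = ‖b.1‖ ∧ a.1 ^ N ≠ b.1 ^ N ∧
      ∀ m : ℕ, ∑ x ∈ A, c x * ((N * m + i).choose x.2 : ℂ) * x.1 ^ (N * m + i) =
        ∑ x ∈ A.filter (fun x => ‖x.1‖ < ‖a.1‖ ∨ (‖x.1‖ = ‖a.1‖ ∧ x.2 ≤ a.2)),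
          c x * ((N * m + i).choose x.2 : ℂ) * x.1 ^ (N * m + i)) := by
  classical
  induction hcard : A.card using Nat.strong_induction_on generalizing A with
  | _ k ih =>
  rcases A.eq_empty_or_nonempty with hemp | hne
  · right; left
    intro m
    rw [hemp, Finset.sum_empty]
  let lev : ℂ × ℕ → ℝ ×ₗ ℕ := fun a => toLex (‖a.1‖, a.2)
  obtain ⟨a₀, ha₀, hmax⟩ := Finset.exists_max_image A lev hne
  have hlev : ∀ x ∈ A, ‖x.1‖ < ‖a₀.1‖ ∨ (‖x.1‖ = ‖a₀.1‖ ∧ x.2 ≤ a₀.2) := by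
    intro x hx
    have h1 := hmax x hx
    rw [Prod.Lex.le_iff] at h1
    exact h1
  have hρpos : 0 < ‖a₀.1‖ := by
    rcases hA a₀ ha₀ with h | h
    · linarith
    · rw [h.1]; norm_num
  by_cases hcase : ∃ a ∈ A, ∃ b ∈ A, (‖a.1‖ = ‖a₀.1‖ ∧ a.2 = a₀.2) ∧
      (‖b.1‖ = ‖a₀.1‖ ∧ b.2 = a₀.2) ∧ a.1 ^ N ≠ b.1 ^ N
  · obtain ⟨a, ha, b, hb, ⟨ha1, ha2⟩, ⟨hb1, hb2⟩, hab⟩ := hcase
    right; right
    refine ⟨a, ha, b, hb, by rw [ha2, hb2], by rw [ha1, hb1], hab, ?_⟩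
    intro m
    have h1 : A.filter (fun x => ‖x.1‖ < ‖a.1‖ ∨ (‖x.1‖ = ‖a.1‖ ∧ x.2 ≤ a.2)) = A := by
      apply Finset.filter_true_of_mem
      intro x hx
      rw [ha1, ha2]
      exact hlev x hx
    rw [h1]
  push Not at hcase
  obtain ⟨A₀, hA₀⟩ : ∃ A₀ : Finset (ℂ × ℕ),
    A₀ = A.filter (fun x => ‖x.1‖ = ‖a₀.1‖ ∧ x.2 = a₀.2) := ⟨_, rfl⟩
  obtain ⟨A₁, hA₁⟩ : ∃ A₁ : Finset (ℂ × ℕ),
    A₁ = A.filter (fun x => ¬ (‖x.1‖ = ‖a₀.1‖ ∧ x.2 = a₀.2)) := ⟨_, rfl⟩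
  have hsplit : ∀ m : ℕ, ∑ a ∈ A, c a * ((N * m + i).choose a.2 : ℂ) * a.1 ^ (N * m + i)
      = (∑ a ∈ A₀, c a * ((N * m + i).choose a.2 : ℂ) * a.1 ^ (N * m + i))
        + ∑ a ∈ A₁, c a * ((N * m + i).choose a.2 : ℂ) * a.1 ^ (N * m + i) := by
    intro m
    rw [hA₀, hA₁, Finset.sum_filter_add_sum_filter_not]
  obtain ⟨κ, hκ⟩ : ∃ κ : ℂ, κ = ∑ a ∈ A₀, c a * a.1 ^ i := ⟨_, rfl⟩
  have hmain : ∀ m : ℕ, ∑ a ∈ A₀, c a * ((N * m + i).choose a.2 : ℂ) * a.1 ^ (N * m + i)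
      = ((N * m + i).choose a₀.2 : ℂ) * (a₀.1 ^ N) ^ m * κ := by
    intro m
    rw [hκ, Finset.mul_sum]
    apply Finset.sum_congr rfl
    intro a ha
    rw [hA₀, Finset.mem_filter] at ha
    have h1 : a.1 ^ N = a₀.1 ^ N := hcase a ha.1 a₀ ha₀ ha.2 ⟨rfl, rfl⟩
    rw [ha.2.2, pow_add, pow_mul, h1]
    ring
  have hlow : ∀ x ∈ A₁, ‖x.1‖ < ‖a₀.1‖ ∨ (‖x.1‖ = ‖a₀.1‖ ∧ x.2 < a₀.2) := by
    intro x hx
    rw [hA₁, Finset.mem_filter] at hx
    rcases hlev x hx.1 with h | ⟨h1, h2⟩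
    · exact Or.inl h
    · right
      refine ⟨h1, lt_of_le_of_ne h2 ?_⟩
      intro h3
      exact hx.2 ⟨h1, h3⟩
  by_cases hκ0 : κ = 0
  · -- the induction
    have hcard1 : A₁.card < k := by
      rw [← hcard]
      apply Finset.card_lt_card
      rw [Finset.ssubset_iff_subset_ne]
      refine ⟨by rw [hA₁]; exact Finset.filter_subset _ _, ?_⟩
      intro h
      have h1 : a₀ ∈ A₁ := by rw [h]; exact ha₀
      rw [hA₁, Finset.mem_filter] at h1
      exact h1.2 ⟨rfl, rfl⟩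
    have hA₁A : A₁ ⊆ A := by rw [hA₁]; exact Finset.filter_subset _ _
    have hsum : ∀ m : ℕ, ∑ a ∈ A, c a * ((N * m + i).choose a.2 : ℂ) * a.1 ^ (N * m + i)
      = ∑ a ∈ A₁, c a * ((N * m + i).choose a.2 : ℂ) * a.1 ^ (N * m + i) := by
      intro m
      rw [hsplit m, hmain m, hκ0, mul_zero, zero_add]
    rcases ih A₁.card hcard1 A₁ (fun a ha => hA a (hA₁A ha)) rfl with h | h | h
    · left
      simpa only [hsum] using h
    · right; left
      intro m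
      rw [hsum m]; exact h m
    · right; right
      obtain ⟨a, ha, b, hb, h1, h2, h3, h4⟩ := h
      refine ⟨a, hA₁A ha, b, hA₁A hb, h1, h2, h3, ?_⟩
      intro m
      rw [hsum m, h4 m]
      have h5 : A₁.filter (fun x => ‖x.1‖ < ‖a.1‖ ∨ (‖x.1‖ = ‖a.1‖ ∧ x.2 ≤ a.2))
          = A.filter (fun x => ‖x.1‖ < ‖a.1‖ ∨ (‖x.1‖ = ‖a.1‖ ∧ x.2 ≤ a.2)) := by
        ext x
        rw [hA₁, Finset.mem_filter, Finset.mem_filter, Finset.mem_filter]
        constructor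
        · rintro ⟨⟨hx1, -⟩, hx3⟩
          exact ⟨hx1, hx3⟩
        · rintro ⟨hx1, hx3⟩
          refine ⟨⟨hx1, ?_⟩, hx3⟩
          rintro ⟨hx4, hx5⟩
          have h6 := hlow a ha
          rw [hx4, hx5] at hx3
          rcases h6 with h6 | ⟨h6, h7⟩
          · rcases hx3 with h8 | ⟨h8, -⟩
            · linarith
            · linarith
          · rcases hx3 with h8 | ⟨-, h8⟩
            · linarith
            · omega
      rw [h5]
  · -- the leading term wins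
    left
    have hκn : 0 < ‖κ‖ := norm_pos_iff.mpr hκ0
    have hn : Tendsto (fun m : ℕ => N * m + i) atTop atTop := by
      refine tendsto_atTop_mono (fun m => ?_) tendsto_id
      have h1 : 1 * m ≤ N * m := Nat.mul_le_mul_right m hN
      simp only [id]
      omega
    obtain ⟨Mn, hMn⟩ : ∃ Mn : ℕ → ℂ, ∀ m, Mn m = ((N * m + i).choose a₀.2 : ℂ) *
      (a₀.1 ^ N) ^ m * κ := ⟨_, fun _ => rfl⟩
    have hρi : 0 < ‖a₀.1‖ ^ i := by positivity
    have hMnn : ∀ m, ‖Mn m‖ = ((N * m + i).choose a₀.2 : ℝ) * ‖a₀.1‖ ^ (N * m + i)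
        * (‖κ‖ / ‖a₀.1‖ ^ i) := by
      intro m
      rw [hMn, norm_mul, norm_mul, Complex.norm_natCast, norm_pow, norm_pow, pow_add, pow_mul]
      field_simp
    have hMnt : Tendsto (fun m => ‖Mn m‖) atTop atTop := by
      simp only [hMnn]
      exact ((growth ‖a₀.1‖ a₀.2 (hA a₀ ha₀)).comp hn).atTop_mul_const (by positivity)
    have hMn0 : ∀ᶠ m in atTop, Mn m ≠ 0 := by
      filter_upwards [hMnt.eventually_gt_atTop 0] with m hm
      exact norm_pos_iff.mp hm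
    have hrest : Tendsto (fun m : ℕ => (∑ a ∈ A₁, c a * ((N * m + i).choose a.2 : ℂ) *
        a.1 ^ (N * m + i)) / Mn m) atTop (𝓝 0) := by
      have h1 : Tendsto (fun m : ℕ => ∑ a ∈ A₁, (c a * ((N * m + i).choose a.2 : ℂ) *
        a.1 ^ (N * m + i)) / Mn m) atTop (𝓝 (∑ a ∈ A₁, (0 : ℂ))) := by
        apply tendsto_finsetSum
        intro x hx
        rw [tendsto_zero_iff_norm_tendsto_zero]
        have h2 := ((ratio ‖x.1‖ ‖a₀.1‖ x.2 a₀.2 (norm_nonneg _) hρpos (hlow x hx)).comp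
          hn).const_mul (‖c x‖ * (‖κ‖ / ‖a₀.1‖ ^ i)⁻¹)
        rw [mul_zero] at h2
        refine h2.congr ?_
        intro m
        rw [norm_div, hMnn, norm_mul, norm_mul, Complex.norm_natCast, norm_pow]
        simp only [Function.comp]
        simp only [div_eq_mul_inv, mul_inv, inv_inv]
        ring
      simp only [Finset.sum_const_zero] at h1
      refine h1.congr ?_
      intro m
      rw [Finset.sum_div]
    have h1 : Tendsto (fun m : ℕ => ‖1 + (∑ a ∈ A₁, c a * ((N * m + i).choose a.2 : ℂ) *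
        a.1 ^ (N * m + i)) / Mn m‖) atTop (𝓝 1) := by
      have h2 := (hrest.const_add 1).norm
      simpa using h2
    have h2 := hMnt.atTop_mul_pos one_pos h1
    refine h2.congr' ?_
    filter_upwards [hMn0] with m hm
    rw [← norm_mul, hsplit m, hmain m, ← hMn m, mul_add, mul_one, mul_div_cancel₀ _ hm]

end WNH
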