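import Pool.Agent.WNH.P10
import Pool.Agent.WNH.N1t

/-!
Row [WN-D4]. Uses `peel'` (P10), `top_eigen` (P7a), G0 and the two growth lemmas of N1t.
A cyclic, cocyclic pair with a single eigenvalue direction.
-/

namespace WNH
open Filter Topology Metric
universe u
variable {X : Type u} [NormedAddCommGroup X] [NormedSpace ℂ X]

theorem D4_meagre (F : ℕ → ℂ) (h : (∃ c : ℝ, Tendsto (fun n => ‖F n‖) atTop (𝓝 c)) ∨
    Tendsto (fun n => ‖F n‖) atTop atTop) : interior (closure (Set.range F)) = ∅ := by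
  have hclu : ∀ z ∈ closure (Set.range F), z ∉ Set.range F → MapClusterPt z atTop F := by
    intro z hz hzr
    rw [mapClusterPt_iff_frequently]
    intro s hs
    rw [frequently_atTop]
    intro N
    have hfin : (F '' (Set.Iio N)).Finite := (Set.finite_Iio N).image F
    have hz' : z ∉ F '' (Set.Iio N) := by
      rintro ⟨n, -, rfl⟩
      exact hzr ⟨n, rfl⟩
    have h1 : (F '' (Set.Iio N))ᶜ ∈ 𝓝 z := hfin.isClosed.isOpen_compl.mem_nhds hz'
    obtain ⟨w, ⟨hw1, hw2⟩, n, rfl⟩ := mem_closure_iff_nhds.mp hz _ (inter_mem hs h1)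
    refine ⟨n, ?_, hw1⟩
    by_contra hcon
    push Not at hcon
    exact hw2 ⟨n, hcon, rfl⟩
  obtain ⟨c, hc⟩ : ∃ c : ℝ, closure (Set.range F) ⊆ Set.range F ∪ sphere (0 : ℂ) c := by
    rcases h with ⟨c, hc⟩ | hc
    · refine ⟨c, ?_⟩
      intro z hz
      by_cases hzr : z ∈ Set.range F
      · exact Or.inl hzr
      · right
        have h1 := hclu z hz hzr
        rw [mapClusterPt_iff_ultrafilter] at h1
        obtain ⟨𝒰, h𝒰, hzU⟩ := h1
        have h2 := tendsto_nhds_unique (hzU.norm) (hc.mono_left h𝒰)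
        rw [mem_sphere, dist_zero_right]
        exact h2
    · refine ⟨0, ?_⟩
      intro z hz
      by_cases hzr : z ∈ Set.range F
      · exact Or.inl hzr
      · exfalso
        have h1 := hclu z hz hzr
        rw [mapClusterPt_iff_ultrafilter] at h1
        obtain ⟨𝒰, h𝒰, hzU⟩ := h1
        exact not_tendsto_nhds_of_tendsto_atTop (hc.mono_left h𝒰) _ hzU.norm
  have hvol : MeasureTheory.volume (closure (Set.range F)) = 0 := by
    refine MeasureTheory.measure_mono_null hc ?_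
    rw [MeasureTheory.measure_union_null_iff]
    refine ⟨(Set.countable_range F).measure_zero _, ?_⟩
    exact MeasureTheory.Measure.addHaar_sphere MeasureTheory.volume (0 : ℂ) c
  exact MeasureTheory.Measure.interior_eq_empty_of_null hvol

theorem D4_root (S : X →L[ℂ] X) (l : ℂ) (d : ℕ) :
    ∀ q : Polynomial ℂ, q.natDegree ≤ d → q ≠ 0 →
      (∀ z : ℂ, q.IsRoot z → z ≠ l → ∀ v : X, S v = z • v → v = 0) →
      ∀ y : X, (Polynomial.aeval S q) y = 0 → ((S - l • (1 : X →L[ℂ] X)) ^ d) y = 0 := by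
  induction d with
  | zero =>
    intro q hq hq0 _ y hy
    have h1 : q = Polynomial.C (q.coeff 0) := Polynomial.eq_C_of_natDegree_le_zero hq
    have h2 : q.coeff 0 ≠ 0 := by
      intro h
      rw [h, Polynomial.C_0] at h1
      exact hq0 h1
    rw [h1, Polynomial.aeval_C, Algebra.algebraMap_eq_smul_one] at hy
    have h3 : (q.coeff 0) • y = 0 := hy
    exact (smul_eq_zero.mp h3).resolve_left h2
  | succ d ih =>
    intro q hq hq0 hroot y hy
    have hpow : ∀ y : X, ((S - l • (1 : X →L[ℂ] X)) ^ d) y = 0 →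
        ((S - l • (1 : X →L[ℂ] X)) ^ (d + 1)) y = 0 := by
      intro y h
      rw [pow_succ']
      change (S - l • (1 : X →L[ℂ] X)) (((S - l • (1 : X →L[ℂ] X)) ^ d) y) = 0
      rw [h, map_zero]
    by_cases hdeg : q.natDegree = 0
    · exact hpow y (ih q (by omega) hq0 hroot y hy)
    have hdeg' : q.degree ≠ 0 := by
      intro h
      exact hdeg (Polynomial.natDegree_eq_of_degree_eq_some h)
    obtain ⟨z, hz⟩ := IsAlgClosed.exists_root q hdeg'
    obtain ⟨q₁, hq₁⟩ := Polynomial.dvd_iff_isRoot.mpr hz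
    have hq₁0 : q₁ ≠ 0 := by
      intro h
      rw [h, mul_zero] at hq₁
      exact hq0 hq₁
    have hdeg1 : q₁.natDegree ≤ d := by
      have h1 : q.natDegree = 1 + q₁.natDegree := by
        rw [hq₁, Polynomial.natDegree_mul (Polynomial.X_sub_C_ne_zero z) hq₁0,
          Polynomial.natDegree_X_sub_C]
      omega
    have hroot1 : ∀ z' : ℂ, q₁.IsRoot z' → z' ≠ l → ∀ v : X, S v = z' • v → v = 0 := by
      intro z' hz' hne v hv
      refine hroot z' ?_ hne v hv
      rw [hq₁, Polynomial.IsRoot.def, Polynomial.eval_mul, hz', mul_zero]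
    by_cases hzl : z = l
    · subst hzl
      rw [pow_succ]
      change ((S - z • (1 : X →L[ℂ] X)) ^ d) ((S - z • (1 : X →L[ℂ] X)) y) = 0
      apply ih q₁ hdeg1 hq₁0 hroot1
      have h2 : Polynomial.aeval S q₁ * (S - z • (1 : X →L[ℂ] X)) = Polynomial.aeval S q := by
        rw [hq₁, mul_comm (Polynomial.X - Polynomial.C z), map_mul, map_sub, Polynomial.aeval_X,
          Polynomial.aeval_C, Algebra.algebraMap_eq_smul_one]
      have h3 := congrArg (fun A : X →L[ℂ] X => A y) h2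
      rw [hy] at h3
      exact h3
    · apply hpow
      apply ih q₁ hdeg1 hq₁0 hroot1
      apply hroot z hz hzl
      have h2 : (S - z • (1 : X →L[ℂ] X)) * Polynomial.aeval S q₁ = Polynomial.aeval S q := by
        rw [hq₁, map_mul, map_sub, Polynomial.aeval_X,
          Polynomial.aeval_C, Algebra.algebraMap_eq_smul_one]
      have h3 := congrArg (fun A : X →L[ℂ] X => A y) h2
      rw [hy] at h3
      have h4 : S ((Polynomial.aeval S q₁) y) - z • ((Polynomial.aeval S q₁) y) = 0 := h3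
      exact sub_eq_zero.mp h4

theorem D4_pow_apply (S : X →L[ℂ] X) (a b : ℕ) (y : X) :
    (S ^ (a + b)) y = (S ^ a) ((S ^ b) y) := by
  rw [pow_add]; rfl

/-- the expansion of `S ^ n y` for a vector of a Jordan chain. -/
theorem D4_expand (S : X →L[ℂ] X) (l : ℂ) (m : ℕ) (y : X)
    (hm : ((S - l • (1 : X →L[ℂ] X)) ^ m) y = 0) (n : ℕ) (hn : m ≤ n + 1) :
    (S ^ n) y = ∑ j ∈ Finset.range m, ((n.choose j : ℂ) * l ^ (n - j)) •
      ((S - l • (1 : X →L[ℂ] X)) ^ j) y := by
  obtain ⟨D, hD⟩ : ∃ D : X →L[ℂ] X, D = S - l • (1 : X →L[ℂ] X) := ⟨_, rfl⟩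
  have hS : S = D + l • (1 : X →L[ℂ] X) := by rw [hD]; abel
  rw [← hD] at hm ⊢
  have hcomm : Commute D (l • (1 : X →L[ℂ] X)) := by
    rw [commute_iff_eq, mul_smul_comm, smul_mul_assoc, mul_one, one_mul]
  have h1 : (S ^ n) y = ∑ j ∈ Finset.range (n + 1), ((n.choose j : ℂ) * l ^ (n - j)) •
      (D ^ j) y := by
    rw [hS, hcomm.add_pow, ContinuousLinearMap.sum_apply]
    apply Finset.sum_congr rfl
    intro j _
    rw [smul_pow, one_pow, mul_smul_comm, mul_one]
    have h2 : ((n.choose j : ℕ) : X →L[ℂ] X) = (n.choose j : ℂ) • (1 : X →L[ℂ] X) := by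
      rw [Nat.cast_smul_eq_nsmul ℂ, nsmul_one]
    rw [h2, mul_smul_comm, mul_one, smul_smul]
    rfl
  rw [h1]
  symm
  apply Finset.sum_subset
  · intro j hj
    rw [Finset.mem_range] at hj ⊢
    omega
  · intro j _ hj
    rw [Finset.mem_range] at hj
    push Not at hj
    have : j = (j - m) + m := by omega
    rw [this, D4_pow_apply, hm, map_zero, smul_zero]

variable [CompleteSpace X]

theorem D4_gr_smul_le (S : X →L[ℂ] X) (r : ℝ) (hr : 0 < r) : gr ((r : ℂ) • S) ≤ r * gr S := by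
  have h : ∀ R : ℝ, gr S < R → gr ((r : ℂ) • S) ≤ r * R := by
    intro R hR
    obtain ⟨C, hC, hCn⟩ := gr_bound S hR
    have hR0 : 0 < R := lt_of_le_of_lt (gr_nonneg S) hR
    apply gr_le_of_bound (C := C) _ (by positivity)
    intro n
    rw [smul_pow, norm_smul, norm_pow, Complex.norm_real, Real.norm_eq_abs, abs_of_pos hr, mul_pow]
    calc r ^ n * ‖S ^ n‖ ≤ r ^ n * (C * R ^ n) :=
          mul_le_mul_of_nonneg_left (hCn n) (by positivity)
      _ = C * (r ^ n * R ^ n) := by ring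
  by_contra hcon
  push Not at hcon
  have h1 : gr S < gr ((r : ℂ) • S) / r := by
    rw [lt_div_iff₀ hr]; linarith
  obtain ⟨R, hR1, hR2⟩ := exists_between h1
  have h2 := h R hR1
  rw [lt_div_iff₀ hr] at hR2
  linarith

theorem D4_gr_smul (S : X →L[ℂ] X) (r : ℝ) (hr : 0 < r) : gr ((r : ℂ) • S) = r * gr S := by
  apply le_antisymm (D4_gr_smul_le S r hr)
  have h1 := D4_gr_smul_le ((r : ℂ) • S) r⁻¹ (by positivity)
  have h2 : ((r⁻¹ : ℝ) : ℂ) • ((r : ℂ) • S) = S := by
    rw [smul_smul]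
    have : ((r⁻¹ : ℝ) : ℂ) * (r : ℂ) = 1 := by
      rw [← Complex.ofReal_mul, inv_mul_cancel₀ hr.ne', Complex.ofReal_one]
    rw [this, one_smul]
  rw [h2] at h1
  have h3 : r * gr S ≤ r * (r⁻¹ * gr ((r : ℂ) • S)) := mul_le_mul_of_nonneg_left h1 hr.le
  have h4 : r * (r⁻¹ * gr ((r : ℂ) • S)) = gr ((r : ℂ) • S) := by field_simp
  linarith

theorem no_interior (T : X →L[ℂ] X) (x : X) (f : StrongDual ℂ X)
    (hcyc : Dense ((Submodule.span ℂ (Set.range fun n : ℕ => (T ^ n) x) : Submodule ℂ X) : Set X))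
    (hcoc : ∀ y : X, (∀ n : ℕ, f ((T ^ n) y) = 0) → y = 0) (r : ℝ) (hr : 1 < r)
    (hW : ¬ W ((r : ℂ) • T)) (u : ℂ)
    (hdir : ∀ (μ : ℂ) (y : X), y ≠ 0 → T y = μ • y → 1 ≤ ‖μ‖ → μ = (‖μ‖ : ℂ) * u) :
    interior (closure (Set.range fun n : ℕ => f ((T ^ n) x))) = ∅ := by
  have hr0 : 0 < r := by linarith
  have hrc : (r : ℂ) ≠ 0 := by exact_mod_cast hr0.ne'
  by_cases hgr : gr T < 1
  · -- the orbit tends to zero
    apply D4_meagre
    left
    refine ⟨0, ?_⟩
    obtain ⟨R, hR1, hR2⟩ := exists_between hgr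
    have hR0 : 0 < R := lt_of_le_of_lt (gr_nonneg T) hR1
    obtain ⟨C, hC, hCn⟩ := gr_bound T hR1
    have hlim : Tendsto (fun n : ℕ => ‖f‖ * (C * R ^ n) * ‖x‖) atTop (𝓝 0) := by
      have h1 := tendsto_pow_atTop_nhds_zero_of_lt_one hR0.le hR2
      have h2 := ((h1.const_mul C).const_mul ‖f‖).mul_const ‖x‖
      simpa using h2
    refine squeeze_zero (fun n => norm_nonneg _) ?_ hlim
    intro n
    calc ‖f ((T ^ n) x)‖ ≤ ‖f‖ * ‖(T ^ n) x‖ := f.le_opNorm _
      _ ≤ ‖f‖ * (‖T ^ n‖ * ‖x‖) := mul_le_mul_of_nonneg_left ((T ^ n).le_opNorm x) (norm_nonneg _)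
      _ ≤ ‖f‖ * ((C * R ^ n) * ‖x‖) :=
          mul_le_mul_of_nonneg_left (mul_le_mul_of_nonneg_right (hCn n) (norm_nonneg _))
            (norm_nonneg _)
      _ = ‖f‖ * (C * R ^ n) * ‖x‖ := by ring
  push Not at hgr
  obtain ⟨σ, hσ⟩ : ∃ σ : ℝ, σ = gr T := ⟨_, rfl⟩
  rw [← hσ] at hgr
  have hσ0 : 0 < σ := by linarith
  obtain ⟨S, hS⟩ : ∃ S : X →L[ℂ] X, S = (r : ℂ) • T := ⟨_, rfl⟩
  rw [← hS] at hW
  have hgrS : gr S = r * σ := by rw [hS, hσ]; exact D4_gr_smul T r hr0
  have hgr1 : 1 < gr S := by rw [hgrS]; nlinarith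
  have hTS : ∀ (μ : ℂ) (y : X), S y = μ • y → T y = (μ / r) • y := by
    intro μ y hy
    have h1 : (r : ℂ) • T y = μ • y := by rw [← hy, hS]; rfl
    have h2 : T y = (r : ℂ)⁻¹ • ((r : ℂ) • T y) := by
      rw [smul_smul, inv_mul_cancel₀ hrc, one_smul]
    rw [h2, h1, smul_smul]
    congr 1
    rw [div_eq_mul_inv, mul_comm]
  have hdir' : ∀ (μ : ℂ) (y : X), y ≠ 0 → S y = μ • y → ‖μ‖ = gr S → μ = (gr S : ℂ) * u := by
    intro μ y hy0 hy hμ
    have h1 : ‖μ / r‖ = σ := by
      rw [norm_div, hμ, hgrS, Complex.norm_real, Real.norm_eq_abs, abs_of_pos hr0]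
      field_simp
    have h2 := hdir (μ / r) y hy0 (hTS μ y hy) (by rw [h1]; exact hgr)
    rw [h1] at h2
    rw [hgrS]
    push_cast
    have h3 : μ = r * (μ / r) := by field_simp
    rw [h3, h2]
    ring
  obtain ⟨⟨μ₀, hμ₀, y₀, hy₀, hSy₀⟩, -⟩ := top_eigen S hW hgr1
  obtain ⟨l, hl⟩ : ∃ l : ℂ, l = (gr S : ℂ) * u := ⟨_, rfl⟩
  have hln : ‖l‖ = gr S := by
    rw [hl, ← hdir' μ₀ y₀ hy₀ hSy₀ hμ₀]
    exact hμ₀
  have hl0 : l ≠ 0 := by
    intro h
    rw [h, norm_zero] at hln
    linarith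
  have hlpos : 0 < ‖l‖ := norm_pos_iff.mpr hl0
  obtain ⟨P, q, hPP, hcomm, hq, hroots, hqP, hgrP⟩ := peel' S hW hgr1
  have hSP : S * P = P * S := hcomm S rfl
  have hTP : T * P = P * T := by
    apply hcomm T
    rw [hS, mul_smul_comm, smul_mul_assoc]
  -- `P x ≠ 0`
  have hPx : P x ≠ 0 := by
    intro h
    have h1 : ∀ n : ℕ, P ((T ^ n) x) = 0 := by
      intro n
      have hc : Commute P (T ^ n) := (show Commute P T from hTP.symm).pow_right n
      have h2 : (P * T ^ n) x = (T ^ n * P) x := by rw [hc.eq]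
      change P ((T ^ n) x) = (T ^ n) (P x) at h2
      rw [h2, h, map_zero]
    have h2 : P = 0 := by
      have h3 : Set.EqOn (P : X → X) (0 : X →L[ℂ] X)
          ((Submodule.span ℂ (Set.range fun n : ℕ => (T ^ n) x) : Submodule ℂ X) : Set X) := by
        intro y hy
        have h4 : Submodule.span ℂ (Set.range fun n : ℕ => (T ^ n) x)
            ≤ LinearMap.ker P.toLinearMap := by
          rw [Submodule.span_le]
          rintro _ ⟨n, rfl⟩
          exact h1 n
        exact h4 hy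
      exact ContinuousLinearMap.ext_on (s := (Set.range fun n : ℕ => (T ^ n) x)) hcyc (by
        rintro _ ⟨n, rfl⟩
        exact h1 n)
    rw [h2, sub_zero, mul_one] at hgrP
    exact lt_irrefl _ hgrP
  have hqPx : (Polynomial.aeval S q) (P x) = 0 := by
    have := congrArg (fun A : X →L[ℂ] X => A x) hqP
    exact this
  have hchain : ((S - l • (1 : X →L[ℂ] X)) ^ q.natDegree) (P x) = 0 := by
    apply D4_root S l q.natDegree q le_rfl hq _ _ hqPx
    intro z hz hzl v hv
    by_contra hv0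
    apply hzl
    rw [hl]
    exact hdir' z v hv0 hv (hroots z hz)
  classical
  have hex : ∃ m : ℕ, ((S - l • (1 : X →L[ℂ] X)) ^ m) (P x) = 0 := ⟨_, hchain⟩
  obtain ⟨m, hm⟩ : ∃ m : ℕ, m = Nat.find hex := ⟨_, rfl⟩
  have hm1 : ((S - l • (1 : X →L[ℂ] X)) ^ m) (P x) = 0 := by rw [hm]; exact Nat.find_spec hex
  have hm0 : m ≠ 0 := by
    intro h
    rw [h] at hm1
    exact hPx hm1
  obtain ⟨d, rfl⟩ : ∃ d, m = d + 1 := ⟨m - 1, by omega⟩
  obtain ⟨w, hw⟩ : ∃ w : ℕ → X, ∀ j, w j = ((S - l • (1 : X →L[ℂ] X)) ^ j) (P x) :=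
    ⟨_, fun _ => rfl⟩
  have hwd : w d ≠ 0 := by
    intro h
    rw [hw] at h
    have h1 : d + 1 ≤ d := by
      conv_lhs => rw [hm]
      exact Nat.find_min' hex h
    omega
  have hSwd : S (w d) = l • w d := by
    have h1 : (S - l • (1 : X →L[ℂ] X)) (w d) = 0 := by
      rw [hw]
      have h2 := hm1
      rw [pow_succ'] at h2
      exact h2
    have h2 : S (w d) - l • w d = 0 := h1
    exact sub_eq_zero.mp h2
  have hfwd : f (w d) ≠ 0 := by
    intro h
    apply hwd
    apply hcoc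
    have hTwd := hTS l (w d) hSwd
    have h1 : ∀ n : ℕ, (T ^ n) (w d) = (l / r) ^ n • w d := by
      intro n
      induction n with
      | zero => simp
      | succ n ih =>
        rw [pow_succ']
        change T ((T ^ n) (w d)) = _
        rw [ih, map_smul, hTwd, smul_smul, ← pow_succ]
    intro n
    rw [h1, map_smul, h, smul_zero]
  -- the growth of the remainder
  obtain ⟨R, hR1, hR2⟩ := exists_between hgrP
  have hR0 : 0 < R := lt_of_le_of_lt (gr_nonneg _) hR1
  obtain ⟨C, hC, hCn⟩ := gr_bound (S * (1 - P)) hR1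
  have hI : (1 - P) * (1 - P) = 1 - P := by
    rw [sub_mul, mul_sub, mul_sub, hPP, mul_one, one_mul, mul_one]; abel
  have hSI : Commute S (1 - P) := by
    rw [commute_iff_eq, mul_sub, sub_mul, mul_one, one_mul, hSP]
  have hpow : ∀ n : ℕ, 1 ≤ n → (S * (1 - P)) ^ n = S ^ n * (1 - P) := by
    intro n hn
    rw [hSI.mul_pow]
    congr 1
    have h1 : IsIdempotentElem (1 - P) := hI
    exact h1.pow_eq (by omega)
  obtain ⟨e, he⟩ : ∃ e : ℕ → ℂ, ∀ n, e n = f (((S * (1 - P)) ^ n) x) := ⟨_, fun _ => rfl⟩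
  have hSn : ∀ n : ℕ, d + 1 ≤ n → f ((S ^ n) x)
      = (∑ j ∈ Finset.range (d + 1), ((n.choose j : ℂ) * l ^ (n - j)) * f (w j)) + e n := by
    intro n hn
    have h1 : (S ^ n) x = (S ^ n) (P x) + ((S * (1 - P)) ^ n) x := by
      rw [hpow n (by omega)]
      change (S ^ n) x = (S ^ n) (P x) + (S ^ n) (x - P x)
      rw [map_sub]; abel
    rw [h1, map_add, D4_expand S l (d + 1) (P x) hm1 n (by omega), map_sum, he]
    congr 1
    apply Finset.sum_congr rfl
    intro j _
    rw [map_smul, smul_eq_mul, hw]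
  have hSF : ∀ n : ℕ, f ((S ^ n) x) = (r : ℂ) ^ n * f ((T ^ n) x) := by
    intro n
    rw [hS, smul_pow]
    change f ((r : ℂ) ^ n • (T ^ n) x) = _
    rw [map_smul, smul_eq_mul]
  -- the normalised sequence
  obtain ⟨b, hb⟩ : ∃ b : ℕ → ℂ, ∀ n, b n = f ((S ^ n) x) / ((n.choose d : ℂ) * l ^ n) :=
    ⟨_, fun _ => rfl⟩
  have hblim : Tendsto b atTop (𝓝 (l⁻¹ ^ d * f (w d))) := by
    have h1 : Tendsto (fun n : ℕ => (∑ j ∈ Finset.range (d + 1),
        (l⁻¹ ^ j * f (w j)) * (((n.choose j : ℂ) * l ^ n) / ((n.choose d : ℂ) * l ^ n)))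
        + e n / ((n.choose d : ℂ) * l ^ n)) atTop
        (𝓝 ((∑ j ∈ Finset.range (d + 1), (l⁻¹ ^ j * f (w j)) * (if j = d then 1 else 0)) + 0)) := by
      apply Tendsto.add
      · apply tendsto_finsetSum
        intro j hj
        rw [Finset.mem_range] at hj
        apply Tendsto.const_mul
        by_cases hjd : j = d
        · rw [if_pos hjd, hjd]
          apply tendsto_const_nhds.congr'
          filter_upwards [eventually_ge_atTop d] with n hn
          have h2 : (n.choose d : ℂ) ≠ 0 := by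
            have := Nat.choose_pos hn
            exact_mod_cast this.ne'
          rw [div_self (mul_ne_zero h2 (pow_ne_zero _ hl0))]
        · rw [if_neg hjd, tendsto_zero_iff_norm_tendsto_zero]
          have h2 := N1tAux.ratio ‖l‖ ‖l‖ j d (norm_nonneg l) hlpos (Or.inr ⟨rfl, by omega⟩)
          refine h2.congr ?_
          intro n
          rw [norm_div, norm_mul, norm_mul, Complex.norm_natCast, Complex.norm_natCast, norm_pow]
      · rw [tendsto_zero_iff_norm_tendsto_zero]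
        have h2 := N1tAux.ratio R ‖l‖ 0 d hR0.le hlpos (Or.inl (by rw [hln]; exact hR2))
        have h3 := h2.const_mul (‖f‖ * C * ‖x‖)
        rw [mul_zero] at h3
        refine squeeze_zero (fun n => norm_nonneg _) ?_ h3
        intro n
        rw [norm_div, norm_mul, Complex.norm_natCast, norm_pow, Nat.choose_zero_right, Nat.cast_one,
          one_mul, he, mul_div_assoc']
        apply div_le_div_of_nonneg_right _ (by positivity)
        calc ‖f (((S * (1 - P)) ^ n) x)‖ ≤ ‖f‖ * ‖((S * (1 - P)) ^ n) x‖ := f.le_opNorm _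
          _ ≤ ‖f‖ * (‖(S * (1 - P)) ^ n‖ * ‖x‖) :=
              mul_le_mul_of_nonneg_left (((S * (1 - P)) ^ n).le_opNorm x) (norm_nonneg _)
          _ ≤ ‖f‖ * ((C * R ^ n) * ‖x‖) :=
              mul_le_mul_of_nonneg_left (mul_le_mul_of_nonneg_right (hCn n) (norm_nonneg _))
                (norm_nonneg _)
          _ = ‖f‖ * C * ‖x‖ * R ^ n := by ring
    have h2 : (∑ j ∈ Finset.range (d + 1), (l⁻¹ ^ j * f (w j)) * (if j = d then (1 : ℂ) else 0)) + 0
        = l⁻¹ ^ d * f (w d) := by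
      rw [add_zero, Finset.sum_eq_single d]
      · simp
      · intro j _ hjd
        simp [hjd]
      · intro h3
        exact absurd (Finset.mem_range.mpr (by omega)) h3
    rw [h2] at h1
    refine h1.congr' ?_
    filter_upwards [eventually_ge_atTop (d + 1)] with n hn
    rw [hb, hSn n hn, add_div, Finset.sum_div]
    congr 1
    apply Finset.sum_congr rfl
    intro j hj
    rw [Finset.mem_range] at hj
    have h3 : l ^ n = l ^ (n - j) * l ^ j := by rw [← pow_add]; congr 1; omega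
    have h4 : (l⁻¹) ^ j * l ^ n = l ^ (n - j) := by
      rw [h3, inv_pow]
      have : l ^ j ≠ 0 := pow_ne_zero _ hl0
      field_simp
    rw [mul_div_assoc']
    congr 1
    rw [← h4]
    ring
  have hbnorm := hblim.norm
  have hbpos : 0 < ‖l⁻¹ ^ d * f (w d)‖ := by
    rw [norm_pos_iff]
    exact mul_ne_zero (pow_ne_zero _ (inv_ne_zero hl0)) hfwd
  have hFn : ∀ᶠ n : ℕ in atTop, ‖f ((T ^ n) x)‖ = ((n.choose d : ℝ) * σ ^ n) * ‖b n‖ := by
    filter_upwards [eventually_ge_atTop d] with n hn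
    have h2 : (0 : ℝ) < n.choose d := by exact_mod_cast Nat.choose_pos hn
    rw [hb, norm_div, hSF, norm_mul, norm_mul, norm_pow, norm_pow, Complex.norm_natCast,
      Complex.norm_real, Real.norm_eq_abs, abs_of_pos hr0, hln, hgrS, mul_pow]
    have h3 : r ^ n ≠ 0 := (pow_pos hr0 n).ne'
    have h4 : σ ^ n ≠ 0 := (pow_pos hσ0 n).ne'
    field_simp
  apply D4_meagre
  by_cases hcase : 1 < σ ∨ (σ = 1 ∧ 1 ≤ d)
  · right
    have h1 := (N1tAux.growth σ d hcase).atTop_mul_pos hbpos hbnorm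
    refine h1.congr' ?_
    filter_upwards [hFn] with n hn
    rw [hn]
  · left
    push Not at hcase
    have hσ1 : σ = 1 := le_antisymm hcase.1 hgr
    have hd0 : d = 0 := by
      have := hcase.2 hσ1
      omega
    refine ⟨‖l⁻¹ ^ d * f (w d)‖, ?_⟩
    refine hbnorm.congr' ?_
    filter_upwards [hFn] with n hn
    rw [hn, hσ1, hd0, one_pow, Nat.choose_zero_right, Nat.cast_one, one_mul, one_mul]

end WNH
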