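import Pool.Agent.WNH.D1
import Pool.Agent.WNH.D2
import Pool.Agent.WNH.D4

/-!
Row [WN-D6]. Uses D1, D2, D4.
-/

namespace WNH
open Filter Topology Metric
universe u
variable {X : Type u} [NormedAddCommGroup X] [NormedSpace ℂ X] [CompleteSpace X]

theorem D6_W_of_pow {X : Type u} [NormedAddCommGroup X] [NormedSpace ℂ X] (A : X →L[ℂ] X) (N : ℕ)
    (h : W (A ^ N)) : W A := by
  obtain ⟨x, f, hd⟩ := h
  refine ⟨x, f, hd.mono ?_⟩
  rintro _ ⟨m, rfl⟩
  refine ⟨N * m, ?_⟩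
  change f ((A ^ (N * m)) x) = f (((A ^ N) ^ m) x)
  rw [pow_mul]

theorem W_smul_of_ray (T : X →L[ℂ] X) (hT : W T) (hray : RayCond T) (r : ℝ) (hr : 1 < r) :
    W ((r : ℂ) • T) := by
  by_contra hW
  obtain ⟨x, f, hd⟩ := hT
  obtain ⟨N, u₀, hN, hu₀⟩ := hray
  have hr0 : 0 < r := by linarith
  -- a unimodular direction
  obtain ⟨u, hu, hray⟩ : ∃ u : ℂ, ‖u‖ = 1 ∧
      ∀ z ∈ spectrum ℂ T, 1 ≤ ‖z‖ → z ^ N = (‖z‖ : ℂ) ^ N * u := by
    by_cases h : ∃ z ∈ spectrum ℂ T, 1 ≤ ‖z‖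
    · obtain ⟨z, hz, hz1⟩ := h
      refine ⟨u₀, ?_, hu₀⟩
      have h1 := congrArg (fun w : ℂ => ‖w‖) (hu₀ z hz hz1)
      simp only [norm_mul, norm_pow, Complex.norm_real, norm_norm] at h1
      have h2 : 0 < ‖z‖ ^ N := by positivity
      nlinarith
    · push Not at h
      refine ⟨1, norm_one, ?_⟩
      intro z hz hz1
      exact absurd hz1 (not_le.mpr (h z hz))
  have hspec : ∀ w ∈ spectrum ℂ (T ^ N), 1 ≤ ‖w‖ → w = (‖w‖ : ℂ) * u := by
    intro w hw hw1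
    rw [spectrum.map_pow_of_pos T hN] at hw
    obtain ⟨z, hz, rfl⟩ := hw
    have hw1' : 1 ≤ ‖z ^ N‖ := hw1
    rw [norm_pow] at hw1'
    have hz1 : 1 ≤ ‖z‖ := by
      by_contra hcon
      push Not at hcon
      have := pow_lt_one₀ (norm_nonneg z) hcon hN.ne'
      linarith
    have h1 := hray z hz hz1
    change z ^ N = (‖z ^ N‖ : ℂ) * u
    rw [h1, norm_mul, hu, mul_one, norm_pow, Complex.norm_real, norm_norm]
    push_cast
    rfl
  -- one of the residue classes has a closure with interior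
  haveI : Nonempty (Fin N) := ⟨⟨0, hN⟩⟩
  obtain ⟨i, hi⟩ : ∃ i : Fin N, (interior (closure (Set.range fun m : ℕ =>
      f (((T ^ N) ^ m) ((T ^ (i : ℕ)) x))))).Nonempty := by
    apply nonempty_interior_of_iUnion_of_closed
    · intro i; exact isClosed_closure
    · have h1 : (⋃ i : Fin N, closure (Set.range fun m : ℕ =>
          f (((T ^ N) ^ m) ((T ^ (i : ℕ)) x)))) = closure (⋃ i : Fin N, Set.range fun m : ℕ =>
          f (((T ^ N) ^ m) ((T ^ (i : ℕ)) x))) := by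
        rw [closure_iUnion_of_finite]
      rw [h1]
      rw [← Set.univ_subset_iff]
      rw [← hd.closure_eq]
      apply closure_mono
      rintro _ ⟨n, rfl⟩
      rw [Set.mem_iUnion]
      refine ⟨⟨n % N, Nat.mod_lt _ hN⟩, n / N, ?_⟩
      change f (((T ^ N) ^ (n / N)) ((T ^ (n % N)) x)) = f ((T ^ n) x)
      have h2 : ((T ^ N) ^ (n / N)) ((T ^ (n % N)) x) = (T ^ (N * (n / N) + n % N)) x := by
        rw [pow_add, pow_mul]; rfl
      rw [h2, Nat.div_add_mod]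
  obtain ⟨Y, i1, i2, i3, TY, y₀, g, hg, hcyc, hcoc, hWY, hAppr⟩ := reduce (T ^ N) ((T ^ (i : ℕ)) x) f
  have hr1 : 1 < r ^ N := one_lt_pow₀ hr hN.ne'
  have hWTY : ¬ W (((r ^ N : ℝ) : ℂ) • TY) := by
    intro h
    apply hW
    apply D6_W_of_pow _ N
    have h1 := hWY _ h
    rw [smul_pow]
    push_cast at h1
    exact h1
  have hno := no_interior TY y₀ g hcyc hcoc (r ^ N) hr1 hWTY u (by
    intro μ y hy hTy hμ
    by_contra hne
    have h1 : Appr TY μ := hAppr μ (appr_off_ray (T ^ N) u hu hspec μ hμ hne)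
    have h2 := not_mem_spectrum_of_appr TY μ h1
    rw [spectrum.notMem_iff, Algebra.algebraMap_eq_smul_one] at h2
    obtain ⟨B, hB⟩ := h2.exists_left_inv
    apply hy
    have h3 : (μ • (1 : Y →L[ℂ] Y) - TY) y = 0 := by
      change μ • y - TY y = 0
      rw [hTy, sub_self]
    calc y = (B * (μ • (1 : Y →L[ℂ] Y) - TY)) y := by rw [hB]; rfl
      _ = B ((μ • (1 : Y →L[ℂ] Y) - TY) y) := rfl
      _ = 0 := by rw [h3, map_zero])
  have h1 : (fun m : ℕ => g ((TY ^ m) y₀)) = fun m : ℕ =>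
      f (((T ^ N) ^ m) ((T ^ (i : ℕ)) x)) := by
    funext m
    exact hg m
  rw [h1] at hno
  rw [hno] at hi
  exact Set.not_nonempty_empty hi

end WNH
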