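import Mathlib

/-!
# Weakly numerically hypercyclic operators: definitions

`X` is a complex normed space, `T : X →L[ℂ] X`.
-/

namespace WNH

open Filter Topology Metric

universe u

section Defs

variable {X : Type u} [NormedAddCommGroup X] [NormedSpace ℂ X]

/-- `T` is numerically hypercyclic: some numerical orbit `{f (T ^ n x)}` with
`‖x‖ = ‖f‖ = f x = 1` is dense in `ℂ`. -/
def NumHyp (T : X →L[ℂ] X) : Prop :=
  ∃ (x : X) (f : StrongDual ℂ X), ‖x‖ = 1 ∧ ‖f‖ = 1 ∧ f x = 1 ∧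
    Dense (Set.range fun n : ℕ => f ((T ^ n) x))

/-- `T` is weakly numerically hypercyclic: it is similar (through a linear homeomorphism `J`
onto some complex Banach space `Y`) to a numerically hypercyclic operator. -/
def WNumHyp (T : X →L[ℂ] X) : Prop :=
  ∃ (Y : Type u) (_ : NormedAddCommGroup Y) (_ : NormedSpace ℂ Y) (_ : CompleteSpace Y)
    (S : Y →L[ℂ] Y) (J : X ≃L[ℂ] Y), (∀ x : X, J (T x) = S (J x)) ∧ NumHyp S

/-- The elementary form: some numerical orbit `{f (T ^ n x)}` (no normalisation) is dense. -/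
def W (T : X →L[ℂ] X) : Prop :=
  ∃ (x : X) (f : StrongDual ℂ X), Dense (Set.range fun n : ℕ => f ((T ^ n) x))

/-- `T` has a Jordan chain of length `d + 1` at `μ`: a vector killed by `(T - μ) ^ (d + 1)` but
not by `(T - μ) ^ d`. -/
def JP (T : X →L[ℂ] X) (μ : ℂ) (d : ℕ) : Prop :=
  ∃ x : X, ((T - μ • (1 : X →L[ℂ] X)) ^ (d + 1)) x = 0 ∧ ((T - μ • (1 : X →L[ℂ] X)) ^ d) x ≠ 0

/-- The spectral radius of `S` as a real number. -/
noncomputable def gr (S : X →L[ℂ] X) : ℝ := (spectralRadius ℂ S).toReal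

/-- `x` lies on a two-sided `S / ρ`-orbit with relatively compact range. -/
def GoodOrb (S : X →L[ℂ] X) (ρ : ℝ) (x : X) : Prop :=
  ∃ q : ℤ → X, q 0 = x ∧ (∀ m : ℤ, S (q m) = (ρ : ℂ) • q (m + 1)) ∧
    IsCompact (closure (Set.range q))

/-- `T` is (algebraic) ⊕ (spectral radius `< 1`), by a projection `P` commuting with the
commutant of `T`. -/
def Dec (T : X →L[ℂ] X) : Prop :=
  ∃ (P : X →L[ℂ] X) (q : Polynomial ℂ), P * P = P ∧
    (∀ U : X →L[ℂ] X, U * T = T * U → U * P = P * U) ∧ q ≠ 0 ∧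
    Polynomial.aeval T q * P = 0 ∧ gr (T * (1 - P)) < 1

end Defs

/-- The combinatorial condition: `J μ d` is read: there is a Jordan chain of length `d + 1` at `μ`.
There are `a, b` of the same modulus with chains of the same length `d + 1`, and a growing
pair `(c, e)` (that is `n ^ e * ‖c‖ ^ n → ∞`), not growing faster than `(a, d)`, such that
`b / a` and `c / ‖c‖` are multiplicatively independent. -/
def StarPred (J : ℂ → ℕ → Prop) : Prop :=
  ∃ (a b c : ℂ) (d e : ℕ), J a d ∧ J b d ∧ J c e ∧ ‖a‖ = ‖b‖ ∧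
    (‖c‖ < ‖a‖ ∨ (‖c‖ = ‖a‖ ∧ e ≤ d)) ∧ (1 < ‖c‖ ∨ (‖c‖ = 1 ∧ 1 ≤ e)) ∧
    ∀ k l : ℤ, (b / a) ^ k * (c / (‖c‖ : ℂ)) ^ l = 1 → k = 0 ∧ l = 0

/-- The algebra of exponential polynomials in `m : ℕ` with positive real bases and complex
coefficients. -/
noncomputable def ExpPoly : Subalgebra ℂ (ℕ → ℂ) :=
  Algebra.adjoin ℂ ({fun m : ℕ => (m : ℂ)} ∪
    {f | ∃ σ : ℝ, 0 < σ ∧ f = fun m : ℕ => (σ : ℂ) ^ m})

end WNH
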