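import Pool.Agent.WNH.Defs

/-!
Row [WN-E1]. The problem's definition and the elementary form `W`.
-/

namespace WNH
open Filter Topology Metric
universe u
variable {X : Type u} [NormedAddCommGroup X] [NormedSpace ℂ X]

theorem E1_conj (T : X →L[ℂ] X) {Y : Type u} [NormedAddCommGroup Y] [NormedSpace ℂ Y]
    (S : Y →L[ℂ] Y) (J : X ≃L[ℂ] Y) (h : ∀ x : X, J (T x) = S (J x)) (n : ℕ) (x : X) :
    J ((T ^ n) x) = (S ^ n) (J x) := by
  induction n generalizing x with
  | zero => rfl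
  | succ n ih =>
    rw [pow_succ, pow_succ, mul_apply_eq_comp, mul_apply_eq_comp, ih, h]

theorem W_of_wNumHyp (T : X →L[ℂ] X) (h : WNumHyp T) : W T := by
  obtain ⟨Y, _, _, _, S, J, hJ, y, f, _, _, _, hd⟩ := h
  refine ⟨J.symm y, f.comp (J : X →L[ℂ] Y), ?_⟩
  have : (fun n : ℕ => (f.comp (J : X →L[ℂ] Y)) ((T ^ n) (J.symm y))) =
      fun n : ℕ => f ((S ^ n) y) := by
    funext n
    show f (J ((T ^ n) (J.symm y))) = _
    rw [E1_conj T S J hJ, J.apply_symm_apply]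
  rw [this]
  exact hd

/-- Removing finitely many points from a dense range of a sequence. -/
theorem E1_shift (g : ℕ → ℂ) (k : ℕ) (h : Dense (Set.range g)) :
    Dense (Set.range fun n => g (n + k)) := by
  have h1 : Dense (Set.range g \ (Finset.range k).image g) :=
    h.sdiff_finset _
  refine h1.mono ?_
  rintro _ ⟨⟨n, rfl⟩, hn⟩
  have hk : k ≤ n := by
    by_contra hlt
    exact hn (by
      rw [Finset.mem_coe, Finset.mem_image]
      exact ⟨n, Finset.mem_range.2 (by omega), rfl⟩)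
  exact ⟨n - k, by simp [Nat.sub_add_cancel hk]⟩

theorem wNumHyp_of_W [CompleteSpace X] (T : X →L[ℂ] X) (h : W T) : WNumHyp T := by
  obtain ⟨x₀, f₀, hd⟩ := h
  -- some value is nonzero
  have hne : ∃ k, f₀ ((T ^ k) x₀) ≠ 0 := by
    by_contra hcon
    push Not at hcon
    have h1 : (1 : ℂ) ∈ closure (Set.range fun n : ℕ => f₀ ((T ^ n) x₀)) := hd 1
    have h2 : (Set.range fun n : ℕ => f₀ ((T ^ n) x₀)) ⊆ {0} := by
      rintro _ ⟨n, rfl⟩; exact hcon n
    have h3 := closure_mono h2 h1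
    rw [closure_singleton] at h3
    exact one_ne_zero h3
  obtain ⟨k, hk⟩ := hne
  let x : X := (T ^ k) x₀
  have hx : f₀ x ≠ 0 := hk
  let f : StrongDual ℂ X := (f₀ x)⁻¹ • f₀
  have hfx : f x = 1 := by
    show (f₀ x)⁻¹ * f₀ x = 1
    exact inv_mul_cancel₀ hx
  have hd1 : Dense (Set.range fun n : ℕ => f₀ ((T ^ n) x)) := by
    have := E1_shift (fun n : ℕ => f₀ ((T ^ n) x₀)) k hd
    have e : (fun n : ℕ => f₀ ((T ^ n) x)) = fun n : ℕ => f₀ ((T ^ (n + k)) x₀) := by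
      funext n
      show f₀ ((T ^ n) ((T ^ k) x₀)) = _
      rw [← mul_apply_eq_comp, ← pow_add]
    rw [e]; exact this
  have hd2 : Dense (Set.range fun n : ℕ => f ((T ^ n) x)) := by
    have hsurj : Function.Surjective (fun z : ℂ => (f₀ x)⁻¹ * z) := fun z =>
      ⟨f₀ x * z, by simp [← mul_assoc, inv_mul_cancel₀ hx]⟩
    have hD : DenseRange (fun n : ℕ => f₀ ((T ^ n) x)) := hd1
    exact hsurj.denseRange.comp hD (by fun_prop)
  have hri : Function.RightInverse (ContinuousLinearMap.toSpanSingleton ℂ x) f := by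
    intro c
    rw [ContinuousLinearMap.toSpanSingleton_apply, map_smul, hfx, smul_eq_mul, mul_one]
  let J := ContinuousLinearEquiv.equivOfRightInverse f (ContinuousLinearMap.toSpanSingleton ℂ x) hri
  have hcl : IsClosed ((LinearMap.ker (f : X →ₗ[ℂ] ℂ) : Submodule ℂ X) : Set X) := by
    exact ContinuousLinearMap.isClosed_ker f
  haveI : CompleteSpace (LinearMap.ker (f : X →ₗ[ℂ] ℂ)) := hcl.completeSpace_coe
  let F : StrongDual ℂ (ℂ × LinearMap.ker (f : X →ₗ[ℂ] ℂ)) :=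
    ContinuousLinearMap.fst ℂ ℂ (LinearMap.ker (f : X →ₗ[ℂ] ℂ))
  let S : (ℂ × LinearMap.ker (f : X →ₗ[ℂ] ℂ)) →L[ℂ] (ℂ × LinearMap.ker (f : X →ₗ[ℂ] ℂ)) :=
    ((J : X →L[ℂ] _).comp T).comp (J.symm : _ →L[ℂ] X)
  have hS : ∀ z : X, J (T z) = S (J z) := by
    intro z
    show J (T z) = J (T (J.symm (J z)))
    rw [J.symm_apply_apply]
  have hJ1 : ∀ z : X, (J z).1 = f z := fun z => rfl
  have hJx : J x = (1, 0) := by
    refine Prod.ext ?_ ?_
    · rw [hJ1, hfx]
    · apply Subtype.ext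
      show x - (ContinuousLinearMap.toSpanSingleton ℂ x) (f x) = 0
      rw [hfx, ContinuousLinearMap.toSpanSingleton_apply, one_smul, sub_self]
  refine ⟨ℂ × LinearMap.ker (f : X →ₗ[ℂ] ℂ), inferInstance, inferInstance, inferInstance, S, J, hS,
    J x, F, ?_, ?_, ?_, ?_⟩
  · rw [hJx, Prod.norm_def]
    simp
  · apply le_antisymm (ContinuousLinearMap.norm_fst_le ℂ ℂ _)
    have h1 := F.le_opNorm (1, 0)
    have h2 : ‖((1 : ℂ), (0 : LinearMap.ker (f : X →ₗ[ℂ] ℂ)))‖ = 1 := by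
      rw [Prod.norm_def]; simp
    rw [h2, mul_one] at h1
    have h3 : ‖F (1, 0)‖ = 1 := by
      show ‖(1 : ℂ)‖ = 1
      exact norm_one
    rw [h3] at h1
    exact h1
  · rw [hJx]; rfl
  · have e : (fun n : ℕ => F ((S ^ n) (J x))) = fun n : ℕ => f ((T ^ n) x) := by
      funext n
      rw [← E1_conj T S J hS]
      exact hJ1 _
    rw [e]
    exact hd2

end WNH
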