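import Pool.Agent.WNH.Defs

/-!
Row [WN-N1c]. The zero set of a nonzero polynomial in `z, conj z` is not coarsely dense.
-/

namespace WNH
open Filter Topology Metric

namespace N1cAux

theorem circle_infinite : {t : ℂ | ‖t‖ = 1}.Infinite := by
  have him : ∀ n : ℕ, (n : ℂ) - Complex.I ≠ 0 := by
    intro n h
    have := congrArg Complex.im h
    simp at this
  refine Set.infinite_of_injective_forall_mem (f := fun n : ℕ => ((n : ℂ) + Complex.I) /
    ((n : ℂ) - Complex.I)) ?_ ?_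
  · intro n m hnm
    have h1 : ((n : ℂ) + Complex.I) / ((n : ℂ) - Complex.I)
      = ((m : ℂ) + Complex.I) / ((m : ℂ) - Complex.I) := hnm
    rw [div_eq_div_iff (him n) (him m)] at h1
    have h2 : 2 * Complex.I * ((m : ℂ) - n) = 0 := by linear_combination h1
    have h3 : (m : ℂ) - n = 0 := by
      rcases mul_eq_zero.mp h2 with h | h
      · simp at h
      · exact h
    have h4 : (m : ℂ) = n := sub_eq_zero.mp h3
    exact (Nat.cast_injective h4).symm
  · intro n
    have h1 : (n : ℂ) + Complex.I = (starRingEnd ℂ) ((n : ℂ) - Complex.I) := by simp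
    have h2 : ‖(n : ℂ) + Complex.I‖ = ‖(n : ℂ) - Complex.I‖ := by
      rw [h1]; exact Complex.norm_conj _
    change ‖((n : ℂ) + Complex.I) / ((n : ℂ) - Complex.I)‖ = 1
    rw [norm_div, h2, div_self]
    exact norm_ne_zero_iff.mpr (him n)

end N1cAux

open N1cAux

theorem zeros_not_coarsely_dense (Q : MvPolynomial (Fin 2) ℂ) (hQ : Q ≠ 0) (B : ℝ) :
    ∃ z : ℂ, ∀ w : ℂ, ‖w - z‖ ≤ B → MvPolynomial.eval ![w, (starRingEnd ℂ) w] Q ≠ 0 := by
  classical
  have hne : Q.support.Nonempty := MvPolynomial.support_nonempty.mpr hQ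
  obtain ⟨e₁, he₁, hmax⟩ := Finset.exists_max_image Q.support (fun e => e 0 + e 1) hne
  obtain ⟨D, hD⟩ : ∃ D : ℕ, D = e₁ 0 + e₁ 1 := ⟨_, rfl⟩
  rw [← hD] at hmax
  -- the polynomial on the circle
  obtain ⟨P, hP⟩ : ∃ P : Polynomial ℂ, P = ∑ e ∈ Q.support.filter (fun e => e 0 + e 1 = D),
    Polynomial.monomial (2 * e 0) (Q.coeff e) := ⟨_, rfl⟩
  have hP0 : P ≠ 0 := by
    intro h
    have h1 := congrArg (fun p : Polynomial ℂ => p.coeff (2 * e₁ 0)) h
    simp only [hP, Polynomial.finset_sum_coeff, Polynomial.coeff_monomial,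
      Polynomial.coeff_zero] at h1
    rw [Finset.sum_eq_single e₁] at h1
    · rw [if_pos rfl] at h1
      exact (MvPolynomial.mem_support_iff.mp he₁) h1
    · intro e he hne'
      rw [Finset.mem_filter] at he
      rw [if_neg]
      intro h2
      apply hne'
      ext j
      fin_cases j
      · simp only [Fin.zero_eta]; omega
      · simp only [Fin.mk_one]; omega
    · intro h2
      exact absurd (Finset.mem_filter.mpr ⟨he₁, hD.symm⟩) h2
  obtain ⟨t, ht, htP⟩ := circle_infinite.exists_notMem_finset P.roots.toFinset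
  have ht1 : ‖t‖ = 1 := ht
  have ht0 : t ≠ 0 := by
    intro h; rw [h, norm_zero] at ht1; exact zero_ne_one ht1
  have htP' : P.eval t ≠ 0 := by
    intro h
    apply htP
    rw [Multiset.mem_toFinset, Polynomial.mem_roots hP0]
    exact h
  have htc : (starRingEnd ℂ) t = t⁻¹ := by
    rw [Complex.inv_def, Complex.normSq_eq_norm_sq, ht1]; simp
  obtain ⟨Φ, hΦ⟩ : ∃ Φ : ℂ × ℝ → ℂ, ∀ p, Φ p = ∑ e ∈ Q.support, Q.coeff e *
    ((t + p.1) ^ (e 0) * ((starRingEnd ℂ) t + (starRingEnd ℂ) p.1) ^ (e 1)) *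
      (p.2 : ℂ) ^ (D - (e 0 + e 1)) := ⟨_, fun _ => rfl⟩
  have hΦc : Continuous Φ := by
    have h1 : Φ = fun p => ∑ e ∈ Q.support, Q.coeff e *
    ((t + p.1) ^ (e 0) * ((starRingEnd ℂ) t + (starRingEnd ℂ) p.1) ^ (e 1)) *
      (p.2 : ℂ) ^ (D - (e 0 + e 1)) := by funext p; exact hΦ p
    rw [h1]
    apply continuous_finset_sum
    intro e _
    have h2 : Continuous fun p : ℂ × ℝ => (starRingEnd ℂ) p.1 :=
      Complex.continuous_conj.comp continuous_fst
    have h3 : Continuous fun p : ℂ × ℝ => (p.2 : ℂ) :=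
      Complex.continuous_ofReal.comp continuous_snd
    fun_prop
  have hΦ0 : Φ (0, 0) ≠ 0 := by
    have h1 : t ^ D * Φ (0, 0) = P.eval t := by
      rw [hΦ, hP, Polynomial.eval_finset_sum, Finset.mul_sum, Finset.sum_filter]
      apply Finset.sum_congr rfl
      intro e he
      have hle : e 0 + e 1 ≤ D := hmax e he
      by_cases h : e 0 + e 1 = D
      · rw [if_pos h, Polynomial.eval_monomial, h, Nat.sub_self, pow_zero, mul_one, htc]
        simp only [add_zero, map_zero]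
        have h2 : t ^ D = t ^ e 0 * t ^ e 1 := by rw [← h, pow_add]
        rw [h2, two_mul, pow_add, inv_pow]
        have h3 : t ^ e 1 ≠ 0 := pow_ne_zero _ ht0
        field_simp
      · rw [if_neg h]
        have h2 : D - (e 0 + e 1) ≠ 0 := by omega
        simp [h2]
    intro h2
    rw [h2, mul_zero] at h1
    exact htP' h1.symm
  obtain ⟨δ, hδ, hδΦ⟩ := Metric.isOpen_iff.mp (isOpen_ne_fun hΦc continuous_const) (0, 0) hΦ0
  obtain ⟨s, hs1, hs2, hs3⟩ : ∃ s : ℝ, 0 < s ∧ |B| / s < δ ∧ 1 / s < δ := by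
    refine ⟨(|B| + 2) / δ, by positivity, ?_, ?_⟩
    · rw [div_div_eq_mul_div, div_lt_iff₀ (by positivity)]
      nlinarith [abs_nonneg B]
    · rw [one_div_div, div_lt_iff₀ (by positivity)]
      nlinarith [abs_nonneg B]
  refine ⟨(s : ℂ) * t, ?_⟩
  intro w hw
  have hsc : (s : ℂ) ≠ 0 := by exact_mod_cast hs1.ne'
  obtain ⟨b, hb⟩ : ∃ b : ℂ, b = (w - (s : ℂ) * t) / s := ⟨_, rfl⟩
  have hbn : ‖b‖ < δ := by
    rw [hb, norm_div, Complex.norm_real, Real.norm_eq_abs, abs_of_pos hs1]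
    refine lt_of_le_of_lt ?_ hs2
    apply div_le_div_of_nonneg_right _ hs1.le
    exact hw.trans (le_abs_self B)
  have hp : Φ (b, 1 / s) ≠ 0 := by
    apply hδΦ
    rw [mem_ball, Prod.dist_eq]
    apply max_lt
    · simpa using hbn
    · rw [dist_zero_right, Real.norm_eq_abs, abs_of_pos (by positivity)]
      exact hs3
  have hw' : w = s * (t + b) := by
    rw [hb]; field_simp; ring
  have heval : MvPolynomial.eval ![w, (starRingEnd ℂ) w] Q = (s : ℂ) ^ D * Φ (b, 1 / s) := by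
    rw [MvPolynomial.eval_eq', hΦ, Finset.mul_sum]
    apply Finset.sum_congr rfl
    intro e he
    have hle : e 0 + e 1 ≤ D := hmax e he
    rw [Fin.prod_univ_two]
    simp only [Matrix.cons_val_zero, Matrix.cons_val_one, Matrix.cons_val_fin_one]
    have h1 : (starRingEnd ℂ) w = s * ((starRingEnd ℂ) t + (starRingEnd ℂ) b) := by
      rw [hw', map_mul, map_add, Complex.conj_ofReal]
    rw [h1, hw', mul_pow, mul_pow]
    have h2 : (s : ℂ) ^ D = (s : ℂ) ^ (e 0) * (s : ℂ) ^ (e 1) * (s : ℂ) ^ (D - (e 0 + e 1)) := by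
      rw [← pow_add, ← pow_add]; congr 1; omega
    rw [h2]
    have h3 : (s : ℂ) ^ (D - (e 0 + e 1)) * (((1 / s : ℝ)) : ℂ) ^ (D - (e 0 + e 1)) = 1 := by
      rw [← mul_pow]
      push_cast
      rw [mul_one_div_cancel hsc, one_pow]
    linear_combination (-(Q.coeff e * ((s : ℂ) ^ (e 0) * (t + b) ^ (e 0) * ((s : ℂ) ^ (e 1) *
      ((starRingEnd ℂ) t + (starRingEnd ℂ) b) ^ (e 1))))) * h3
  rw [heval]
  exact mul_ne_zero (pow_ne_zero _ hsc) hp

end WNH
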