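import Pool.Agent.WNH.Defs

/-!
Row [WN-N1n]. The modulus `N`.
-/

namespace WNH
open Filter Topology Metric

theorem exists_modulus (A : Finset (ℂ × ℕ))
    (hA : ∀ a ∈ A, 1 < ‖a.1‖ ∨ (‖a.1‖ = 1 ∧ 1 ≤ a.2))
    (hstar : ¬ StarPred (fun μ d => (μ, d) ∈ A)) :
    ∃ N : ℕ, 0 < N ∧ ∀ a ∈ A, ∀ b ∈ A, ∀ c ∈ A, a.2 = b.2 → ‖a.1‖ = ‖b.1‖ →
      (‖c.1‖ < ‖a.1‖ ∨ (‖c.1‖ = ‖a.1‖ ∧ c.2 ≤ a.2)) → a.1 ^ N ≠ b.1 ^ N →
      ∃ k : ℤ, (c.1 / (‖c.1‖ : ℂ)) ^ N = (b.1 / a.1) ^ k := by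
  classical
  have hnz : ∀ a ∈ A, a.1 ≠ 0 := by
    intro a ha h
    rcases hA a ha with h1 | h1
    · rw [h, norm_zero] at h1; linarith
    · rw [h, norm_zero] at h1; exact zero_ne_one h1.1
  have key : ∀ p : (ℂ × ℕ) × (ℂ × ℕ) × (ℂ × ℕ), ∃ n : ℕ, 0 < n ∧
      (p.1 ∈ A → p.2.1 ∈ A → p.2.2 ∈ A → p.1.2 = p.2.1.2 → ‖p.1.1‖ = ‖p.2.1.1‖ →
      (‖p.2.2.1‖ < ‖p.1.1‖ ∨ (‖p.2.2.1‖ = ‖p.1.1‖ ∧ p.2.2.2 ≤ p.1.2)) →
      ∀ j : ℕ, p.1.1 ^ (n * j) = p.2.1.1 ^ (n * j) ∨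
        ∃ k : ℤ, (p.2.2.1 / (‖p.2.2.1‖ : ℂ)) ^ (n * j) = (p.2.1.1 / p.1.1) ^ k) := by
    rintro ⟨a, b, c⟩
    by_cases hcond : a ∈ A ∧ b ∈ A ∧ c ∈ A ∧ a.2 = b.2 ∧ ‖a.1‖ = ‖b.1‖ ∧
      (‖c.1‖ < ‖a.1‖ ∨ (‖c.1‖ = ‖a.1‖ ∧ c.2 ≤ a.2))
    · obtain ⟨ha, hb, hc, h2, h1, h3⟩ := hcond
      have hrel : ∃ k l : ℤ, (b.1 / a.1) ^ k * (c.1 / (‖c.1‖ : ℂ)) ^ l = 1 ∧ ¬ (k = 0 ∧ l = 0) := by
        by_contra hcon
        push Not at hcon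
        apply hstar
        refine ⟨a.1, b.1, c.1, a.2, c.2, ha, ?_, hc, h1, h3, hA c hc, ?_⟩
        · change (b.1, a.2) ∈ A
          rw [h2]; exact hb
        · intro k l hkl
          exact hcon k l hkl
      obtain ⟨k, l, hkl, hne⟩ := hrel
      have ha0 := hnz a ha
      have hb0 := hnz b hb
      have hc0 := hnz c hc
      have hq0 : b.1 / a.1 ≠ 0 := div_ne_zero hb0 ha0
      have hcn : c.1 / (‖c.1‖ : ℂ) ≠ 0 := by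
        apply div_ne_zero hc0
        exact_mod_cast norm_ne_zero_iff.mpr hc0
      by_cases hl : l = 0
      · have hk : k ≠ 0 := fun h => hne ⟨h, hl⟩
        refine ⟨k.natAbs, Int.natAbs_pos.mpr hk, ?_⟩
        intro _ _ _ _ _ _ j
        left
        rw [hl, zpow_zero, mul_one] at hkl
        have h4 : (b.1 / a.1) ^ k.natAbs = 1 := by
          rcases Int.natAbs_eq k with h | h
          · rw [h, zpow_natCast] at hkl; exact hkl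
          · rw [h, zpow_neg, zpow_natCast, inv_eq_one] at hkl
            exact hkl
        rw [div_pow, div_eq_one_iff_eq (pow_ne_zero _ ha0)] at h4
        change a.1 ^ (k.natAbs * j) = b.1 ^ (k.natAbs * j)
        rw [pow_mul, pow_mul, h4]
      · refine ⟨l.natAbs, Int.natAbs_pos.mpr hl, ?_⟩
        intro _ _ _ _ _ _ j
        right
        change ∃ k : ℤ, (c.1 / (‖c.1‖ : ℂ)) ^ (l.natAbs * j) = (b.1 / a.1) ^ k
        have h4 : (c.1 / (‖c.1‖ : ℂ)) ^ l = (b.1 / a.1) ^ (-k) := by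
          rw [zpow_neg]
          exact eq_inv_of_mul_eq_one_right hkl
        rcases Int.natAbs_eq l with h | h
        · refine ⟨-k * j, ?_⟩
          rw [zpow_mul, ← h4, ← zpow_natCast, Nat.cast_mul, zpow_mul, ← h]
        · refine ⟨k * j, ?_⟩
          have h5 : (l.natAbs : ℤ) = -l := by omega
          rw [zpow_mul, ← zpow_natCast, Nat.cast_mul, h5, zpow_mul, zpow_neg, h4, ← zpow_neg,
            neg_neg]
    · refine ⟨1, one_pos, ?_⟩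
      intro h1 h2 h3 h4 h5 h6
      exact absurd ⟨h1, h2, h3, h4, h5, h6⟩ hcond
  choose n hn0 hn using key
  refine ⟨∏ p ∈ A ×ˢ A ×ˢ A, n p, Finset.prod_pos fun p _ => hn0 p, ?_⟩
  intro a ha b hb c hc h1 h2 h3 h4
  have hmem : (a, b, c) ∈ A ×ˢ A ×ˢ A := by
    rw [Finset.mem_product, Finset.mem_product]
    exact ⟨ha, hb, hc⟩
  obtain ⟨j, hj⟩ := Finset.dvd_prod_of_mem n hmem
  rw [hj] at h4 ⊢
  rcases hn (a, b, c) ha hb hc h1 h2 h3 j with h | h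
  · exact absurd h h4
  · exact h

end WNH
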