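import Pool.Agent.WNH.N1b
import Pool.Agent.WNH.N1t
import Pool.Agent.WNH.N1n

/-!
Row [WN-N1d]. Uses `algebraic_relation` (N1b), `trichotomy` (N1t), `exists_modulus` (N1n).

Proof. Let `u n = ∑ a ∈ A, c a C(n,a.2) a.1^n`, `N` from `exists_modulus`. For each `i < N` find
`Q_i ≠ 0` vanishing at `(w, conj w)` for all cluster points `w` of `m ↦ u (N m + i)`; then
`Q = ∏ Q_i ≠ 0` (`MvPolynomial (Fin 2) ℂ` is a domain) and every cluster point `w` of `u` is a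
cluster point of one of these `N` subsequences (ultrafilter `𝒰 ≤ atTop` with `u → w`: some residue
class `{n | n % N = i}` is in `𝒰`; push forward by `n ↦ n / N`).
By `trichotomy` for the class `i`: (1) norm `→ ∞`: no cluster points, `Q_i = 1`. (2) identically
`0`: the only cluster point is `0`, `Q_i = X_0`. (3) `a, b ∈ A` as there; let
`ζ = b.1/a.1`, `‖ζ‖ = 1`, `A' ` the filter. For `x ∈ A'`, `exists_modulus` gives `k_x : ℤ` with
`(x.1/‖x.1‖)^N = ζ^(k_x)`, so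
`x.1^(N m + i) = x.1^i (‖x.1‖^N)^m ζ^(k_x m)`, and
`c x C(N m + i, x.2) x.1^(N m + i) = E_x(m) ζ^(k_x m)` with
`E_x = c x x.1^i C(N m + i, x.2) (‖x.1‖^N)^m ∈ ExpPoly` (`C(N m + i, j)` is a polynomial in `m`:
`descPochhammer`/`Nat.cast_choose` or by induction `(j+1) C(n,j+1) = (n - j) C(n,j)`). With
`D ≥ |k_x|` for all `x ∈ A'` and `E k = ∑_{x ∈ A', k_x = k} E_x`, `algebraic_relation` applies.
-/

namespace WNH
open Filter Topology Metric

theorem N1d_const (a : ℂ) : (fun _ : ℕ => a) ∈ ExpPoly := ExpPoly.algebraMap_mem a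

theorem N1d_id : (fun m : ℕ => (m : ℂ)) ∈ ExpPoly :=
  Algebra.subset_adjoin (Or.inl rfl)

theorem N1d_pow (σ : ℝ) (hσ : 0 < σ) : (fun m : ℕ => (σ : ℂ) ^ m) ∈ ExpPoly :=
  Algebra.subset_adjoin (Or.inr ⟨σ, hσ, rfl⟩)

theorem N1d_choose_succ (n j : ℕ) :
    ((n.choose (j + 1) : ℕ) : ℂ) = (n.choose j : ℂ) * ((n : ℂ) - j) * ((j : ℂ) + 1)⁻¹ := by
  have hj : ((j : ℂ) + 1) ≠ 0 := Nat.cast_add_one_ne_zero j
  rw [eq_mul_inv_iff_mul_eq₀ hj]
  rcases Nat.lt_or_ge n j with h | h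
  · rw [Nat.choose_eq_zero_of_lt h, Nat.choose_eq_zero_of_lt (by omega)]
    simp
  · have := Nat.choose_succ_right_eq n j
    have h2 : ((n.choose (j + 1) * (j + 1) : ℕ) : ℂ) = ((n.choose j * (n - j) : ℕ) : ℂ) := by rw [this]
    push_cast [Nat.cast_sub h] at h2
    exact h2

theorem N1d_choose (N i j : ℕ) : (fun m : ℕ => (((N * m + i).choose j : ℕ) : ℂ)) ∈ ExpPoly := by
  induction j with
  | zero =>
    have : (fun m : ℕ => (((N * m + i).choose 0 : ℕ) : ℂ)) = fun _ => (1 : ℂ) := by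
      funext m
      simp
    rw [this]
    exact N1d_const 1
  | succ j ih =>
    have h1 : (fun m : ℕ => (((N * m + i).choose (j + 1) : ℕ) : ℂ)) =
        (fun m : ℕ => (((N * m + i).choose j : ℕ) : ℂ)) *
          (((fun _ : ℕ => (N : ℂ)) * (fun m : ℕ => (m : ℂ)) + (fun _ : ℕ => (i : ℂ) - j)) *
          (fun _ : ℕ => ((j : ℂ) + 1)⁻¹)) := by
      funext m
      simp only [Pi.mul_apply, Pi.add_apply]
      rw [N1d_choose_succ]
      push_cast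
      ring
    rw [h1]
    exact ExpPoly.mul_mem ih (ExpPoly.mul_mem (ExpPoly.add_mem (ExpPoly.mul_mem (N1d_const _) N1d_id)
      (N1d_const _)) (N1d_const _))

theorem N1d_class (A : Finset (ℂ × ℕ)) (c : ℂ × ℕ → ℂ)
    (hA : ∀ a ∈ A, 1 < ‖a.1‖ ∨ (‖a.1‖ = 1 ∧ 1 ≤ a.2)) (N : ℕ) (hN : 0 < N)
    (hmod : ∀ a ∈ A, ∀ b ∈ A, ∀ c ∈ A, a.2 = b.2 → ‖a.1‖ = ‖b.1‖ →
      (‖c.1‖ < ‖a.1‖ ∨ (‖c.1‖ = ‖a.1‖ ∧ c.2 ≤ a.2)) → a.1 ^ N ≠ b.1 ^ N →
      ∃ k : ℤ, (c.1 / (‖c.1‖ : ℂ)) ^ N = (b.1 / a.1) ^ k) (i : ℕ) :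
    ∃ Q : MvPolynomial (Fin 2) ℂ, Q ≠ 0 ∧ ∀ w : ℂ,
      MapClusterPt w atTop (fun m : ℕ => ∑ a ∈ A, c a * ((N * m + i).choose a.2 : ℂ) *
        a.1 ^ (N * m + i)) → MvPolynomial.eval ![w, (starRingEnd ℂ) w] Q = 0 := by
  have hpos : ∀ a ∈ A, 0 < ‖a.1‖ := by
    intro a ha
    rcases hA a ha with h | ⟨h, _⟩ <;> linarith
  rcases trichotomy A c hA N i hN with h | h | ⟨a, ha, b, hb, hab2, hab1, habN, hsum⟩
  · refine ⟨1, one_ne_zero, fun w hw => ?_⟩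
    exfalso
    have h1 := hw.frequently (p := fun y => ‖y‖ < ‖w‖ + 1)
      ((continuous_norm.tendsto w).eventually_lt_const (by linarith))
    have h2 := h.eventually_ge_atTop (‖w‖ + 1)
    obtain ⟨m, hm1, hm2⟩ := (h1.and_eventually h2).exists
    linarith
  · refine ⟨MvPolynomial.X 0, MvPolynomial.X_ne_zero 0, fun w hw => ?_⟩
    rw [MvPolynomial.eval_X]
    show w = 0
    by_contra hw0
    have h1 := hw.frequently (p := fun y => y ≠ 0) (isOpen_ne.mem_nhds hw0)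
    obtain ⟨m, hm⟩ := h1.exists
    exact hm (h m)
  · set A' := A.filter (fun x => ‖x.1‖ < ‖a.1‖ ∨ (‖x.1‖ = ‖a.1‖ ∧ x.2 ≤ a.2)) with hA'
    have hk : ∀ x : ℂ × ℕ, ∃ k : ℤ, x ∈ A' → (x.1 / (‖x.1‖ : ℂ)) ^ N = (b.1 / a.1) ^ k := by
      intro x
      by_cases hx : x ∈ A'
      · obtain ⟨k, hk⟩ := hmod a ha b hb x (Finset.mem_filter.1 hx).1 hab2 hab1
          (Finset.mem_filter.1 hx).2 habN
        exact ⟨k, fun _ => hk⟩
      · exact ⟨0, fun h => absurd h hx⟩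
    choose κ hκ using hk
    have ha0 : a.1 ≠ 0 := norm_pos_iff.1 (hpos a ha)
    set ζ : ℂ := b.1 / a.1 with hζ
    have hζ1 : ‖ζ‖ = 1 := by
      rw [hζ, norm_div, hab1, div_self (hpos b hb).ne']
    obtain ⟨D, hD⟩ : ∃ D : ℕ, ∀ x ∈ A', κ x ∈ Finset.Icc (-(D : ℤ)) D := by
      refine ⟨∑ x ∈ A', (κ x).natAbs, fun x hx => ?_⟩
      have h1 : (κ x).natAbs ≤ ∑ x ∈ A', (κ x).natAbs :=
        Finset.single_le_sum (f := fun x => (κ x).natAbs) (fun _ _ => Nat.zero_le _) hx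
      rw [Finset.mem_Icc]
      omega
    have hrel := algebraic_relation ζ hζ1 D
      (fun k => ∑ x ∈ A'.filter (fun x => κ x = k), fun m : ℕ => c x * x.1 ^ i *
        (((N * m + i).choose x.2 : ℕ) : ℂ) * ((‖x.1‖ ^ N : ℝ) : ℂ) ^ m)
      (fun k => by
        refine ExpPoly.sum_mem fun x hx => ?_
        have hx' : x ∈ A := (Finset.mem_filter.1 (Finset.mem_filter.1 hx).1).1
        have e : (fun m : ℕ => c x * x.1 ^ i * (((N * m + i).choose x.2 : ℕ) : ℂ) *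
            ((‖x.1‖ ^ N : ℝ) : ℂ) ^ m) = (fun _ : ℕ => c x * x.1 ^ i) *
              (fun m : ℕ => (((N * m + i).choose x.2 : ℕ) : ℂ)) *
              (fun m : ℕ => ((‖x.1‖ ^ N : ℝ) : ℂ) ^ m) := rfl
        rw [e]
        exact ExpPoly.mul_mem (ExpPoly.mul_mem (N1d_const _) (N1d_choose N i x.2))
          (N1d_pow _ (pow_pos (hpos x hx') N)))
      (fun m : ℕ => ∑ a ∈ A, c a * ((N * m + i).choose a.2 : ℂ) * a.1 ^ (N * m + i))
      (fun m => by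
        rw [hsum m, ← Finset.sum_fiberwise_of_maps_to hD]
        refine Finset.sum_congr rfl fun k _ => ?_
        rw [Finset.sum_apply, Finset.sum_mul]
        refine Finset.sum_congr rfl fun x hx => ?_
        obtain ⟨hx1, hx2⟩ := Finset.mem_filter.1 hx
        have hx' : x ∈ A := (Finset.mem_filter.1 hx1).1
        have hxn : ((‖x.1‖ : ℝ) : ℂ) ≠ 0 := by
          rw [Ne, Complex.ofReal_eq_zero]
          exact (hpos x hx').ne'
        have h1 : x.1 ^ N = ((‖x.1‖ ^ N : ℝ) : ℂ) * ζ ^ k := by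
          have h2 := hκ x hx1
          rw [hx2, div_pow, div_eq_iff (pow_ne_zero N hxn)] at h2
          rw [h2]
          push_cast
          ring
        have h3 : x.1 ^ (N * m + i) = x.1 ^ i * (((‖x.1‖ ^ N : ℝ) : ℂ) ^ m * ζ ^ (k * (m : ℤ))) := by
          rw [pow_add, pow_mul, h1, mul_pow, zpow_mul, zpow_natCast]
          ring
        rw [h3]
        ring)
    exact hrel

theorem N1d_residue (u : ℕ → ℂ) (N : ℕ) (hN : 0 < N) (w : ℂ) (hw : MapClusterPt w atTop u) :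
    ∃ i < N, MapClusterPt w atTop (fun m : ℕ => u (N * m + i)) := by
  obtain ⟨U, hU, hUw⟩ := mapClusterPt_iff_ultrafilter.1 hw
  have h1 : (Set.Iio N : Set ℕ) ∈ U.map (fun n => n % N) := by
    rw [Ultrafilter.mem_map]
    exact Filter.mem_of_superset Filter.univ_mem (fun n _ => Nat.mod_lt n hN)
  obtain ⟨i, hi, hpure⟩ := Ultrafilter.eq_pure_of_finite_mem (Set.finite_Iio N) h1
  refine ⟨i, hi, ?_⟩
  have h2 : ∀ᶠ n in (U : Filter ℕ), n % N = i := by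
    have h3 : ({i} : Set ℕ) ∈ U.map (fun n => n % N) := by
      rw [hpure]
      exact Set.mem_singleton i
    rw [Ultrafilter.mem_map] at h3
    exact h3
  rw [mapClusterPt_iff_ultrafilter]
  refine ⟨U.map (fun n => n / N), ?_, ?_⟩
  · rw [Ultrafilter.coe_map]
    have : Tendsto (fun n : ℕ => n / N) atTop atTop := Nat.tendsto_div_const_atTop hN.ne'
    exact (Filter.map_mono hU).trans this
  · rw [Ultrafilter.coe_map, tendsto_map'_iff]
    refine hUw.congr' ?_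
    filter_upwards [h2] with n hn
    show u n = u (N * (n / N) + i)
    rw [← hn, Nat.div_add_mod]

theorem cluster_algebraic (A : Finset (ℂ × ℕ)) (c : ℂ × ℕ → ℂ)
    (hA : ∀ a ∈ A, 1 < ‖a.1‖ ∨ (‖a.1‖ = 1 ∧ 1 ≤ a.2))
    (hstar : ¬ StarPred (fun μ d => (μ, d) ∈ A)) :
    ∃ Q : MvPolynomial (Fin 2) ℂ, Q ≠ 0 ∧ ∀ w : ℂ,
      MapClusterPt w atTop (fun n : ℕ => ∑ a ∈ A, c a * (n.choose a.2 : ℂ) * a.1 ^ n) →
      MvPolynomial.eval ![w, (starRingEnd ℂ) w] Q = 0 := by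
  obtain ⟨N, hN, hmod⟩ := exists_modulus A hA hstar
  choose Q hQ0 hQ using fun i => N1d_class A c hA N hN hmod i
  refine ⟨∏ i ∈ Finset.range N, Q i, Finset.prod_ne_zero_iff.2 fun i _ => hQ0 i, fun w hw => ?_⟩
  obtain ⟨i, hi, hwi⟩ := N1d_residue _ N hN w hw
  rw [map_prod]
  exact Finset.prod_eq_zero (Finset.mem_range.2 hi) (hQ i w hwi)

end WNH
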