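import Pool.Agent.WNH.N0
import Pool.Agent.WNH.N1c
import Pool.Agent.WNH.N1d

/-!
Row [WN-N1]. Uses `cluster_algebraic` (N1d), `zeros_not_coarsely_dense` (N1c), `orbit_expansion` (N0).
-/

namespace WNH
open Filter Topology Metric
universe u

theorem StarPred.mono {J J' : ℂ → ℕ → Prop} (h : ∀ μ d, J μ d → J' μ d) (hJ : StarPred J) :
    StarPred J' := by
  obtain ⟨a, b, c, d, e, h1, h2, h3, h4⟩ := hJ
  exact ⟨a, b, c, d, e, h _ _ h1, h _ _ h2, h _ _ h3, h4⟩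

namespace N1Aux

theorem term_bounded (c μ : ℂ) (j : ℕ) (h : ¬ (1 < ‖μ‖ ∨ (‖μ‖ = 1 ∧ 1 ≤ j))) :
    ∃ B : ℝ, ∀ n : ℕ, ‖c * (n.choose j : ℂ) * μ ^ n‖ ≤ B := by
  push Not at h
  obtain ⟨h1, h2⟩ := h
  rcases h1.lt_or_eq with h3 | h3
  · have ht : Tendsto (fun n : ℕ => (n : ℝ) ^ j * ‖μ‖ ^ n) atTop (𝓝 0) :=
      tendsto_pow_const_mul_const_pow_of_abs_lt_one j (by rw [abs_of_nonneg (norm_nonneg μ)]; exact h3)
    obtain ⟨B, hB⟩ := ht.bddAbove_range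
    refine ⟨‖c‖ * B, ?_⟩
    intro n
    have h4 : (n : ℝ) ^ j * ‖μ‖ ^ n ≤ B := hB ⟨n, rfl⟩
    rw [norm_mul, norm_mul, Complex.norm_natCast, norm_pow, mul_assoc]
    apply mul_le_mul_of_nonneg_left _ (norm_nonneg _)
    refine le_trans ?_ h4
    apply mul_le_mul_of_nonneg_right _ (by positivity)
    have h5 := Nat.choose_le_pow_div (α := ℝ) j n
    refine h5.trans ?_
    apply div_le_self (by positivity)
    exact_mod_cast Nat.succ_le_of_lt (Nat.factorial_pos j)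
  · have h4 : j = 0 := by
      have := h2 h3
      omega
    refine ⟨‖c‖, ?_⟩
    intro n
    rw [h4, Nat.choose_zero_right, Nat.cast_one, mul_one, norm_mul, norm_pow, h3, one_pow, mul_one]

end N1Aux

open N1Aux

theorem star_of_dense (A : Finset (ℂ × ℕ)) (c : ℂ × ℕ → ℂ) (h0 : ∀ a ∈ A, a.1 ≠ 0) (u : ℕ → ℂ)
    (hu : Tendsto (fun n : ℕ => u n - ∑ a ∈ A, c a * (n.choose a.2 : ℂ) * a.1 ^ n) atTop (𝓝 0))
    (hd : Dense (Set.range u)) : StarPred (fun μ d => (μ, d) ∈ A) := by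
  classical
  by_contra hstar
  obtain ⟨Ag, hAg⟩ : ∃ Ag : Finset (ℂ × ℕ),
    Ag = A.filter (fun a => 1 < ‖a.1‖ ∨ (‖a.1‖ = 1 ∧ 1 ≤ a.2)) := ⟨_, rfl⟩
  obtain ⟨Ab, hAb⟩ : ∃ Ab : Finset (ℂ × ℕ),
    Ab = A.filter (fun a => ¬ (1 < ‖a.1‖ ∨ (‖a.1‖ = 1 ∧ 1 ≤ a.2))) := ⟨_, rfl⟩
  have hsplit : ∀ n : ℕ, ∑ a ∈ A, c a * (n.choose a.2 : ℂ) * a.1 ^ n
      = (∑ a ∈ Ag, c a * (n.choose a.2 : ℂ) * a.1 ^ n)
        + ∑ a ∈ Ab, c a * (n.choose a.2 : ℂ) * a.1 ^ n := by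
    intro n
    rw [hAg, hAb, Finset.sum_filter_add_sum_filter_not]
  -- the difference is bounded
  obtain ⟨B₁, hB₁⟩ : ∃ B₁ : ℝ, ∀ n : ℕ, ‖u n - ∑ a ∈ A, c a * (n.choose a.2 : ℂ) * a.1 ^ n‖ ≤ B₁ := by
    obtain ⟨B, hB⟩ := hu.norm.bddAbove_range
    exact ⟨B, fun n => hB ⟨n, rfl⟩⟩
  have hterm : ∀ a : ℂ × ℕ, ∃ B : ℝ, a ∈ Ab → ∀ n : ℕ, ‖c a * (n.choose a.2 : ℂ) * a.1 ^ n‖ ≤ B := by
    intro a
    by_cases ha : a ∈ Ab
    · rw [hAb, Finset.mem_filter] at ha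
      obtain ⟨B, hB⟩ := term_bounded (c a) a.1 a.2 ha.2
      exact ⟨B, fun _ => hB⟩
    · exact ⟨0, fun h => absurd h ha⟩
  choose Bf hBf using hterm
  obtain ⟨B, hBdef⟩ : ∃ B : ℝ, B = B₁ + ∑ a ∈ Ab, Bf a := ⟨_, rfl⟩
  have hB : ∀ n : ℕ, ‖u n - ∑ a ∈ Ag, c a * (n.choose a.2 : ℂ) * a.1 ^ n‖ ≤ B := by
    intro n
    have h1 : u n - ∑ a ∈ Ag, c a * (n.choose a.2 : ℂ) * a.1 ^ n
        = (u n - ∑ a ∈ A, c a * (n.choose a.2 : ℂ) * a.1 ^ n)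
          + ∑ a ∈ Ab, c a * (n.choose a.2 : ℂ) * a.1 ^ n := by
      rw [hsplit n]; ring
    rw [h1, hBdef]
    refine (norm_add_le _ _).trans (add_le_add (hB₁ n) ?_)
    refine (norm_sum_le _ _).trans ?_
    exact Finset.sum_le_sum fun a ha => hBf a ha n
  have hAgA : ∀ a ∈ Ag, a ∈ A := by
    intro a ha; rw [hAg, Finset.mem_filter] at ha; exact ha.1
  obtain ⟨Q, hQ, hQw⟩ := cluster_algebraic Ag c (by
      intro a ha
      rw [hAg, Finset.mem_filter] at ha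
      exact ha.2) (by
      intro h
      exact hstar (h.mono fun μ d hd => hAgA _ hd))
  obtain ⟨z, hz⟩ := zeros_not_coarsely_dense Q hQ B
  -- `z` is a cluster point at infinity
  have hzc : MapClusterPt z atTop u := by
    rw [mapClusterPt_iff_frequently]
    intro s hs
    rw [frequently_atTop]
    intro N
    obtain ⟨V, hVs, hV, hzV⟩ := _root_.mem_nhds_iff.mp hs
    have hfin : (u '' (Set.Iio N)).Finite := (Set.finite_Iio N).image u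
    have hd' := hd.sdiff_finite hfin
    obtain ⟨w, hwV, ⟨n, rfl⟩, hwn⟩ := hd'.inter_open_nonempty V hV ⟨z, hzV⟩
    refine ⟨n, ?_, hVs hwV⟩
    by_contra hcon
    push Not at hcon
    exact hwn ⟨n, hcon, rfl⟩
  rw [mapClusterPt_iff_ultrafilter] at hzc
  obtain ⟨𝒰, h𝒰, hzU⟩ := hzc
  obtain ⟨G, hG⟩ : ∃ G : ℕ → ℂ, G = fun n : ℕ => ∑ a ∈ Ag, c a * (n.choose a.2 : ℂ) * a.1 ^ n :=
    ⟨_, rfl⟩
  have hcomp : IsCompact (closedBall (0 : ℂ) B) := isCompact_closedBall 0 B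
  obtain ⟨e, he, heU⟩ := hcomp.ultrafilter_le_nhds (𝒰.map (fun n => u n - G n)) (by
    rw [le_principal_iff]
    apply Filter.Eventually.of_forall (f := (𝒰 : Filter ℕ)) (p := fun n => u n - G n ∈ closedBall (0 : ℂ) B)
    intro n
    rw [mem_closedBall, dist_zero_right, hG]
    exact hB n)
  have heU' : Tendsto (fun n => u n - G n) 𝒰 (𝓝 e) := heU
  have hGU : Tendsto G 𝒰 (𝓝 (z - e)) := by
    have h1 := hzU.sub heU'
    simpa using h1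
  have hGc : MapClusterPt (z - e) atTop G := by
    rw [mapClusterPt_iff_ultrafilter]
    exact ⟨𝒰, h𝒰, hGU⟩
  have h1 := hQw (z - e) (by rw [hG] at hGc; exact hGc)
  refine hz (z - e) ?_ h1
  rw [mem_closedBall, dist_zero_right] at he
  have h2 : z - e - z = -e := by ring
  rw [h2, norm_neg]
  exact he

theorem star_of_W {X : Type u} [NormedAddCommGroup X] [NormedSpace ℂ X] [CompleteSpace X]
    (T : X →L[ℂ] X) (hT : Dec T) (hW : W T) : StarPred (JP T) := by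
  obtain ⟨x, f, hd⟩ := hW
  obtain ⟨A, c, hA, hlim⟩ := orbit_expansion T hT x f
  have h1 := star_of_dense A c (fun a ha => (hA a ha).1) _ hlim hd
  exact h1.mono fun μ d hμ => (hA _ hμ).2

end WNH
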