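import Pool.Agent.WNH.P11
import Pool.Agent.WNH.N1
import Pool.Agent.WNH.A4
import Pool.Agent.WNH.E1
import Pool.Agent.WNH.D6

/-!
Final assembly.
-/

namespace WNH
open Filter Topology Metric
universe u
variable {X : Type u} [NormedAddCommGroup X] [NormedSpace ℂ X]

/-- `T` has an infinite sequence of eigenvalues with strictly decreasing moduli, all `> 1`. -/
def InfChain (T : X →L[ℂ] X) : Prop :=
  ∃ μ : ℕ → ℂ, (∀ j, ∃ x : X, x ≠ 0 ∧ T x = μ j • x) ∧ (∀ j, 1 < ‖μ j‖) ∧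
    StrictAnti fun j => ‖μ j‖

variable [CompleteSpace X]

theorem W_smul (T : X →L[ℂ] X) (hT : W T)
    (h : ¬ InfChain T ∨ RayCond T ∨ StarPred (JP T)) (r : ℝ) (hr : 1 ≤ r) :
    W ((r : ℂ) • T) := by
  rcases hr.eq_or_lt with h1 | h1
  · rw [← h1]; simpa using hT
  · rcases h with hno | hray | hstar
    · by_contra hW
      have hDec := dec_of_notW T r h1 hW hno
      exact hW (W_of_star _ (star_smul T r hr (star_of_W T hDec hT)))
    · exact W_smul_of_ray T hT hray r h1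
    · exact W_of_star _ (star_smul T r hr hstar)

theorem wNumHyp_smul (T : X →L[ℂ] X) (hT : WNumHyp T)
    (h : ¬ InfChain T ∨ RayCond T ∨ StarPred (JP T)) (r : ℝ) (hr : 1 ≤ r) :
    WNumHyp ((r : ℂ) • T) :=
  wNumHyp_of_W _ (W_smul T (W_of_wNumHyp T hT) h r hr)

theorem wNumHyp_of_star (T : X →L[ℂ] X) (h : StarPred (JP T)) : WNumHyp T :=
  wNumHyp_of_W _ (W_of_star T h)

theorem wNumHyp_iff_of_dec (T : X →L[ℂ] X) (h : Dec T) : WNumHyp T ↔ StarPred (JP T) :=
  ⟨fun hT => star_of_W T h (W_of_wNumHyp T hT), wNumHyp_of_star T⟩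

omit [CompleteSpace X] in
theorem dec_of_finiteDimensional [FiniteDimensional ℂ X] (T : X →L[ℂ] X) : Dec T := by
  have : FiniteDimensional ℂ (X →L[ℂ] X) := inferInstance
  refine ⟨1, minpoly ℂ T, by simp, fun U _ => by simp, ?_, ?_, ?_⟩
  · exact minpoly.ne_zero (Algebra.IsIntegral.isIntegral T)
  · rw [minpoly.aeval]; simp
  · simp [gr, spectrum.spectralRadius_zero]

end WNH
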