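import Pool.Agent.WNH.Defs

/-!
Row [WN-G0]. Spectral radius facts, `gr S = (spectralRadius ℂ S).toReal` (file Defs).

Proof. `X →L[ℂ] X` is a complex Banach algebra (NormedRing, NormedAlgebra, CompleteSpace).
If `X` is a subsingleton everything is `0` (`‖S ^ n‖ = 0`; spectrum of an element of the zero ring
is empty, so `gr S = 0`). If `X` is nontrivial then `NormOneClass (X →L[ℂ] X)`.
* `gr_pow_le`: `spectrum.spectralRadius_le_pow_nnnorm_pow_one_div` (or
  `spectralRadius_pow`/`spectralRadius_le_nnnorm` for `S ^ n`).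
* `gr_bound`: Gelfand's formula `spectrum.pow_nnnorm_pow_one_div_tendsto_nhds_spectralRadius`:
  `‖S ^ n‖ ^ (1/n) → gr S < R`, so `‖S ^ n‖ ≤ R ^ n` for large `n`; `C` absorbs the finitely many
  remaining `n` (note `R > gr S ≥ 0`, so `R > 0`).
* `gr_le_of_bound`: by `gr_pow_le`, `gr S ^ n ≤ C * R ^ n` for all `n ≥ 1`; if `R < gr S` then
  `(gr S / R) ^ n ≤ C` for all `n` when `R > 0` (contradiction), and `n = 1` when `R = 0`.
-/

namespace WNH
open Filter Topology Metric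
universe u
variable {X : Type u} [NormedAddCommGroup X] [NormedSpace ℂ X] [CompleteSpace X]

theorem gr_nonneg (S : X →L[ℂ] X) : 0 ≤ gr S := ENNReal.toReal_nonneg

theorem G0_ne_top (S : X →L[ℂ] X) : spectralRadius ℂ S ≠ ⊤ := by
  have h := spectrum.spectralRadius_le_pow_nnnorm_pow_one_div ℂ S 0
  refine ne_top_of_le_ne_top ?_ h
  refine ENNReal.mul_ne_top ?_ ?_
  · exact ENNReal.rpow_ne_top_of_nonneg (by positivity) ENNReal.coe_ne_top
  · exact ENNReal.rpow_ne_top_of_nonneg (by positivity) ENNReal.coe_ne_top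

theorem gr_pow_le (S : X →L[ℂ] X) {n : ℕ} (hn : n ≠ 0) : gr S ^ n ≤ ‖S ^ n‖ := by
  rcases subsingleton_or_nontrivial X with hX | hX
  · have : Subsingleton (X →L[ℂ] X) := ⟨fun f g => by ext x; exact Subsingleton.elim _ _⟩
    have h0 : gr S = 0 := by
      unfold gr
      rw [spectrum.SpectralRadius.of_subsingleton]
      rfl
    rw [h0, zero_pow hn]
    exact norm_nonneg _
  · have h1 : spectralRadius ℂ S ^ n ≤ (‖S ^ n‖₊ : ENNReal) :=
      (spectrum.spectralRadius_pow_le S n hn).trans (spectrum.spectralRadius_le_nnnorm (S ^ n))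
    have h2 := ENNReal.toReal_mono ENNReal.coe_ne_top h1
    rw [ENNReal.toReal_pow] at h2
    exact h2

theorem gr_bound (S : X →L[ℂ] X) {R : ℝ} (hR : gr S < R) :
    ∃ C : ℝ, 0 < C ∧ ∀ n : ℕ, ‖S ^ n‖ ≤ C * R ^ n := by
  have hR0 : 0 < R := lt_of_le_of_lt (gr_nonneg S) hR
  have hlt : spectralRadius ℂ S < ENNReal.ofReal R := by
    rw [ENNReal.lt_ofReal_iff_toReal_lt (G0_ne_top S)]
    exact hR
  have hev := (spectrum.pow_norm_pow_one_div_tendsto_nhds_spectralRadius S).eventually_lt_const hlt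
  have hev2 : ∀ᶠ n : ℕ in atTop, ‖S ^ n‖ ≤ R ^ n := by
    filter_upwards [hev, eventually_ne_atTop 0] with n hn hn0
    rw [ENNReal.ofReal_lt_ofReal_iff hR0] at hn
    have e : (‖S ^ n‖ ^ (1 / (n : ℝ))) ^ n = ‖S ^ n‖ := by
      rw [one_div]
      exact Real.rpow_inv_natCast_pow (norm_nonneg _) hn0
    rw [← e]
    exact pow_le_pow_left₀ (by positivity) hn.le n
  obtain ⟨N, hN⟩ := eventually_atTop.1 hev2
  refine ⟨1 + ∑ n ∈ Finset.range N, ‖S ^ n‖ / R ^ n, ?_, ?_⟩
  · have : 0 ≤ ∑ n ∈ Finset.range N, ‖S ^ n‖ / R ^ n :=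
      Finset.sum_nonneg fun n _ => by positivity
    linarith
  · intro n
    by_cases hn : n < N
    · have h1 : ‖S ^ n‖ / R ^ n ≤ ∑ n ∈ Finset.range N, ‖S ^ n‖ / R ^ n :=
        Finset.single_le_sum (f := fun n => ‖S ^ n‖ / R ^ n) (fun n _ => by positivity)
          (Finset.mem_range.2 hn)
      have h2 : ‖S ^ n‖ = ‖S ^ n‖ / R ^ n * R ^ n := by
        field_simp
      calc ‖S ^ n‖ = ‖S ^ n‖ / R ^ n * R ^ n := h2
        _ ≤ (1 + ∑ n ∈ Finset.range N, ‖S ^ n‖ / R ^ n) * R ^ n := by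
          gcongr
          linarith
    · have h1 : 0 ≤ ∑ n ∈ Finset.range N, ‖S ^ n‖ / R ^ n :=
        Finset.sum_nonneg fun n _ => by positivity
      have h2 := hN n (not_lt.1 hn)
      have h3 : 0 ≤ R ^ n := by positivity
      nlinarith

theorem gr_le_of_bound (S : X →L[ℂ] X) {R C : ℝ} (hR : 0 ≤ R)
    (h : ∀ n : ℕ, ‖S ^ n‖ ≤ C * R ^ n) : gr S ≤ R := by
  by_contra hcon
  push Not at hcon
  have h1 : ∀ n : ℕ, n ≠ 0 → gr S ^ n ≤ C * R ^ n := fun n hn => (gr_pow_le S hn).trans (h n)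
  rcases hR.eq_or_lt with h0 | h0
  · have := h1 1 one_ne_zero
    rw [← h0] at this hcon
    rw [pow_one, pow_one, mul_zero] at this
    linarith
  · have h2 : 1 < gr S / R := (one_lt_div h0).2 hcon
    have h3 := (tendsto_pow_atTop_atTop_of_one_lt h2).eventually_gt_atTop C
    obtain ⟨n, hn, hn0⟩ := (h3.and (eventually_ne_atTop 0)).exists
    have h4 := h1 n hn0
    rw [div_pow, lt_div_iff₀ (by positivity)] at hn
    linarith

end WNH
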