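import Pool.Agent.WNH.G0

/-!
Row [WN-N0]. Uses G0. Expansion of a numerical orbit of `T` with `Dec T`.
-/

namespace WNH
open Filter Topology Metric
universe u
variable {X : Type u} [NormedAddCommGroup X] [NormedSpace ℂ X]

namespace N0Aux

/-- the orbit `f (T ^ n y)` is eventually a finite exponential polynomial. -/
def FinE (T : X →L[ℂ] X) (f : StrongDual ℂ X) (y : X) : Prop :=
  ∃ (A : Finset (ℂ × ℕ)) (c : ℂ × ℕ → ℂ), (∀ a ∈ A, a.1 ≠ 0 ∧ JP T a.1 a.2) ∧
    ∃ n₀ : ℕ, ∀ n : ℕ, n₀ ≤ n → f ((T ^ n) y) = ∑ a ∈ A, c a * (n.choose a.2 : ℂ) * a.1 ^ n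

theorem FinE.add {T : X →L[ℂ] X} {f : StrongDual ℂ X} {y z : X} (hy : FinE T f y)
    (hz : FinE T f z) : FinE T f (y + z) := by
  classical
  obtain ⟨A, c, hA, n₀, hn₀⟩ := hy
  obtain ⟨B, d, hB, n₁, hn₁⟩ := hz
  refine ⟨A ∪ B, fun a => (if a ∈ A then c a else 0) + (if a ∈ B then d a else 0), ?_,
    max n₀ n₁, ?_⟩
  · intro a ha
    rcases Finset.mem_union.mp ha with h | h
    · exact hA a h
    · exact hB a h
  · intro n hn
    rw [map_add, map_add, hn₀ n (le_trans (le_max_left _ _) hn),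
      hn₁ n (le_trans (le_max_right _ _) hn)]
    have h1 : ∑ a ∈ A, c a * (n.choose a.2 : ℂ) * a.1 ^ n
        = ∑ a ∈ A ∪ B, (if a ∈ A then c a else 0) * (n.choose a.2 : ℂ) * a.1 ^ n := by
      rw [← Finset.sum_subset (Finset.subset_union_left (s₁ := A) (s₂ := B))]
      · apply Finset.sum_congr rfl
        intro a ha
        rw [if_pos ha]
      · intro a _ ha
        rw [if_neg ha, zero_mul, zero_mul]
    have h2 : ∑ a ∈ B, d a * (n.choose a.2 : ℂ) * a.1 ^ n
        = ∑ a ∈ A ∪ B, (if a ∈ B then d a else 0) * (n.choose a.2 : ℂ) * a.1 ^ n := by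
      rw [← Finset.sum_subset (Finset.subset_union_right (s₁ := A) (s₂ := B))]
      · apply Finset.sum_congr rfl
        intro a ha
        rw [if_pos ha]
      · intro a _ ha
        rw [if_neg ha, zero_mul, zero_mul]
    rw [h1, h2, ← Finset.sum_add_distrib]
    apply Finset.sum_congr rfl
    intro a _
    ring

theorem pow_add_apply (S : X →L[ℂ] X) (a b : ℕ) (y : X) : (S ^ (a + b)) y = (S ^ a) ((S ^ b) y) := by
  rw [pow_add]; rfl

theorem jp_of_chain (T : X →L[ℂ] X) (μ : ℂ) (y : X) (m j : ℕ)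
    (hm : ((T - μ • (1 : X →L[ℂ] X)) ^ m) y = 0) (hj : ((T - μ • (1 : X →L[ℂ] X)) ^ j) y ≠ 0) :
    JP T μ j := by
  classical
  obtain ⟨S, hS⟩ : ∃ S : X →L[ℂ] X, S = T - μ • (1 : X →L[ℂ] X) := ⟨_, rfl⟩
  rw [← hS] at hm hj
  have hex : ∃ m : ℕ, (S ^ m) y = 0 := ⟨m, hm⟩
  have h1 := Nat.find_spec hex
  obtain ⟨m', hm'⟩ : ∃ m', m' = Nat.find hex := ⟨_, rfl⟩
  rw [← hm'] at h1
  have hjm : j < m' := by
    by_contra hcon
    push Not at hcon
    apply hj
    have : j = (j - m') + m' := by omega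
    rw [this, pow_add_apply, h1, map_zero]
  refine ⟨(S ^ (m' - 1 - j)) y, ?_, ?_⟩
  · rw [← hS, ← pow_add_apply]
    have : j + 1 + (m' - 1 - j) = m' := by omega
    rw [this]
    exact h1
  · rw [← hS, ← pow_add_apply]
    have : j + (m' - 1 - j) = m' - 1 := by omega
    rw [this]
    intro h2
    have h3 : m' ≤ m' - 1 := by
      conv_lhs => rw [hm']
      exact Nat.find_min' hex h2
    omega

theorem finE_chain (T : X →L[ℂ] X) (f : StrongDual ℂ X) (μ : ℂ) (m : ℕ) (y : X)
    (hm : ((T - μ • (1 : X →L[ℂ] X)) ^ m) y = 0) : FinE T f y := by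
  classical
  by_cases hμ : μ = 0
  · refine ⟨∅, fun _ => 0, by simp, m, ?_⟩
    intro n hn
    rw [hμ, zero_smul, sub_zero] at hm
    have h1 : n = (n - m) + m := by omega
    rw [Finset.sum_empty, h1, pow_add_apply, hm, map_zero, map_zero]
  · obtain ⟨S, hS⟩ : ∃ S : X →L[ℂ] X, S = T - μ • (1 : X →L[ℂ] X) := ⟨_, rfl⟩
    have hT : T = S + μ • (1 : X →L[ℂ] X) := by rw [hS]; abel
    obtain ⟨I, hI⟩ : ∃ I : Finset ℕ, I = (Finset.range m).filter (fun j => (S ^ j) y ≠ 0) := ⟨_, rfl⟩
    refine ⟨I.image (fun j => (μ, j)), fun a => (μ ^ a.2)⁻¹ * f ((S ^ a.2) y), ?_, m, ?_⟩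
    · intro a ha
      rw [Finset.mem_image] at ha
      obtain ⟨j, hj, rfl⟩ := ha
      rw [hI, Finset.mem_filter] at hj
      refine ⟨hμ, jp_of_chain T μ y m j hm ?_⟩
      rw [← hS]
      exact hj.2
    · intro n hn
      rw [← hS] at hm
      have hcomm : Commute S (μ • (1 : X →L[ℂ] X)) := by
        rw [commute_iff_eq, mul_smul_comm, smul_mul_assoc, mul_one, one_mul]
      have h1 : (T ^ n) y = ∑ j ∈ Finset.range (n + 1), ((n.choose j : ℂ) * μ ^ (n - j)) •
          (S ^ j) y := by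
        rw [hT, hcomm.add_pow, ContinuousLinearMap.sum_apply]
        apply Finset.sum_congr rfl
        intro j _
        rw [smul_pow, one_pow, mul_smul_comm, mul_one]
        have h2 : ((n.choose j : ℕ) : X →L[ℂ] X) = (n.choose j : ℂ) • (1 : X →L[ℂ] X) := by
          rw [Nat.cast_smul_eq_nsmul ℂ, nsmul_one]
        rw [h2, mul_smul_comm, mul_one, smul_smul]
        rfl
      rw [h1, map_sum, Finset.sum_image (by
        intro a _ b _ hab
        exact (Prod.mk.inj hab).2)]
      have h3 : ∀ j ∈ Finset.range (n + 1), j ∉ I →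
          f (((n.choose j : ℂ) * μ ^ (n - j)) • (S ^ j) y) = 0 := by
        intro j _ hj
        rw [hI, Finset.mem_filter, Finset.mem_range] at hj
        have h4 : (S ^ j) y = 0 := by
          by_contra hne
          apply hj
          refine ⟨?_, hne⟩
          by_contra hjm
          push Not at hjm
          apply hne
          have : j = (j - m) + m := by omega
          rw [this, pow_add_apply, hm, map_zero]
        rw [h4, smul_zero, map_zero]
      have hsub : I ⊆ Finset.range (n + 1) := by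
        intro j hj
        rw [hI, Finset.mem_filter, Finset.mem_range] at hj
        rw [Finset.mem_range]; omega
      rw [← Finset.sum_subset hsub h3]
      apply Finset.sum_congr rfl
      intro j hj
      rw [hI, Finset.mem_filter, Finset.mem_range] at hj
      have hjn : j ≤ n := by omega
      rw [map_smul, smul_eq_mul]
      have h5 : μ ^ n = μ ^ (n - j) * μ ^ j := by rw [← pow_add]; congr 1; omega
      rw [h5]
      have h6 : μ ^ j ≠ 0 := pow_ne_zero _ hμ
      field_simp

theorem finE_alg (T : X →L[ℂ] X) (f : StrongDual ℂ X) (d : ℕ) :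
    ∀ (q : Polynomial ℂ), q.natDegree ≤ d → q ≠ 0 → ∀ y : X, (Polynomial.aeval T q) y = 0 →
      FinE T f y := by
  induction d with
  | zero =>
    intro q hq hq0 y hy
    have h1 : q = Polynomial.C (q.coeff 0) := Polynomial.eq_C_of_natDegree_le_zero hq
    have h2 : q.coeff 0 ≠ 0 := by
      intro h
      rw [h, Polynomial.C_0] at h1
      exact hq0 h1
    rw [h1, Polynomial.aeval_C, Algebra.algebraMap_eq_smul_one] at hy
    have h3 : (q.coeff 0) • y = 0 := hy
    have h4 : y = 0 := (smul_eq_zero.mp h3).resolve_left h2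
    rw [h4]
    exact ⟨∅, fun _ => 0, by simp, 0, fun n _ => by simp⟩
  | succ d ih =>
    intro q hq hq0 y hy
    by_cases hdeg : q.natDegree = 0
    · exact ih q (by omega) hq0 y hy
    have hdeg' : q.degree ≠ 0 := by
      intro h
      exact hdeg (Polynomial.natDegree_eq_of_degree_eq_some h)
    obtain ⟨μ, hμ⟩ := IsAlgClosed.exists_root q hdeg'
    obtain ⟨q', hq', hndvd⟩ := Polynomial.exists_eq_pow_rootMultiplicity_mul_and_not_dvd q hq0 μ
    obtain ⟨m, hm⟩ : ∃ m, m = q.rootMultiplicity μ := ⟨_, rfl⟩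
    rw [← hm] at hq'
    have hm0 : 0 < m := by
      rw [hm]; exact (Polynomial.rootMultiplicity_pos hq0).mpr hμ
    have hq'0 : q' ≠ 0 := by
      intro h
      rw [h, mul_zero] at hq'
      exact hq0 hq'
    have hdeg1 : q'.natDegree ≤ d := by
      have h1 : q.natDegree = m + q'.natDegree := by
        conv_lhs => rw [hq']
        rw [Polynomial.natDegree_mul (pow_ne_zero _ (Polynomial.X_sub_C_ne_zero μ)) hq'0,
          Polynomial.natDegree_pow, Polynomial.natDegree_X_sub_C, mul_one]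
      omega
    have hcop : IsCoprime ((Polynomial.X - Polynomial.C μ) ^ m) q' := by
      apply IsCoprime.pow_left
      exact (Irreducible.coprime_iff_not_dvd (Polynomial.irreducible_X_sub_C μ)).mpr hndvd
    obtain ⟨a, b, hab⟩ := hcop
    have hsplit : y = (Polynomial.aeval T (b * q')) y
        + (Polynomial.aeval T (a * (Polynomial.X - Polynomial.C μ) ^ m)) y := by
      have h1 : (Polynomial.aeval T (a * (Polynomial.X - Polynomial.C μ) ^ m + b * q')) y = y := by
        rw [hab, map_one]; rfl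
      rw [map_add] at h1
      conv_lhs => rw [← h1]
      rw [add_comm]
      rfl
    rw [hsplit]
    apply FinE.add
    · apply finE_chain T f μ m
      have h1 : (T - μ • (1 : X →L[ℂ] X)) ^ m
          = Polynomial.aeval T ((Polynomial.X - Polynomial.C μ) ^ m) := by
        rw [map_pow, map_sub, Polynomial.aeval_X, Polynomial.aeval_C,
          Algebra.algebraMap_eq_smul_one]
      rw [h1]
      have h2 : (Polynomial.aeval T ((Polynomial.X - Polynomial.C μ) ^ m))
          ((Polynomial.aeval T (b * q')) y)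
          = (Polynomial.aeval T b) ((Polynomial.aeval T q) y) := by
        have h3 : Polynomial.aeval T ((Polynomial.X - Polynomial.C μ) ^ m) *
            Polynomial.aeval T (b * q') = Polynomial.aeval T b * Polynomial.aeval T q := by
          rw [← map_mul, ← map_mul, hq']; congr 1; ring
        exact congrArg (fun S : X →L[ℂ] X => S y) h3
      rw [h2, hy, map_zero]
    · apply ih q' hdeg1 hq'0
      have h2 : (Polynomial.aeval T q')
          ((Polynomial.aeval T (a * (Polynomial.X - Polynomial.C μ) ^ m)) y)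
          = (Polynomial.aeval T a) ((Polynomial.aeval T q) y) := by
        have h3 : Polynomial.aeval T q' *
            Polynomial.aeval T (a * (Polynomial.X - Polynomial.C μ) ^ m)
            = Polynomial.aeval T a * Polynomial.aeval T q := by
          rw [← map_mul, ← map_mul, hq']; congr 1; ring
        exact congrArg (fun S : X →L[ℂ] X => S y) h3
      rw [h2, hy, map_zero]

end N0Aux

open N0Aux

variable [CompleteSpace X]

theorem orbit_expansion (T : X →L[ℂ] X) (hT : Dec T) (x : X) (f : StrongDual ℂ X) :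
    ∃ (A : Finset (ℂ × ℕ)) (c : ℂ × ℕ → ℂ), (∀ a ∈ A, a.1 ≠ 0 ∧ JP T a.1 a.2) ∧
      Tendsto (fun n : ℕ => f ((T ^ n) x) - ∑ a ∈ A, c a * (n.choose a.2 : ℂ) * a.1 ^ n)
        atTop (𝓝 0) := by
  obtain ⟨P, q, hPP, hcomm, hq, hqP, hgr⟩ := hT
  have hTP : T * P = P * T := hcomm T rfl
  have hPx : (Polynomial.aeval T q) (P x) = 0 := by
    have := congrArg (fun S : X →L[ℂ] X => S x) hqP
    exact this
  obtain ⟨A, c, hA, n₀, hn₀⟩ := finE_alg T f q.natDegree q le_rfl hq (P x) hPx
  refine ⟨A, c, hA, ?_⟩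
  obtain ⟨R, hR⟩ : ∃ R : ℝ, R = (gr (T * (1 - P)) + 1) / 2 := ⟨_, rfl⟩
  have hgr0 := gr_nonneg (T * (1 - P))
  have hR0 : 0 < R := by rw [hR]; linarith
  have hR1 : R < 1 := by rw [hR]; linarith
  have hRg : gr (T * (1 - P)) < R := by rw [hR]; linarith
  obtain ⟨C, hC, hCn⟩ := gr_bound (T * (1 - P)) hRg
  have hI : (1 - P) * (1 - P) = 1 - P := by
    rw [sub_mul, mul_sub, mul_sub, hPP, mul_one, one_mul, mul_one]; abel
  have hTI : Commute T (1 - P) := by
    rw [commute_iff_eq, mul_sub, sub_mul, mul_one, one_mul, hTP]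
  have hpow : ∀ n : ℕ, 1 ≤ n → (T * (1 - P)) ^ n = T ^ n * (1 - P) := by
    intro n hn
    rw [hTI.mul_pow]
    congr 1
    have h1 : IsIdempotentElem (1 - P) := hI
    exact h1.pow_eq (by omega)
  have hlim : Tendsto (fun n : ℕ => ‖f‖ * (C * R ^ n) * ‖x‖) atTop (𝓝 0) := by
    have h1 := tendsto_pow_atTop_nhds_zero_of_lt_one hR0.le hR1
    have h2 := ((h1.const_mul C).const_mul ‖f‖).mul_const ‖x‖
    simpa using h2
  refine squeeze_zero_norm' ?_ hlim
  filter_upwards [eventually_ge_atTop n₀, eventually_ge_atTop 1] with n hn hn1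
  rw [← hn₀ n hn]
  have h1 : (T ^ n) x - (T ^ n) (P x) = ((T * (1 - P)) ^ n) x := by
    rw [hpow n hn1]
    have h2 : (T ^ n * (1 - P)) x = (T ^ n) (x - P x) := rfl
    rw [h2, map_sub]
  rw [← map_sub, h1]
  calc ‖f (((T * (1 - P)) ^ n) x)‖ ≤ ‖f‖ * ‖((T * (1 - P)) ^ n) x‖ := f.le_opNorm _
    _ ≤ ‖f‖ * (‖(T * (1 - P)) ^ n‖ * ‖x‖) :=
        mul_le_mul_of_nonneg_left (((T * (1 - P)) ^ n).le_opNorm x) (norm_nonneg _)
    _ ≤ ‖f‖ * ((C * R ^ n) * ‖x‖) :=
        mul_le_mul_of_nonneg_left (mul_le_mul_of_nonneg_right (hCn n) (norm_nonneg _))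
          (norm_nonneg _)
    _ = ‖f‖ * (C * R ^ n) * ‖x‖ := by ring

end WNH
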