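import Pool.Agent.WNH.Defs

/-!
Row [WN-N1a]. The algebra `ExpPoly` (Defs): leading term, and closure under conjugation.
-/

namespace WNH
open Filter Topology Metric

namespace N1aAux

/-- the ratio of two monomials in lexicographic order tends to `0`. -/
theorem ratio_tendsto (σ σ' : ℝ) (J J' : ℕ) (hσ : 0 < σ) (hσ' : 0 < σ')
    (h : σ < σ' ∨ (σ = σ' ∧ J < J')) :
    Tendsto (fun m : ℕ => ((m : ℂ) ^ J * (σ : ℂ) ^ m) / ((m : ℂ) ^ J' * (σ' : ℂ) ^ m)) atTop
      (𝓝 0) := by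
  rw [tendsto_zero_iff_norm_tendsto_zero]
  have hn : ∀ m : ℕ, ‖((m : ℂ) ^ J * (σ : ℂ) ^ m) / ((m : ℂ) ^ J' * (σ' : ℂ) ^ m)‖
      = ((m : ℝ) ^ J * σ ^ m) / ((m : ℝ) ^ J' * σ' ^ m) := by
    intro m
    rw [norm_div, norm_mul, norm_mul, norm_pow, norm_pow, norm_pow, norm_pow, Complex.norm_real,
      Complex.norm_real, Complex.norm_natCast, Real.norm_eq_abs, Real.norm_eq_abs,
      abs_of_pos hσ, abs_of_pos hσ']
  simp only [hn]
  rcases h with h | ⟨h1, h2⟩
  · have hr : |σ / σ'| < 1 := by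
      rw [abs_of_pos (by positivity), div_lt_one hσ']
      exact h
    have h1 := tendsto_pow_const_mul_const_pow_of_abs_lt_one J hr
    refine squeeze_zero' (Eventually.of_forall fun m => by positivity) ?_ h1
    filter_upwards [eventually_ge_atTop 1] with m hm
    have hm1 : (1 : ℝ) ≤ (m : ℝ) ^ J' := one_le_pow₀ (by exact_mod_cast hm)
    rw [div_pow]
    have h2 : (m : ℝ) ^ J * (σ ^ m / σ' ^ m) = ((m : ℝ) ^ J * σ ^ m) / (σ' ^ m) := by ring
    rw [h2]
    apply div_le_div_of_nonneg_left (by positivity) (by positivity)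
    have h3 : 0 < σ' ^ m := by positivity
    nlinarith
  · subst h1
    have h3 : Tendsto (fun m : ℕ => ((m : ℝ))⁻¹) atTop (𝓝 0) := tendsto_inv_atTop_nhds_zero_nat
    refine squeeze_zero' (Eventually.of_forall fun m => by positivity) ?_ h3
    filter_upwards [eventually_ge_atTop 1] with m hm
    have hm0 : (0 : ℝ) < m := by exact_mod_cast hm
    have hm1 : (1 : ℝ) ≤ m := by exact_mod_cast hm
    have hσm : 0 < σ ^ m := by positivity
    rw [mul_div_mul_right _ _ hσm.ne', div_le_iff₀ (by positivity)]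
    have h4 : (m : ℝ) ^ J' = m ^ (J' - 1) * m := by
      rw [← pow_succ]; congr 1; omega
    rw [h4]
    have h5 : (m : ℝ) ^ J ≤ m ^ (J' - 1) := pow_le_pow_right₀ hm1 (by omega)
    have h6 : (m : ℝ)⁻¹ * ((m : ℝ) ^ (J' - 1) * m) = (m : ℝ) ^ (J' - 1) := by field_simp
    rw [h6]
    exact h5

/-- the monomial functions. -/
noncomputable def mon (i : {σ : ℝ // 0 < σ} × ℕ) : ℕ → ℂ :=
  fun m => (m : ℂ) ^ i.2 * ((i.1 : ℝ) : ℂ) ^ m

theorem mon_mul (i j : {σ : ℝ // 0 < σ} × ℕ) :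
    mon i * mon j = mon (⟨(i.1 : ℝ) * j.1, mul_pos i.1.2 j.1.2⟩, i.2 + j.2) := by
  funext m
  simp only [mon, Pi.mul_apply]
  push_cast
  ring

theorem expPoly_le_span (f : ℕ → ℂ) (hf : f ∈ ExpPoly) :
    f ∈ Submodule.span ℂ (Set.range mon) := by
  unfold ExpPoly at hf
  induction hf using Algebra.adjoin_induction with
  | mem x hx =>
    apply Submodule.subset_span
    rcases hx with hx | ⟨σ, hσ, hx⟩
    · refine ⟨(⟨1, one_pos⟩, 1), ?_⟩
      rw [Set.mem_singleton_iff] at hx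
      rw [hx]
      funext m
      simp [mon]
    · refine ⟨(⟨σ, hσ⟩, 0), ?_⟩
      rw [hx]
      funext m
      simp [mon]
  | algebraMap r =>
    have h1 : algebraMap ℂ (ℕ → ℂ) r = r • mon (⟨1, one_pos⟩, 0) := by
      funext m
      simp [mon]
    rw [h1]
    exact Submodule.smul_mem _ _ (Submodule.subset_span ⟨_, rfl⟩)
  | add x y _ _ hx hy => exact Submodule.add_mem _ hx hy
  | mul x y _ _ hx hy =>
    have h1 : x * y ∈ Submodule.span ℂ (Set.range mon) * Submodule.span ℂ (Set.range mon) :=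
      Submodule.mul_mem_mul hx hy
    rw [Submodule.span_mul_span] at h1
    refine Submodule.span_mono ?_ h1
    rintro _ ⟨_, ⟨i, rfl⟩, _, ⟨j, rfl⟩, rfl⟩
    exact ⟨_, (mon_mul i j).symm⟩

end N1aAux

open N1aAux

theorem expPoly_lead (f : ℕ → ℂ) (hf : f ∈ ExpPoly) (h0 : f ≠ 0) :
    ∃ (σ : ℝ) (J : ℕ) (r : ℂ), 0 < σ ∧ r ≠ 0 ∧
      Tendsto (fun m : ℕ => f m / ((m : ℂ) ^ J * (σ : ℂ) ^ m)) atTop (𝓝 r) := by
  classical
  have h1 := expPoly_le_span f hf
  rw [Finsupp.mem_span_range_iff_exists_finsupp] at h1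
  obtain ⟨c, hc⟩ := h1
  have hc0 : c ≠ 0 := by
    intro h
    apply h0
    rw [← hc, h]
    simp
  have hsupp : c.support.Nonempty := Finsupp.support_nonempty_iff.mpr hc0
  obtain ⟨i₀, hi₀, hmax⟩ := Finset.exists_max_image c.support
    (fun i => (toLex ((i.1 : ℝ), i.2) : ℝ ×ₗ ℕ)) hsupp
  refine ⟨i₀.1, i₀.2, c i₀, i₀.1.2, Finsupp.mem_support_iff.mp hi₀, ?_⟩
  have hfm : ∀ m : ℕ, f m = ∑ i ∈ c.support, c i * mon i m := by
    intro m
    rw [← hc, Finsupp.sum, Finset.sum_apply]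
    rfl
  have hlim : Tendsto (fun m : ℕ => ∑ i ∈ c.support, c i *
      (mon i m / ((m : ℂ) ^ i₀.2 * ((i₀.1 : ℝ) : ℂ) ^ m))) atTop
      (𝓝 (∑ i ∈ c.support, c i * (if i = i₀ then 1 else 0))) := by
    apply tendsto_finsetSum
    intro i hi
    apply Tendsto.const_mul
    by_cases hii : i = i₀
    · rw [if_pos hii, hii]
      apply tendsto_const_nhds.congr'
      filter_upwards [eventually_ge_atTop 1] with m hm
      have hm0 : (m : ℂ) ≠ 0 := by
        have : m ≠ 0 := by omega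
        exact_mod_cast this
      have hσ : ((i₀.1 : ℝ) : ℂ) ≠ 0 := by exact_mod_cast i₀.1.2.ne'
      simp only [mon]
      rw [div_self]
      exact mul_ne_zero (pow_ne_zero _ hm0) (pow_ne_zero _ hσ)
    · rw [if_neg hii]
      have h2 := hmax i hi
      have h3 : (toLex ((i.1 : ℝ), i.2) : ℝ ×ₗ ℕ) < toLex ((i₀.1 : ℝ), i₀.2) := by
        refine lt_of_le_of_ne h2 ?_
        intro h
        apply hii
        have h4 : ((i.1 : ℝ), i.2) = ((i₀.1 : ℝ), i₀.2) := toLex.injective h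
        rw [Prod.mk.injEq] at h4
        exact Prod.ext (Subtype.ext h4.1) h4.2
      rw [Prod.Lex.lt_iff] at h3
      exact ratio_tendsto _ _ _ _ i.1.2 i₀.1.2 h3
  have h2 : (∑ i ∈ c.support, c i * (if i = i₀ then (1 : ℂ) else 0)) = c i₀ := by
    rw [Finset.sum_eq_single i₀]
    · simp
    · intro i _ hne
      simp [hne]
    · intro h
      exact absurd hi₀ h
  rw [h2] at hlim
  refine hlim.congr ?_
  intro m
  rw [hfm m, Finset.sum_div]
  apply Finset.sum_congr rfl
  intro i _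
  rw [mul_div_assoc]

theorem expPoly_conj (f : ℕ → ℂ) (hf : f ∈ ExpPoly) :
    (fun m => (starRingEnd ℂ) (f m)) ∈ ExpPoly := by
  unfold ExpPoly at hf ⊢
  induction hf using Algebra.adjoin_induction with
  | mem x hx =>
    apply Algebra.subset_adjoin
    rcases hx with hx | ⟨σ, hσ, hx⟩
    · left
      rw [Set.mem_singleton_iff] at hx ⊢
      rw [hx]
      funext m
      simp
    · right
      refine ⟨σ, hσ, ?_⟩
      rw [hx]
      funext m
      simp
  | algebraMap r =>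
    have h1 : (fun m => (starRingEnd ℂ) ((algebraMap ℂ (ℕ → ℂ) r) m))
        = algebraMap ℂ (ℕ → ℂ) ((starRingEnd ℂ) r) := by
      funext m
      simp
    rw [h1]
    exact Subalgebra.algebraMap_mem _ _
  | add x y _ _ hx hy =>
    have h1 : (fun m => (starRingEnd ℂ) ((x + y) m))
        = (fun m => (starRingEnd ℂ) (x m)) + (fun m => (starRingEnd ℂ) (y m)) := by
      funext m
      simp
    rw [h1]
    exact Subalgebra.add_mem _ hx hy
  | mul x y _ _ hx hy =>
    have h1 : (fun m => (starRingEnd ℂ) ((x * y) m))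
        = (fun m => (starRingEnd ℂ) (x m)) * (fun m => (starRingEnd ℂ) (y m)) := by
      funext m
      simp
    rw [h1]
    exact Subalgebra.mul_mem _ hx hy

end WNH
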