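import Pool.Agent.WNH.N1a

/-!
Row [WN-N1b]. Uses `expPoly_lead`, `expPoly_conj` (N1a).
-/

namespace WNH
open Filter Topology Metric

namespace N1bAux

/-- the ratio of two monomials in lexicographic order tends to `0`. -/
theorem ratio_tendsto (σ σ' : ℝ) (J J' : ℕ) (hσ : 0 < σ) (hσ' : 0 < σ')
    (h : σ < σ' ∨ (σ = σ' ∧ J < J')) :
    Tendsto (fun m : ℕ => ((m : ℂ) ^ J * (σ : ℂ) ^ m) / ((m : ℂ) ^ J' * (σ' : ℂ) ^ m)) atTop
      (𝓝 0) := by
  rw [tendsto_zero_iff_norm_tendsto_zero]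
  have hn : ∀ m : ℕ, ‖((m : ℂ) ^ J * (σ : ℂ) ^ m) / ((m : ℂ) ^ J' * (σ' : ℂ) ^ m)‖
      = ((m : ℝ) ^ J * σ ^ m) / ((m : ℝ) ^ J' * σ' ^ m) := by
    intro m
    rw [norm_div, norm_mul, norm_mul, norm_pow, norm_pow, norm_pow, norm_pow, Complex.norm_real,
      Complex.norm_real, Complex.norm_natCast, Real.norm_eq_abs, Real.norm_eq_abs,
      abs_of_pos hσ, abs_of_pos hσ']
  simp only [hn]
  rcases h with h | ⟨h1, h2⟩
  · have hr : |σ / σ'| < 1 := by
      rw [abs_of_pos (by positivity), div_lt_one hσ']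
      exact h
    have h1 := tendsto_pow_const_mul_const_pow_of_abs_lt_one J hr
    refine squeeze_zero' (Eventually.of_forall fun m => by positivity) ?_ h1
    filter_upwards [eventually_ge_atTop 1] with m hm
    have hm1 : (1 : ℝ) ≤ (m : ℝ) ^ J' := one_le_pow₀ (by exact_mod_cast hm)
    rw [div_pow]
    have h2 : (m : ℝ) ^ J * (σ ^ m / σ' ^ m) = ((m : ℝ) ^ J * σ ^ m) / (σ' ^ m) := by ring
    rw [h2]
    apply div_le_div_of_nonneg_left (by positivity) (by positivity)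
    have h3 : 0 < σ' ^ m := by positivity
    nlinarith
  · subst h1
    have h3 : Tendsto (fun m : ℕ => ((m : ℝ))⁻¹) atTop (𝓝 0) := tendsto_inv_atTop_nhds_zero_nat
    refine squeeze_zero' (Eventually.of_forall fun m => by positivity) ?_ h3
    filter_upwards [eventually_ge_atTop 1] with m hm
    have hm0 : (0 : ℝ) < m := by exact_mod_cast hm
    have hm1 : (1 : ℝ) ≤ m := by exact_mod_cast hm
    have hσm : 0 < σ ^ m := by positivity
    rw [mul_div_mul_right _ _ hσm.ne', div_le_iff₀ (by positivity)]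
    have h4 : (m : ℝ) ^ J' = m ^ (J' - 1) * m := by
      rw [← pow_succ]; congr 1; omega
    rw [h4]
    have h5 : (m : ℝ) ^ J ≤ m ^ (J' - 1) := pow_le_pow_right₀ hm1 (by omega)
    have h6 : (m : ℝ)⁻¹ * ((m : ℝ) ^ (J' - 1) * m) = (m : ℝ) ^ (J' - 1) := by field_simp
    rw [h6]
    exact h5

end N1bAux

open N1bAux

theorem algebraic_relation (ζ : ℂ) (hζ : ‖ζ‖ = 1) (D : ℕ) (E : ℤ → ℕ → ℂ)
    (hE : ∀ k, E k ∈ ExpPoly) (u : ℕ → ℂ)
    (hu : ∀ m : ℕ, u m = ∑ k ∈ Finset.Icc (-(D : ℤ)) D, E k m * ζ ^ (k * (m : ℤ))) :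
    ∃ Q : MvPolynomial (Fin 2) ℂ, Q ≠ 0 ∧ ∀ w : ℂ, MapClusterPt w atTop u →
      MvPolynomial.eval ![w, (starRingEnd ℂ) w] Q = 0 := by
  classical
  have hζ0 : ζ ≠ 0 := by
    intro h; rw [h, norm_zero] at hζ; exact zero_ne_one hζ
  have hζc : (starRingEnd ℂ) ζ = ζ⁻¹ := by
    rw [Complex.inv_def, Complex.normSq_eq_norm_sq, hζ]; simp
  let e : ℤ → (ℕ → ℂ) := fun k m => ζ ^ (k * (m : ℤ))
  have he : ∀ k l : ℤ, e k * e l = e (k + l) := by
    intro k l
    funext m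
    change ζ ^ (k * (m : ℤ)) * ζ ^ (l * (m : ℤ)) = ζ ^ ((k + l) * (m : ℤ))
    rw [← zpow_add₀ hζ0]; congr 1; ring
  let S : ℕ → Set (ℕ → ℂ) := fun n => e '' {k : ℤ | |k| ≤ n}
  let V : ℕ → Submodule ExpPoly (ℕ → ℂ) := fun n => Submodule.span ExpPoly (S n)
  have hVmul : ∀ (n m : ℕ) (x y : ℕ → ℂ), x ∈ V n → y ∈ V m → x * y ∈ V (n + m) := by
    intro n m x y hx hy
    have h1 : x * y ∈ V n * V m := Submodule.mul_mem_mul hx hy
    have h2 : V n * V m ≤ V (n + m) := by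
      simp only [V]
      rw [Submodule.span_mul_span]
      apply Submodule.span_mono
      rintro _ ⟨_, ⟨k, hk, rfl⟩, _, ⟨l, hl, rfl⟩, rfl⟩
      refine ⟨k + l, ?_, (he k l).symm⟩
      have hk' : |k| ≤ (n : ℤ) := hk
      have hl' : |l| ≤ (m : ℤ) := hl
      change |k + l| ≤ ((n + m : ℕ) : ℤ)
      push_cast
      exact (abs_add_le k l).trans (by omega)
    exact h2 h1
  have hVone : ∀ n, (1 : ℕ → ℂ) ∈ V n := by
    intro n
    apply Submodule.subset_span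
    refine ⟨0, by simp, ?_⟩
    funext m
    simp [e]
  have hVmono : ∀ n m : ℕ, n ≤ m → V n ≤ V m := by
    intro n m hnm
    apply Submodule.span_mono
    rintro _ ⟨k, hk, rfl⟩
    have hk' : |k| ≤ (n : ℤ) := hk
    refine ⟨k, ?_, rfl⟩
    change |k| ≤ (m : ℤ)
    omega
  have hVpow : ∀ (x : ℕ → ℂ) (n a : ℕ), x ∈ V n → x ^ a ∈ V (a * n) := by
    intro x n a hx
    induction a with
    | zero => rw [pow_zero]; exact hVone _
    | succ a ih =>
      rw [pow_succ, Nat.succ_mul]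
      exact hVmul _ _ _ _ ih hx
  have huV : u ∈ V D := by
    have h1 : u = ∑ k ∈ Finset.Icc (-(D : ℤ)) D, (⟨E k, hE k⟩ : ExpPoly) • e k := by
      funext m
      rw [hu m, Finset.sum_apply]
      rfl
    rw [h1]
    apply Submodule.sum_mem
    intro k hk
    apply Submodule.smul_mem
    apply Submodule.subset_span
    refine ⟨k, ?_, rfl⟩
    rw [Finset.mem_Icc] at hk
    exact abs_le.mpr hk
  let uc : ℕ → ℂ := fun m => (starRingEnd ℂ) (u m)
  have hucV : uc ∈ V D := by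
    have h1 : uc = ∑ k ∈ Finset.Icc (-(D : ℤ)) D,
        (⟨fun m => (starRingEnd ℂ) (E k m), expPoly_conj _ (hE k)⟩ : ExpPoly) • e (-k) := by
      funext m
      change (starRingEnd ℂ) (u m) = _
      rw [hu m, Finset.sum_apply, map_sum]
      apply Finset.sum_congr rfl
      intro k _
      rw [map_mul, map_zpow₀, hζc]
      change _ = (starRingEnd ℂ) (E k m) * ζ ^ (-k * (m : ℤ))
      rw [inv_zpow', neg_mul]
    rw [h1]
    apply Submodule.sum_mem
    intro k hk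
    apply Submodule.smul_mem
    apply Submodule.subset_span
    refine ⟨-k, ?_, rfl⟩
    rw [Finset.mem_Icc] at hk
    change |-k| ≤ (D : ℤ)
    rw [abs_neg]
    exact abs_le.mpr hk
  obtain ⟨T, hT⟩ : ∃ T : ℕ, T = 4 * D + 1 := ⟨_, rfl⟩
  let ι := Fin (T + 1) × Fin (T + 1)
  let G : ι → (ℕ → ℂ) := fun i => u ^ (i.1 : ℕ) * uc ^ (i.2 : ℕ)
  have hGV : ∀ i, G i ∈ V (2 * T * D) := by
    intro i
    have h1 := hVmul _ _ _ _ (hVpow u D i.1 huV) (hVpow uc D i.2 hucV)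
    refine hVmono _ _ ?_ h1
    have h2 : (i.1 : ℕ) ≤ T := by have := i.1.2; omega
    have h3 : (i.2 : ℕ) ≤ T := by have := i.2.2; omega
    nlinarith
  have hdep : ¬ LinearIndependent ExpPoly G := by
    intro hli
    let w : Finset (ℕ → ℂ) := (Finset.Icc (-(2 * T * D : ℤ)) (2 * T * D)).image e
    have h1 : Set.range G ≤ Submodule.span ExpPoly (w : Set (ℕ → ℂ)) := by
      rintro _ ⟨i, rfl⟩
      have h2 := hGV i
      have h3 : S (2 * T * D) = (w : Set (ℕ → ℂ)) := by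
        ext x
        simp only [S, w, Finset.coe_image, Set.mem_image, Set.mem_setOf_eq, Finset.coe_Icc,
          Set.mem_Icc]
        constructor
        · rintro ⟨k, hk, rfl⟩
          push_cast at hk
          exact ⟨k, abs_le.mp hk, rfl⟩
        · rintro ⟨k, hk, rfl⟩
          refine ⟨k, ?_, rfl⟩
          push_cast
          exact abs_le.mpr hk
      simp only [V, h3] at h2
      exact h2
    have h2 := linearIndependent_le_span' G hli (w : Set (ℕ → ℂ)) h1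
    have h3 : w.card ≤ 4 * T * D + 1 := by
      refine Finset.card_image_le.trans ?_
      rw [Int.card_Icc]
      apply le_of_eq
      have : (2 * T * D : ℤ) + 1 - -(2 * T * D : ℤ) = ((4 * T * D + 1 : ℕ) : ℤ) := by
        push_cast; ring
      rw [this, Int.toNat_natCast]
    have h4 : Cardinal.mk ι = ((T + 1) * (T + 1) : ℕ) := by
      rw [Cardinal.mk_fintype, Fintype.card_prod, Fintype.card_fin]
    have h5 : (Fintype.card (w : Set (ℕ → ℂ))) = w.card := by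
      simp
    rw [h4, h5] at h2
    have h6 : (T + 1) * (T + 1) ≤ w.card := by exact_mod_cast h2
    have h7 : (T + 1) * (T + 1) ≤ 4 * T * D + 1 := h6.trans h3
    rw [hT] at h7
    nlinarith
  rw [Fintype.not_linearIndependent_iff] at hdep
  obtain ⟨g, hg, i₀, hi₀⟩ := hdep
  -- leading terms
  have hlead : ∀ i : ι, ∃ p : ℝ ×ₗ ℕ, ∃ r : ℂ, g i ≠ 0 → 0 < (ofLex p).1 ∧ r ≠ 0 ∧
      Tendsto (fun m : ℕ => (g i : ℕ → ℂ) m / ((m : ℂ) ^ (ofLex p).2 * ((ofLex p).1 : ℂ) ^ m))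
        atTop (𝓝 r) := by
    intro i
    by_cases h : g i = 0
    · exact ⟨toLex (1, 0), 0, fun h' => absurd h h'⟩
    · obtain ⟨σ, J, r, h1, h2, h3⟩ := expPoly_lead (g i : ℕ → ℂ) (g i).2 (by
        intro h'
        apply h
        ext1
        exact h')
      exact ⟨toLex (σ, J), r, fun _ => ⟨h1, h2, h3⟩⟩
  choose p r hpr using hlead
  obtain ⟨i₁, hi₁, hmax⟩ := Finset.exists_max_image (Finset.univ.filter fun i : ι => g i ≠ 0) p
    ⟨i₀, by simp [hi₀]⟩
  rw [Finset.mem_filter] at hi₁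
  have hi₁' := hi₁.2
  obtain ⟨σ, hσdef⟩ : ∃ σ : ℝ, σ = (ofLex (p i₁)).1 := ⟨_, rfl⟩
  obtain ⟨J, hJdef⟩ : ∃ J : ℕ, J = (ofLex (p i₁)).2 := ⟨_, rfl⟩
  have hσ0 : 0 < σ := by rw [hσdef]; exact (hpr i₁ hi₁').1
  have hlim : ∀ i : ι, ∃ l : ℂ, (i = i₁ → l ≠ 0) ∧
      Tendsto (fun m : ℕ => (g i : ℕ → ℂ) m / ((m : ℂ) ^ J * (σ : ℂ) ^ m)) atTop (𝓝 l) := by
    intro i
    by_cases hgi : g i = 0
    · refine ⟨0, ?_, ?_⟩
      · intro h; rw [h] at hgi; exact absurd hgi hi₁'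
      · rw [hgi]; simp
    obtain ⟨h1, h2, h3⟩ := hpr i hgi
    have hle : p i ≤ p i₁ := hmax i (by simp [hgi])
    rcases hle.eq_or_lt with heq | hlt
    · refine ⟨r i, fun _ => h2, ?_⟩
      rw [hσdef, hJdef, ← heq]
      exact h3
    · refine ⟨0, ?_, ?_⟩
      · intro h; rw [h] at hlt; exact absurd hlt (lt_irrefl _)
      · rw [Prod.Lex.lt_iff] at hlt
        have h4 := ratio_tendsto (ofLex (p i)).1 σ (ofLex (p i)).2 J h1 hσ0 (by
          rw [hσdef, hJdef]; exact hlt)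
        have h5 := h3.mul h4
        rw [mul_zero] at h5
        refine h5.congr' ?_
        filter_upwards [eventually_ge_atTop 1] with m hm
        have hm0 : (m : ℂ) ≠ 0 := by
          have : m ≠ 0 := by omega
          exact_mod_cast this
        have hσc : ((ofLex (p i)).1 : ℂ) ≠ 0 := by exact_mod_cast h1.ne'
        have h6 : (m : ℂ) ^ (ofLex (p i)).2 * ((ofLex (p i)).1 : ℂ) ^ m ≠ 0 :=
          mul_ne_zero (pow_ne_zero _ hm0) (pow_ne_zero _ hσc)
        rw [div_mul_div_comm, mul_comm ((g i : ℕ → ℂ) m), mul_div_mul_left _ _ h6]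
  choose l hl1 hl2 using hlim
  let s : ι → (Fin 2 →₀ ℕ) := fun i => Finsupp.single 0 (i.1 : ℕ) + Finsupp.single 1 (i.2 : ℕ)
  have hs0 : ∀ i, s i 0 = (i.1 : ℕ) := by intro i; simp [s]
  have hs1 : ∀ i, s i 1 = (i.2 : ℕ) := by intro i; simp [s]
  have hsinj : Function.Injective s := by
    intro i j hij
    have h1 : s i 0 = s j 0 := by rw [hij]
    have h2 : s i 1 = s j 1 := by rw [hij]
    rw [hs0, hs0] at h1
    rw [hs1, hs1] at h2
    exact Prod.ext (Fin.ext h1) (Fin.ext h2)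
  refine ⟨∑ i : ι, MvPolynomial.monomial (s i) (l i), ?_, ?_⟩
  · intro h0
    have h1 := congrArg (MvPolynomial.coeff (s i₁)) h0
    rw [MvPolynomial.coeff_sum, MvPolynomial.coeff_zero] at h1
    rw [Finset.sum_eq_single i₁] at h1
    · rw [MvPolynomial.coeff_monomial, if_pos rfl] at h1
      exact hl1 i₁ rfl h1
    · intro i _ hne
      rw [MvPolynomial.coeff_monomial, if_neg]
      intro h
      exact hne (hsinj h)
    · intro h
      exact absurd (Finset.mem_univ _) h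
  · intro w hw
    rw [mapClusterPt_iff_ultrafilter] at hw
    obtain ⟨𝒰, h𝒰, hwU⟩ := hw
    have hwc : Tendsto uc 𝒰 (𝓝 ((starRingEnd ℂ) w)) :=
      (Complex.continuous_conj.tendsto w).comp hwU
    have h1 : Tendsto (fun m : ℕ => ∑ i : ι, ((g i : ℕ → ℂ) m / ((m : ℂ) ^ J * (σ : ℂ) ^ m)) *
        (u m ^ (i.1 : ℕ) * uc m ^ (i.2 : ℕ))) 𝒰
        (𝓝 (∑ i : ι, l i * (w ^ (i.1 : ℕ) * ((starRingEnd ℂ) w) ^ (i.2 : ℕ)))) := by
      apply tendsto_finsetSum
      intro i _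
      exact ((hl2 i).mono_left h𝒰).mul ((hwU.pow _).mul (hwc.pow _))
    have h2 : (fun m : ℕ => ∑ i : ι, ((g i : ℕ → ℂ) m / ((m : ℂ) ^ J * (σ : ℂ) ^ m)) *
        (u m ^ (i.1 : ℕ) * uc m ^ (i.2 : ℕ))) = fun _ => 0 := by
      funext m
      have h3 : (∑ i : ι, g i • G i) m = 0 := by rw [hg]; rfl
      rw [Finset.sum_apply] at h3
      have h4 : ∀ i : ι, ((g i : ℕ → ℂ) m / ((m : ℂ) ^ J * (σ : ℂ) ^ m)) *
        (u m ^ (i.1 : ℕ) * uc m ^ (i.2 : ℕ)) = (g i • G i) m / ((m : ℂ) ^ J * (σ : ℂ) ^ m) := by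
        intro i
        have h5 : (g i • G i) m = (g i : ℕ → ℂ) m * (u m ^ (i.1 : ℕ) * uc m ^ (i.2 : ℕ)) := rfl
        rw [h5]
        ring
      rw [Finset.sum_congr rfl (fun i _ => h4 i), ← Finset.sum_div, h3, zero_div]
    rw [h2] at h1
    have h3 := tendsto_nhds_unique h1 tendsto_const_nhds
    rw [map_sum]
    rw [← h3]
    apply Finset.sum_congr rfl
    intro i _
    rw [MvPolynomial.eval_monomial]
    congr 1
    rw [Finsupp.prod_fintype _ _ (by intro j; exact pow_zero _), Fin.prod_univ_two, hs0, hs1]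
    simp

end WNH
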