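import Pool.Agent.WNH.Q0
import Pool.Agent.WNH.B0

/-!
Row [WN-P1]. Uses `quad_bounds` (Q0) and `baire_avoid` (B0).

Proof. Apply `baire_avoid` with `Z = X × StrongDual ℂ X` (complete, hence Baire), `U = univ`,
`F n (y, g) = g ((S ^ n) y)`: get `v`, `δ > 0` and a ball of radius `3 ε` (sup norm of the product)
around some `(y₀, g₀)`, `0 < ε`, on which `δ ≤ ‖g (S ^ n y) - v‖` for all `n`.
Let `‖y - y₀‖ < ε`, `‖g - g₀‖ < ε`, `‖u‖ ≤ 1`, `‖h‖ ≤ 1`. For `‖s‖ ≤ 1` the pair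
`(y + (s ε) u, g + (s ε) h)` is in the `3 ε`-ball, so the quadratic polynomial in `s`
`(g(S^n y) - v) + s ε (h(S^n y) + g(S^n u)) + s² ε² h(S^n u)` has no zero in `‖s‖ ≤ 1`;
by `quad_bounds`, `ε² ‖h (S^n u)‖ ≤ ‖g (S^n y) - v‖`. Take the sup over `h` (norming functionals,
`exists_dual_vector''` or `NormedSpace.norm_le_dual_bound`) and over `u`
(`ContinuousLinearMap.opNorm_le_bound` / `opNorm_le_of_unit_norm`).
-/

namespace WNH
open Filter Topology Metric
universe u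
variable {X : Type u} [NormedAddCommGroup X] [NormedSpace ℂ X] [CompleteSpace X]

theorem notW_lower (S : X →L[ℂ] X) (hS : ¬ W S) :
    ∃ (y₀ : X) (g₀ : StrongDual ℂ X) (ε : ℝ) (v : ℂ), 0 < ε ∧
      ∀ (y : X) (g : StrongDual ℂ X), ‖y - y₀‖ < ε → ‖g - g₀‖ < ε →
        ∀ n : ℕ, ε ^ 2 * ‖S ^ n‖ ≤ ‖g ((S ^ n) y) - v‖ := by
  obtain ⟨v, δ, hδ, O, hO, hOn, -, hOd⟩ := baire_avoid (Z := X × StrongDual ℂ X)
    (fun n z => z.2 ((S ^ n) z.1)) (fun n => by fun_prop) Set.univ isOpen_univ Set.univ_nonempty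
    (fun z _ hd => hS ⟨z.1, z.2, hd⟩)
  obtain ⟨⟨y₀, g₀⟩, hz⟩ := hOn
  obtain ⟨r, hr, hball⟩ := Metric.isOpen_iff.1 hO _ hz
  refine ⟨y₀, g₀, r / 3, v, by positivity, ?_⟩
  intro y g hy hg n
  set ε : ℝ := r / 3 with hε
  have hε0 : 0 < ε := by positivity
  set K : ℝ := ‖g ((S ^ n) y) - v‖ with hK
  have key : ∀ (u : X) (h : StrongDual ℂ X), ‖u‖ ≤ 1 → ‖h‖ ≤ 1 → ε ^ 2 * ‖h ((S ^ n) u)‖ ≤ K := by
    intro u h hu hh
    have hq := quad_bounds (g ((S ^ n) y) - v) ((ε : ℂ) * (h ((S ^ n) y) + g ((S ^ n) u)))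
      ((ε : ℂ) ^ 2 * h ((S ^ n) u)) (by
        intro s hs
        have hmem : (y + (s * (ε : ℂ)) • u, g + (s * (ε : ℂ)) • h) ∈ O := by
          apply hball
          rw [Metric.mem_ball, Prod.dist_eq, max_lt_iff]
          have hsε : ‖s * (ε : ℂ)‖ ≤ ε := by
            rw [norm_mul, Complex.norm_real, Real.norm_of_nonneg hε0.le]
            nlinarith
          constructor
          · rw [dist_eq_norm]
            have e : y + (s * (ε : ℂ)) • u - y₀ = (y - y₀) + (s * (ε : ℂ)) • u := by abel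
            show ‖y + (s * (ε : ℂ)) • u - y₀‖ < r
            rw [e]
            calc ‖(y - y₀) + (s * (ε : ℂ)) • u‖ ≤ ‖y - y₀‖ + ‖(s * (ε : ℂ)) • u‖ := norm_add_le _ _
              _ ≤ ‖y - y₀‖ + ε * 1 := by
                rw [norm_smul]
                gcongr
              _ < r := by linarith
          · rw [dist_eq_norm]
            have e : g + (s * (ε : ℂ)) • h - g₀ = (g - g₀) + (s * (ε : ℂ)) • h := by abel
            show ‖g + (s * (ε : ℂ)) • h - g₀‖ < r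
            rw [e]
            calc ‖(g - g₀) + (s * (ε : ℂ)) • h‖ ≤ ‖g - g₀‖ + ‖(s * (ε : ℂ)) • h‖ := norm_add_le _ _
              _ ≤ ‖g - g₀‖ + ε * 1 := by
                rw [norm_smul]
                gcongr
              _ < r := by linarith
        have h1 := hOd _ hmem n
        intro h0
        have e : (g + (s * (ε : ℂ)) • h) ((S ^ n) (y + (s * (ε : ℂ)) • u)) - v =
            (g ((S ^ n) y) - v) + ((ε : ℂ) * (h ((S ^ n) y) + g ((S ^ n) u))) * s +
              ((ε : ℂ) ^ 2 * h ((S ^ n) u)) * s ^ 2 := by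
          simp only [map_add, map_smul, smul_eq_mul, _root_.add_apply, _root_.smul_apply]
          ring
        simp only at h1
        rw [e, h0, norm_zero] at h1
        linarith)
    have := hq.1
    rw [norm_mul, norm_pow, Complex.norm_real, Real.norm_of_nonneg hε0.le] at this
    exact this
  have key2 : ∀ (u : X) (h : StrongDual ℂ X), ε ^ 2 * ‖h ((S ^ n) u)‖ ≤ K * ‖u‖ * ‖h‖ := by
    intro u h
    by_cases hu : u = 0
    · subst hu; simp
    by_cases hh : h = 0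
    · subst hh; simp
    have hu0 : 0 < ‖u‖ := norm_pos_iff.2 hu
    have hh0 : 0 < ‖h‖ := norm_pos_iff.2 hh
    have := key (((‖u‖ : ℂ))⁻¹ • u) (((‖h‖ : ℂ))⁻¹ • h)
      (by rw [norm_smul, norm_inv, Complex.norm_real, norm_norm, inv_mul_cancel₀ hu0.ne'])
      (by rw [norm_smul, norm_inv, Complex.norm_real, norm_norm, inv_mul_cancel₀ hh0.ne'])
    rw [_root_.smul_apply, map_smul, map_smul, norm_smul, norm_smul, norm_inv, norm_inv,
      Complex.norm_real, Complex.norm_real, norm_norm, norm_norm] at this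
    calc ε ^ 2 * ‖h ((S ^ n) u)‖ = (ε ^ 2 * (‖h‖⁻¹ * (‖u‖⁻¹ * ‖h ((S ^ n) u)‖))) * ‖u‖ * ‖h‖ := by
          field_simp
      _ ≤ K * ‖u‖ * ‖h‖ := by gcongr
  have hop : ‖S ^ n‖ ≤ K / ε ^ 2 := by
    refine ContinuousLinearMap.opNorm_le_bound _ (by positivity) (fun u => ?_)
    refine NormedSpace.norm_le_dual_bound ℂ _ (by positivity) (fun h => ?_)
    have := key2 u h
    rw [div_mul_eq_mul_div, div_mul_eq_mul_div, le_div_iff₀ (by positivity)]
    linarith
  rw [le_div_iff₀ (by positivity)] at hop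
  linarith

end WNH
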