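import Pool.Agent.WNH.G0

/-!
Row [WN-P9]. Uses G0. Splitting off `ker p(S)` when `p(S_Z)` is invertible on the quotient.

Proof. `A := aeval SZ p` is a unit of `Z →L Z`: `p` splits, `A = c ∏ (SZ - z_i)` with
`‖z_i‖ = ρ > gr SZ`, so `z_i ∉ spectrum ℂ SZ` (`spectrum.mem_resolventSet_of_spectralRadius_lt`, or
the spectral mapping theorem). (If `Z` is trivial: `A` is a unit in the zero ring.)
`π (aeval S p x) = A (π x)`. As `π` is surjective (open mapping: `∃ C, ∀ z, ∃ x, π x = z ∧
‖x‖ ≤ C ‖z‖`, `ContinuousLinearMap.exists_preimage_norm_le`) and `aeval S p` kills `ker π`, there is a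
continuous linear `t : Z → X` with `t (π x) = aeval S p x`. Then `π (t z) = A z`, and
`S (t z) = t (SZ z)`. Put `E x = t (A⁻¹ (π x))`, `P = 1 - E`.
* `E * E = E`: `π (E x) = A A⁻¹ π x = π x`, so `E (E x) = t A⁻¹ π x = E x`. So `P * P = P`.
* `aeval S p * P = 0`: `π (P x) = π x - π (E x) = 0`, so `aeval S p (P x) = 0` by `hker`.
* commutation: if `U S = S U` then `U` commutes with `aeval S p`; so `U` maps `ker π =
  ker (aeval S p) = range P` into itself and `range E = range t = range (aeval S p)` into itself.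
  For `x = P x + E x`: `U P x ∈ range P`, `U E x ∈ range E`, so `P U x = P U P x + P U E x = U P x`.
* `gr (S (1 - P)) = gr (S E) ≤ gr SZ < ρ`: `E` commutes with `S` (take `U = S`), `(S E)^n = S^n E` for
  `n ≥ 1`, and `S^n E x = S^n t A⁻¹ π x = t SZ^n A⁻¹ π x`, norm `≤ K ‖SZ^n‖`. For `gr SZ < R < ρ`
  `‖SZ^n‖ ≤ C R^n` (`gr_bound`), so `‖(S E)^n‖ ≤ C' R^n` for all `n` (adjust `C'` for `n = 0`) and
  `gr (S E) ≤ R < ρ` (`gr_le_of_bound`).
-/

namespace WNH
open Filter Topology Metric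
universe u v
variable {X : Type u} [NormedAddCommGroup X] [NormedSpace ℂ X] [CompleteSpace X]

theorem P9_ne_top {Z : Type v} [NormedAddCommGroup Z] [NormedSpace ℂ Z] [CompleteSpace Z]
    (S : Z →L[ℂ] Z) : spectralRadius ℂ S ≠ ⊤ := by
  have h := spectrum.spectralRadius_le_pow_nnnorm_pow_one_div ℂ S 0
  refine ne_top_of_le_ne_top ?_ h
  refine ENNReal.mul_ne_top ?_ ?_
  · exact ENNReal.rpow_ne_top_of_nonneg (by positivity) ENNReal.coe_ne_top
  · exact ENNReal.rpow_ne_top_of_nonneg (by positivity) ENNReal.coe_ne_top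

theorem P9_spec {Z : Type v} [NormedAddCommGroup Z] [NormedSpace ℂ Z] [CompleteSpace Z]
    (S : Z →L[ℂ] Z) {z : ℂ} (hz : z ∈ spectrum ℂ S) : ‖z‖ ≤ gr S := by
  have h : (‖z‖₊ : ENNReal) ≤ spectralRadius ℂ S := by
    unfold spectralRadius
    exact le_iSup₂ (f := fun (k : ℂ) (_ : k ∈ spectrum ℂ S) => (‖k‖₊ : ENNReal)) z hz
  have h2 := ENNReal.toReal_mono (P9_ne_top S) h
  exact h2

theorem P9_unit {Z : Type v} [NormedAddCommGroup Z] [NormedSpace ℂ Z] [CompleteSpace Z]
    (p : Polynomial ℂ) (ρ : ℝ) (hp0 : p ≠ 0) (hp : ∀ z : ℂ, p.IsRoot z → ‖z‖ = ρ)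
    (SZ : Z →L[ℂ] Z) (hgr : gr SZ < ρ) : IsUnit (Polynomial.aeval SZ p) := by
  have hs : p = Polynomial.C p.leadingCoeff * (p.roots.map fun a => Polynomial.X - Polynomial.C a).prod :=
    (IsAlgClosed.splits p).eq_prod_roots
  rw [hs, map_mul, Polynomial.aeval_C]
  have h1 : IsUnit (algebraMap ℂ (Z →L[ℂ] Z) p.leadingCoeff) :=
    (IsUnit.mk0 _ (Polynomial.leadingCoeff_ne_zero.2 hp0)).map _
  have h2 : IsUnit (Polynomial.aeval SZ (p.roots.map fun a => Polynomial.X - Polynomial.C a).prod) := by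
    by_contra hcon
    obtain ⟨k, hk, hk2⟩ := spectrum.exists_mem_of_not_isUnit_aeval_prod hcon
    have := P9_spec SZ hk
    have h3 := hp k hk2
    linarith
  exact h1.mul h2

theorem P9_aeval {Z : Type v} [NormedAddCommGroup Z] [NormedSpace ℂ Z]
    (S : X →L[ℂ] X) (SZ : Z →L[ℂ] Z) (π : X →L[ℂ] Z)
    (h : ∀ x : X, π (S x) = SZ (π x)) (p : Polynomial ℂ) (x : X) :
    π (Polynomial.aeval S p x) = Polynomial.aeval SZ p (π x) := by
  induction p using Polynomial.induction_on generalizing x with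
  | C a =>
    rw [Polynomial.aeval_C, Polynomial.aeval_C, Algebra.algebraMap_eq_smul_one,
      Algebra.algebraMap_eq_smul_one]
    show π (a • x) = a • π x
    rw [map_smul]
  | add p q hp hq =>
    rw [map_add, map_add]
    show π (Polynomial.aeval S p x + Polynomial.aeval S q x) =
      Polynomial.aeval SZ p (π x) + Polynomial.aeval SZ q (π x)
    rw [map_add, hp, hq]
  | monomial n a hn =>
    have e1 : Polynomial.aeval S (Polynomial.C a * Polynomial.X ^ (n + 1)) =
        Polynomial.aeval S (Polynomial.C a * Polynomial.X ^ n) * S := by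
      rw [pow_succ, ← mul_assoc, map_mul, Polynomial.aeval_X]
    have e2 : Polynomial.aeval SZ (Polynomial.C a * Polynomial.X ^ (n + 1)) =
        Polynomial.aeval SZ (Polynomial.C a * Polynomial.X ^ n) * SZ := by
      rw [pow_succ, ← mul_assoc, map_mul, Polynomial.aeval_X]
    rw [e1, e2]
    show π (Polynomial.aeval S (Polynomial.C a * Polynomial.X ^ n) (S x)) =
      Polynomial.aeval SZ (Polynomial.C a * Polynomial.X ^ n) (SZ (π x))
    rw [hn, h]

theorem splitting {Z : Type v} [NormedAddCommGroup Z] [NormedSpace ℂ Z] [CompleteSpace Z]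
    (S : X →L[ℂ] X) (p : Polynomial ℂ) (ρ : ℝ) (hp0 : p ≠ 0)
    (hp : ∀ z : ℂ, p.IsRoot z → ‖z‖ = ρ) (SZ : Z →L[ℂ] Z) (π : X →L[ℂ] Z)
    (hπ : Function.Surjective π) (hker : ∀ x : X, π x = 0 ↔ (Polynomial.aeval S p) x = 0)
    (h : ∀ x : X, π (S x) = SZ (π x)) (hgr : gr SZ < ρ) :
    ∃ P : X →L[ℂ] X, P * P = P ∧ (∀ U : X →L[ℂ] X, U * S = S * U → U * P = P * U) ∧
      Polynomial.aeval S p * P = 0 ∧ gr (S * (1 - P)) < ρ := by
  obtain ⟨u, hu⟩ := P9_unit p ρ hp0 hp SZ hgr
  set AS : X →L[ℂ] X := Polynomial.aeval S p with hAS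
  set A : Z →L[ℂ] Z := Polynomial.aeval SZ p with hA
  set B : Z →L[ℂ] Z := ((u⁻¹ : (Z →L[ℂ] Z)ˣ) : Z →L[ℂ] Z) with hB
  have hAB : ∀ z, A (B z) = z := by
    intro z
    have : (A * B) z = z := by
      rw [← hu, hB, Units.mul_inv]
      rfl
    exact this
  have hBA : ∀ z, B (A z) = z := by
    intro z
    have : (B * A) z = z := by
      rw [← hu, hB, Units.inv_mul]
      rfl
    exact this
  have hπA : ∀ x, π (AS x) = A (π x) := P9_aeval S SZ π h p
  obtain ⟨C, hC, hCσ⟩ := π.exists_preimage_norm_le hπ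
  choose σ hσ1 hσ2 using hCσ
  have hwd : ∀ x x', π x = π x' → AS x = AS x' := by
    intro x x' hxx
    have h1 : π (x - x') = 0 := by rw [map_sub, hxx, sub_self]
    have h2 := (hker _).1 h1
    rw [map_sub, sub_eq_zero] at h2
    exact h2
  let tl : Z →ₗ[ℂ] X :=
    { toFun := fun z => AS (σ z)
      map_add' := by
        intro z z'
        rw [← map_add]
        apply hwd
        rw [map_add, hσ1, hσ1, hσ1]
      map_smul' := by
        intro c z
        rw [← map_smul]
        apply hwd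
        rw [map_smul, hσ1, hσ1]
        rfl }
  let t : Z →L[ℂ] X := tl.mkContinuous (‖AS‖ * C) (by
    intro z
    show ‖AS (σ z)‖ ≤ ‖AS‖ * C * ‖z‖
    calc ‖AS (σ z)‖ ≤ ‖AS‖ * ‖σ z‖ := AS.le_opNorm _
      _ ≤ ‖AS‖ * (C * ‖z‖) := by
        gcongr
        exact hσ2 z
      _ = ‖AS‖ * C * ‖z‖ := by ring)
  have ht : ∀ z, t z = AS (σ z) := fun z => rfl
  have htπ : ∀ x, t (π x) = AS x := by
    intro x
    rw [ht]
    apply hwd
    rw [hσ1]
  have hπt : ∀ z, π (t z) = A z := by
    intro z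
    obtain ⟨x, rfl⟩ := hπ z
    rw [htπ, hπA]
  have hcS : ∀ U : X →L[ℂ] X, U * S = S * U → ∀ x, U (AS x) = AS (U x) := by
    intro U hU x
    have h1 : Commute U S := hU
    have h2 : Commute U AS := by
      rw [hAS]
      exact Polynomial.induction_on p
        (fun a => by
          rw [Polynomial.aeval_C]
          exact (Algebra.commutes a U).symm)
        (fun q r hq hr => by
          rw [map_add]
          exact hq.add_right hr)
        (fun n a _ => by
          rw [map_mul, map_pow, Polynomial.aeval_X, Polynomial.aeval_C]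
          exact Commute.mul_right (Algebra.commutes a U).symm (h1.pow_right _))
    have h3 : U * AS = AS * U := h2
    exact congrArg (fun f : X →L[ℂ] X => f x) h3
  have hSt : ∀ z, S (t z) = t (SZ z) := by
    intro z
    obtain ⟨x, rfl⟩ := hπ z
    rw [htπ, hcS S rfl, ← htπ, h]
  let E : X →L[ℂ] X := t.comp (B.comp π)
  have hE : ∀ x, E x = t (B (π x)) := fun x => rfl
  have hEt : ∀ z, E (t z) = t z := by
    intro z
    rw [hE, hπt, hBA]
  have hEE : E * E = E := by
    ext x
    show E (E x) = E x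
    rw [hE x, hEt]
  have hcomm : ∀ U : X →L[ℂ] X, U * S = S * U → U * E = E * U := by
    intro U hU
    ext x
    show U (E x) = E (U x)
    have h0 : π (x - E x) = 0 := by
      rw [map_sub, hE, hπt, hAB, sub_self]
    have h1 : E (U (x - E x)) = 0 := by
      have : π (U (x - E x)) = 0 := by
        rw [hker, ← hcS U hU, (hker _).1 h0, map_zero]
      rw [hE, this, map_zero, map_zero]
    have h2 : E (U (E x)) = U (E x) := by
      have : U (E x) = t (π (U (σ (B (π x))))) := by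
        rw [hE, ht, hcS U hU, htπ]
      rw [this, hEt]
    rw [map_sub, map_sub, h2, sub_eq_zero] at h1
    exact h1.symm
  refine ⟨1 - E, ?_, ?_, ?_, ?_⟩
  · rw [sub_mul, mul_sub, mul_sub, hEE]
    simp
  · intro U hU
    rw [mul_sub, sub_mul, mul_one, one_mul, hcomm U hU]
  · ext x
    show AS (x - E x) = 0
    rw [← hker, map_sub, hE, hπt, hAB, sub_self]
  · have e1 : S * (1 - (1 - E)) = S * E := by
      rw [sub_sub_cancel]
    rw [e1]
    obtain ⟨R, hR1, hR2⟩ := exists_between hgr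
    have hR0 : 0 < R := lt_of_le_of_lt (gr_nonneg SZ) hR1
    obtain ⟨K, hK, hKb⟩ := gr_bound SZ hR1
    have hSE : Commute S E := hcomm S rfl
    have hitZ : ∀ (n : ℕ) (z : Z), (S ^ n) (t z) = t ((SZ ^ n) z) := by
      intro n
      induction n with
      | zero => intro z; rfl
      | succ n ih =>
        intro z
        rw [pow_succ, pow_succ]
        show (S ^ n) (S (t z)) = t ((SZ ^ n) (SZ z))
        rw [hSt, ih]
    have hEpow : ∀ n : ℕ, n ≠ 0 → E ^ n = E := by
      intro n hn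
      obtain ⟨m, rfl⟩ := Nat.exists_eq_succ_of_ne_zero hn
      induction m with
      | zero => simp
      | succ m ih =>
        rw [Nat.succ_eq_add_one, pow_succ, ih (by omega), hEE]
    have hbd : ∀ n : ℕ, ‖(S * E) ^ n‖ ≤ (‖t‖ * K * (‖B‖ * ‖π‖) + 1) * R ^ n := by
      intro n
      rcases Nat.eq_zero_or_pos n with h0 | h0
      · subst h0
        rw [pow_zero, pow_zero, mul_one]
        have h1 : ‖(1 : X →L[ℂ] X)‖ ≤ 1 := ContinuousLinearMap.norm_id_le
        have h2 : 0 ≤ ‖t‖ * K * (‖B‖ * ‖π‖) := by positivity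
        linarith
      · rw [hSE.mul_pow, hEpow n h0.ne']
        have h1 : ‖S ^ n * E‖ ≤ ‖t‖ * K * (‖B‖ * ‖π‖) * R ^ n := by
          refine ContinuousLinearMap.opNorm_le_bound _ (by positivity) (fun x => ?_)
          show ‖(S ^ n) (t (B (π x)))‖ ≤ _
          rw [hitZ]
          calc ‖t ((SZ ^ n) (B (π x)))‖ ≤ ‖t‖ * ‖(SZ ^ n) (B (π x))‖ := t.le_opNorm _
            _ ≤ ‖t‖ * (‖SZ ^ n‖ * ‖B (π x)‖) := by
              gcongr
              exact (SZ ^ n).le_opNorm _
            _ ≤ ‖t‖ * ((K * R ^ n) * (‖B‖ * (‖π‖ * ‖x‖))) := by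
              gcongr
              · exact hKb n
              · exact (B.le_opNorm _).trans (by gcongr; exact π.le_opNorm x)
            _ = ‖t‖ * K * (‖B‖ * ‖π‖) * R ^ n * ‖x‖ := by ring
        have h2 : 0 ≤ R ^ n := by positivity
        linarith
    exact lt_of_le_of_lt (gr_le_of_bound (S * E) hR0.le hbd) hR2

end WNH
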