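import Pool.Agent.WNH.P7d
import Pool.Agent.WNH.P9

/-!
Row [WN-P10]. Uses `top_eigen` (P7a), `top_poly` (P7d), `splitting` (P9), `W_of_factor` (P8), G0.

Proof. Let `p` be the polynomial of `top_poly`, `M = ker (aeval S p)` (closed submodule, instance
`IsClosed (M : Set X)` as a `Fact`/`haveI` for the quotient norm), `Z = X ⧸ M`,
`π` the quotient map, `SZ` the induced operator (`S` maps `M` into `M`; `‖SZ^n‖ ≤ ‖S^n‖` by the
quotient norm: e.g. for `z ∈ Z` and `δ > 0` there is `x` with `π x = z`, `‖x‖ ≤ ‖z‖ + δ`).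
So `gr SZ ≤ gr S` (`gr_bound`, `gr_le_of_bound`). `¬ W SZ` by `W_of_factor`. If `gr SZ = gr S`
then `top_eigen` for `SZ` gives `‖μ‖ = gr S`, `z = π x ≠ 0`, `SZ z = μ z`, so
`π (S x - μ x) = 0`, `aeval S p (S x - μ x) = 0`, so by `top_poly` `aeval S p x = 0`, `π x = 0`:
contradiction. So `gr SZ < gr S` and `splitting` with `ρ = gr S`, `q = p` gives the claim.
-/

namespace WNH
open Filter Topology Metric
universe u
variable {X : Type u} [NormedAddCommGroup X] [NormedSpace ℂ X] [CompleteSpace X]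

/-- The same with the information on the roots of `q` (all of modulus `gr S`). -/
theorem peel' (S : X →L[ℂ] X) (hS : ¬ W S) (hgr : 1 < gr S) :
    ∃ (P : X →L[ℂ] X) (q : Polynomial ℂ), P * P = P ∧
      (∀ U : X →L[ℂ] X, U * S = S * U → U * P = P * U) ∧ q ≠ 0 ∧
      (∀ z : ℂ, q.IsRoot z → ‖z‖ = gr S) ∧
      Polynomial.aeval S q * P = 0 ∧ gr (S * (1 - P)) < gr S := by
  obtain ⟨p, hp0, hproot, hp⟩ := top_poly S hS hgr
  set M : Submodule ℂ X := (Polynomial.aeval S p : X →L[ℂ] X).ker with hM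
  have hMm : ∀ x : X, x ∈ M ↔ (Polynomial.aeval S p) x = 0 := fun x => LinearMap.mem_ker
  haveI hcl : IsClosed (M : Set X) := (Polynomial.aeval S p).isClosed_ker
  have hcomm : ∀ x : X, (Polynomial.aeval S p) (S x) = S ((Polynomial.aeval S p) x) := by
    intro x
    have h1 : Polynomial.aeval S (p * Polynomial.X) = Polynomial.aeval S (Polynomial.X * p) := by
      rw [mul_comm]
    rw [map_mul, map_mul, Polynomial.aeval_X] at h1
    have h2 := congrArg (fun A : X →L[ℂ] X => A x) h1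
    simpa [mul_apply_eq_comp] using h2
  have hker : M ≤ (M.mkQL.comp S).ker := by
    intro x hx
    rw [LinearMap.mem_ker]
    show M.mkQL (S x) = 0
    rw [Submodule.mkQL_apply, Submodule.mkQ_apply, Submodule.Quotient.mk_eq_zero, hMm, hcomm,
      (hMm x).1 hx, map_zero]
  set SZ : (X ⧸ M) →L[ℂ] (X ⧸ M) := M.liftQL (M.mkQL.comp S) hker with hSZ
  have hSZm : ∀ x : X, SZ (M.mkQL x) = M.mkQL (S x) := by
    intro x
    rw [hSZ, Submodule.liftQL_apply, Submodule.mkQL_apply, Submodule.mkQ_apply, Submodule.liftQ_apply]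
    rfl
  have hSZn : ∀ (n : ℕ) (x : X), (SZ ^ n) (M.mkQL x) = M.mkQL ((S ^ n) x) := by
    intro n
    induction n with
    | zero => intro x; rfl
    | succ n ih =>
      intro x
      rw [pow_succ, mul_apply_eq_comp, hSZm, ih, pow_succ, mul_apply_eq_comp]
  have hnorm : ∀ n : ℕ, ‖SZ ^ n‖ ≤ ‖S ^ n‖ := by
    intro n
    refine ContinuousLinearMap.opNorm_le_bound _ (norm_nonneg _) fun z => ?_
    have h1 : ∀ δ : ℝ, 0 < δ → ‖(SZ ^ n) z‖ ≤ ‖S ^ n‖ * (‖z‖ + δ) := by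
      intro δ hδ
      obtain ⟨x, hx1, hx2⟩ := Submodule.Quotient.norm_mk_lt z hδ
      have hx3 : M.mkQL x = z := by
        rw [Submodule.mkQL_apply, Submodule.mkQ_apply]
        exact hx1
      rw [← hx3, hSZn]
      calc ‖M.mkQL ((S ^ n) x)‖ ≤ ‖(S ^ n) x‖ := Submodule.Quotient.norm_mk_le M _
        _ ≤ ‖S ^ n‖ * ‖x‖ := (S ^ n).le_opNorm x
        _ ≤ ‖S ^ n‖ * (‖M.mkQL x‖ + δ) := by
            apply mul_le_mul_of_nonneg_left _ (norm_nonneg _)
            rw [hx3]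
            exact hx2.le
    have h2 : Tendsto (fun δ : ℝ => ‖S ^ n‖ * (‖z‖ + δ)) (𝓝[>] 0) (𝓝 (‖S ^ n‖ * (‖z‖ + 0))) :=
      (((continuous_const.add continuous_id).const_mul ‖S ^ n‖).tendsto 0).mono_left
        nhdsWithin_le_nhds
    rw [add_zero] at h2
    refine ge_of_tendsto h2 ?_
    filter_upwards [self_mem_nhdsWithin] with δ hδ
    exact h1 δ hδ
  have hgle : gr SZ ≤ gr S := by
    refine le_of_forall_gt_imp_ge_of_dense fun R hR => ?_
    obtain ⟨C, -, hC⟩ := gr_bound S hR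
    exact gr_le_of_bound SZ ((gr_nonneg S).trans hR.le) fun n => (hnorm n).trans (hC n)
  have hsurj : Function.Surjective M.mkQL := M.mkQ_surjective
  have hWZ : ¬ W SZ := fun hW => hS (W_of_factor S SZ M.mkQL hsurj (fun x => (hSZm x).symm) hW)
  have hzero : ∀ x : X, M.mkQL x = 0 ↔ (Polynomial.aeval S p) x = 0 := by
    intro x
    rw [Submodule.mkQL_apply, Submodule.mkQ_apply, Submodule.Quotient.mk_eq_zero, hMm]
  have hglt : gr SZ < gr S := by
    refine lt_of_le_of_ne hgle fun heq => ?_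
    obtain ⟨⟨μ, hμ, z, hz, hz2⟩, -⟩ := top_eigen SZ hWZ (by rw [heq]; exact hgr)
    obtain ⟨x, rfl⟩ := hsurj z
    apply hz
    rw [hzero]
    apply hp μ x (by rw [hμ, heq])
    rw [← hzero, map_sub, map_smul, ← hSZm, hz2, sub_self]
  obtain ⟨P, h1, h2, h3, h4⟩ := splitting S p (gr S) hp0 hproot SZ M.mkQL hsurj hzero
    (fun x => (hSZm x).symm) hglt
  exact ⟨P, p, h1, h2, hp0, hproot, h3, h4⟩

theorem peel (S : X →L[ℂ] X) (hS : ¬ W S) (hgr : 1 < gr S) :
    ∃ (P : X →L[ℂ] X) (q : Polynomial ℂ), P * P = P ∧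
      (∀ U : X →L[ℂ] X, U * S = S * U → U * P = P * U) ∧ q ≠ 0 ∧
      Polynomial.aeval S q * P = 0 ∧ gr (S * (1 - P)) < gr S := by
  obtain ⟨P, q, h1, h2, h3, -, h4, h5⟩ := peel' S hS hgr
  exact ⟨P, q, h1, h2, h3, h4, h5⟩

end WNH
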