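import Pool.Agent.WNH.B0

/-!
Row [WN-P2]. Uses `baire_avoid` (B0).

Proof. Put `a n = ‖S^n y‖`, `z n = (a n)⁻¹ • S^n y` (norm `1` when `a n ≠ 0`, which holds
`𝒰`-eventually; always norm `≤ 1`).
(1) For `g` in the dual `X* = StrongDual ℂ X`, `g (z n)` is bounded by `‖g‖`, so it converges along
the ultrafilter `𝒰`; the limits define `w ∈ X** = StrongDual ℂ (StrongDual ℂ X)`, `‖w‖ ≤ 1`,
`Tendsto (fun n => g (z n)) 𝒰 (𝓝 (w g))`. (By hand with `LinearMap.mkContinuous`, or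
Banach–Alaoglu compactness applied to `J z n`, `J = NormedSpace.inclusionInDoubleDual ℂ X`.)
(2) `K := ker w`, a closed subspace of `X*`, a Banach space, hence a Baire space. Apply
`baire_avoid` with `Z = K`, `U = univ`, `F n g = g (S^n y)` (no dense orbit since `¬ W S`):
`v`, `δ > 0`, `g₀ ∈ K`, `ε > 0` with `δ ≤ ‖g (S^n y) - v‖` for all `n` and all `g ∈ K`,
`‖g - g₀‖ < 2 ε`. For `h ∈ K`, `‖h‖ ≤ 1`: the affine function
`s ↦ (g₀ (S^n y) - v) + s h (S^n y)` has no zero for `‖s‖ ≤ ε`, so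
`ε ‖h (S^n y)‖ ≤ ‖g₀ (S^n y) - v‖`; dividing by `a n > 0`:
`‖h (z n)‖ ≤ η n := ε⁻¹ (‖g₀ (z n)‖ + ‖v‖ / a n)` and `η n → 0` along `𝒰`
(`g₀ (z n) → w g₀ = 0`, `a n → ∞`).
(3) The restriction of `J (z n)` to `K` has norm `≤ η n`; let `k n ∈ X**` be a Hahn–Banach
extension, `‖k n‖ ≤ η n`. `J (z n) - k n` vanishes on `K = ker w`, so `J (z n) - k n = c n • w`
for some `c n` (a functional vanishing on the kernel of `w`).
If `w = 0` then `1 = ‖z n‖ = ‖J (z n)‖ ≤ η n` `𝒰`-eventually, contradiction. So pick `g₁` with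
`w g₁ = 1`: `c n = g₁ (z n) - k n g₁ → 1`. Hence `J (z n) → w` in norm along `𝒰`.
(4) `J` is a linear isometry, `X` complete: `range J` closed, `w = J z`, and
`‖z n - z‖ = ‖J (z n) - w‖ → 0` along `𝒰`.
-/

namespace WNH
open Filter Topology Metric
universe u
variable {X : Type u} [NormedAddCommGroup X] [NormedSpace ℂ X] [CompleteSpace X]

theorem P2_cauchy {z : ℕ → X} {𝒰 : Ultrafilter ℕ} {θ : ℕ → ℝ} (hθ : Tendsto θ 𝒰 (𝓝 0))
    (w : StrongDual ℂ X → ℂ)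
    (h : ∀ᶠ n in (𝒰 : Filter ℕ), ∀ g : StrongDual ℂ X, ‖g (z n) - w g‖ ≤ ‖g‖ * θ n) :
    ∃ x : X, Tendsto z 𝒰 (𝓝 x) := by
  have hc : Cauchy (Filter.map z (𝒰 : Filter ℕ)) := by
    rw [Metric.cauchy_iff]
    refine ⟨inferInstance, ?_⟩
    intro ε hε
    have h1 : ∀ᶠ n in (𝒰 : Filter ℕ), θ n < ε / 4 := hθ.eventually_lt_const (by positivity)
    refine ⟨z '' {n | θ n < ε / 4 ∧ ∀ g : StrongDual ℂ X, ‖g (z n) - w g‖ ≤ ‖g‖ * θ n}, ?_, ?_⟩
    · rw [Filter.mem_map]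
      filter_upwards [h1, h] with n a b
      exact ⟨n, ⟨a, b⟩, rfl⟩
    · rintro _ ⟨n, ⟨a1, a2⟩, rfl⟩ _ ⟨m, ⟨b1, b2⟩, rfl⟩
      rw [dist_eq_norm]
      have : ‖z n - z m‖ ≤ ε / 2 := by
        apply NormedSpace.norm_le_dual_bound ℂ (z n - z m) (by positivity)
        intro g
        have e : g (z n - z m) = (g (z n) - w g) - (g (z m) - w g) := by
          rw [map_sub]; ring
        rw [e]
        calc ‖(g (z n) - w g) - (g (z m) - w g)‖ ≤ ‖g (z n) - w g‖ + ‖g (z m) - w g‖ := norm_sub_le _ _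
          _ ≤ ‖g‖ * θ n + ‖g‖ * θ m := add_le_add (a2 g) (b2 g)
          _ ≤ ‖g‖ * (ε / 4) + ‖g‖ * (ε / 4) := by
            gcongr
          _ = ε / 2 * ‖g‖ := by ring
      linarith
  obtain ⟨x, hx⟩ := CompleteSpace.complete hc
  exact ⟨x, hx⟩

theorem notW_compact (S : X →L[ℂ] X) (hS : ¬ W S) (y : X) (𝒰 : Ultrafilter ℕ)
    (h : Tendsto (fun n : ℕ => ‖(S ^ n) y‖) 𝒰 atTop) :
    ∃ z : X, Tendsto (fun n : ℕ => ((‖(S ^ n) y‖ : ℂ))⁻¹ • (S ^ n) y) 𝒰 (𝓝 z) := by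
  set a : ℕ → ℝ := fun n => ‖(S ^ n) y‖ with ha
  set z : ℕ → X := fun n => ((‖(S ^ n) y‖ : ℂ))⁻¹ • (S ^ n) y with hz
  have hz1 : ∀ n, ‖z n‖ ≤ 1 := by
    intro n
    simp only [hz, norm_smul, norm_inv, Complex.norm_real, norm_norm]
    exact inv_mul_le_one
  -- the weak limit
  have hlim : ∀ g : StrongDual ℂ X, ∃ c : ℂ, Tendsto (fun n => g (z n)) 𝒰 (𝓝 c) := by
    intro g
    have hb : ∀ n, g (z n) ∈ Metric.closedBall (0 : ℂ) ‖g‖ := by
      intro n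
      rw [mem_closedBall_zero_iff]
      calc ‖g (z n)‖ ≤ ‖g‖ * ‖z n‖ := g.le_opNorm _
        _ ≤ ‖g‖ * 1 := by gcongr; exact hz1 n
        _ = ‖g‖ := mul_one _
    obtain ⟨c, _, hc⟩ := (isCompact_closedBall (0 : ℂ) ‖g‖).ultrafilter_le_nhds (𝒰.map fun n => g (z n))
      (by
        rw [le_principal_iff]
        exact Ultrafilter.mem_coe.2 (Ultrafilter.mem_map.2
          (Filter.mem_of_superset Filter.univ_mem (fun n _ => hb n))))
    exact ⟨c, hc⟩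
  choose w hw using hlim
  have hwb : ∀ g, ‖w g‖ ≤ 1 * ‖g‖ := by
    intro g
    rw [one_mul]
    refine le_of_tendsto (hw g).norm (Filter.Eventually.of_forall fun n => ?_)
    calc ‖g (z n)‖ ≤ ‖g‖ * ‖z n‖ := g.le_opNorm _
      _ ≤ ‖g‖ * 1 := by gcongr; exact hz1 n
      _ = ‖g‖ := mul_one _
  let wl : StrongDual ℂ X →ₗ[ℂ] ℂ :=
    { toFun := w
      map_add' := by
        intro g g'
        refine tendsto_nhds_unique (hw (g + g')) ?_
        exact (hw g).add (hw g')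
      map_smul' := by
        intro c g
        refine tendsto_nhds_unique (hw (c • g)) ?_
        exact (hw g).const_smul c }
  let wc : StrongDual ℂ X →L[ℂ] ℂ := wl.mkContinuous 1 hwb
  have hwc : ∀ g, wc g = w g := fun g => rfl
  let K : Submodule ℂ (StrongDual ℂ X) := LinearMap.ker wc.toLinearMap
  have hKc : IsClosed (K : Set (StrongDual ℂ X)) := by
    have : (K : Set (StrongDual ℂ X)) = wc ⁻¹' {0} := by
      ext g
      simp [K]
    rw [this]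
    exact isClosed_singleton.preimage wc.continuous
  have : CompleteSpace K := hKc.completeSpace_coe
  have hKmem : ∀ g : StrongDual ℂ X, g ∈ K ↔ w g = 0 := by
    intro g
    rw [← hwc]
    rfl
  obtain ⟨v, δ, hδ, O, hO, hOn, -, hOd⟩ := baire_avoid (Z := K)
    (fun n g => (g : StrongDual ℂ X) ((S ^ n) y))
    (fun n => by fun_prop) Set.univ isOpen_univ Set.univ_nonempty
    (fun g _ hd => hS ⟨y, g, hd⟩)
  obtain ⟨g₀, hg₀⟩ := hOn
  obtain ⟨r, hr, hball⟩ := Metric.isOpen_iff.1 hO g₀ hg₀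
  -- the bound on `K`
  have hK1 : ∀ n, ∀ g ∈ K, ‖g‖ ≤ 1 → (r / 2) * ‖g ((S ^ n) y)‖ ≤ ‖(g₀ : StrongDual ℂ X) ((S ^ n) y) - v‖ := by
    intro n g hg hg1
    by_contra hcon
    push Not at hcon
    have hb0 : g ((S ^ n) y) ≠ 0 := by
      intro h0
      rw [h0, norm_zero, mul_zero] at hcon
      exact absurd hcon (not_lt.2 (norm_nonneg _))
    set s : ℂ := -((g₀ : StrongDual ℂ X) ((S ^ n) y) - v) / g ((S ^ n) y) with hs
    have hs1 : ‖s‖ < r / 2 := by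
      rw [hs, norm_div, norm_neg, div_lt_iff₀ (norm_pos_iff.2 hb0)]
      exact hcon
    have hmem : g₀ + s • (⟨g, hg⟩ : K) ∈ O := by
      apply hball
      rw [Metric.mem_ball, Subtype.dist_eq, dist_eq_norm]
      have e0 : ((g₀ + s • (⟨g, hg⟩ : K) : K) : StrongDual ℂ X) - (g₀ : StrongDual ℂ X) = s • g := by
        simp only [Submodule.coe_add, Submodule.coe_smul, add_sub_cancel_left]
      rw [e0, norm_smul]
      calc ‖s‖ * ‖g‖ ≤ ‖s‖ * 1 := by gcongr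
        _ < r := by linarith
    have := hOd _ hmem n
    have e : ((g₀ + s • (⟨g, hg⟩ : K) : K) : StrongDual ℂ X) ((S ^ n) y) - v = 0 := by
      simp only [Submodule.coe_add, Submodule.coe_smul, _root_.add_apply,
        _root_.smul_apply, smul_eq_mul]
      rw [hs, div_mul_cancel₀ _ hb0]
      ring
    rw [e, norm_zero] at this
    linarith
  have hK2 : ∀ n, ∀ g ∈ K, (r / 2) * ‖g ((S ^ n) y)‖ ≤ ‖g‖ * ‖(g₀ : StrongDual ℂ X) ((S ^ n) y) - v‖ := by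
    intro n g hg
    by_cases h0 : g = 0
    · subst h0; simp
    have hpos : 0 < ‖g‖ := norm_pos_iff.2 h0
    have := hK1 n (((‖g‖ : ℂ))⁻¹ • g) (K.smul_mem _ hg) (by
      rw [norm_smul, norm_inv, Complex.norm_real, norm_norm, inv_mul_cancel₀ hpos.ne'])
    rw [_root_.smul_apply, norm_smul, norm_inv, Complex.norm_real, norm_norm] at this
    calc (r / 2) * ‖g ((S ^ n) y)‖ = ‖g‖ * ((r / 2) * (‖g‖⁻¹ * ‖g ((S ^ n) y)‖)) := by
          field_simp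
      _ ≤ ‖g‖ * ‖(g₀ : StrongDual ℂ X) ((S ^ n) y) - v‖ := by gcongr
  set η : ℕ → ℝ := fun n => (2 / r) * ‖(g₀ : StrongDual ℂ X) (z n) - ((a n : ℝ) : ℂ)⁻¹ * v‖ with hη
  have hη0 : Tendsto η 𝒰 (𝓝 0) := by
    have t1 : Tendsto (fun n => ((a n : ℝ) : ℂ)⁻¹) 𝒰 (𝓝 0) := by
      rw [tendsto_zero_iff_norm_tendsto_zero]
      have : ∀ n, ‖((a n : ℝ) : ℂ)⁻¹‖ = (a n)⁻¹ := by
        intro n
        rw [norm_inv, Complex.norm_real, Real.norm_of_nonneg (norm_nonneg _)]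
      simp only [this]
      exact tendsto_inv_atTop_zero.comp h
    have t2 := (hw g₀).sub (t1.mul_const v)
    rw [(hKmem g₀).1 g₀.2, zero_mul, sub_zero] at t2
    have t3 := t2.norm.const_mul (2 / r)
    rw [norm_zero, mul_zero] at t3
    exact t3
  have hηnn : ∀ n, 0 ≤ η n := fun n => by positivity
  have hapos : ∀ᶠ n in (𝒰 : Filter ℕ), 0 < a n := h.eventually_gt_atTop 0
  have hK3 : ∀ᶠ n in (𝒰 : Filter ℕ), ∀ g ∈ K, ‖g (z n)‖ ≤ ‖g‖ * η n := by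
    filter_upwards [hapos] with n hn g hg
    have := hK2 n g hg
    have e1 : g (z n) = ((a n : ℝ) : ℂ)⁻¹ * g ((S ^ n) y) := by
      simp only [hz, map_smul, smul_eq_mul, ha]
    have e2 : (g₀ : StrongDual ℂ X) (z n) - ((a n : ℝ) : ℂ)⁻¹ * v =
        ((a n : ℝ) : ℂ)⁻¹ * ((g₀ : StrongDual ℂ X) ((S ^ n) y) - v) := by
      simp only [hz, map_smul, smul_eq_mul, ha]
      ring
    have hninv : ‖((a n : ℝ) : ℂ)⁻¹‖ = (a n)⁻¹ := by
      rw [norm_inv, Complex.norm_real, Real.norm_of_nonneg hn.le]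
    simp only [hη]
    rw [e1, e2, norm_mul, norm_mul, hninv]
    have : ‖g ((S ^ n) y)‖ ≤ (2 / r) * (‖g‖ * ‖(g₀ : StrongDual ℂ X) ((S ^ n) y) - v‖) := by
      rw [div_mul_eq_mul_div, le_div_iff₀ hr]
      linarith
    calc (a n)⁻¹ * ‖g ((S ^ n) y)‖ ≤ (a n)⁻¹ * ((2 / r) * (‖g‖ * ‖(g₀ : StrongDual ℂ X) ((S ^ n) y) - v‖)) := by
          gcongr
      _ = ‖g‖ * (2 / r * ((a n)⁻¹ * ‖(g₀ : StrongDual ℂ X) ((S ^ n) y) - v‖)) := by ring
  by_cases hw0 : ∀ g, w g = 0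
  · apply P2_cauchy hη0 w
    filter_upwards [hK3] with n hn g
    rw [hw0 g, sub_zero]
    exact hn g ((hKmem g).2 (hw0 g))
  · push Not at hw0
    obtain ⟨g₂, hg₂⟩ := hw0
    set g₁ : StrongDual ℂ X := (w g₂)⁻¹ • g₂ with hg₁
    have hwg₁ : w g₁ = 1 := by
      have : wl ((w g₂)⁻¹ • g₂) = (w g₂)⁻¹ • wl g₂ := map_smul _ _ _
      have e : wl g₂ = w g₂ := rfl
      rw [e, smul_eq_mul, inv_mul_cancel₀ hg₂] at this
      exact this
    have hθ0 : Tendsto (fun n => (1 + ‖g₁‖) * η n + ‖g₁ (z n) - 1‖) 𝒰 (𝓝 0) := by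
      have t1 := hη0.const_mul (1 + ‖g₁‖)
      have t2 := ((hw g₁).sub_const 1).norm
      rw [hwg₁, sub_self, norm_zero] at t2
      have := t1.add t2
      rw [mul_zero, add_zero] at this
      exact this
    apply P2_cauchy hθ0 w
    filter_upwards [hK3] with n hn g
    have hmem : g - w g • g₁ ∈ K := by
      rw [hKmem]
      have : wl (g - w g • g₁) = wl g - w g • wl g₁ := by rw [map_sub, map_smul]
      have e1 : wl g = w g := rfl
      have e2 : wl g₁ = w g₁ := rfl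
      rw [e1, e2, hwg₁, smul_eq_mul, mul_one, sub_self] at this
      exact this
    have b1 := hn _ hmem
    have b2 : ‖g - w g • g₁‖ ≤ ‖g‖ * (1 + ‖g₁‖) := by
      calc ‖g - w g • g₁‖ ≤ ‖g‖ + ‖w g • g₁‖ := norm_sub_le _ _
        _ = ‖g‖ + ‖w g‖ * ‖g₁‖ := by rw [norm_smul]
        _ ≤ ‖g‖ + (1 * ‖g‖) * ‖g₁‖ := by gcongr; exact hwb g
        _ = ‖g‖ * (1 + ‖g₁‖) := by ring
    have e : g (z n) - w g = (g - w g • g₁) (z n) + w g * (g₁ (z n) - 1) := by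
      simp only [_root_.sub_apply, _root_.smul_apply, smul_eq_mul]
      ring
    rw [e]
    calc ‖(g - w g • g₁) (z n) + w g * (g₁ (z n) - 1)‖
        ≤ ‖(g - w g • g₁) (z n)‖ + ‖w g * (g₁ (z n) - 1)‖ := norm_add_le _ _
      _ ≤ ‖g - w g • g₁‖ * η n + ‖w g‖ * ‖g₁ (z n) - 1‖ := by
        rw [norm_mul]
        exact add_le_add b1 le_rfl
      _ ≤ (‖g‖ * (1 + ‖g₁‖)) * η n + (1 * ‖g‖) * ‖g₁ (z n) - 1‖ := by
        refine add_le_add (mul_le_mul_of_nonneg_right b2 (hηnn n)) ?_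
        exact mul_le_mul_of_nonneg_right (hwb g) (norm_nonneg _)
      _ = ‖g‖ * ((1 + ‖g₁‖) * η n + ‖g₁ (z n) - 1‖) := by ring

end WNH
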