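import Pool.Agent.WNH.Defs

/-!
Row [WN-P3a]. A lemma on real sequences of exact exponential rate `ρ`.

Proof. Put `b n = a n / ρ ^ n`; `b n ≥ c` for `n ≥ T`, and for all `R' > 1`, `b n ≤ C R' ^ n`.
Claim: for all `M ≥ 1` and all `K` there is `t ≥ K`, `t ≥ M`, with `b (t + m) ≤ 2 b t` for all
integers `|m| ≤ M`. Suppose not, and put `T' = max K T + M`: every `t ≥ T'` is bad, i.e. there is
`|m| ≤ M` with `b (t + m) > 2 b t`. Let `B` be the maximum of `b` on `[0, T']`. Choose `t₀ ≥ T'` with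
`c 2 ^ ((t₀ - T') / M) > B`, and define `t_{j+1} = t_j + m` with `m` from badness, as long as
`t_j ≥ T'`. Then `b t_j ≥ 2 ^ j b t₀ ≥ 2 ^ j c` and `|t_j - t₀| ≤ j M`. If some `t_j < T'` (first
one), then `j ≥ (t₀ - T') / M` and `b t_j ≥ 2 ^ j c > B`, contradiction with `t_j ≤ T'`. So
`t_j ≥ T'` for all `j`, and `b t_j ≥ 2 ^ j c → ∞` while `t_j ≤ t₀ + j M`: with `R' = 2 ^ (1/(2M))`,
`2 ^ j c ≤ b t_j ≤ C R' ^ (t₀ + j M) = C R' ^ t₀ 2 ^ (j/2)` for all `j`, contradiction.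
(In Lean: the invariant `∀ j, ∃ t, T' ≤ t ∧ t ≤ t₀ + j M ∧ t₀ ≤ t + j M ∧ 2 ^ j * c ≤ b t` by
induction on `j` is convenient.) Take `φ k` = the `t` for `M = k + 1`, `K = k`.
-/

namespace WNH
open Filter Topology Metric

theorem P3a_claim (b : ℕ → ℝ) (c : ℝ) (hc : 0 < c) (T : ℕ) (h1 : ∀ n, T ≤ n → c ≤ b n)
    (h2 : ∀ R : ℝ, 1 < R → ∃ C : ℝ, ∀ n, b n ≤ C * R ^ n) (M : ℕ) (hM : 1 ≤ M) (K : ℕ) :
    ∃ t : ℕ, K ≤ t ∧ M ≤ t ∧ ∀ t' : ℕ, t' ≤ t + M → t ≤ t' + M → b t' ≤ 2 * b t := by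
  by_contra hcon
  push Not at hcon
  set T' : ℕ := max (max K M) T with hT'
  have hbad : ∀ t, T' ≤ t → ∃ t', t' ≤ t + M ∧ t ≤ t' + M ∧ 2 * b t < b t' := by
    intro t ht
    exact hcon t (by omega) (by omega)
  obtain ⟨B, hB⟩ : ∃ B : ℝ, ∀ t, t ≤ T' → b t ≤ B := by
    obtain ⟨B, hB⟩ := (Finset.image b (Finset.range (T' + 1))).bddAbove
    refine ⟨B, fun t ht => hB ?_⟩
    rw [Finset.mem_coe, Finset.mem_image]
    exact ⟨t, Finset.mem_range.2 (by omega), rfl⟩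
  obtain ⟨j₀, hj₀⟩ : ∃ j₀ : ℕ, B < 2 ^ j₀ * c := by
    have : Tendsto (fun j : ℕ => (2 : ℝ) ^ j * c) atTop atTop :=
      (tendsto_pow_atTop_atTop_of_one_lt one_lt_two).atTop_mul_const hc
    exact (this.eventually_gt_atTop B).exists
  set t₀ : ℕ := T' + j₀ * M with ht₀
  have hinv : ∀ j : ℕ, ∃ t, T' ≤ t ∧ t ≤ t₀ + j * M ∧ t₀ ≤ t + j * M ∧ 2 ^ j * c ≤ b t := by
    intro j
    induction j with
    | zero =>
      refine ⟨t₀, by omega, by omega, by omega, ?_⟩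
      rw [pow_zero, one_mul]
      exact h1 t₀ (by omega)
    | succ j ih =>
      obtain ⟨t, a1, a2, a3, a4⟩ := ih
      obtain ⟨t', b1, b2, b3⟩ := hbad t a1
      have hj : (j + 1) * M = j * M + M := by ring
      have hb : 2 ^ (j + 1) * c ≤ b t' := by
        rw [pow_succ]
        linarith
      refine ⟨t', ?_, by omega, by omega, hb⟩
      by_contra hlt
      have hlt' : t' < T' := not_le.1 hlt
      have h5 : b t' ≤ B := hB t' hlt'.le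
      have h6 : j₀ ≤ j + 1 := by
        by_contra h7
        have h8 : (j + 1) * M ≤ j₀ * M := Nat.mul_le_mul_right _ (by omega)
        omega
      have h7 : (2 : ℝ) ^ j₀ * c ≤ 2 ^ (j + 1) * c := by
        gcongr
        exact one_le_two
      linarith
  have hM0 : (2 * M) ≠ 0 := by omega
  set R : ℝ := (2 : ℝ) ^ (((2 * M : ℕ) : ℝ)⁻¹) with hR
  have hR1 : 1 < R := by
    apply Real.one_lt_rpow one_lt_two
    positivity
  have hRpow : R ^ (2 * M) = 2 := Real.rpow_inv_natCast_pow (by norm_num) hM0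
  obtain ⟨C, hC⟩ := h2 R hR1
  have hR0 : 0 < R := by linarith
  have hfin : ∀ i : ℕ, 2 ^ i * c ≤ |C| * R ^ t₀ := by
    intro i
    obtain ⟨t, a1, a2, a3, a4⟩ := hinv (2 * i)
    have h3 : b t ≤ |C| * R ^ (t₀ + 2 * i * M) := by
      calc b t ≤ C * R ^ t := hC t
        _ ≤ |C| * R ^ t := mul_le_mul_of_nonneg_right (le_abs_self C) (by positivity)
        _ ≤ |C| * R ^ (t₀ + 2 * i * M) :=
          mul_le_mul_of_nonneg_left (pow_le_pow_right₀ hR1.le a2) (abs_nonneg C)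
    have h4 : R ^ (t₀ + 2 * i * M) = R ^ t₀ * 2 ^ i := by
      rw [pow_add]
      congr 1
      rw [← hRpow, ← pow_mul]
      congr 1
      ring
    have h5 : (2 : ℝ) ^ (2 * i) = 2 ^ i * 2 ^ i := by
      rw [two_mul, pow_add]
    rw [h4] at h3
    rw [h5] at a4
    have h6 : (2 : ℝ) ^ i * c * 2 ^ i ≤ |C| * R ^ t₀ * 2 ^ i := by
      calc (2 : ℝ) ^ i * c * 2 ^ i = 2 ^ i * 2 ^ i * c := by ring
        _ ≤ b t := a4
        _ ≤ |C| * (R ^ t₀ * 2 ^ i) := h3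
        _ = |C| * R ^ t₀ * 2 ^ i := by ring
    exact le_of_mul_le_mul_right h6 (by positivity)
  have : Tendsto (fun j : ℕ => (2 : ℝ) ^ j * c) atTop atTop :=
    (tendsto_pow_atTop_atTop_of_one_lt one_lt_two).atTop_mul_const hc
  obtain ⟨i, hi⟩ := (this.eventually_gt_atTop (|C| * R ^ t₀)).exists
  exact absurd (hfin i) (not_le.2 hi)

theorem seq_lemma (a : ℕ → ℝ) (ρ c : ℝ) (hρ : 0 < ρ) (hc : 0 < c)
    (h1 : ∀ᶠ n in atTop, c * ρ ^ n ≤ a n)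
    (h2 : ∀ R : ℝ, ρ < R → ∃ C : ℝ, ∀ n, a n ≤ C * R ^ n) :
    ∃ φ : ℕ → ℕ, Tendsto φ atTop atTop ∧
      ∀ m : ℤ, ∀ᶠ k in atTop, a (((φ k : ℤ) + m).toNat) ≤ 2 * ρ ^ m * a (φ k) := by
  set b : ℕ → ℝ := fun n => a n / ρ ^ n with hb
  obtain ⟨T, hT⟩ := eventually_atTop.1 h1
  have h1' : ∀ n, T ≤ n → c ≤ b n := by
    intro n hn
    rw [hb]
    simp only
    rw [le_div_iff₀ (by positivity)]
    exact hT n hn
  have h2' : ∀ R : ℝ, 1 < R → ∃ C : ℝ, ∀ n, b n ≤ C * R ^ n := by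
    intro R hR
    obtain ⟨C, hC⟩ := h2 (ρ * R) (by nlinarith)
    refine ⟨C, fun n => ?_⟩
    rw [hb]
    simp only
    rw [div_le_iff₀ (by positivity)]
    calc a n ≤ C * (ρ * R) ^ n := hC n
      _ = C * R ^ n * ρ ^ n := by rw [mul_pow]; ring
  have hcl : ∀ k : ℕ, ∃ t : ℕ, k ≤ t ∧ k + 1 ≤ t ∧
      ∀ t' : ℕ, t' ≤ t + (k + 1) → t ≤ t' + (k + 1) → b t' ≤ 2 * b t :=
    fun k => P3a_claim b c hc T h1' h2' (k + 1) (by omega) k
  choose φ hφ1 hφ2 hφ3 using hcl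
  refine ⟨φ, tendsto_atTop_mono hφ1 tendsto_id, fun m => ?_⟩
  filter_upwards [eventually_ge_atTop m.natAbs] with k hk
  have hk2 := hφ2 k
  obtain ⟨t', ht'⟩ : ∃ t' : ℕ, (t' : ℤ) = (φ k : ℤ) + m := by
    refine ⟨((φ k : ℤ) + m).toNat, Int.toNat_of_nonneg ?_⟩
    omega
  have e : ((φ k : ℤ) + m).toNat = t' := by
    rw [← ht']
    exact Int.toNat_natCast t'
  rw [e]
  have := hφ3 k t' (by omega) (by omega)
  simp only [hb] at this
  rw [div_le_iff₀ (by positivity)] at this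
  have hz : ρ ^ t' = ρ ^ (φ k) * ρ ^ m := by
    rw [← zpow_natCast ρ t', ht', zpow_add₀ hρ.ne', zpow_natCast]
  rw [hz] at this
  calc a t' ≤ 2 * (a (φ k) / ρ ^ (φ k)) * (ρ ^ (φ k) * ρ ^ m) := this
    _ = 2 * ρ ^ m * a (φ k) := by
      field_simp

end WNH
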