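import Pool.Agent.WNH.G0
import Pool.Agent.WNH.P1
import Pool.Agent.WNH.P2
import Pool.Agent.WNH.P3a

/-!
Row [WN-P3b]. Uses `gr_pow_le`, `gr_bound` (G0), `notW_lower` (P1), `notW_compact` (P2),
`seq_lemma` (P3a).

Proof. `ρ := gr S > 1`. By P1 (with `y = y₀`, `g = g₀`), `ε² ‖S^n‖ ≤ ‖g₀‖ ‖S^n y₀‖ + ‖v‖`, and
`‖S^n‖ ≥ ρ^n → ∞` (`n ≥ 1`), so `‖g₀‖ > 0` and with `a n := ‖S^n y₀‖`: `c ρ^n ≤ a n` for large `n`,
`c = ε² / (2 ‖g₀‖)`. Also `a n ≤ ‖y₀‖ ‖S^n‖ ≤ C_R R^n` for all `R > ρ` (G0). By `seq_lemma` get `φ`.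
Let `𝒱` be an ultrafilter `≤ map φ atTop`... precisely let `𝒱 : Ultrafilter ℕ` with `𝒱 ≤ atTop`
(`hyperfilter ℕ` is fine) on the index `k`. For `m : ℤ` put `t_m k = ((φ k : ℤ) + m).toNat`
(`→ ∞`, and `= φ k + m` as integers for large `k`), and
`x_m k = (ρ^m a (φ k))⁻¹ • S^(t_m k) y₀`. Its norm is `a (t_m k) / (ρ^m a (φ k)) ≤ 2` for large `k`.
`a n → ∞`, so by P2 applied to the ultrafilter `𝒱.map (t_m)`, the vectors
`(a (t_m k))⁻¹ • S^(t_m k) y₀` converge along `𝒱`; the scalars `a (t_m k) / (ρ^m a (φ k)) ∈ [0,2]`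
converge along `𝒱` too (compactness). So `x_m k → q m` along `𝒱`, `‖q m‖ ≤ 2`. `‖q 0‖ = 1`.
`S (x_m k) = ρ • x_{m+1} k` for large `k`, so `S (q m) = ρ • q (m+1)`.
Relative compactness of `range q`: show `range q` is sequentially relatively compact: given
`m : ℕ → ℤ`, choose `n_j → ∞` (`n_j = t_{m_j} k_j` for suitable `k_j`) and scalars `c_j` with
`‖q (m_j) - c_j • S^(n_j) y₀‖ < 1/(j+1)`, `‖c_j • S^(n_j) y₀‖ ≤ 2`. Along a free ultrafilter on
`j`, by P2 (ultrafilter pushed by `j ↦ n_j`) the normalised vectors converge, the scalars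
`|c_j| a (n_j) ≤ 2` converge, so `q (m_j)` converges along the ultrafilter. So every ultrafilter
containing `range q`... : it is enough to show `TotallyBounded (range q)` (then
`TotallyBounded.closure` + completeness, `isCompact_of_totallyBounded_isClosed`), and if `range q`
is not totally bounded there are `δ > 0` and `m : ℕ → ℤ` with `‖q (m i) - q (m j)‖ ≥ δ` for
`i ≠ j`, which contradicts convergence along a free ultrafilter.
-/

namespace WNH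
open Filter Topology Metric
universe u
variable {X : Type u} [NormedAddCommGroup X] [NormedSpace ℂ X] [CompleteSpace X]

theorem P3b_lim (S : X →L[ℂ] X) (hS : ¬ W S) (y₀ : X)
    (ha : Tendsto (fun n : ℕ => ‖(S ^ n) y₀‖) atTop atTop) (𝒱 : Ultrafilter ℕ) (n : ℕ → ℕ)
    (hn : Tendsto n 𝒱 atTop) (c : ℕ → ℂ) (B : ℝ)
    (hb : ∀ᶠ k in (𝒱 : Filter ℕ), ‖c k • (S ^ (n k)) y₀‖ ≤ B) :
    ∃ x : X, Tendsto (fun k => c k • (S ^ (n k)) y₀) 𝒱 (𝓝 x) := by
  have h1 : Tendsto (fun m : ℕ => ‖(S ^ m) y₀‖) (𝒱.map n : Ultrafilter ℕ) atTop := by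
    rw [Ultrafilter.coe_map]
    exact ha.comp hn
  obtain ⟨z, hz⟩ := notW_compact S hS y₀ (𝒱.map n) h1
  rw [Ultrafilter.coe_map, tendsto_map'_iff] at hz
  set d : ℕ → ℂ := fun k => c k * (‖(S ^ (n k)) y₀‖ : ℂ) with hd
  have hdb : ∀ᶠ k in (𝒱 : Filter ℕ), d k ∈ Metric.closedBall (0 : ℂ) B := by
    filter_upwards [hb] with k hk
    rw [mem_closedBall_zero_iff, hd]
    simp only [norm_mul, Complex.norm_real, norm_norm]
    rw [norm_smul] at hk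
    exact hk
  obtain ⟨d0, _, hd0⟩ := (isCompact_closedBall (0 : ℂ) B).ultrafilter_le_nhds (𝒱.map d)
    (by
      rw [le_principal_iff]
      exact Ultrafilter.mem_coe.2 (Ultrafilter.mem_map.2 hdb))
  have hd0' : Tendsto d 𝒱 (𝓝 d0) := hd0
  refine ⟨d0 • z, ?_⟩
  refine (hd0'.smul hz).congr (fun k => ?_)
  simp only [Function.comp, hd]
  by_cases h0 : (S ^ (n k)) y₀ = 0
  · rw [h0]; simp
  · rw [smul_smul, mul_assoc, mul_inv_cancel₀, mul_one]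
    rw [Ne, Complex.ofReal_eq_zero]
    exact norm_ne_zero_iff.2 h0

theorem exists_goodOrb (S : X →L[ℂ] X) (hS : ¬ W S) (hgr : 1 < gr S) :
    ∃ x : X, x ≠ 0 ∧ GoodOrb S (gr S) x := by
  set ρ : ℝ := gr S with hρ
  have hρ0 : 0 < ρ := by linarith
  obtain ⟨y₀, g₀, ε, v, hε, hlow⟩ := notW_lower S hS
  set a : ℕ → ℝ := fun n => ‖(S ^ n) y₀‖ with ha
  have hann : ∀ n, 0 ≤ a n := fun n => norm_nonneg _
  have h1 : ∀ n : ℕ, ε ^ 2 * ‖S ^ n‖ ≤ ‖g₀‖ * a n + ‖v‖ := by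
    intro n
    have := hlow y₀ g₀ (by simpa using hε) (by simpa using hε) n
    calc ε ^ 2 * ‖S ^ n‖ ≤ ‖g₀ ((S ^ n) y₀) - v‖ := this
      _ ≤ ‖g₀ ((S ^ n) y₀)‖ + ‖v‖ := norm_sub_le _ _
      _ ≤ ‖g₀‖ * a n + ‖v‖ := by
        gcongr
        exact g₀.le_opNorm _
  have h2 : ∀ᶠ n : ℕ in atTop, ‖v‖ ≤ ε ^ 2 / 2 * ρ ^ n := by
    have : Tendsto (fun n : ℕ => ε ^ 2 / 2 * ρ ^ n) atTop atTop :=
      (tendsto_pow_atTop_atTop_of_one_lt hgr).const_mul_atTop (by positivity)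
    exact this.eventually_ge_atTop _
  have h3 : ∀ᶠ n : ℕ in atTop, ε ^ 2 / 2 * ρ ^ n ≤ ‖g₀‖ * a n := by
    filter_upwards [h2, eventually_ne_atTop 0] with n hn hn0
    have := h1 n
    have hp : ρ ^ n ≤ ‖S ^ n‖ := gr_pow_le S hn0
    have : ε ^ 2 * ρ ^ n ≤ ε ^ 2 * ‖S ^ n‖ := by gcongr
    linarith
  have hg₀ : 0 < ‖g₀‖ := by
    obtain ⟨n, hn⟩ := h3.exists
    by_contra hcon
    have h0 : ‖g₀‖ = 0 := le_antisymm (not_lt.1 hcon) (norm_nonneg _)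
    rw [h0, zero_mul] at hn
    have : 0 < ε ^ 2 / 2 * ρ ^ n := by positivity
    linarith
  have h4 : ∀ᶠ n : ℕ in atTop, (ε ^ 2 / 2 / ‖g₀‖) * ρ ^ n ≤ a n := by
    filter_upwards [h3] with n hn
    rw [div_mul_eq_mul_div, div_le_iff₀ hg₀]
    linarith
  have hcpos : 0 < ε ^ 2 / 2 / ‖g₀‖ := by positivity
  have h5 : ∀ R : ℝ, ρ < R → ∃ C : ℝ, ∀ n, a n ≤ C * R ^ n := by
    intro R hR
    obtain ⟨C, hC, hCb⟩ := gr_bound S hR
    refine ⟨C * ‖y₀‖, fun n => ?_⟩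
    calc a n ≤ ‖S ^ n‖ * ‖y₀‖ := (S ^ n).le_opNorm _
      _ ≤ (C * R ^ n) * ‖y₀‖ := by
        gcongr
        exact hCb n
      _ = C * ‖y₀‖ * R ^ n := by ring
  have haT : Tendsto a atTop atTop := by
    refine tendsto_atTop_mono' _ h4 ?_
    exact (tendsto_pow_atTop_atTop_of_one_lt hgr).const_mul_atTop hcpos
  obtain ⟨φ, hφ, hφ2⟩ := seq_lemma a ρ _ hρ0 hcpos h4 h5
  have h𝒱 : (hyperfilter ℕ : Filter ℕ) ≤ atTop := Nat.hyperfilter_le_atTop
  set 𝒱 : Ultrafilter ℕ := hyperfilter ℕ with h𝒱def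
  set t : ℤ → ℕ → ℕ := fun m k => ((φ k : ℤ) + m).toNat with ht
  have htk : ∀ m : ℤ, ∀ᶠ k in atTop, ((t m k : ℕ) : ℤ) = (φ k : ℤ) + m := by
    intro m
    filter_upwards [hφ.eventually_ge_atTop m.natAbs] with k hk
    simp only [ht]
    apply Int.toNat_of_nonneg
    omega
  have htT : ∀ m : ℤ, Tendsto (t m) atTop atTop := by
    intro m
    rw [Filter.tendsto_atTop]
    intro b
    filter_upwards [hφ.eventually_ge_atTop (m.natAbs + b)] with k hk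
    simp only [ht]
    omega
  set x : ℤ → ℕ → X := fun m k => (((ρ ^ m * a (φ k) : ℝ) : ℂ))⁻¹ • (S ^ (t m k)) y₀ with hx
  have haφ : ∀ᶠ k in atTop, 0 < a (φ k) := (haT.comp hφ).eventually_gt_atTop 0
  have hxb : ∀ m : ℤ, ∀ᶠ k in atTop, ‖x m k‖ ≤ 2 := by
    intro m
    filter_upwards [hφ2 m, haφ] with k hk hk0
    have hpos : 0 < ρ ^ m * a (φ k) := mul_pos (zpow_pos hρ0 m) hk0
    simp only [hx, norm_smul, norm_inv, Complex.norm_real]
    rw [Real.norm_of_nonneg hpos.le, inv_mul_le_iff₀ hpos]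
    calc ‖(S ^ (t m k)) y₀‖ = a (t m k) := rfl
      _ ≤ 2 * ρ ^ m * a (φ k) := hk
      _ = ρ ^ m * a (φ k) * 2 := by ring
  have hq : ∀ m : ℤ, ∃ q : X, Tendsto (x m) 𝒱 (𝓝 q) := by
    intro m
    exact P3b_lim S hS y₀ haT 𝒱 (t m) ((htT m).mono_left h𝒱) _ 2 ((hxb m).filter_mono h𝒱)
  choose q hq using hq
  have hq0 : q 0 ≠ 0 := by
    have : Tendsto (fun k => ‖x 0 k‖) 𝒱 (𝓝 ‖q 0‖) := (hq 0).norm
    have h1 : ∀ᶠ k in (𝒱 : Filter ℕ), ‖x 0 k‖ = 1 := by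
      have : ∀ᶠ k in atTop, ‖x 0 k‖ = 1 := by
        filter_upwards [haφ, htk 0] with k hk hk2
        have e : t 0 k = φ k := by
          rw [add_zero] at hk2
          exact_mod_cast hk2
        simp only [hx, norm_smul, norm_inv, Complex.norm_real, zpow_zero, one_mul, e]
        rw [Real.norm_of_nonneg hk.le]
        exact inv_mul_cancel₀ hk.ne'
      exact this.filter_mono h𝒱
    have h2 : Tendsto (fun k => ‖x 0 k‖) 𝒱 (𝓝 1) :=
      tendsto_const_nhds.congr' (h1.mono fun k hk => hk.symm)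
    have h3 := tendsto_nhds_unique this h2
    intro h0
    rw [h0, norm_zero] at h3
    exact zero_ne_one h3
  have hqS : ∀ m : ℤ, S (q m) = (ρ : ℂ) • q (m + 1) := by
    intro m
    have t1 : Tendsto (fun k => S (x m k)) 𝒱 (𝓝 (S (q m))) := (S.continuous.tendsto _).comp (hq m)
    have t2 : Tendsto (fun k => (ρ : ℂ) • x (m + 1) k) 𝒱 (𝓝 ((ρ : ℂ) • q (m + 1))) :=
      (hq (m + 1)).const_smul _
    refine tendsto_nhds_unique t1 (t2.congr' ?_)
    have : ∀ᶠ k in atTop, (ρ : ℂ) • x (m + 1) k = S (x m k) := by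
      filter_upwards [htk m, htk (m + 1)] with k hk1 hk2
      have e : t (m + 1) k = t m k + 1 := by omega
      simp only [hx, map_smul, e]
      rw [smul_smul]
      have e2 : S ((S ^ (t m k)) y₀) = (S ^ (t m k + 1)) y₀ := by
        rw [pow_succ']
        rfl
      rw [e2]
      congr 1
      rw [zpow_add_one₀ hρ0.ne']
      push_cast
      rw [mul_inv, mul_inv, mul_inv]
      have : (ρ : ℂ) ≠ 0 := by
        rw [Ne, Complex.ofReal_eq_zero]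
        exact hρ0.ne'
      field_simp
    exact this.filter_mono h𝒱
  refine ⟨q 0, hq0, q, rfl, hqS, ?_⟩
  apply IsSeqCompact.isCompact
  intro w hw
  -- approximate
  have hch : ∀ j : ℕ, ∃ (c : ℂ) (n : ℕ), j ≤ n ∧ ‖w j - c • (S ^ n) y₀‖ < 2 / ((j : ℝ) + 1) ∧
      ‖c • (S ^ n) y₀‖ ≤ 2 := by
    intro j
    have hj : (0 : ℝ) < 1 / ((j : ℝ) + 1) := by positivity
    obtain ⟨_, ⟨m, rfl⟩, hm⟩ := Metric.mem_closure_iff.1 (hw j) _ hj
    have e1 : ∀ᶠ k in (𝒱 : Filter ℕ), dist (x m k) (q m) < 1 / ((j : ℝ) + 1) :=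
      Metric.tendsto_nhds.1 (hq m) _ hj
    have e2 : ∀ᶠ k in (𝒱 : Filter ℕ), ‖x m k‖ ≤ 2 := (hxb m).filter_mono h𝒱
    have e3 : ∀ᶠ k in (𝒱 : Filter ℕ), j ≤ t m k :=
      ((htT m).eventually_ge_atTop j).filter_mono h𝒱
    obtain ⟨k, k1, k2, k3⟩ := (e1.and (e2.and e3)).exists
    refine ⟨_, t m k, k3, ?_, k2⟩
    have : ‖w j - x m k‖ < 2 / ((j : ℝ) + 1) := by
      rw [← dist_eq_norm]
      calc dist (w j) (x m k) ≤ dist (w j) (q m) + dist (q m) (x m k) := dist_triangle _ _ _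
        _ < 1 / ((j : ℝ) + 1) + 1 / ((j : ℝ) + 1) := by
          rw [dist_comm (q m)]
          exact add_lt_add hm k1
        _ = 2 / ((j : ℝ) + 1) := by ring
    exact this
  choose c n hn hcn hcb using hch
  have hnT : Tendsto n 𝒱 atTop := (tendsto_atTop_mono hn tendsto_id).mono_left h𝒱
  obtain ⟨l, hl⟩ := P3b_lim S hS y₀ haT 𝒱 n hnT c 2 (Filter.Eventually.of_forall hcb)
  have hwl : Tendsto w 𝒱 (𝓝 l) := by
    have z1 : Tendsto (fun j : ℕ => w j - c j • (S ^ n j) y₀) 𝒱 (𝓝 0) := by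
      have : Tendsto (fun j : ℕ => 2 / ((j : ℝ) + 1)) atTop (𝓝 0) := by
        have := (tendsto_one_div_add_atTop_nhds_zero_nat (𝕜 := ℝ)).const_mul 2
        simpa [div_eq_mul_inv] using this
      exact squeeze_zero_norm (fun j => (hcn j).le) (this.mono_left h𝒱)
    have := z1.add hl
    simpa using this
  have hcl : MapClusterPt l atTop w := by
    have : MapClusterPt l (𝒱 : Filter ℕ) w := hwl.mapClusterPt
    exact this.mono h𝒱
  obtain ⟨ψ, hψ, hψ2⟩ := MapClusterPt.tendsto_subseq hcl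
  refine ⟨l, ?_, ψ, hψ, hψ2⟩
  exact isClosed_closure.mem_of_tendsto hψ2 (Filter.Eventually.of_forall fun j => hw _)

end WNH
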