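import Pool.Agent.WNH.P1

/-!
Row [WN-P4a]. Uses `notW_lower` (P1). If the good vectors are dense then `S / ρ` is power bounded.

Proof. P1 gives `y₀, g₀, ε, v`. Pick by density a good vector `y` with `‖y - y₀‖ < ε`, with orbit
`q : ℤ → X`, `q 0 = y`, `S (q m) = ρ • q (m+1)`, range bounded by `D` (closure compact).
Then `S^n y = ρ^n • q n`, so `ε² ‖S^n‖ ≤ ‖g₀ (S^n y) - v‖ ≤ ‖g₀‖ D ρ^n + ‖v‖ ≤ (‖g₀‖ D + ‖v‖) ρ^n`
as `ρ > 1`.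
-/

namespace WNH
open Filter Topology Metric
universe u
variable {X : Type u} [NormedAddCommGroup X] [NormedSpace ℂ X] [CompleteSpace X]

theorem P4a_orbit (S : X →L[ℂ] X) (ρ : ℝ) {q : ℤ → X}
    (h : ∀ m : ℤ, S (q m) = (ρ : ℂ) • q (m + 1)) (n : ℕ) :
    (S ^ n) (q 0) = (ρ : ℂ) ^ n • q n := by
  induction n with
  | zero => simp
  | succ n ih =>
    rw [pow_succ']
    show S ((S ^ n) (q 0)) = _
    rw [ih, map_smul, h, smul_smul, ← pow_succ]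
    push_cast
    rfl

theorem powerBounded_of_good (S : X →L[ℂ] X) (hS : ¬ W S) (ρ : ℝ) (hρ : 1 < ρ)
    (hd : Dense {x : X | GoodOrb S ρ x}) :
    ∃ C : ℝ, 0 < C ∧ ∀ n : ℕ, ‖S ^ n‖ ≤ C * ρ ^ n := by
  obtain ⟨y₀, g₀, ε, v, hε, hlow⟩ := notW_lower S hS
  obtain ⟨y, hy1, q, hq0, hq1, hq2⟩ := Metric.dense_iff.1 hd y₀ ε hε
  rw [mem_ball_iff_norm] at hy1
  obtain ⟨D, hD⟩ := (hq2.isBounded.subset subset_closure).exists_norm_le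
  have hDq : ∀ m, ‖q m‖ ≤ D := fun m => hD _ ⟨m, rfl⟩
  have hD0 : 0 ≤ D := (norm_nonneg _).trans (hDq 0)
  refine ⟨(‖g₀‖ * D + ‖v‖) / ε ^ 2 + 1, by positivity, fun n => ?_⟩
  have h1 := hlow y g₀ hy1 (by simpa using hε) n
  have h2 : ‖(S ^ n) y‖ ≤ ρ ^ n * D := by
    rw [← hq0, P4a_orbit S ρ hq1 n, norm_smul, norm_pow, Complex.norm_real,
      Real.norm_of_nonneg (by linarith)]
    exact mul_le_mul_of_nonneg_left (hDq _) (by positivity)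
  have h3 : (1 : ℝ) ≤ ρ ^ n := one_le_pow₀ hρ.le
  have h4 : ε ^ 2 * ‖S ^ n‖ ≤ (‖g₀‖ * D + ‖v‖) * ρ ^ n := by
    calc ε ^ 2 * ‖S ^ n‖ ≤ ‖g₀ ((S ^ n) y) - v‖ := h1
      _ ≤ ‖g₀ ((S ^ n) y)‖ + ‖v‖ := norm_sub_le _ _
      _ ≤ ‖g₀‖ * (ρ ^ n * D) + ‖v‖ * ρ ^ n := by
        refine add_le_add ((g₀.le_opNorm _).trans ?_) ?_
        · exact mul_le_mul_of_nonneg_left h2 (norm_nonneg _)
        · exact le_mul_of_one_le_right (norm_nonneg _) h3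
      _ = (‖g₀‖ * D + ‖v‖) * ρ ^ n := by ring
  have h5 : ‖S ^ n‖ ≤ (‖g₀‖ * D + ‖v‖) / ε ^ 2 * ρ ^ n := by
    rw [div_mul_eq_mul_div, le_div_iff₀ (by positivity)]
    linarith
  nlinarith

end WNH
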