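import Pool.Agent.WNH.Defs

/-!
Row [WN-P4b]. Here `ρ = 1`: `Q` power bounded with a dense set of good vectors (`GoodOrb Q 1 x`:
`∃ q : ℤ → X, q 0 = x, Q (q m) = q (m+1)`, `range q` relatively compact).

Proof. WLOG `C ≥ 1`.
`recurrent`: first for a finite set `F` of good vectors with orbits `q_x`. For `m' ≥ m ≥ 0`:
`Q^(m'-m) x = q_x (m'-m) = Q^(m') (q_x (-m))` and `x = q_x 0 = Q^(m') (q_x (-m'))`, so
`‖Q^(m'-m) x - x‖ ≤ C ‖q_x (-m) - q_x (-m')‖`. The map `m ↦ (q_x (-m))_{x ∈ F}` from `ℕ` has totally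
bounded range in the finite product `F → X`, so `ℕ` is a finite union of classes in which
`‖q_x (-m) - q_x (-m')‖ < δ / (2 C)` for all `x ∈ F`. Let `M` be the maximum of the minimal elements
of the nonempty classes. For `N' ≥ M`, `N'` is in a class with minimal element `m ≤ M`, and
`n = N' - m` satisfies `‖Q^n x - x‖ < δ` for `x ∈ F`, and `N' - M ≤ n ≤ N'`. So for every `N`
(take `N' = N + M`) there is `n ∈ [N, N+M]`. General finite `F ⊆ X`: approximate each `x ∈ F` by a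
good vector `x'` with `‖x - x'‖ < δ / (4 C)`... (`‖Q^n x - x‖ ≤ (C+1) ‖x - x'‖ + ‖Q^n x' - x'‖`).

`invertible`: lower bound `‖y‖ ≤ 2 C ‖Q^m y‖`: given `m`, `y ≠ 0`, there is `n ≥ m` with
`‖Q^n y - y‖ < ‖y‖/2`, so `‖y‖/2 ≤ ‖Q^n y‖ ≤ C ‖Q^m y‖`. Range of `Q` is dense: it contains
all good vectors (`x = q 0 = Q (q (-1))`), and closed by the lower bound (`m = 1`), so `Q` is
bijective, a linear homeomorphism; `Q'` its inverse, and `‖Q'^n y‖ ≤ 2 C ‖Q^n (Q'^n y)‖ = 2 C ‖y‖`.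
-/

namespace WNH
open Filter Topology Metric
universe u
variable {X : Type u} [NormedAddCommGroup X] [NormedSpace ℂ X] [CompleteSpace X]

theorem P4b_orbit (Q : X →L[ℂ] X) {q : ℤ → X} (h : ∀ m : ℤ, Q (q m) = ((1 : ℝ) : ℂ) • q (m + 1))
    (k : ℕ) (m : ℤ) : (Q ^ k) (q m) = q (m + k) := by
  induction k generalizing m with
  | zero => simp
  | succ k ih =>
    rw [pow_succ]
    show (Q ^ k) (Q (q m)) = _
    rw [h, Complex.ofReal_one, one_smul, ih]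
    congr 1
    push_cast
    ring

theorem P4b_good (Q : X →L[ℂ] X) (C : ℝ) (hC : ∀ n : ℕ, ‖Q ^ n‖ ≤ C) {ι : Type u} [Fintype ι]
    (x : ι → X) (hx : ∀ i, GoodOrb Q 1 (x i)) (δ : ℝ) (hδ : 0 < δ) :
    ∃ M : ℕ, ∀ N : ℕ, ∃ n : ℕ, N ≤ n ∧ n ≤ N + M ∧ ∀ i, ‖(Q ^ n) (x i) - x i‖ < δ := by
  have hC0 : 0 ≤ C := (norm_nonneg _).trans (hC 0)
  choose q hq0 hq1 hq2 using hx
  let Φ : ℕ → (ι → X) := fun m i => q i (-(m : ℤ))
  have htb : TotallyBounded (Set.range Φ) := by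
    have hcomp : IsCompact (Set.pi Set.univ fun i => closure (Set.range (q i))) :=
      isCompact_univ_pi hq2
    refine hcomp.totallyBounded.subset ?_
    rintro _ ⟨m, rfl⟩ i _
    exact subset_closure ⟨_, rfl⟩
  set ε : ℝ := δ / (C + 1) with hε
  have hεpos : 0 < ε := by positivity
  obtain ⟨t, hts, htf, htc⟩ := htb.exists_subset (Metric.dist_mem_uniformity hεpos)
  have hch : ∀ y ∈ t, ∃ m, Φ m = y := fun y hy => hts hy
  choose! μ hμ using hch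
  obtain ⟨M, hM⟩ := (htf.image μ).bddAbove
  refine ⟨M, fun N => ?_⟩
  have hmem : Φ (N + M) ∈ Set.range Φ := ⟨_, rfl⟩
  have := htc hmem
  rw [Set.mem_iUnion₂] at this
  obtain ⟨y, hy, hyd⟩ := this
  have hm : μ y ≤ M := hM ⟨y, hy, rfl⟩
  have hd : dist (Φ (N + M)) (Φ (μ y)) < ε := by
    rw [hμ y hy]
    exact hyd
  refine ⟨N + M - μ y, by omega, by omega, fun i => ?_⟩
  have hdi : ‖q i (-((N + M : ℕ) : ℤ)) - q i (-((μ y : ℕ) : ℤ))‖ < ε := by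
    rw [← dist_eq_norm]
    exact (dist_le_pi_dist (Φ (N + M)) (Φ (μ y)) i).trans_lt hd
  have e1 : (Q ^ (N + M - μ y)) (x i) = (Q ^ (N + M)) (q i (-((μ y : ℕ) : ℤ))) := by
    rw [← hq0 i, P4b_orbit Q (hq1 i), P4b_orbit Q (hq1 i)]
    congr 1
    omega
  have e2 : x i = (Q ^ (N + M)) (q i (-((N + M : ℕ) : ℤ))) := by
    rw [P4b_orbit Q (hq1 i), neg_add_cancel, hq0]
  have e3 : (Q ^ (N + M - μ y)) (x i) - x i =
      (Q ^ (N + M)) (q i (-((μ y : ℕ) : ℤ)) - q i (-((N + M : ℕ) : ℤ))) := by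
    rw [map_sub, ← e2, e1]
  rw [e3]
  calc ‖(Q ^ (N + M)) (q i (-((μ y : ℕ) : ℤ)) - q i (-((N + M : ℕ) : ℤ)))‖
      ≤ ‖Q ^ (N + M)‖ * ‖q i (-((μ y : ℕ) : ℤ)) - q i (-((N + M : ℕ) : ℤ))‖ :=
        ContinuousLinearMap.le_opNorm _ _
    _ ≤ C * ε := by
      rw [norm_sub_rev]
      exact mul_le_mul (hC _) hdi.le (norm_nonneg _) hC0
    _ < (C + 1) * ε := by
      apply mul_lt_mul_of_pos_right _ hεpos
      linarith
    _ = δ := by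
      rw [hε]
      field_simp

theorem recurrent (Q : X →L[ℂ] X) (C : ℝ) (hC : ∀ n : ℕ, ‖Q ^ n‖ ≤ C)
    (hd : Dense {x : X | GoodOrb Q 1 x}) (F : Finset X) (δ : ℝ) (hδ : 0 < δ) :
    ∃ M : ℕ, ∀ N : ℕ, ∃ n : ℕ, N ≤ n ∧ n ≤ N + M ∧ ∀ x ∈ F, ‖(Q ^ n) x - x‖ < δ := by
  have hC0 : 0 ≤ C := (norm_nonneg _).trans (hC 0)
  set ε : ℝ := δ / (2 * (C + 1)) with hε
  have hεpos : 0 < ε := by positivity
  have happ : ∀ i : F, ∃ x' : X, GoodOrb Q 1 x' ∧ ‖(i : X) - x'‖ < ε := by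
    intro i
    obtain ⟨x', h1, h2⟩ := Metric.dense_iff.1 hd (i : X) ε hεpos
    refine ⟨x', h2, ?_⟩
    rw [← dist_eq_norm, dist_comm]
    exact h1
  choose x' hx1 hx2 using happ
  obtain ⟨M, hM⟩ := P4b_good Q C hC (ι := F) x' hx1 (δ / 2) (by positivity)
  refine ⟨M, fun N => ?_⟩
  obtain ⟨n, h1, h2, h3⟩ := hM N
  refine ⟨n, h1, h2, fun x hx => ?_⟩
  have a := h3 ⟨x, hx⟩
  have b := hx2 ⟨x, hx⟩
  simp only at b
  have e : (Q ^ n) x - x = (Q ^ n) (x - x' ⟨x, hx⟩) + ((Q ^ n) (x' ⟨x, hx⟩) - x' ⟨x, hx⟩) -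
      (x - x' ⟨x, hx⟩) := by
    rw [map_sub]
    abel
  rw [e]
  calc ‖(Q ^ n) (x - x' ⟨x, hx⟩) + ((Q ^ n) (x' ⟨x, hx⟩) - x' ⟨x, hx⟩) - (x - x' ⟨x, hx⟩)‖
      ≤ ‖(Q ^ n) (x - x' ⟨x, hx⟩)‖ + ‖(Q ^ n) (x' ⟨x, hx⟩) - x' ⟨x, hx⟩‖ + ‖x - x' ⟨x, hx⟩‖ :=
        (norm_sub_le _ _).trans (add_le_add (norm_add_le _ _) le_rfl)
    _ ≤ C * ‖x - x' ⟨x, hx⟩‖ + ‖(Q ^ n) (x' ⟨x, hx⟩) - x' ⟨x, hx⟩‖ + ‖x - x' ⟨x, hx⟩‖ := by
      gcongr
      exact (ContinuousLinearMap.le_opNorm _ _).trans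
        (mul_le_mul_of_nonneg_right (hC n) (norm_nonneg _))
    _ = (C + 1) * ‖x - x' ⟨x, hx⟩‖ + ‖(Q ^ n) (x' ⟨x, hx⟩) - x' ⟨x, hx⟩‖ := by ring
    _ < (C + 1) * ε + δ / 2 := by
      apply add_lt_add _ a
      exact mul_lt_mul_of_pos_left b (by linarith)
    _ = δ := by
      rw [hε]
      field_simp
      ring

theorem P4b_lower (Q : X →L[ℂ] X) (C : ℝ) (hC : ∀ n : ℕ, ‖Q ^ n‖ ≤ C)
    (hd : Dense {x : X | GoodOrb Q 1 x}) (m : ℕ) (y : X) : ‖y‖ ≤ 2 * C * ‖(Q ^ m) y‖ := by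
  by_cases hy : y = 0
  · subst hy; simp
  have hpos : 0 < ‖y‖ := norm_pos_iff.2 hy
  obtain ⟨M, hM⟩ := recurrent Q C hC hd {y} (‖y‖ / 2) (by positivity)
  obtain ⟨n, h1, -, h3⟩ := hM m
  have a := h3 y (Finset.mem_singleton_self y)
  have b : ‖y‖ ≤ ‖(Q ^ n) y‖ + ‖(Q ^ n) y - y‖ := by
    have : y = (Q ^ n) y - ((Q ^ n) y - y) := by abel
    calc ‖y‖ = ‖(Q ^ n) y - ((Q ^ n) y - y)‖ := by rw [← this]
      _ ≤ _ := norm_sub_le _ _
  have c : ‖(Q ^ n) y‖ ≤ C * ‖(Q ^ m) y‖ := by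
    obtain ⟨k, rfl⟩ := Nat.exists_eq_add_of_le h1
    rw [add_comm, pow_add]
    show ‖(Q ^ k) ((Q ^ m) y)‖ ≤ _
    exact (ContinuousLinearMap.le_opNorm _ _).trans
      (mul_le_mul_of_nonneg_right (hC k) (norm_nonneg _))
  linarith

theorem doubly_powerBounded (Q : X →L[ℂ] X) (C : ℝ) (hC : ∀ n : ℕ, ‖Q ^ n‖ ≤ C)
    (hd : Dense {x : X | GoodOrb Q 1 x}) :
    ∃ (Q' : X →L[ℂ] X) (C' : ℝ), Q * Q' = 1 ∧ Q' * Q = 1 ∧ ∀ n : ℕ, ‖Q' ^ n‖ ≤ C' := by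
  have hC0 : 0 ≤ C := (norm_nonneg _).trans (hC 0)
  have hlow : ∀ y : X, ‖y‖ ≤ ((2 * C).toNNReal : ℝ) * ‖Q y‖ := by
    intro y
    rw [Real.coe_toNNReal _ (by positivity)]
    have := P4b_lower Q C hC hd 1 y
    rw [pow_one] at this
    exact this
  have hanti : AntilipschitzWith (2 * C).toNNReal Q :=
    ContinuousLinearMap.antilipschitz_of_bound Q hlow
  have hcl : IsClosed (Set.range Q) := hanti.isClosed_range Q.uniformContinuous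
  have hdr : Dense (Set.range Q) := by
    refine hd.mono ?_
    rintro x ⟨q, h0, h1, -⟩
    refine ⟨q (-1), ?_⟩
    rw [h1, Complex.ofReal_one, one_smul]
    rw [← h0]
    norm_num
  have hsurj : Function.Surjective Q := by
    rw [← Set.range_eq_univ, ← hcl.closure_eq]
    exact hdr.closure_eq
  have hinj : Function.Injective Q := hanti.injective
  let e : X ≃L[ℂ] X := ContinuousLinearEquiv.ofBijective Q
    (LinearMap.ker_eq_bot.2 hinj) (LinearMap.range_eq_top.2 hsurj)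
  have he : ∀ x, e x = Q x := fun x => rfl
  have h1 : Q * (e.symm : X →L[ℂ] X) = 1 := by
    ext x
    show Q (e.symm x) = x
    rw [← he, e.apply_symm_apply]
  have h2 : (e.symm : X →L[ℂ] X) * Q = 1 := by
    ext x
    show e.symm (Q x) = x
    rw [← he, e.symm_apply_apply]
  refine ⟨(e.symm : X →L[ℂ] X), 2 * C, h1, h2, fun n => ?_⟩
  refine ContinuousLinearMap.opNorm_le_bound _ (by positivity) (fun y => ?_)
  have := P4b_lower Q C hC hd n (((e.symm : X →L[ℂ] X) ^ n) y)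
  have hcomm : Commute Q (e.symm : X →L[ℂ] X) := by
    show Q * (e.symm : X →L[ℂ] X) = (e.symm : X →L[ℂ] X) * Q
    rw [h1, h2]
  have h3 : Q ^ n * (e.symm : X →L[ℂ] X) ^ n = 1 := by
    rw [← hcomm.mul_pow, h1, one_pow]
  have h4 : (Q ^ n) (((e.symm : X →L[ℂ] X) ^ n) y) = y := by
    show (Q ^ n * (e.symm : X →L[ℂ] X) ^ n) y = y
    rw [h3]
    rfl
  rw [h4] at this
  exact this

end WNH
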