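import Pool.Agent.WNH.Defs

/-!
Row [WN-P5a]. Doubly power bounded operators: spectrum in the unit circle, resolvent bound,
approximate eigenvectors.

Proof. `resolvent_bound`: for `‖z‖ > 1`, `(z - Q)⁻¹ = ∑ z^{-n-1} Q^n` (e.g. `z - Q = z (1 - z⁻¹ Q)`,
`NormedRing`/`summable_geometric`-type series: the series `∑ z^{-n-1} • Q^n` converges absolutely,
with norm `≤ C / (‖z‖ - 1)`, and is a two-sided inverse by telescoping). For `‖z‖ < 1`,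
`(z - Q)⁻¹ = - ∑ z^n Q'^(n+1)`, norm `≤ C / (1 - ‖z‖)`. In both cases `z ∉ spectrum`, so
`spec_circle`. `resolvent Q z = Ring.inverse (algebraMap z - Q)`.
`approx_eigen`: `ζ ∈ spectrum`. For `z = (1 + t) ζ`, `t ↓ 0`, `z ∉ spectrum`. The resolvent is
unbounded as `z → ζ`: if `‖resolvent Q z‖ * ‖z - ζ‖ < 1` then `ζ` would be in the resolvent set
(`ζ - Q = (z - Q) (1 - (z - ζ) R(z))`, Neumann series), so `‖R(z)‖ ≥ 1 / ‖z - ζ‖`. Pick `w`,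
`‖w‖ = 1` (or `w ≠ 0`) with `‖R(z) w‖ ≥ ½ ‖R(z)‖ ‖w‖` and `u = R(z) w / ‖R(z) w‖`; then
`‖(z - Q) u‖ = ‖w‖ / ‖R(z) w‖ ≤ 2 ‖z - ζ‖`, so `‖Q u - ζ u‖ ≤ 3 ‖z - ζ‖ = 3 t`.
-/

namespace WNH
open Filter Topology Metric
universe u
variable {X : Type u} [NormedAddCommGroup X] [NormedSpace ℂ X] [CompleteSpace X]

/-- geometric series of a power bounded operator -/
theorem P5a_geom (A : X →L[ℂ] X) (C : ℝ) (hC : ∀ n : ℕ, ‖A ^ n‖ ≤ C) (z : ℂ) (hz : ‖z‖ < 1) :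
    ∃ G : X →L[ℂ] X, G * (1 - z • A) = 1 ∧ (1 - z • A) * G = 1 ∧
      (∀ B : X →L[ℂ] X, (∀ n : ℕ, ‖B * A ^ n‖ ≤ C) → ‖B * G‖ ≤ C / (1 - ‖z‖)) := by
  have hgs : HasSum (fun n : ℕ => C * ‖z‖ ^ n) (C * (1 - ‖z‖)⁻¹) :=
    (hasSum_geometric_of_lt_one (norm_nonneg z) hz).mul_left C
  have hb : ∀ n : ℕ, ‖(z • A) ^ n‖ ≤ C * ‖z‖ ^ n := by
    intro n
    rw [smul_pow, norm_smul, norm_pow, mul_comm]
    exact mul_le_mul_of_nonneg_right (hC n) (by positivity)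
  have hs : Summable (fun n : ℕ => (z • A) ^ n) := Summable.of_norm_bounded hgs.summable hb
  refine ⟨∑' n : ℕ, (z • A) ^ n, hs.tsum_pow_mul_one_sub, hs.one_sub_mul_tsum_pow, ?_⟩
  intro B hB
  rw [← hs.tsum_mul_left B]
  have := tsum_of_norm_bounded (f := fun n : ℕ => B * (z • A) ^ n) hgs (fun n => by
    rw [smul_pow, mul_smul_comm, norm_smul, norm_pow, mul_comm]
    exact mul_le_mul_of_nonneg_right (hB n) (by positivity))
  rw [div_eq_mul_inv]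
  exact this

theorem P5a_inverse (Q : X →L[ℂ] X) (z : ℂ) (R : X →L[ℂ] X)
    (h1 : (algebraMap ℂ (X →L[ℂ] X) z - Q) * R = 1) (h2 : R * (algebraMap ℂ (X →L[ℂ] X) z - Q) = 1) :
    z ∉ spectrum ℂ Q ∧ resolvent Q z = R := by
  let u : (X →L[ℂ] X)ˣ := ⟨algebraMap ℂ (X →L[ℂ] X) z - Q, R, h1, h2⟩
  constructor
  · rw [spectrum.notMem_iff]
    exact ⟨u, rfl⟩
  · have : Ring.inverse (u : X →L[ℂ] X) = ((u⁻¹ : (X →L[ℂ] X)ˣ) : X →L[ℂ] X) := Ring.inverse_unit u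
    exact this

theorem resolvent_bound (Q Q' : X →L[ℂ] X) (h1 : Q * Q' = 1) (h2 : Q' * Q = 1) (C : ℝ)
    (hC : ∀ n : ℕ, ‖Q ^ n‖ ≤ C) (hC' : ∀ n : ℕ, ‖Q' ^ n‖ ≤ C) (z : ℂ) (hz : ‖z‖ ≠ 1) :
    z ∉ spectrum ℂ Q ∧ ‖resolvent Q z‖ ≤ C / |‖z‖ - 1| := by
  have hal : algebraMap ℂ (X →L[ℂ] X) z = z • (1 : X →L[ℂ] X) := Algebra.algebraMap_eq_smul_one z
  rcases lt_or_gt_of_ne hz with h | h
  · obtain ⟨G, g1, g2, g3⟩ := P5a_geom Q' C hC' z h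
    have e1 : algebraMap ℂ (X →L[ℂ] X) z - Q = -((1 - z • Q') * Q) := by
      rw [hal, sub_mul, one_mul, smul_mul_assoc, h2]
      abel
    have k1 : (algebraMap ℂ (X →L[ℂ] X) z - Q) * (-(Q' * G)) = 1 := by
      rw [e1, neg_mul_neg, mul_assoc, ← mul_assoc Q, h1, one_mul, g2]
    have k2 : (-(Q' * G)) * (algebraMap ℂ (X →L[ℂ] X) z - Q) = 1 := by
      rw [e1, neg_mul_neg, mul_assoc, ← mul_assoc G, g1, one_mul, h2]
    obtain ⟨r1, r2⟩ := P5a_inverse Q z _ k1 k2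
    refine ⟨r1, ?_⟩
    rw [r2, norm_neg]
    have := g3 Q' (fun n => by
      rw [← pow_succ']
      exact hC' (n + 1))
    have e2 : |‖z‖ - 1| = 1 - ‖z‖ := by
      rw [abs_of_neg (by linarith)]
      ring
    rw [e2]
    exact this
  · have hz0 : z ≠ 0 := by
      intro h0
      rw [h0, norm_zero] at h
      linarith
    have hzi : ‖z⁻¹‖ < 1 := by
      rw [norm_inv]
      exact inv_lt_one_of_one_lt₀ h
    obtain ⟨G, g1, g2, g3⟩ := P5a_geom Q C hC z⁻¹ hzi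
    have e1 : algebraMap ℂ (X →L[ℂ] X) z - Q = z • (1 - z⁻¹ • Q) := by
      rw [hal, smul_sub, smul_smul, mul_inv_cancel₀ hz0, one_smul]
    have k1 : (algebraMap ℂ (X →L[ℂ] X) z - Q) * (z⁻¹ • G) = 1 := by
      rw [e1, smul_mul_smul_comm, mul_inv_cancel₀ hz0, one_smul, g2]
    have k2 : (z⁻¹ • G) * (algebraMap ℂ (X →L[ℂ] X) z - Q) = 1 := by
      rw [e1, smul_mul_smul_comm, inv_mul_cancel₀ hz0, one_smul, g1]
    obtain ⟨r1, r2⟩ := P5a_inverse Q z _ k1 k2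
    refine ⟨r1, ?_⟩
    rw [r2, norm_smul]
    have := g3 1 (fun n => by
      rw [one_mul]
      exact hC n)
    rw [one_mul] at this
    have e2 : |‖z‖ - 1| = ‖z‖ - 1 := abs_of_pos (by linarith)
    rw [e2]
    calc ‖z⁻¹‖ * ‖G‖ ≤ ‖z⁻¹‖ * (C / (1 - ‖z⁻¹‖)) := by gcongr
      _ = C / (‖z‖ - 1) := by
        rw [norm_inv]
        have : ‖z‖ ≠ 0 := norm_ne_zero_iff.2 hz0
        have h3 : ‖z‖ - 1 ≠ 0 := by
          intro h4
          linarith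
        have e3 : 1 - ‖z‖⁻¹ = (‖z‖ - 1) / ‖z‖ := by field_simp
        rw [e3]
        field_simp

theorem spec_circle (Q Q' : X →L[ℂ] X) (h1 : Q * Q' = 1) (h2 : Q' * Q = 1) (C : ℝ)
    (hC : ∀ n : ℕ, ‖Q ^ n‖ ≤ C) (hC' : ∀ n : ℕ, ‖Q' ^ n‖ ≤ C) (ζ : ℂ)
    (hζ : ζ ∈ spectrum ℂ Q) : ‖ζ‖ = 1 := by
  by_contra hcon
  exact (resolvent_bound Q Q' h1 h2 C hC hC' ζ hcon).1 hζ

theorem approx_eigen (Q Q' : X →L[ℂ] X) (h1 : Q * Q' = 1) (h2 : Q' * Q = 1) (C : ℝ)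
    (hC : ∀ n : ℕ, ‖Q ^ n‖ ≤ C) (hC' : ∀ n : ℕ, ‖Q' ^ n‖ ≤ C) (ζ : ℂ)
    (hζ : ζ ∈ spectrum ℂ Q) (η : ℝ) (hη : 0 < η) :
    ∃ u : X, ‖u‖ = 1 ∧ ‖Q u - ζ • u‖ < η := by
  have hζ1 := spec_circle Q Q' h1 h2 C hC hC' ζ hζ
  set t : ℝ := η / 4 with ht
  have ht0 : 0 < t := by positivity
  set z : ℂ := ((1 + t : ℝ) : ℂ) * ζ with hz
  have hzn : ‖z‖ = 1 + t := by
    rw [hz, norm_mul, hζ1, mul_one, Complex.norm_real, Real.norm_of_nonneg (by positivity)]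
  have hzs : z ∉ spectrum ℂ Q := (resolvent_bound Q Q' h1 h2 C hC hC' z (by rw [hzn]; linarith)).1
  have hzζ : ‖z - ζ‖ = t := by
    have : z - ζ = (t : ℂ) * ζ := by
      rw [hz]
      push_cast
      ring
    rw [this, norm_mul, hζ1, mul_one, Complex.norm_real, Real.norm_of_nonneg ht0.le]
  rw [spectrum.notMem_iff] at hzs
  obtain ⟨u, hu⟩ := hzs
  set R : X →L[ℂ] X := ((u⁻¹ : (X →L[ℂ] X)ˣ) : X →L[ℂ] X) with hR
  have k1 : (algebraMap ℂ (X →L[ℂ] X) z - Q) * R = 1 := by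
    rw [← hu]
    exact u.mul_inv
  have hnorm : 1 ≤ t * ‖R‖ := by
    by_contra hcon
    push Not at hcon
    have hlt : ‖(z - ζ) • R‖ < 1 := by
      rw [norm_smul, hzζ]
      exact hcon
    have hun : IsUnit (1 - (z - ζ) • R) := isUnit_one_sub_of_norm_lt_one hlt
    have hprod : IsUnit ((algebraMap ℂ (X →L[ℂ] X) z - Q) * (1 - (z - ζ) • R)) := by
      rw [← hu]
      exact u.isUnit.mul hun
    have e : (algebraMap ℂ (X →L[ℂ] X) z - Q) * (1 - (z - ζ) • R) = algebraMap ℂ (X →L[ℂ] X) ζ - Q := by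
      rw [mul_sub, mul_one, mul_smul_comm, k1, ← Algebra.algebraMap_eq_smul_one, map_sub]
      abel
    rw [e] at hprod
    exact hζ hprod
  have hex : ∃ w : X, 1 / (2 * t) * ‖w‖ < ‖R w‖ := by
    by_contra hcon
    push Not at hcon
    have := R.opNorm_le_bound (by positivity) hcon
    have h3 : t * ‖R‖ ≤ t * (1 / (2 * t)) := by gcongr
    have h4 : t * (1 / (2 * t)) = 1 / 2 := by field_simp
    linarith
  obtain ⟨w, hw⟩ := hex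
  have hRw : 0 < ‖R w‖ := lt_of_le_of_lt (by positivity) hw
  refine ⟨((‖R w‖ : ℂ))⁻¹ • R w, ?_, ?_⟩
  · rw [norm_smul, norm_inv, Complex.norm_real, norm_norm, inv_mul_cancel₀ hRw.ne']
  · have hzw : z • R w - Q (R w) = w := by
      have : ((algebraMap ℂ (X →L[ℂ] X) z - Q) * R) w = w := by rw [k1]; rfl
      rw [Algebra.algebraMap_eq_smul_one] at this
      exact this
    have e : Q (((‖R w‖ : ℂ))⁻¹ • R w) - ζ • (((‖R w‖ : ℂ))⁻¹ • R w) =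
        ((‖R w‖ : ℂ))⁻¹ • ((z - ζ) • R w - w) := by
      rw [map_smul, smul_comm ζ, ← smul_sub]
      congr 1
      nth_rewrite 4 [← hzw]
      rw [sub_smul]
      abel
    rw [e, norm_smul, norm_inv, Complex.norm_real, norm_norm]
    have h3 : ‖(z - ζ) • R w - w‖ ≤ t * ‖R w‖ + ‖w‖ := by
      refine (norm_sub_le _ _).trans ?_
      rw [norm_smul, hzζ]
    have h4 : ‖w‖ < 2 * t * ‖R w‖ := by
      rw [one_div, inv_mul_lt_iff₀ (by positivity)] at hw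
      exact hw
    rw [inv_mul_lt_iff₀ hRw]
    have h5 : η = 4 * t := by rw [ht]; ring
    rw [h5]
    nlinarith

end WNH
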