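import Pool.Agent.WNH.Defs

/-!
Row [WN-P5b]. A combinatorial lemma on an infinite subset of the unit circle.
-/

namespace WNH
open Filter Topology Metric

namespace P5bAux

theorem re_gt (a : ℂ) (ha : ‖a‖ = 1) (h : ‖a - 1‖ < 1) : 1 / 2 < a.re := by
  have h1 : ‖a - 1‖ ^ 2 < 1 := by
    have := norm_nonneg (a - 1)
    nlinarith
  rw [← Complex.normSq_eq_norm_sq, Complex.normSq_apply] at h1
  have h2 : a.re * a.re + a.im * a.im = 1 := by
    rw [← Complex.normSq_apply, Complex.normSq_eq_norm_sq, ha]; norm_num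
  simp at h1
  nlinarith

theorem re_div_gt (a b : ℂ) (ha : ‖a‖ = 1) (hb : ‖b‖ = 1) (h1 : ‖a - 1‖ < 1)
    (h2 : ‖b - 1‖ < 1) : -(1 / 2) < (a / b).re := by
  have ha1 := re_gt a ha h1
  have hb1 := re_gt b hb h2
  have ha2 : a.re * a.re + a.im * a.im = 1 := by
    rw [← Complex.normSq_apply, Complex.normSq_eq_norm_sq, ha]; norm_num
  have hb2 : b.re * b.re + b.im * b.im = 1 := by
    rw [← Complex.normSq_apply, Complex.normSq_eq_norm_sq, hb]; norm_num
  have h3 : (a / b).re = a.re * b.re + a.im * b.im := by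
    rw [Complex.div_re, Complex.normSq_apply, hb2]
    ring
  rw [h3]
  have h4 : a.im * a.im < 3 / 4 := by nlinarith
  have h5 : b.im * b.im < 3 / 4 := by nlinarith
  nlinarith [sq_nonneg (a.im + b.im)]

end P5bAux

open P5bAux

theorem circle_comb (σ : Set ℂ) (hσ : σ.Infinite) (h1 : ∀ ζ ∈ σ, ‖ζ‖ = 1) (R : Set ℕ) (M : ℕ)
    (hR : ∀ N : ℕ, ∃ n ∈ R, N ≤ n ∧ n ≤ N + M) (L : ℕ) :
    ∃ n ∈ R, L ≤ n ∧ ∃ ζ ∈ σ, 1 ≤ ‖ζ ^ n - 1‖ := by
  by_contra hcon
  push Not at hcon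
  have hpi := Real.pi_pos
  -- arguments of numbers near `1` are small
  obtain ⟨τ, hτ⟩ : ∃ τ : ℝ, τ = Real.pi / (3 * (M + 1)) := ⟨_, rfl⟩
  have hτ0 : 0 < τ := by rw [hτ]; positivity
  have hτM : τ * (M + 1) = Real.pi / 3 := by rw [hτ]; field_simp
  have hcont : ContinuousAt Complex.arg (1 : ℂ) := Complex.continuousAt_arg (by simp)
  obtain ⟨ε, hε, hεarg⟩ := Metric.continuousAt_iff.mp hcont τ hτ0
  -- two close points
  have hsub : σ ⊆ closedBall (0 : ℂ) 1 := by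
    intro ζ hζ
    rw [mem_closedBall, dist_zero_right, h1 ζ hζ]
  obtain ⟨x, -, hx⟩ := hσ.exists_accPt_of_subset_isCompact (isCompact_closedBall 0 1) hsub
  rw [accPt_iff_nhds] at hx
  obtain ⟨y₁, ⟨hy₁, hy₁σ⟩, hy₁x⟩ := hx (ball x (ε / 2)) (ball_mem_nhds _ (by linarith))
  have hd : 0 < dist y₁ x := dist_pos.mpr hy₁x
  obtain ⟨y₂, ⟨hy₂, hy₂σ⟩, hy₂x⟩ := hx (ball x (min (ε / 2) (dist y₁ x)))
    (ball_mem_nhds _ (lt_min (by linarith) hd))
  have hne : y₁ ≠ y₂ := by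
    intro h
    rw [mem_ball, ← h] at hy₂
    exact lt_irrefl _ (lt_of_lt_of_le hy₂ (min_le_right _ _))
  have hclose : dist y₁ y₂ < ε := by
    have h2 : dist y₁ x < ε / 2 := hy₁
    have h3 : dist y₂ x < ε / 2 := lt_of_lt_of_le hy₂ (min_le_left _ _)
    calc dist y₁ y₂ ≤ dist y₁ x + dist y₂ x := dist_triangle_right _ _ _
      _ < ε := by linarith
  have hn1 := h1 y₁ hy₁σ
  have hn2 := h1 y₂ hy₂σ
  have hy₂0 : y₂ ≠ 0 := by
    intro h; rw [h, norm_zero] at hn2; exact zero_ne_one hn2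
  obtain ⟨η, hη⟩ : ∃ η : ℂ, η = y₁ / y₂ := ⟨_, rfl⟩
  have hηn : ‖η‖ = 1 := by rw [hη, norm_div, hn1, hn2, div_one]
  have hη1 : dist η 1 < ε := by
    have h2 : η - 1 = (y₁ - y₂) / y₂ := by rw [hη]; field_simp
    rw [dist_eq_norm, h2, norm_div, hn2, div_one, ← dist_eq_norm]
    exact hclose
  have hη1' : η ≠ 1 := by
    intro h
    apply hne
    rw [hη, div_eq_one_iff_eq hy₂0] at h
    exact h
  have harg := hεarg hη1
  rw [Complex.arg_one, dist_zero_right, Real.norm_eq_abs] at harg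
  have hexp : Complex.exp (Complex.arg η * Complex.I) = η := by
    have := Complex.norm_mul_exp_arg_mul_I η
    rwa [hηn, Complex.ofReal_one, one_mul] at this
  have harg0 : Complex.arg η ≠ 0 := by
    intro h
    rw [h] at hexp
    apply hη1'
    rw [← hexp]; simp
  obtain ⟨t, ht⟩ : ∃ t : ℝ, t = |Complex.arg η| := ⟨_, rfl⟩
  have ht0 : 0 < t := by rw [ht]; exact abs_pos.mpr harg0
  rw [← ht] at harg
  have hcos : ∀ n : ℕ, (η ^ n).re = Real.cos (n * t) := by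
    intro n
    rw [← hexp, ← Complex.exp_nat_mul]
    have h2 : (n : ℂ) * (Complex.arg η * Complex.I)
        = ((n * Complex.arg η : ℝ) : ℂ) * Complex.I := by push_cast; ring
    rw [h2, Complex.exp_ofReal_mul_I_re, ht]
    rcases abs_cases (Complex.arg η) with h | h
    · rw [h.1]
    · rw [h.1, mul_neg, Real.cos_neg]
  have hRe : ∀ n ∈ R, L ≤ n → -(1 / 2) < Real.cos (n * t) := by
    intro n hn hLn
    rw [← hcos n, hη, div_pow]
    apply re_div_gt
    · rw [norm_pow, hn1, one_pow]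
    · rw [norm_pow, hn2, one_pow]
    · exact hcon n hn hLn y₁ hy₁σ
    · exact hcon n hn hLn y₂ hy₂σ
  -- the choice of `N`
  obtain ⟨A, hA⟩ : ∃ A : ℝ, A = 2 * Real.pi / 3 + L * (2 * Real.pi) := ⟨_, rfl⟩
  have hA0 : 0 ≤ A := by rw [hA]; positivity
  obtain ⟨n, hn, hNn, hnN⟩ := hR ⌈A / t⌉₊
  have hc1 : A ≤ ⌈A / t⌉₊ * t := by
    have := Nat.le_ceil (A / t)
    rwa [div_le_iff₀ ht0] at this
  have hc2 : (⌈A / t⌉₊ : ℝ) * t < A + t := by
    have := Nat.ceil_lt_add_one (show 0 ≤ A / t by positivity)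
    have h2 : (⌈A / t⌉₊ : ℝ) * t < (A / t + 1) * t := mul_lt_mul_of_pos_right this ht0
    have h3 : (A / t + 1) * t = A + t := by field_simp
    linarith
  have hM0 : (0 : ℝ) ≤ M := Nat.cast_nonneg M
  have htM : t * (M + 1) < Real.pi / 3 := by
    rw [← hτM]
    exact mul_lt_mul_of_pos_right harg (by positivity)
  have hLt : L ≤ n := by
    have h2 : t < 2 * Real.pi := by nlinarith
    have h3 : (L : ℝ) * t ≤ ⌈A / t⌉₊ * t := by
      have : (L : ℝ) * t ≤ L * (2 * Real.pi) := mul_le_mul_of_nonneg_left h2.le (Nat.cast_nonneg L)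
      linarith
    have h4 : (L : ℝ) ≤ ⌈A / t⌉₊ := le_of_mul_le_mul_right h3 ht0
    have h5 : L ≤ ⌈A / t⌉₊ := by exact_mod_cast h4
    exact h5.trans hNn
  have h2 := hRe n hn hLt
  have hn1' : A ≤ n * t := by
    have h3 : (⌈A / t⌉₊ : ℝ) ≤ n := by exact_mod_cast hNn
    have h4 := mul_le_mul_of_nonneg_right h3 ht0.le
    linarith
  have hn2' : (n : ℝ) * t ≤ A + t * (M + 1) := by
    have h3 : (n : ℝ) ≤ ⌈A / t⌉₊ + M := by exact_mod_cast hnN
    have h4 := mul_le_mul_of_nonneg_right h3 ht0.le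
    nlinarith
  have h3 : Real.cos (n * t) = Real.cos (n * t - L * (2 * Real.pi)) :=
    (Real.cos_sub_nat_mul_two_pi _ _).symm
  have h4 : Real.cos (n * t - L * (2 * Real.pi)) ≤ Real.cos (2 * Real.pi / 3) := by
    apply Real.cos_le_cos_of_nonneg_of_le_pi
    · positivity
    · linarith
    · linarith
  have h5 : Real.cos (2 * Real.pi / 3) = -(1 / 2) := by
    have h6 : 2 * Real.pi / 3 = Real.pi - Real.pi / 3 := by ring
    rw [h6, Real.cos_pi_sub, Real.cos_pi_div_three]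
  rw [h3] at h2
  linarith

end WNH
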