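import Pool.Agent.WNH.Q0
import Pool.Agent.WNH.B0
import Pool.Agent.WNH.P5b

/-!
Row [WN-P5c]. Uses `quad_bounds` (Q0), `baire_avoid` (B0), `circle_comb` (P5b).
-/

namespace WNH
open Filter Topology Metric
universe u

namespace P5cAux

variable {X : Type u} [NormedAddCommGroup X] [NormedSpace ℂ X]

/-- Hahn–Banach on a plane. -/
theorem hb_plane (y u : X) (K : ℝ) (hK0 : 0 ≤ K)
    (hK : ∀ α β : ℂ, ‖α‖ + ‖β‖ ≤ K * ‖α • y + β • u‖) :
    ∃ φ : StrongDual ℂ X, φ y = 1 ∧ φ u = 0 ∧ ‖φ‖ ≤ K := by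
  let L : (ℂ × ℂ) →ₗ[ℂ] X :=
    (LinearMap.toSpanSingleton ℂ X y).coprod (LinearMap.toSpanSingleton ℂ X u)
  have hL : ∀ x : ℂ × ℂ, L x = x.1 • y + x.2 • u := by
    intro x
    simp [L, LinearMap.coprod_apply, LinearMap.toSpanSingleton_apply]
  have hinj : Function.Injective L := by
    rw [injective_iff_map_eq_zero]
    intro x hx
    have h1 := hK x.1 x.2
    rw [← hL, hx, norm_zero, mul_zero] at h1
    have h2 : ‖x.1‖ = 0 := by linarith [norm_nonneg x.1, norm_nonneg x.2]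
    have h3 : ‖x.2‖ = 0 := by linarith [norm_nonneg x.1, norm_nonneg x.2]
    ext
    · simpa using h2
    · simpa using h3
  let e := LinearEquiv.ofInjective L hinj
  let f₀ : (LinearMap.range L) →ₗ[ℂ] ℂ := (LinearMap.fst ℂ ℂ ℂ).comp e.symm.toLinearMap
  have hf₀ : ∀ x : LinearMap.range L, ‖f₀ x‖ ≤ K * ‖x‖ := by
    intro x
    obtain ⟨w, rfl⟩ := e.surjective x
    have h1 : f₀ (e w) = w.1 := by simp [f₀]
    have h2 : ‖e w‖ = ‖w.1 • y + w.2 • u‖ := by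
      rw [← hL w]; rfl
    rw [h1, h2]
    linarith [hK w.1 w.2, norm_nonneg w.2]
  obtain ⟨φ, hφ, hφn⟩ := exists_extension_norm_eq (LinearMap.range L) (f₀.mkContinuous K hf₀)
  have hval : ∀ w : ℂ × ℂ, φ (w.1 • y + w.2 • u) = w.1 := by
    intro w
    have h1 := hφ (e w)
    have h2 : ((e w : LinearMap.range L) : X) = w.1 • y + w.2 • u := by
      rw [← hL w]; rfl
    rw [h2] at h1
    rw [h1]
    simp [f₀]
  refine ⟨φ, ?_, ?_, ?_⟩
  · have := hval (1, 0); simpa using this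
  · have := hval (0, 1); simpa using this
  · rw [hφn]
    exact LinearMap.mkContinuous_norm_le _ hK0 _

/-- positive distance to the eigenvector equation. -/
theorem kappa_exists (Q : X →L[ℂ] X) (y : X) (hy : ∀ ζ : ℂ, ‖ζ‖ = 1 → Q y ≠ ζ • y) :
    ∃ κ : ℝ, 0 < κ ∧ ∀ ζ : ℂ, ‖ζ‖ = 1 → κ ≤ ‖Q y - ζ • y‖ := by
  have hc : IsCompact (sphere (0 : ℂ) 1) := isCompact_sphere 0 1
  have hne : (sphere (0 : ℂ) 1).Nonempty := ⟨1, by simp⟩
  have hcont : ContinuousOn (fun ζ : ℂ => ‖Q y - ζ • y‖) (sphere (0 : ℂ) 1) := by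
    apply Continuous.continuousOn
    fun_prop
  obtain ⟨ζ₀, hζ₀, hmin⟩ := hc.exists_isMinOn hne hcont
  refine ⟨‖Q y - ζ₀ • y‖, ?_, ?_⟩
  · rw [norm_pos_iff, sub_ne_zero]
    exact hy ζ₀ (by simpa using hζ₀)
  · intro ζ hζ
    exact hmin (by simpa using hζ)

/-- a vector that is almost an eigenvector of `Q` is almost an eigenvector of `Q ^ n`. -/
theorem pow_almost (Q : X →L[ℂ] X) (n : ℕ) : ∃ C : ℝ, 0 ≤ C ∧ ∀ (u : X) (ζ : ℂ), ‖ζ‖ = 1 →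
    ‖(Q ^ n) u - ζ ^ n • u‖ ≤ C * ‖Q u - ζ • u‖ := by
  induction n with
  | zero => exact ⟨0, le_rfl, fun u ζ _ => by simp⟩
  | succ n ih =>
    obtain ⟨C, hC, h⟩ := ih
    refine ⟨‖Q ^ n‖ + C, by positivity, ?_⟩
    intro u ζ hζ
    have h1 : (Q ^ (n + 1)) u - ζ ^ (n + 1) • u
        = (Q ^ n) (Q u - ζ • u) + ζ • ((Q ^ n) u - ζ ^ n • u) := by
      have h2 : (Q ^ (n + 1)) u = (Q ^ n) (Q u) := by
        rw [pow_succ]; rfl
      rw [h2, map_sub, map_smul, smul_sub, smul_smul, ← pow_succ']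
      abel
    rw [h1]
    calc ‖(Q ^ n) (Q u - ζ • u) + ζ • ((Q ^ n) u - ζ ^ n • u)‖
        ≤ ‖(Q ^ n) (Q u - ζ • u)‖ + ‖ζ • ((Q ^ n) u - ζ ^ n • u)‖ := norm_add_le _ _
      _ ≤ ‖Q ^ n‖ * ‖Q u - ζ • u‖ + C * ‖Q u - ζ • u‖ := by
          apply add_le_add
          · exact (Q ^ n).le_opNorm _
          · rw [norm_smul, hζ, one_mul]; exact h u ζ hζ
      _ = (‖Q ^ n‖ + C) * ‖Q u - ζ • u‖ := by ring

/-- the two vectors `y` and `u` are uniformly independent. -/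
theorem indep_bound (Q : X →L[ℂ] X) (y : X) (κ : ℝ) (hκ : 0 < κ)
    (hy : ∀ ζ : ℂ, ‖ζ‖ = 1 → κ ≤ ‖Q y - ζ • y‖) :
    ∃ η₀ K : ℝ, 0 < η₀ ∧ 1 ≤ K ∧ ∀ (u : X) (ζ : ℂ), ‖u‖ = 1 → ‖ζ‖ = 1 → ‖Q u - ζ • u‖ < η₀ →
      ∀ α β : ℂ, ‖α‖ + ‖β‖ ≤ K * ‖α • y + β • u‖ := by
  have hY : 0 ≤ ‖y‖ := norm_nonneg y
  have hq : 0 ≤ ‖Q‖ := norm_nonneg Q
  set η₀ : ℝ := κ / (2 * (‖y‖ + 1)) with hη₀
  have hη₀p : 0 < η₀ := by positivity
  have hη₀Y : η₀ * ‖y‖ ≤ κ / 2 := by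
    rw [hη₀, div_mul_eq_mul_div, div_le_div_iff₀ (by positivity) (by positivity)]
    nlinarith
  set A : ℝ := 2 * (‖Q‖ + 1 + η₀) / κ with hA
  have hAp : 0 ≤ A := by positivity
  refine ⟨η₀, 1 + A + A * ‖y‖, hη₀p, by nlinarith [mul_nonneg hAp hY], ?_⟩
  intro u ζ hu hζ hn α β
  set N : ℝ := ‖α • y + β • u‖ with hN
  have hN0 : 0 ≤ N := norm_nonneg _
  have h1 : ‖α‖ * κ ≤ (‖Q‖ + 1) * N + ‖β‖ * η₀ := by
    have h2 : α • (Q y - ζ • y) = (Q (α • y + β • u) - ζ • (α • y + β • u))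
        - β • (Q u - ζ • u) := by
      rw [map_add, map_smul, map_smul, smul_add, smul_sub, smul_sub, smul_comm ζ α,
        smul_comm ζ β]
      abel
    calc ‖α‖ * κ ≤ ‖α‖ * ‖Q y - ζ • y‖ := mul_le_mul_of_nonneg_left (hy ζ hζ) (norm_nonneg _)
      _ = ‖α • (Q y - ζ • y)‖ := (norm_smul _ _).symm
      _ = ‖(Q (α • y + β • u) - ζ • (α • y + β • u)) - β • (Q u - ζ • u)‖ := by rw [h2]
      _ ≤ ‖Q (α • y + β • u) - ζ • (α • y + β • u)‖ + ‖β • (Q u - ζ • u)‖ := norm_sub_le _ _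
      _ ≤ (‖Q‖ * N + N) + ‖β‖ * η₀ := by
          apply add_le_add
          · refine (norm_sub_le _ _).trans ?_
            apply add_le_add (Q.le_opNorm _)
            rw [norm_smul, hζ, one_mul]
          · rw [norm_smul]
            exact mul_le_mul_of_nonneg_left hn.le (norm_nonneg _)
      _ = (‖Q‖ + 1) * N + ‖β‖ * η₀ := by ring
  have h3 : ‖β‖ ≤ N + ‖α‖ * ‖y‖ := by
    have h4 : β • u = (α • y + β • u) - α • y := by abel
    calc ‖β‖ = ‖β • u‖ := by rw [norm_smul, hu, mul_one]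
      _ = ‖(α • y + β • u) - α • y‖ := by rw [← h4]
      _ ≤ N + ‖α • y‖ := norm_sub_le _ _
      _ = N + ‖α‖ * ‖y‖ := by rw [norm_smul]
  have hα : 0 ≤ ‖α‖ := norm_nonneg α
  have h5 : ‖α‖ * (κ / 2) ≤ (‖Q‖ + 1 + η₀) * N := by
    have h6 : ‖β‖ * η₀ ≤ (N + ‖α‖ * ‖y‖) * η₀ := mul_le_mul_of_nonneg_right h3 hη₀p.le
    have h7 : ‖α‖ * (η₀ * ‖y‖) ≤ ‖α‖ * (κ / 2) := mul_le_mul_of_nonneg_left hη₀Y hα
    nlinarith
  have h6 : ‖α‖ ≤ A * N := by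
    rw [hA, div_mul_eq_mul_div, le_div_iff₀ hκ]
    linarith
  have h7 : ‖α‖ * ‖y‖ ≤ A * N * ‖y‖ := mul_le_mul_of_nonneg_right h6 hY
  calc ‖α‖ + ‖β‖ ≤ A * N + (N + A * N * ‖y‖) := by linarith
    _ = (1 + A + A * ‖y‖) * N := by ring

end P5cAux

open P5cAux

variable {X : Type u} [NormedAddCommGroup X] [NormedSpace ℂ X] [CompleteSpace X]

theorem W_of_infinite_spectrum (Q : X →L[ℂ] X)
    (hrec : ∀ (y : X) (δ : ℝ), 0 < δ →
      ∃ M : ℕ, ∀ N : ℕ, ∃ n : ℕ, N ≤ n ∧ n ≤ N + M ∧ ‖(Q ^ n) y - y‖ < δ)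
    (hsp : ∀ ζ ∈ spectrum ℂ Q, ‖ζ‖ = 1)
    (hap : ∀ ζ ∈ spectrum ℂ Q, ∀ η : ℝ, 0 < η → ∃ u : X, ‖u‖ = 1 ∧ ‖Q u - ζ • u‖ < η)
    (hinf : (spectrum ℂ Q).Infinite) (ρ : ℝ) (hρ : 1 < ρ) : W ((ρ : ℂ) • Q) := by
  by_contra hW
  have hρ0 : 0 < ρ := by linarith
  have hpow : ∀ (n : ℕ) (x : X) (f : StrongDual ℂ X),
      f ((((ρ : ℂ) • Q) ^ n) x) = (ρ : ℂ) ^ n * f ((Q ^ n) x) := by
    intro n x f
    rw [smul_pow, ContinuousLinearMap.smul_apply, map_smul, smul_eq_mul]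
  -- the Baire space
  let ZZ : Set (X × StrongDual ℂ X) := {z | z.2 z.1 = 0}
  have hZc : IsClosed ZZ := by
    apply isClosed_eq
    · fun_prop
    · fun_prop
  haveI : CompleteSpace ZZ := hZc.completeSpace_coe
  let F : ℕ → ZZ → ℂ := fun n z => (ρ : ℂ) ^ n * z.1.2 ((Q ^ n) z.1.1)
  have hF : ∀ n, Continuous (F n) := by
    intro n
    simp only [F]
    fun_prop
  let U : Set ZZ := {z | ∀ ζ : ℂ, ‖ζ‖ = 1 → Q z.1.1 ≠ ζ • z.1.1}
  have hU : IsOpen U := by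
    rw [Metric.isOpen_iff]
    intro z hz
    obtain ⟨κ, hκ, hκz⟩ := kappa_exists Q z.1.1 hz
    refine ⟨κ / (‖Q‖ + 1), by positivity, ?_⟩
    intro w hw ζ hζ heq
    have h1 : ‖w.1.1 - z.1.1‖ < κ / (‖Q‖ + 1) := by
      have h2 : dist w z < κ / (‖Q‖ + 1) := hw
      have h3 : dist w z = dist w.1 z.1 := rfl
      rw [h3, Prod.dist_eq] at h2
      rw [← dist_eq_norm]
      exact lt_of_le_of_lt (le_max_left _ _) h2
    have h2 : Q z.1.1 - ζ • z.1.1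
        = -(Q (w.1.1 - z.1.1)) + ζ • (w.1.1 - z.1.1) := by
      rw [map_sub, smul_sub, heq]; abel
    have h3 := hκz ζ hζ
    rw [h2] at h3
    have h4 : ‖-(Q (w.1.1 - z.1.1)) + ζ • (w.1.1 - z.1.1)‖
        ≤ (‖Q‖ + 1) * ‖w.1.1 - z.1.1‖ := by
      refine (norm_add_le _ _).trans ?_
      rw [norm_neg, norm_smul, hζ, one_mul]
      have := Q.le_opNorm (w.1.1 - z.1.1)
      linarith
    have h5 : 0 < ‖Q‖ + 1 := by positivity
    rw [lt_div_iff₀ h5] at h1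
    linarith [mul_comm ‖w.1.1 - z.1.1‖ (‖Q‖ + 1)]
  have hne : U.Nonempty := by
    by_contra hemp
    have hall : ∀ y : X, ∃ ζ : ℂ, ‖ζ‖ = 1 ∧ Q y = ζ • y := by
      intro y
      by_contra hcon
      push Not at hcon
      apply hemp
      exact ⟨⟨(y, 0), by simp [ZZ]⟩, hcon⟩
    obtain ⟨ζ₁, hζ₁⟩ := hinf.nonempty
    obtain ⟨ζ₂, hζ₂, hne12⟩ : ∃ ζ₂ ∈ spectrum ℂ Q, ζ₂ ≠ ζ₁ := by
      by_contra hcon
      push Not at hcon
      exact hinf ((Set.finite_singleton ζ₁).subset (fun x hx => hcon x hx))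
    have hd : 0 < ‖ζ₂ - ζ₁‖ / 2 := by
      have : 0 < ‖ζ₂ - ζ₁‖ := norm_pos_iff.mpr (sub_ne_zero.mpr hne12)
      linarith
    obtain ⟨u₁, hu₁, hu₁'⟩ := hap ζ₁ hζ₁ _ hd
    obtain ⟨u₂, hu₂, hu₂'⟩ := hap ζ₂ hζ₂ _ hd
    obtain ⟨α, -, hα⟩ := hall u₁
    obtain ⟨β, -, hβ⟩ := hall u₂
    obtain ⟨γ, -, hγ⟩ := hall (u₁ + u₂)
    rw [hα, ← sub_smul, norm_smul, hu₁, mul_one] at hu₁'
    rw [hβ, ← sub_smul, norm_smul, hu₂, mul_one] at hu₂'
    have hαβ : α ≠ β := by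
      intro h
      subst h
      have h1 : ζ₂ - ζ₁ = (α - ζ₁) - (α - ζ₂) := by ring
      have h2 : ‖ζ₂ - ζ₁‖ ≤ ‖α - ζ₁‖ + ‖α - ζ₂‖ := by rw [h1]; exact norm_sub_le _ _
      linarith
    have hrel : (α - γ) • u₁ + (β - γ) • u₂ = 0 := by
      rw [map_add, hα, hβ, smul_add] at hγ
      rw [sub_smul, sub_smul]
      have : α • u₁ + β • u₂ - (γ • u₁ + γ • u₂) = 0 := sub_eq_zero.mpr hγ
      rw [← this]; abel
    have hrel2 : ((α - γ) * α) • u₁ + ((β - γ) * β) • u₂ = 0 := by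
      have h1 : Q ((α - γ) • u₁ + (β - γ) • u₂) = 0 := by rw [hrel, map_zero]
      rw [map_add, map_smul, map_smul, hα, hβ, smul_smul, smul_smul] at h1
      exact h1
    have hu₁0 : u₁ ≠ 0 := by
      intro h; rw [h, norm_zero] at hu₁; exact zero_ne_one hu₁
    have hu₂0 : u₂ ≠ 0 := by
      intro h; rw [h, norm_zero] at hu₂; exact zero_ne_one hu₂
    have h3 : ((α - γ) * (α - β)) • u₁ = 0 := by
      have h4 : ((α - γ) * (α - β)) • u₁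
          = (((α - γ) * α) • u₁ + ((β - γ) * β) • u₂) - β • ((α - γ) • u₁ + (β - γ) • u₂) := by
        module
      rw [h4, hrel, hrel2, smul_zero, sub_zero]
    have h4 : ((β - γ) * (β - α)) • u₂ = 0 := by
      have h5 : ((β - γ) * (β - α)) • u₂
          = (((α - γ) * α) • u₁ + ((β - γ) * β) • u₂) - α • ((α - γ) • u₁ + (β - γ) • u₂) := by
        module
      rw [h5, hrel, hrel2, smul_zero, sub_zero]
    have h5 : α - γ = 0 := by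
      have := (smul_eq_zero.mp h3).resolve_right hu₁0
      exact (mul_eq_zero.mp this).resolve_right (sub_ne_zero.mpr hαβ)
    have h6 : β - γ = 0 := by
      have := (smul_eq_zero.mp h4).resolve_right hu₂0
      exact (mul_eq_zero.mp this).resolve_right (sub_ne_zero.mpr hαβ.symm)
    exact hαβ ((sub_eq_zero.mp h5).trans (sub_eq_zero.mp h6).symm)
  obtain ⟨v, δ, hδ, O, hOo, ⟨z₀, hz₀⟩, hOU, hO⟩ := baire_avoid F hF U hU hne (by
    intro z _ hd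
    apply hW
    refine ⟨z.1.1, z.1.2, ?_⟩
    have h1 : (fun n : ℕ => z.1.2 ((((ρ : ℂ) • Q) ^ n) z.1.1)) = fun n => F n z := by
      funext n
      exact hpow n _ _
    rw [h1]
    exact hd)
  obtain ⟨ε₀, hε₀, hball⟩ := Metric.isOpen_iff.mp hOo z₀ hz₀
  obtain ⟨⟨y, g⟩, hgy⟩ := z₀
  have hgy0 : g y = 0 := hgy
  have hyU : ∀ ζ : ℂ, ‖ζ‖ = 1 → Q y ≠ ζ • y := hOU hz₀
  have hkey : ∀ (y' : X) (g' : StrongDual ℂ X), g' y' = 0 → ‖y' - y‖ < ε₀ → ‖g' - g‖ < ε₀ →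
      ∀ n : ℕ, (ρ : ℂ) ^ n * g' ((Q ^ n) y') - v ≠ 0 := by
    intro y' g' h1 h2 h3 n h4
    have h5 : (⟨(y', g'), h1⟩ : ZZ) ∈ O := by
      apply hball
      rw [mem_ball]
      change dist (y', g') (y, g) < ε₀
      rw [Prod.dist_eq]
      apply max_lt
      · rw [dist_eq_norm]; exact h2
      · rw [dist_eq_norm]; exact h3
    have h6 := hO _ h5 n
    have h7 : F n ⟨(y', g'), h1⟩ - v = 0 := h4
    rw [h7, norm_zero] at h6
    linarith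
  obtain ⟨κ, hκ, hκy⟩ := kappa_exists Q y hyU
  obtain ⟨η₀, K, hη₀, hK1, hind⟩ := indep_bound Q y κ hκ hκy
  -- the parameters
  obtain ⟨ε, hε, hε0, hε1⟩ : ∃ ε : ℝ, 0 < ε ∧ ε ≤ ε₀ ∧ ε ≤ 1 :=
    ⟨min ε₀ 1, lt_min hε₀ one_pos, min_le_left _ _, min_le_right _ _⟩
  have hK0 : 0 < K := by linarith
  obtain ⟨G, hG⟩ : ∃ G : ℝ, G = ‖g‖ + 1 := ⟨_, rfl⟩
  have hG1 : 1 ≤ G := by rw [hG]; linarith [norm_nonneg g]
  have hG0 : 0 < G := by linarith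
  obtain ⟨θ, hθ⟩ : ∃ θ : ℝ, θ = ε / (8 * K) := ⟨_, rfl⟩
  have hθ0 : 0 < θ := by rw [hθ]; positivity
  have hθK : θ * K = ε / 8 := by rw [hθ]; field_simp
  obtain ⟨s₀, hs₀⟩ : ∃ s₀ : ℝ, s₀ = ε / (8 * G * K) := ⟨_, rfl⟩
  have hs₀0 : 0 < s₀ := by rw [hs₀]; positivity
  have hs₀K : s₀ * (G * K) = ε / 8 := by rw [hs₀]; field_simp
  have hGK : 1 ≤ G * K := by nlinarith
  have hs₀ε : s₀ ≤ ε / 8 := by
    rw [← hs₀K]; nlinarith
  obtain ⟨δ', hδ'⟩ : ∃ δ' : ℝ, δ' = s₀ * θ / (4 * (G + 1) * (K + 1)) := ⟨_, rfl⟩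
  have hδ'0 : 0 < δ' := by rw [hδ']; positivity
  have hδ'1 : δ' * (4 * (G + 1) * (K + 1)) = s₀ * θ := by rw [hδ']; field_simp
  -- the time and the approximate eigenvector
  obtain ⟨M, hM⟩ := hrec y δ' hδ'0
  obtain ⟨L, hL⟩ : ∃ L : ℕ, ‖v‖ / δ' < ρ ^ L := pow_unbounded_of_one_lt _ hρ
  obtain ⟨n, hnR, hLn, ζ, hζ, hζn⟩ := circle_comb (spectrum ℂ Q) hinf hsp
    {n | ‖(Q ^ n) y - y‖ < δ'} M (by
      intro N
      obtain ⟨n, h1, h2, h3⟩ := hM N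
      exact ⟨n, h3, h1, h2⟩) L
  have hnR' : ‖(Q ^ n) y - y‖ < δ' := hnR
  have hζ1 := hsp ζ hζ
  obtain ⟨Cn, hCn, hCn'⟩ := pow_almost Q n
  obtain ⟨u, hu, hu'⟩ := hap ζ hζ (min η₀ (δ' / (Cn + 1)))
    (lt_min hη₀ (by positivity))
  have hu1 : ‖Q u - ζ • u‖ < η₀ := lt_of_lt_of_le hu' (min_le_left _ _)
  have hu2 : ‖Q u - ζ • u‖ < δ' / (Cn + 1) := lt_of_lt_of_le hu' (min_le_right _ _)
  have hEu : ‖(Q ^ n) u - ζ ^ n • u‖ ≤ δ' := by
    refine (hCn' u ζ hζ1).trans ?_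
    rw [lt_div_iff₀ (by positivity)] at hu2
    nlinarith [norm_nonneg (Q u - ζ • u)]
  have hind' := hind u ζ hu hζ1 hu1
  obtain ⟨φy, hφyy, hφyu, hφyn⟩ := hb_plane y u K hK0.le hind'
  obtain ⟨φu, hφuu, hφuy, hφun⟩ := hb_plane u y K hK0.le (by
    intro α β
    have := hind' β α
    rw [add_comm (α • u)]
    linarith)
  -- `v / ρ ^ n` is small
  have hvn : ‖v / (ρ : ℂ) ^ n‖ ≤ δ' := by
    rw [norm_div, norm_pow, Complex.norm_real, Real.norm_eq_abs, abs_of_pos hρ0]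
    rw [div_lt_iff₀ hδ'0] at hL
    have h1 : ρ ^ L ≤ ρ ^ n := pow_le_pow_right₀ hρ.le hLn
    rw [div_le_iff₀ (by positivity)]
    nlinarith
  -- the correction `β`
  obtain ⟨β, hβ, hγ⟩ : ∃ β : ℂ, ‖β‖ ≤ 2 * θ ∧ θ ≤ ‖g u + β‖ := by
    by_cases h : θ ≤ ‖g u‖
    · exact ⟨0, by simp [hθ0.le], by simpa using h⟩
    · push Not at h
      refine ⟨((2 * θ : ℝ) : ℂ), ?_, ?_⟩
      · rw [Complex.norm_real, Real.norm_eq_abs, abs_of_pos (by linarith)]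
      · have h1 : ‖((2 * θ : ℝ) : ℂ)‖ = 2 * θ := by
          rw [Complex.norm_real, Real.norm_eq_abs, abs_of_pos (by linarith)]
        have h2 : ((2 * θ : ℝ) : ℂ) = (g u + ((2 * θ : ℝ) : ℂ)) - g u := by ring
        have h3 : 2 * θ ≤ ‖g u + ((2 * θ : ℝ) : ℂ)‖ + ‖g u‖ := by
          calc 2 * θ = ‖((2 * θ : ℝ) : ℂ)‖ := h1.symm
            _ = ‖(g u + ((2 * θ : ℝ) : ℂ)) - g u‖ := by rw [← h2]
            _ ≤ _ := norm_sub_le _ _
        linarith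
  obtain ⟨γ, hγdef⟩ : ∃ γ : ℂ, γ = g u + β := ⟨_, rfl⟩
  rw [← hγdef] at hγ
  have hθ8 : 2 * θ ≤ 1 / 4 := by
    have : θ ≤ θ * K := by nlinarith
    linarith
  have hγG : ‖γ‖ ≤ G := by
    rw [hγdef, hG]
    have h1 : ‖g u‖ ≤ ‖g‖ := by
      have := g.le_opNorm u
      rwa [hu, mul_one] at this
    calc ‖g u + β‖ ≤ ‖g u‖ + ‖β‖ := norm_add_le _ _
      _ ≤ ‖g‖ + 1 := by linarith
  have hβK : ‖β‖ * K ≤ ε / 4 := by
    calc ‖β‖ * K ≤ 2 * θ * K := mul_le_mul_of_nonneg_right hβ hK0.le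
      _ = ε / 4 := by linarith
  have hg'n : ‖g + β • φu‖ ≤ G := by
    calc ‖g + β • φu‖ ≤ ‖g‖ + ‖β • φu‖ := norm_add_le _ _
      _ = ‖g‖ + ‖β‖ * ‖φu‖ := by rw [norm_smul]
      _ ≤ ‖g‖ + ‖β‖ * K := by
          have := mul_le_mul_of_nonneg_left hφun (norm_nonneg β)
          linarith
      _ ≤ G := by rw [hG]; linarith
  obtain ⟨D, hD⟩ : ∃ D : X, D = (Q ^ n) y - y := ⟨_, rfl⟩
  obtain ⟨Eu, hEudef⟩ : ∃ Eu : X, Eu = (Q ^ n) u - ζ ^ n • u := ⟨_, rfl⟩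
  rw [← hD] at hnR'
  rw [← hEudef] at hEu
  -- the quadratic polynomial
  have hquad := quad_bounds ((g + β • φu) D - v / (ρ : ℂ) ^ n)
    ((s₀ : ℂ) * ((ζ ^ n - 1) * γ - γ * φy D + (g + β • φu) Eu))
    (-((s₀ : ℂ) ^ 2 * (γ * φy Eu))) (by
      intro s hs h0
      refine hkey (y + ((s₀ : ℂ) * s) • u) (g - (((s₀ : ℂ) * s) * γ) • φy + β • φu) ?_ ?_ ?_ n ?_
      · simp only [map_add, map_smul, ContinuousLinearMap.add_apply, ContinuousLinearMap.sub_apply,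
          ContinuousLinearMap.smul_apply, smul_eq_mul, hgy0, hφyy, hφyu, hφuu, hφuy]
        rw [hγdef]
        ring
      · have h1 : y + ((s₀ : ℂ) * s) • u - y = ((s₀ : ℂ) * s) • u := by abel
        rw [h1, norm_smul, hu, mul_one, norm_mul, Complex.norm_real, Real.norm_eq_abs,
          abs_of_pos hs₀0]
        have h2 : s₀ * ‖s‖ ≤ s₀ * 1 := mul_le_mul_of_nonneg_left hs hs₀0.le
        linarith
      · have h1 : g - (((s₀ : ℂ) * s) * γ) • φy + β • φu - g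
            = β • φu - (((s₀ : ℂ) * s) * γ) • φy := by abel
        rw [h1]
        have h2 : ‖(((s₀ : ℂ) * s) * γ) • φy‖ ≤ s₀ * (G * K) := by
          rw [norm_smul, norm_mul, norm_mul, Complex.norm_real, Real.norm_eq_abs,
            abs_of_pos hs₀0]
          have h3 : s₀ * ‖s‖ ≤ s₀ := by
            have := mul_le_mul_of_nonneg_left hs hs₀0.le
            linarith
          calc s₀ * ‖s‖ * ‖γ‖ * ‖φy‖ ≤ s₀ * G * K := by
                apply mul_le_mul _ hφyn (norm_nonneg _) (by positivity)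
                exact mul_le_mul h3 hγG (norm_nonneg _) hs₀0.le
            _ = s₀ * (G * K) := by ring
        have h3 : ‖β • φu‖ ≤ ε / 4 := by
          rw [norm_smul]
          exact (mul_le_mul_of_nonneg_left hφun (norm_nonneg β)).trans hβK
        have h4 := norm_sub_le (β • φu) ((((s₀ : ℂ) * s) * γ) • φy)
        linarith
      · have hQy : (Q ^ n) y = y + D := by rw [hD]; abel
        have hQu : (Q ^ n) u = ζ ^ n • u + Eu := by rw [hEudef]; abel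
        have hρn : (ρ : ℂ) ^ n ≠ 0 := by
          apply pow_ne_zero
          exact_mod_cast hρ0.ne'
        have h1 : (g - (((s₀ : ℂ) * s) * γ) • φy + β • φu)
            ((Q ^ n) (y + ((s₀ : ℂ) * s) • u)) = v / (ρ : ℂ) ^ n := by
          have h2 : (g - (((s₀ : ℂ) * s) * γ) • φy + β • φu)
            ((Q ^ n) (y + ((s₀ : ℂ) * s) • u)) - v / (ρ : ℂ) ^ n = 0 := by
            rw [← h0]
            simp only [map_add, map_smul, ContinuousLinearMap.add_apply,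
              ContinuousLinearMap.sub_apply,
              ContinuousLinearMap.smul_apply, smul_eq_mul, hQy, hQu, hgy0, hφyy, hφyu, hφuu, hφuy]
            rw [hγdef]
            ring
          exact sub_eq_zero.mp h2
        rw [h1]
        field_simp
        ring)
  have hb := hquad.2
  have hφyD : ‖φy D‖ ≤ K * δ' := by
    refine (φy.le_opNorm D).trans ?_
    exact mul_le_mul hφyn hnR'.le (norm_nonneg _) hK0.le
  have hg'D : ‖(g + β • φu) D‖ ≤ G * δ' := by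
    refine ((g + β • φu).le_opNorm D).trans ?_
    exact mul_le_mul hg'n hnR'.le (norm_nonneg _) hG0.le
  have hg'E : ‖(g + β • φu) Eu‖ ≤ G * δ' := by
    refine ((g + β • φu).le_opNorm Eu).trans ?_
    exact mul_le_mul hg'n hEu (norm_nonneg _) hG0.le
  have ha : ‖(g + β • φu) D - v / (ρ : ℂ) ^ n‖ ≤ G * δ' + δ' := by
    refine (norm_sub_le _ _).trans ?_
    linarith
  have hb2 : s₀ * (θ - G * K * δ' - G * δ') ≤
      ‖(s₀ : ℂ) * ((ζ ^ n - 1) * γ - γ * φy D + (g + β • φu) Eu)‖ := by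
    rw [norm_mul, Complex.norm_real, Real.norm_eq_abs, abs_of_pos hs₀0]
    apply mul_le_mul_of_nonneg_left _ hs₀0.le
    have h1 : (ζ ^ n - 1) * γ = ((ζ ^ n - 1) * γ - γ * φy D + (g + β • φu) Eu)
        + γ * φy D - (g + β • φu) Eu := by ring
    have h2 : ‖(ζ ^ n - 1) * γ‖ ≤ ‖(ζ ^ n - 1) * γ - γ * φy D + (g + β • φu) Eu‖
        + ‖γ * φy D‖ + ‖(g + β • φu) Eu‖ := by
      calc ‖(ζ ^ n - 1) * γ‖ = ‖((ζ ^ n - 1) * γ - γ * φy D + (g + β • φu) Eu)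
        + γ * φy D - (g + β • φu) Eu‖ := by rw [← h1]
        _ ≤ ‖((ζ ^ n - 1) * γ - γ * φy D + (g + β • φu) Eu) + γ * φy D‖
            + ‖(g + β • φu) Eu‖ := norm_sub_le _ _
        _ ≤ _ := by
            have := norm_add_le ((ζ ^ n - 1) * γ - γ * φy D + (g + β • φu) Eu) (γ * φy D)
            linarith
    have h3 : θ ≤ ‖(ζ ^ n - 1) * γ‖ := by
      rw [norm_mul]
      nlinarith [norm_nonneg γ]
    have h4 : ‖γ * φy D‖ ≤ G * K * δ' := by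
      rw [norm_mul]
      calc ‖γ‖ * ‖φy D‖ ≤ G * (K * δ') := mul_le_mul hγG hφyD (norm_nonneg _) hG0.le
        _ = G * K * δ' := by ring
    linarith
  have hfin : s₀ * (θ - G * K * δ' - G * δ') ≤ 2 * (G * δ' + δ') := by
    calc _ ≤ _ := hb2
      _ ≤ _ := hb
      _ ≤ 2 * (G * δ' + δ') := by linarith
  have hs1 : s₀ ≤ 1 := by linarith
  have h1 : s₀ * (G * K * δ' + G * δ') ≤ 1 * (G * K * δ' + G * δ') :=
    mul_le_mul_of_nonneg_right hs1 (by positivity)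
  have h2 : 0 < δ' * (G * K) := by positivity
  have h3 : 0 < δ' * G := by positivity
  have h4 : 0 < δ' * K := by positivity
  nlinarith

end WNH
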