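import Pool.Agent.WNH.Defs

/-!
Row [WN-P6a]. Local bound of a resolvent-like function at an isolated singularity on the circle.
-/

namespace WNH
open Filter Topology Metric

namespace P6aAux

/-- the kernel polynomial `w ^ 2 + p ^ 2 w + p ^ 2` -/
noncomputable def kp (p : ℝ) (w : ℂ) : ℂ := w ^ 2 + (p : ℂ) ^ 2 * w + (p : ℂ) ^ 2

theorem kp_norm_le (p : ℝ) (w : ℂ) : ‖kp p w‖ ≤ ‖w‖ ^ 2 + p ^ 2 * ‖w‖ + p ^ 2 := by
  unfold kp
  have h1 : ‖w ^ 2 + (p : ℂ) ^ 2 * w + (p : ℂ) ^ 2‖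
      ≤ ‖w ^ 2‖ + ‖(p : ℂ) ^ 2 * w‖ + ‖(p : ℂ) ^ 2‖ := norm_add₃_le
  have h2 : ‖w ^ 2‖ = ‖w‖ ^ 2 := norm_pow _ _
  have h3 : ‖(p : ℂ) ^ 2‖ = p ^ 2 := by
    rw [norm_pow, Complex.norm_real, Real.norm_eq_abs, sq_abs]
  have h4 : ‖(p : ℂ) ^ 2 * w‖ = p ^ 2 * ‖w‖ := by rw [norm_mul, h3]
  rw [h2, h3, h4] at h1
  exact h1

theorem kp_norm_ge (p : ℝ) (w : ℂ) : p ^ 2 - ‖w‖ ^ 2 - p ^ 2 * ‖w‖ ≤ ‖kp p w‖ := by
  have h3 : ‖(p : ℂ) ^ 2‖ = p ^ 2 := by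
    rw [norm_pow, Complex.norm_real, Real.norm_eq_abs, sq_abs]
  have h4 : ‖(p : ℂ) ^ 2 * w‖ = p ^ 2 * ‖w‖ := by rw [norm_mul, h3]
  have h5 : (p : ℂ) ^ 2 = kp p w - (w ^ 2) - (p : ℂ) ^ 2 * w := by unfold kp; ring
  have h6 : ‖(p : ℂ) ^ 2‖ ≤ ‖kp p w‖ + ‖w ^ 2‖ + ‖(p : ℂ) ^ 2 * w‖ := by
    calc ‖(p : ℂ) ^ 2‖ = ‖kp p w - (w ^ 2) - (p : ℂ) ^ 2 * w‖ := by rw [← h5]
      _ ≤ ‖kp p w - (w ^ 2)‖ + ‖(p : ℂ) ^ 2 * w‖ := norm_sub_le _ _
      _ ≤ ‖kp p w‖ + ‖w ^ 2‖ + ‖(p : ℂ) ^ 2 * w‖ := by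
          have := norm_sub_le (kp p w) (w ^ 2)
          linarith
  rw [h3, h4, norm_pow] at h6
  linarith

theorem kp_norm_eq (p : ℝ) (w : ℂ) (hw : ‖w‖ = p) :
    ‖kp p w‖ = p * |‖1 + w‖ ^ 2 - 1| := by
  have h1 : (‖1 + w‖ ^ 2 - 1 : ℝ) = 2 * w.re + p ^ 2 := by
    rw [← hw, ← Complex.normSq_eq_norm_sq, ← Complex.normSq_eq_norm_sq, Complex.normSq_apply,
      Complex.normSq_apply]
    simp
    ring
  have h2 : w * (starRingEnd ℂ) w = (p : ℂ) ^ 2 := by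
    rw [Complex.mul_conj, Complex.normSq_eq_norm_sq, hw]; push_cast; ring
  have h3 : kp p w = w * ((2 * w.re + p ^ 2 : ℝ) : ℂ) := by
    have h4 : ((2 * w.re : ℝ) : ℂ) = w + (starRingEnd ℂ) w := by
      rw [Complex.add_conj]
    push_cast at h4 ⊢
    rw [h4]
    unfold kp
    linear_combination -h2
  rw [h3, norm_mul, hw, Complex.norm_real, Real.norm_eq_abs, h1]

end P6aAux

open P6aAux

theorem local_pole_bound {E : Type*} [NormedAddCommGroup E] [NormedSpace ℂ E] (R : ℂ → E) (ζ : ℂ)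
    (hζ : ‖ζ‖ = 1) (r C : ℝ) (hr : 0 < r)
    (hR : DifferentiableOn ℂ R (ball ζ r \ {ζ}))
    (hb : ∀ z ∈ ball ζ r \ {ζ}, ‖z‖ ≠ 1 → ‖R z‖ ≤ C / |‖z‖ - 1|) :
    ∃ r' C' : ℝ, 0 < r' ∧ ∀ z ∈ ball ζ r' \ {ζ}, ‖R z‖ ≤ C' / ‖z - ζ‖ := by
  obtain ⟨C₁, hC₁, hCC⟩ : ∃ C₁ : ℝ, 0 ≤ C₁ ∧ C ≤ C₁ := ⟨max C 0, le_max_right _ _, le_max_left _ _⟩
  obtain ⟨r₀, hr₀, hr₀r, hr₀4⟩ : ∃ r₀ : ℝ, 0 < r₀ ∧ r₀ ≤ r ∧ r₀ ≤ 1 / 4 :=
    ⟨min r (1 / 4), lt_min hr (by norm_num), min_le_left _ _, min_le_right _ _⟩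
  have hζ0 : ζ ≠ 0 := by
    intro h
    rw [h, norm_zero] at hζ
    exact zero_ne_one hζ
  have hb' : ∀ z ∈ ball ζ r \ {ζ}, |‖z‖ - 1| * ‖R z‖ ≤ C₁ := by
    intro z hz
    by_cases h : ‖z‖ = 1
    · rw [h]; simpa using hC₁
    · have h1 := hb z hz h
      have h2 : 0 < |‖z‖ - 1| := abs_pos.mpr (sub_ne_zero.mpr h)
      rw [le_div_iff₀ h2] at h1
      linarith [mul_comm ‖R z‖ |‖z‖ - 1|]
  -- the transported function
  obtain ⟨G, hG⟩ : ∃ G : ℂ → E, ∀ w, G w = R (ζ * (1 + w)) := ⟨_, fun _ => rfl⟩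
  have hmem : ∀ w : ℂ, 0 < ‖w‖ → ‖w‖ < r₀ → ζ * (1 + w) ∈ ball ζ r \ {ζ} := by
    intro w hw0 hw
    have h1 : ζ * (1 + w) - ζ = ζ * w := by ring
    refine ⟨?_, ?_⟩
    · rw [mem_ball, dist_eq_norm, h1, norm_mul, hζ, one_mul]; linarith
    · intro h
      rw [Set.mem_singleton_iff] at h
      rw [h, sub_self] at h1
      have := (mul_eq_zero.mp h1.symm).resolve_left hζ0
      rw [this, norm_zero] at hw0
      exact lt_irrefl _ hw0
  have hnz : ∀ w : ℂ, ‖ζ * (1 + w)‖ = ‖1 + w‖ := by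
    intro w; rw [norm_mul, hζ, one_mul]
  have hbd : ∀ p : ℝ, ∀ w : ℂ, 0 < p → p < r₀ → ‖w‖ = p → ‖kp p w‖ * ‖G w‖ ≤ 3 * C₁ * p := by
    intro p w hp hpr hw
    have h1 := hb' _ (hmem w (by rw [hw]; exact hp) (by rw [hw]; exact hpr))
    rw [hnz, ← hG] at h1
    rw [kp_norm_eq p w hw]
    have h2 : ‖1 + w‖ ^ 2 - 1 = (‖1 + w‖ - 1) * (‖1 + w‖ + 1) := by ring
    rw [h2, abs_mul]
    have h3 : 0 ≤ ‖1 + w‖ := norm_nonneg _
    have h4 : ‖1 + w‖ ≤ 1 + p := by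
      calc ‖1 + w‖ ≤ ‖(1 : ℂ)‖ + ‖w‖ := norm_add_le _ _
        _ = 1 + p := by rw [norm_one, hw]
    have h5 : |‖1 + w‖ + 1| = ‖1 + w‖ + 1 := abs_of_nonneg (by linarith)
    rw [h5]
    have h6 : ‖1 + w‖ + 1 ≤ 3 := by linarith
    have h7 : p * (|‖1 + w‖ - 1| * (‖1 + w‖ + 1)) * ‖G w‖
        = p * (‖1 + w‖ + 1) * (|‖1 + w‖ - 1| * ‖G w‖) := by ring
    rw [h7]
    have h8 : p * (‖1 + w‖ + 1) * (|‖1 + w‖ - 1| * ‖G w‖) ≤ p * 3 * C₁ := by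
      apply mul_le_mul
      · exact mul_le_mul_of_nonneg_left h6 hp.le
      · exact h1
      · positivity
      · positivity
    linarith
  have hGd : DifferentiableOn ℂ G {w | 0 < ‖w‖ ∧ ‖w‖ < r₀} := by
    have h1 : G = R ∘ (fun w => ζ * (1 + w)) := by funext w; exact hG w
    rw [h1]
    refine DifferentiableOn.comp (t := ball ζ r \ {ζ}) hR ?_ ?_
    · fun_prop
    · intro w hw
      exact hmem w hw.1 hw.2
  -- the maximum principle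
  have hmax : ∀ p' p : ℝ, 0 < p' → p' < p → p < r₀ → ∀ w : ℂ, p' < ‖w‖ → ‖w‖ < p →
      ‖kp p w‖ * ‖kp p' w‖ * ‖G w‖ ≤
        max (3 * C₁ * p * (p ^ 2 + p' ^ 2 * p + p' ^ 2)) (9 * C₁ * p') := by
    intro p' p hp' hp'p hpr w hw1 hw2
    set U : Set ℂ := ball 0 p \ closedBall 0 p' with hU
    have hUo : IsOpen U := isOpen_ball.sdiff isClosed_closedBall
    have hUc : closure U ⊆ closedBall 0 p \ ball 0 p' := by
      apply closure_minimal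
      · intro x hx
        refine ⟨ball_subset_closedBall hx.1, ?_⟩
        intro h
        exact hx.2 (ball_subset_closedBall h)
      · exact isClosed_closedBall.sdiff isOpen_ball
    have hUb : Bornology.IsBounded U := isBounded_ball.subset (fun x hx => hx.1)
    have hd : DiffContOnCl ℂ (fun w => (kp p w * kp p' w) • G w) U := by
      apply DifferentiableOn.diffContOnCl
      apply DifferentiableOn.smul
      · unfold kp
        fun_prop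
      · apply hGd.mono
        intro x hx
        have := hUc hx
        simp only [Set.mem_diff, mem_closedBall, dist_zero_right, mem_ball, not_lt] at this
        exact ⟨by linarith [this.2], by linarith [this.1]⟩
    have hfr : ∀ z ∈ frontier U, ‖(kp p z * kp p' z) • G z‖ ≤
        max (3 * C₁ * p * (p ^ 2 + p' ^ 2 * p + p' ^ 2)) (9 * C₁ * p') := by
      intro z hz
      have hz1 := hUc (frontier_subset_closure hz)
      have hz2 : z ∉ U := by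
        rw [hUo.frontier_eq] at hz
        exact hz.2
      simp only [Set.mem_diff, mem_closedBall, dist_zero_right, mem_ball, not_lt] at hz1
      have hz3 : ‖z‖ = p ∨ ‖z‖ = p' := by
        by_contra hcon
        push Not at hcon
        apply hz2
        simp only [hU, Set.mem_diff, mem_closedBall, dist_zero_right, mem_ball, not_le]
        exact ⟨lt_of_le_of_ne hz1.1 hcon.1, lt_of_le_of_ne hz1.2 (Ne.symm hcon.2)⟩
      rw [norm_smul, norm_mul]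
      rcases hz3 with h | h
      · apply le_trans _ (le_max_left _ _)
        have h1 := hbd p z (by linarith) hpr h
        have h2 := kp_norm_le p' z
        rw [h] at h2
        have h3 : 0 ≤ ‖kp p z‖ * ‖G z‖ := by positivity
        calc ‖kp p z‖ * ‖kp p' z‖ * ‖G z‖ = (‖kp p z‖ * ‖G z‖) * ‖kp p' z‖ := by ring
          _ ≤ (3 * C₁ * p) * (p ^ 2 + p' ^ 2 * p + p' ^ 2) := by
              apply mul_le_mul h1 h2 (norm_nonneg _)
              have : 0 < p := by linarith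
              positivity
      · apply le_trans _ (le_max_right _ _)
        have h1 := hbd p' z hp' (by linarith) h
        have h2 := kp_norm_le p z
        rw [h] at h2
        have hp1 : p < 1 := by linarith
        have hp0 : 0 < p := by linarith
        have h3 : p' ^ 2 + p ^ 2 * p' + p ^ 2 ≤ 3 := by nlinarith
        have h4 : ‖kp p z‖ ≤ 3 := by linarith
        calc ‖kp p z‖ * ‖kp p' z‖ * ‖G z‖ = ‖kp p z‖ * (‖kp p' z‖ * ‖G z‖) := by ring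
          _ ≤ 3 * (3 * C₁ * p') := by
              apply mul_le_mul h4 h1 (by positivity) (by norm_num)
          _ = 9 * C₁ * p' := by ring
    have hwU : w ∈ U := by
      simp only [hU, Set.mem_diff, mem_closedBall, dist_zero_right, mem_ball, not_le]
      exact ⟨hw2, hw1⟩
    have := Complex.norm_le_of_forall_mem_frontier_norm_le hUb hd hfr (subset_closure hwU)
    rw [norm_smul, norm_mul] at this
    exact this
  -- the limit `p' → 0`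
  have hlim : ∀ p : ℝ, 0 < p → p < r₀ → ∀ w : ℂ, 0 < ‖w‖ → ‖w‖ < p →
      ‖kp p w‖ * ‖w‖ ^ 2 * ‖G w‖ ≤ 3 * C₁ * p ^ 3 := by
    intro p hp hpr w hw0 hw
    have h1 : Tendsto (fun p' : ℝ => ‖kp p w‖ * ‖kp p' w‖ * ‖G w‖) (𝓝[>] 0)
        (𝓝 (‖kp p w‖ * ‖kp 0 w‖ * ‖G w‖)) := by
      apply Tendsto.mono_left _ nhdsWithin_le_nhds
      have hc : Continuous (fun p' : ℝ => ‖kp p w‖ * ‖kp p' w‖ * ‖G w‖) := by
        unfold kp
        fun_prop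
      exact hc.tendsto 0
    have h2 : Tendsto (fun p' : ℝ => max (3 * C₁ * p * (p ^ 2 + p' ^ 2 * p + p' ^ 2))
        (9 * C₁ * p')) (𝓝[>] 0)
        (𝓝 (max (3 * C₁ * p * (p ^ 2 + 0 ^ 2 * p + 0 ^ 2)) (9 * C₁ * 0))) := by
      apply Tendsto.mono_left _ nhdsWithin_le_nhds
      have hc : Continuous (fun p' : ℝ => max (3 * C₁ * p * (p ^ 2 + p' ^ 2 * p + p' ^ 2))
        (9 * C₁ * p')) := by fun_prop
      exact hc.tendsto 0
    have h3 : ∀ᶠ p' : ℝ in 𝓝[>] 0, ‖kp p w‖ * ‖kp p' w‖ * ‖G w‖ ≤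
        max (3 * C₁ * p * (p ^ 2 + p' ^ 2 * p + p' ^ 2)) (9 * C₁ * p') := by
      have h4 : ∀ᶠ p' : ℝ in 𝓝[>] 0, p' < ‖w‖ :=
        (eventually_lt_nhds hw0).filter_mono nhdsWithin_le_nhds
      filter_upwards [h4, self_mem_nhdsWithin] with p' hp1 hp2
      exact hmax p' p hp2 (by linarith) hpr w hp1 hw
    have h4 := le_of_tendsto_of_tendsto h1 h2 h3
    have h5 : kp 0 w = w ^ 2 := by unfold kp; simp
    rw [h5, norm_pow] at h4
    have h6 : max (3 * C₁ * p * (p ^ 2 + 0 ^ 2 * p + 0 ^ 2)) (9 * C₁ * 0) = 3 * C₁ * p ^ 3 := by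
      rw [max_eq_left]
      · ring
      · rw [mul_zero]; positivity
    rw [h6] at h4
    exact h4
  refine ⟨r₀ / 2, 12 * C₁, by linarith, ?_⟩
  intro z hz
  obtain ⟨hz1, hz2⟩ := hz
  rw [mem_ball, dist_eq_norm] at hz1
  have hz3 : 0 < ‖z - ζ‖ := by
    rw [norm_pos_iff]
    intro h
    exact hz2 (by rw [Set.mem_singleton_iff]; exact sub_eq_zero.mp h)
  obtain ⟨w, hw⟩ : ∃ w : ℂ, w = (z - ζ) / ζ := ⟨_, rfl⟩
  have hw1 : ‖w‖ = ‖z - ζ‖ := by rw [hw, norm_div, hζ, div_one]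
  have hw2 : ζ * (1 + w) = z := by rw [hw]; field_simp; ring
  have hGw : G w = R z := by rw [hG, hw2]
  rw [← hGw, ← hw1]
  rw [← hw1] at hz1 hz3
  have h1 := hlim (2 * ‖w‖) (by linarith) (by linarith) w hz3 (by linarith)
  have h2 := kp_norm_ge (2 * ‖w‖) w
  have h3 : 2 * ‖w‖ ^ 2 ≤ ‖kp (2 * ‖w‖) w‖ := by
    have h4 : ‖w‖ ≤ 1 / 8 := by linarith
    have h5 : 0 ≤ ‖w‖ ^ 2 := by positivity
    have h6 : ‖w‖ ^ 2 * ‖w‖ ≤ ‖w‖ ^ 2 * (1 / 8) := mul_le_mul_of_nonneg_left h4 h5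
    nlinarith
  have h4 : 0 ≤ ‖G w‖ := norm_nonneg _
  have h5 : 2 * ‖w‖ ^ 2 * ‖w‖ ^ 2 * ‖G w‖ ≤ 3 * C₁ * (2 * ‖w‖) ^ 3 := by
    refine le_trans ?_ h1
    apply mul_le_mul_of_nonneg_right _ h4
    apply mul_le_mul_of_nonneg_right h3 (by positivity)
  rw [le_div_iff₀ hz3]
  have h6 : 0 < ‖w‖ ^ 3 := by positivity
  have h7 : 2 * ‖w‖ ^ 3 * (‖G w‖ * ‖w‖) ≤ 2 * ‖w‖ ^ 3 * (12 * C₁) := by nlinarith
  exact le_of_mul_le_mul_left h7 (by positivity)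

end WNH
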