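import Pool.Agent.WNH.P6a

/-!
Row [WN-P6b]. Uses `local_pole_bound` (P6a). A (Gelfand–Hille type) theorem: finite spectrum on the
circle and resolvent bound `C / |‖z‖ - 1|` imply that `∏ (Q - ζ) = 0` over the spectrum.
-/

namespace WNH
open Filter Topology Metric
universe u

namespace P6bAux

/-- A function differentiable off a finite set and locally bounded at its points agrees off the set
with an entire function. -/
theorem exists_entire {F : Type*} [NormedAddCommGroup F] [NormedSpace ℂ F] [CompleteSpace F]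
    (f : ℂ → F) (s : Set ℂ) (hs : s.Finite) (hd : ∀ z ∉ s, DifferentiableAt ℂ f z)
    (hb : ∀ ζ ∈ s, ∃ r C : ℝ, 0 < r ∧ ∀ z ∈ ball ζ r \ {ζ}, z ∉ s → ‖f z‖ ≤ C) :
    ∃ g : ℂ → F, Differentiable ℂ g ∧ ∀ z ∉ s, g z = f z := by
  classical
  refine ⟨fun z => if z ∈ s then limUnder (𝓝[≠] z) f else f z, ?_, ?_⟩
  · intro z₀
    by_cases hz : z₀ ∈ s
    · obtain ⟨r, C, hr, hC⟩ := hb z₀ hz
      have h1 : (s \ {z₀})ᶜ ∈ 𝓝 z₀ := by
        apply (hs.subset (fun x hx => hx.1)).isClosed.isOpen_compl.mem_nhds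
        intro h
        exact h.2 rfl
      obtain ⟨r₁, hr₁, hr₁s⟩ := Metric.mem_nhds_iff.mp h1
      set U : Set ℂ := ball z₀ (min r r₁) with hU
      have hUn : U ∈ 𝓝 z₀ := ball_mem_nhds _ (lt_min hr hr₁)
      have hUs : ∀ z ∈ U, z ≠ z₀ → z ∉ s := by
        intro z hzU hne hzs
        exact hr₁s (ball_subset_ball (min_le_right _ _) hzU) ⟨hzs, hne⟩
      have h2 := Complex.differentiableOn_update_limUnder_of_bddAbove (f := f) (s := U) (c := z₀)
        hUn (fun z hz => (hd z (hUs z hz.1 hz.2)).differentiableWithinAt)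
        (by
          refine ⟨C, ?_⟩
          rintro _ ⟨z, hz, rfl⟩
          exact hC z ⟨ball_subset_ball (min_le_left _ _) hz.1, hz.2⟩ (hUs z hz.1 hz.2))
      have h3 := h2.differentiableAt hUn
      refine h3.congr_of_eventuallyEq ?_
      filter_upwards [hUn] with z hzU
      by_cases hzz : z = z₀
      · subst hzz
        simp [hz]
      · simp [hUs z hzU hzz, Function.update_of_ne hzz]
    · refine (hd z₀ hz).congr_of_eventuallyEq ?_
      filter_upwards [hs.isClosed.isOpen_compl.mem_nhds hz] with z hzs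
      have : z ∉ s := hzs
      simp [this]
  · intro z hz
    simp [hz]

end P6bAux

open P6bAux

variable {X : Type u} [NormedAddCommGroup X] [NormedSpace ℂ X] [CompleteSpace X]

theorem algebraic_of_finite_spectrum (Q : X →L[ℂ] X) (C : ℝ)
    (hb : ∀ z : ℂ, ‖z‖ ≠ 1 → ‖resolvent Q z‖ ≤ C / |‖z‖ - 1|)
    (hsp : ∀ ζ ∈ spectrum ℂ Q, ‖ζ‖ = 1) (hfin : (spectrum ℂ Q).Finite) :
    Polynomial.aeval Q (∏ ζ ∈ hfin.toFinset, (Polynomial.X - Polynomial.C ζ)) = 0 := by
  classical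
  set p : Polynomial ℂ := ∏ ζ ∈ hfin.toFinset, (Polynomial.X - Polynomial.C ζ) with hp
  set P : X →L[ℂ] X := Polynomial.aeval Q p with hP
  have hres : ∀ z ∉ spectrum ℂ Q, z ∈ resolventSet ℂ Q := by
    intro z hz
    by_contra h
    exact hz h
  have hunit : ∀ z ∉ spectrum ℂ Q, (algebraMap ℂ (X →L[ℂ] X) z - Q) * resolvent Q z = 1 ∧
      resolvent Q z * (algebraMap ℂ (X →L[ℂ] X) z - Q) = 1 := by
    intro z hz
    have h1 : IsUnit (algebraMap ℂ (X →L[ℂ] X) z - Q) := hres z hz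
    exact ⟨Ring.mul_inverse_cancel _ h1, Ring.inverse_mul_cancel _ h1⟩
  have hdR : ∀ z ∉ spectrum ℂ Q, DifferentiableAt ℂ (resolvent Q) z := by
    intro z hz
    exact (spectrum.hasDerivAt_resolvent (hres z hz)).differentiableAt
  have hdg : ∀ z ∉ spectrum ℂ Q, DifferentiableAt ℂ (fun z => P * resolvent Q z) z := by
    intro z hz
    exact (hdR z hz).const_mul P
  have hbg : ∀ ζ ∈ spectrum ℂ Q, ∃ r C : ℝ, 0 < r ∧ ∀ z ∈ ball ζ r \ {ζ}, z ∉ spectrum ℂ Q →
      ‖P * resolvent Q z‖ ≤ C := by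
    intro ζ hζ
    have h1 : (spectrum ℂ Q \ {ζ})ᶜ ∈ 𝓝 ζ := by
      apply (hfin.subset (fun x hx => hx.1)).isClosed.isOpen_compl.mem_nhds
      intro h
      exact h.2 rfl
    obtain ⟨r₁, hr₁, hr₁s⟩ := Metric.mem_nhds_iff.mp h1
    have hns : ∀ z ∈ ball ζ r₁ \ {ζ}, z ∉ spectrum ℂ Q := by
      intro z hz hzs
      exact hr₁s hz.1 ⟨hzs, hz.2⟩
    obtain ⟨r', C', hr', hC'⟩ := local_pole_bound (resolvent Q) ζ (hsp ζ hζ) r₁ C hr₁
      (fun z hz => (hdR z (hns z hz)).differentiableWithinAt)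
      (fun z _ hz1 => hb z hz1)
    set p₁ : Polynomial ℂ := ∏ ξ ∈ hfin.toFinset.erase ζ, (Polynomial.X - Polynomial.C ξ) with hp₁
    have hpp : p = p₁ * (Polynomial.X - Polynomial.C ζ) := by
      rw [hp, hp₁]
      rw [Finset.prod_erase_mul]
      exact hfin.mem_toFinset.mpr hζ
    refine ⟨r', ‖Polynomial.aeval Q p₁‖ * (‖(1 : X →L[ℂ] X)‖ + C'), hr', ?_⟩
    intro z hz hzs
    have h2 : P = Polynomial.aeval Q p₁ * (Q - algebraMap ℂ (X →L[ℂ] X) ζ) := by
      rw [hP, hpp, map_mul, map_sub, Polynomial.aeval_X, Polynomial.aeval_C]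
    have h3 : (Q - algebraMap ℂ (X →L[ℂ] X) ζ) * resolvent Q z
        = -1 + (z - ζ) • resolvent Q z := by
      have h4 : Q - algebraMap ℂ (X →L[ℂ] X) ζ
          = -(algebraMap ℂ (X →L[ℂ] X) z - Q) + algebraMap ℂ (X →L[ℂ] X) (z - ζ) := by
        rw [map_sub]; abel
      rw [h4, add_mul, neg_mul, (hunit z hzs).1, Algebra.smul_def]
    rw [h2, mul_assoc, h3]
    refine (norm_mul_le _ _).trans ?_
    apply mul_le_mul_of_nonneg_left _ (norm_nonneg _)
    refine (norm_add_le _ _).trans ?_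
    rw [norm_neg]
    have h5 := hC' z hz
    have h6 : 0 < ‖z - ζ‖ := by
      rw [norm_pos_iff]
      intro h
      exact hz.2 (by rw [Set.mem_singleton_iff]; exact sub_eq_zero.mp h)
    rw [le_div_iff₀ h6] at h5
    rw [norm_smul]
    linarith [mul_comm ‖z - ζ‖ ‖resolvent Q z‖]
  obtain ⟨g, hg, hgeq⟩ := exists_entire (fun z => P * resolvent Q z) (spectrum ℂ Q) hfin hdg hbg
  have hns1 : ∀ z : ℂ, 1 < ‖z‖ → z ∉ spectrum ℂ Q := by
    intro z hz h
    rw [hsp z h] at hz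
    exact lt_irrefl _ hz
  have hlim : Tendsto g (cocompact ℂ) (𝓝 0) := by
    rw [tendsto_zero_iff_norm_tendsto_zero]
    have h1 : Tendsto (fun z : ℂ => ‖P‖ * (C / (‖z‖ - 1))) (cocompact ℂ) (𝓝 0) := by
      have h2 : Tendsto (fun z : ℂ => ‖z‖ - 1) (cocompact ℂ) atTop :=
        tendsto_atTop_add_const_right _ _ (tendsto_norm_cocompact_atTop)
      have h3 : Tendsto (fun z : ℂ => C / (‖z‖ - 1)) (cocompact ℂ) (𝓝 0) :=
        h2.const_div_atTop C
      have h4 := h3.const_mul ‖P‖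
      rwa [mul_zero] at h4
    refine squeeze_zero' (Eventually.of_forall fun z => norm_nonneg _) ?_ h1
    have h5 : ∀ᶠ z : ℂ in cocompact ℂ, 1 < ‖z‖ :=
      (tendsto_norm_cocompact_atTop).eventually_gt_atTop 1
    filter_upwards [h5] with z hz
    rw [hgeq z (hns1 z hz)]
    refine (norm_mul_le _ _).trans ?_
    apply mul_le_mul_of_nonneg_left _ (norm_nonneg _)
    have h6 := hb z (ne_of_gt hz)
    rwa [abs_of_pos (by linarith : 0 < ‖z‖ - 1)] at h6
  have h0 : g 2 = 0 := hg.apply_eq_of_tendsto_cocompact 2 hlim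
  have h2n : (2 : ℂ) ∉ spectrum ℂ Q := hns1 2 (by norm_num)
  rw [hgeq 2 h2n] at h0
  have h0' : P * resolvent Q (2 : ℂ) = 0 := h0
  calc P = P * (resolvent Q (2 : ℂ) * (algebraMap ℂ (X →L[ℂ] X) 2 - Q)) := by
        rw [(hunit 2 h2n).2, mul_one]
    _ = (P * resolvent Q (2 : ℂ)) * (algebraMap ℂ (X →L[ℂ] X) 2 - Q) := by rw [mul_assoc]
    _ = 0 := by rw [h0', zero_mul]

end WNH
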