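import Pool.Agent.WNH.Defs

/-!
Row [WN-P7s]. The closed invariant subspace spanned by the good vectors.

Proof. The set `D` of good vectors is a submodule: `0` (`q = 0`); sums (`q + q'`, whose range lies
in the compact set `closure (range q) + closure (range q')`, `IsCompact.add`); scalar multiples
(image of a compact set). If `x ∈ D` with orbit `q` then every `q m ∈ D` (shifted orbit
`q (· + m)`, same range), and `S x = ρ • q 1 ∈ D`. `Y = D.topologicalClosure`: closed, and
`S` maps `Y` into `Y` (continuity: `map_mem_closure`). `SY` = restriction of `S` (`codRestrict`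
of `S ∘ Y.subtypeL`). For `x ∈ D` with orbit `q`, `q m ∈ D ⊆ Y`, so `⟨x, _⟩ : Y` is good for `SY` with
the orbit `m ↦ ⟨q m, _⟩`; its range has compact closure in `Y` because `Y` is closed in `X`
(the inclusion is a closed embedding: the closure of the range is a closed subset of the preimage
of the compact `closure (range q)`, `Topology.IsClosedEmbedding.isCompact_preimage`). Density: `D` is
dense in its closure `Y` (`Subtype` density: for `y ∈ Y`, a sequence in `D` converging to `y`).
-/

namespace WNH
open Filter Topology Metric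
universe u
variable {X : Type u} [NormedAddCommGroup X] [NormedSpace ℂ X]

/-- the submodule of good vectors -/
def P7s_D (S : X →L[ℂ] X) (ρ : ℝ) : Submodule ℂ X where
  carrier := {x | GoodOrb S ρ x}
  zero_mem' := by
    refine ⟨fun _ => 0, rfl, fun m => by simp, ?_⟩
    rw [Set.range_const, closure_singleton]
    exact isCompact_singleton
  add_mem' := by
    rintro x y ⟨q, h0, h1, h2⟩ ⟨r, k0, k1, k2⟩
    refine ⟨fun m => q m + r m, by simp only [h0, k0], fun m => ?_, ?_⟩
    · rw [map_add, h1, k1, smul_add]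
    · refine (h2.add k2).closure_of_subset ?_
      rintro _ ⟨m, rfl⟩
      exact Set.add_mem_add (subset_closure ⟨m, rfl⟩) (subset_closure ⟨m, rfl⟩)
  smul_mem' := by
    rintro c x ⟨q, h0, h1, h2⟩
    refine ⟨fun m => c • q m, by simp only [h0], fun m => ?_, ?_⟩
    · rw [map_smul, h1, smul_comm]
    · refine (h2.image (continuous_const_smul c)).closure_of_subset ?_
      rintro _ ⟨m, rfl⟩
      exact ⟨q m, subset_closure ⟨m, rfl⟩, rfl⟩

theorem P7s_orbit (S : X →L[ℂ] X) (ρ : ℝ) {q : ℤ → X} (h1 : ∀ m : ℤ, S (q m) = (ρ : ℂ) • q (m + 1))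
    (h2 : IsCompact (closure (Set.range q))) (m : ℤ) : GoodOrb S ρ (q m) := by
  refine ⟨fun k => q (m + k), by simp only [add_zero], fun k => ?_, ?_⟩
  · rw [h1, add_assoc]
  · refine h2.closure_of_subset ?_
    rintro _ ⟨k, rfl⟩
    exact subset_closure ⟨m + k, rfl⟩

theorem good_subspace (S : X →L[ℂ] X) (ρ : ℝ) :
    ∃ (Y : Submodule ℂ X) (SY : Y →L[ℂ] Y), IsClosed (Y : Set X) ∧
      (∀ y : Y, ((SY y : Y) : X) = S (y : X)) ∧ (∀ x : X, GoodOrb S ρ x → x ∈ Y) ∧
      Dense {y : Y | GoodOrb SY ρ y} := by
  set D := P7s_D S ρ with hD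
  have hDm : ∀ x, x ∈ D ↔ GoodOrb S ρ x := fun x => Iff.rfl
  have hSD : ∀ x ∈ D, S x ∈ D := by
    rintro x ⟨q, h0, h1, h2⟩
    rw [← h0, h1]
    exact D.smul_mem _ (P7s_orbit S ρ h1 h2 _)
  have hSY : ∀ y : D.topologicalClosure, S (y : X) ∈ D.topologicalClosure := by
    intro y
    have hy : (y : X) ∈ closure (D : Set X) := y.2
    exact map_mem_closure S.continuous hy (fun x hx => hSD x hx)
  let SY : D.topologicalClosure →L[ℂ] D.topologicalClosure :=
    (S.comp D.topologicalClosure.subtypeL).codRestrict D.topologicalClosure hSY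
  have hSYe : ∀ y : D.topologicalClosure, ((SY y : D.topologicalClosure) : X) = S (y : X) := fun y => rfl
  have hcl : IsClosed (D.topologicalClosure : Set X) := D.isClosed_topologicalClosure
  refine ⟨D.topologicalClosure, SY, hcl, hSYe, fun x hx => D.le_topologicalClosure hx, ?_⟩
  have hsub : ∀ y : D.topologicalClosure, (y : X) ∈ D → GoodOrb SY ρ y := by
    rintro y ⟨q, h0, h1, h2⟩
    have hq : ∀ m, q m ∈ D.topologicalClosure := fun m =>
      D.le_topologicalClosure (P7s_orbit S ρ h1 h2 m)
    refine ⟨fun m => ⟨q m, hq m⟩, Subtype.ext h0, fun m => Subtype.ext ?_, ?_⟩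
    · rw [hSYe]
      exact h1 m
    · have hemb : Topology.IsClosedEmbedding ((↑) : D.topologicalClosure → X) :=
        hcl.isClosedEmbedding_subtypeVal
      refine (hemb.isCompact_preimage h2).closure_of_subset ?_
      rintro _ ⟨m, rfl⟩
      exact subset_closure ⟨m, rfl⟩
  refine Dense.mono (s₁ := {y : D.topologicalClosure | (y : X) ∈ D}) (fun y hy => hsub y hy) ?_
  intro y
  rw [closure_subtype]
  have e : ((↑) '' {y : D.topologicalClosure | (y : X) ∈ D} : Set X) = (D : Set X) := by
    ext x
    constructor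
    · rintro ⟨z, hz, rfl⟩
      exact hz
    · intro hx
      exact ⟨⟨x, D.le_topologicalClosure hx⟩, hx, rfl⟩
  rw [e]
  exact y.2

end WNH
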