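import Pool.Agent.WNH.P3b
import Pool.Agent.WNH.P4a
import Pool.Agent.WNH.P4b
import Pool.Agent.WNH.P5a
import Pool.Agent.WNH.P5c
import Pool.Agent.WNH.P6b
import Pool.Agent.WNH.P7s
import Pool.Agent.WNH.P8

/-!
Row [WN-P7a]. Uses `exists_goodOrb` (P3b), `powerBounded_of_good` (P4a), `recurrent`,
`doubly_powerBounded` (P4b), `resolvent_bound`, `spec_circle`, `approx_eigen` (P5a),
`W_of_infinite_spectrum` (P5c), `algebraic_of_finite_spectrum` (P6b), `good_subspace` (P7s),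
`W_of_sub` (P8).

Proof. `ρ := gr S > 1`. `good_subspace` gives `Y, SY`; `Y` is complete (closed in `X`) and
`¬ W SY` by `W_of_sub` with `ι = Y.subtypeL`. P4a: `‖SY^n‖ ≤ C ρ^n`. Put `Q = (ρ⁻¹ : ℂ) • SY`:
`‖Q^n‖ ≤ C`, `ρ • Q = SY`, and `GoodOrb Q 1 y ↔ GoodOrb SY ρ y` (same orbit), so the good vectors of
`Q` are dense. P4b: recurrence (apply `recurrent` with `F = {y}`), and `Q'`, `C'`. P5a with
`max C C'`. If `spectrum ℂ Q` were infinite, `W_of_infinite_spectrum` would give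
`W (ρ • Q) = W SY`, contradiction; so it is finite, and P6b: `aeval Q (∏ (X - C ζ)) = 0`.
Existence: by P3b there is a good `x ≠ 0`, `x ∈ Y`, so `Y` is nontrivial. If all `Q - ζ`
(`ζ ∈ spectrum`) were injective then so would be their product `0`; so some `ζ ∈ spectrum ℂ Q`
(`‖ζ‖ = 1`) has `y ≠ 0` with `Q y = ζ y`; then `S y = ρ ζ y` and `‖ρ ζ‖ = ρ`.
Finiteness: if `‖μ‖ = ρ`, `x ≠ 0`, `S x = μ x` then `x` is good with the orbit
`q m = (μ/ρ)^m • x` (range in the image of the compact unit circle under `c ↦ c • x`), so `x ∈ Y`,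
`Q x = (μ/ρ) x`, so `μ/ρ ∈ spectrum ℂ Q`, a finite set.
-/

namespace WNH
open Filter Topology Metric
universe u
variable {X : Type u} [NormedAddCommGroup X] [NormedSpace ℂ X] [CompleteSpace X]

theorem P7a_inj {Y : Type u} [NormedAddCommGroup Y] [NormedSpace ℂ Y] (Q : Y →L[ℂ] Y)
    (s : Finset ℂ) (hs : ∀ ζ ∈ s, ∀ y : Y, Q y = ζ • y → y = 0) (y : Y)
    (hy : Polynomial.aeval Q (∏ ζ ∈ s, (Polynomial.X - Polynomial.C ζ)) y = 0) : y = 0 := by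
  classical
  induction s using Finset.induction_on generalizing y with
  | empty => simpa using hy
  | insert a s ha ih =>
    rw [Finset.prod_insert ha, map_mul] at hy
    have h1 : (Polynomial.aeval Q (Polynomial.X - Polynomial.C a))
        (Polynomial.aeval Q (∏ ζ ∈ s, (Polynomial.X - Polynomial.C ζ)) y) = 0 := hy
    rw [map_sub, Polynomial.aeval_X, Polynomial.aeval_C, Algebra.algebraMap_eq_smul_one] at h1
    have h2 := hs a (Finset.mem_insert_self a s) _ (sub_eq_zero.1 h1)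
    exact ih (fun ζ hζ => hs ζ (Finset.mem_insert_of_mem hζ)) y h2

theorem P7a_core {Y : Type u} [NormedAddCommGroup Y] [NormedSpace ℂ Y] [CompleteSpace Y]
    (SY : Y →L[ℂ] Y) (hWY : ¬ W SY) (ρ : ℝ) (hgr : 1 < ρ)
    (hdense : Dense {y : Y | GoodOrb SY ρ y}) :
    ∃ σ : Set ℂ, σ.Finite ∧ (∀ ζ ∈ σ, ‖ζ‖ = 1) ∧
      (∀ (ζ : ℂ) (y : Y), y ≠ 0 → SY y = ((ρ : ℂ) * ζ) • y → ζ ∈ σ) ∧
      (∀ y : Y, y ≠ 0 → ∃ ζ ∈ σ, ∃ z : Y, z ≠ 0 ∧ SY z = ((ρ : ℂ) * ζ) • z) := by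
  have hρ0 : 0 < ρ := by linarith
  have hρC : (ρ : ℂ) ≠ 0 := by
    rw [Ne, Complex.ofReal_eq_zero]
    exact hρ0.ne'
  obtain ⟨C, hC, hCb⟩ := powerBounded_of_good SY hWY ρ hgr hdense
  set Q : Y →L[ℂ] Y := ((ρ : ℂ))⁻¹ • SY with hQ
  have hQS : (ρ : ℂ) • Q = SY := by
    rw [hQ, smul_smul, mul_inv_cancel₀ hρC, one_smul]
  have hQy : ∀ y, (ρ : ℂ) • Q y = SY y := fun y => congrArg (fun f : Y →L[ℂ] Y => f y) hQS
  have hQb : ∀ n : ℕ, ‖Q ^ n‖ ≤ C := by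
    intro n
    rw [hQ, smul_pow, norm_smul, norm_pow, norm_inv, Complex.norm_real, Real.norm_of_nonneg hρ0.le,
      inv_pow, inv_mul_le_iff₀ (by positivity)]
    calc ‖SY ^ n‖ ≤ C * ρ ^ n := hCb n
      _ = ρ ^ n * C := mul_comm _ _
  have hdQ : Dense {y : Y | GoodOrb Q 1 y} := by
    refine hdense.mono ?_
    rintro y ⟨q, h0, h1, h2⟩
    refine ⟨q, h0, fun m => ?_, h2⟩
    rw [hQ]
    show ((ρ : ℂ))⁻¹ • SY (q m) = _
    rw [h1, smul_smul, inv_mul_cancel₀ hρC, Complex.ofReal_one]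
  obtain ⟨Q', C', hQ1, hQ2, hQ'b⟩ := doubly_powerBounded Q C hQb hdQ
  have hb1 : ∀ n : ℕ, ‖Q ^ n‖ ≤ max C C' := fun n => (hQb n).trans (le_max_left _ _)
  have hb2 : ∀ n : ℕ, ‖Q' ^ n‖ ≤ max C C' := fun n => (hQ'b n).trans (le_max_right _ _)
  have hres : ∀ z : ℂ, ‖z‖ ≠ 1 → ‖resolvent Q z‖ ≤ max C C' / |‖z‖ - 1| := fun z hz =>
    (resolvent_bound Q Q' hQ1 hQ2 _ hb1 hb2 z hz).2
  have hsp : ∀ ζ ∈ spectrum ℂ Q, ‖ζ‖ = 1 := fun ζ hζ => spec_circle Q Q' hQ1 hQ2 _ hb1 hb2 ζ hζ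
  have hfin : (spectrum ℂ Q).Finite := by
    by_contra hinf
    apply hWY
    rw [← hQS]
    refine W_of_infinite_spectrum Q (fun y δ hδ => ?_) hsp
      (fun ζ hζ η hη => approx_eigen Q Q' hQ1 hQ2 _ hb1 hb2 ζ hζ η hη) hinf ρ hgr
    obtain ⟨M, hM⟩ := recurrent Q C hQb hdQ {y} δ hδ
    refine ⟨M, fun N => ?_⟩
    obtain ⟨n, h1, h2, h3⟩ := hM N
    exact ⟨n, h1, h2, h3 y (Finset.mem_singleton_self y)⟩
  have hpoly := algebraic_of_finite_spectrum Q _ hres hsp hfin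
  refine ⟨spectrum ℂ Q, hfin, hsp, ?_, ?_⟩
  · intro ζ y hy0 hy
    have hQy1 : Q y = ζ • y := by
      have h1 := hQy y
      rw [hy, mul_smul] at h1
      exact smul_right_injective Y hρC h1
    rw [spectrum.mem_iff]
    rintro ⟨u, hu⟩
    have h1 : ((u : (Y →L[ℂ] Y)ˣ) : Y →L[ℂ] Y) y = 0 := by
      rw [hu, Algebra.algebraMap_eq_smul_one]
      show ζ • y - Q y = 0
      rw [hQy1, sub_self]
    have h2 : (((u⁻¹ : (Y →L[ℂ] Y)ˣ) : Y →L[ℂ] Y) * (u : Y →L[ℂ] Y)) y = y := by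
      rw [Units.inv_mul]
      rfl
    apply hy0
    rw [← h2]
    show ((u⁻¹ : (Y →L[ℂ] Y)ˣ) : Y →L[ℂ] Y) ((u : Y →L[ℂ] Y) y) = 0
    rw [h1, map_zero]
  · intro y hy
    by_contra hcon
    push Not at hcon
    apply hy
    refine P7a_inj Q hfin.toFinset (fun ζ hζ z hz => ?_) _ (by rw [hpoly]; rfl)
    by_contra hz0
    refine hcon ζ (hfin.mem_toFinset.1 hζ) z hz0 ?_
    rw [← hQy, hz, smul_smul]

theorem top_eigen (S : X →L[ℂ] X) (hS : ¬ W S) (hgr : 1 < gr S) :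
    (∃ μ : ℂ, ‖μ‖ = gr S ∧ ∃ x : X, x ≠ 0 ∧ S x = μ • x) ∧
      {μ : ℂ | ‖μ‖ = gr S ∧ ∃ x : X, x ≠ 0 ∧ S x = μ • x}.Finite := by
  obtain ⟨x₀, hx₀, hx₀g⟩ := exists_goodOrb S hS hgr
  set ρ : ℝ := gr S with hρ
  have hρ0 : 0 < ρ := by linarith
  have hρC : (ρ : ℂ) ≠ 0 := by
    rw [Ne, Complex.ofReal_eq_zero]
    exact hρ0.ne'
  obtain ⟨Y, SY, hcl, hSY, hgood, hdense⟩ := good_subspace S ρ
  have : CompleteSpace Y := hcl.completeSpace_coe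
  have hWY : ¬ W SY := fun hw => hS (W_of_sub S SY Y.subtypeL (fun y => rfl) (fun y => hSY y) hw)
  obtain ⟨σ, hfin, hσ1, hσ2, hσ3⟩ := P7a_core SY hWY ρ hgr hdense
  constructor
  · have hne : (⟨x₀, hgood x₀ hx₀g⟩ : Y) ≠ 0 := fun h => hx₀ (congrArg Subtype.val h)
    obtain ⟨ζ, hζ, z, hz, hz2⟩ := hσ3 _ hne
    refine ⟨(ρ : ℂ) * ζ, ?_, (z : X), ?_, ?_⟩
    · rw [norm_mul, hσ1 ζ hζ, mul_one, Complex.norm_real, Real.norm_of_nonneg hρ0.le]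
    · intro h
      exact hz (Subtype.ext h)
    · rw [← hSY, hz2]
      rfl
  · refine Set.Finite.subset (hfin.image fun ζ => (ρ : ℂ) * ζ) ?_
    rintro μ ⟨hμ, x, hx, hSx⟩
    refine ⟨μ / ρ, ?_, by field_simp⟩
    have hn1 : ‖μ / (ρ : ℂ)‖ = 1 := by
      rw [norm_div, hμ, Complex.norm_real, Real.norm_of_nonneg hρ0.le, div_self hρ0.ne']
    have hne : μ / (ρ : ℂ) ≠ 0 := by
      intro h
      rw [h, norm_zero] at hn1
      exact zero_ne_one hn1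
    have hgx : GoodOrb S ρ x := by
      refine ⟨fun m => (μ / (ρ : ℂ)) ^ m • x, by simp, fun m => ?_, ?_⟩
      · rw [map_smul, hSx, smul_smul, smul_smul, zpow_add_one₀ hne]
        congr 1
        field_simp
      · have hcomp : IsCompact ((fun c : ℂ => c • x) '' Metric.closedBall (0 : ℂ) 1) :=
          (isCompact_closedBall (0 : ℂ) 1).image (by fun_prop)
        refine hcomp.closure_of_subset ?_
        rintro _ ⟨m, rfl⟩
        refine ⟨(μ / (ρ : ℂ)) ^ m, ?_, rfl⟩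
        rw [mem_closedBall_zero_iff, norm_zpow, hn1, one_zpow]
    refine hσ2 (μ / ρ) ⟨x, hgood x hgx⟩ (fun h => hx (congrArg Subtype.val h)) ?_
    apply Subtype.ext
    rw [hSY]
    show S x = ((ρ : ℂ) * (μ / ρ)) • x
    rw [hSx, mul_div_cancel₀ _ hρC]

end WNH
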