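import Pool.Agent.WNH.Defs

/-!
Row [WN-P7g]. Growth of an orbit on a Jordan chain.

Write `N = S - μ`, `S = μ + N`, `N` commutes with `μ`, so
`S^n x = ∑_{j ≤ n} C(n,j) μ^(n-j) N^j x` (`Commute.add_pow`), and only `j < J` (resp. `j ≤ J`) matter
if `N^J x = 0` (resp. `N^(J+1) x = 0`).
`jordan_upper`: `‖S^n x‖ ≤ ∑_{j<J} n^j ‖μ‖^(n-j) ‖N^j x‖ ≤ D (n+1)^(J-1) ‖μ‖^n` (as `‖μ‖ ≥ 1`).
`jordan_lower`: the term `j = J` is `C(n,J) μ^(n-J) N^J x`, of norm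
`≥ c n^J ‖μ‖^n` with `c > 0` for `n ≥ 2 J` (say `C(n,J) ≥ (n/(2 (J+1)))^J`-type bound, or
`Nat.choose` asymptotics / `Nat.pow_sub_le_descFactorial`), and the others are
`≤ D' (n+1)^(J-1) ‖μ‖^n` by `jordan_upper`'s estimate, so `‖S^n x‖ ≥ (c/2) n^J ‖μ‖^n` for large `n`
(when `J = 0` there are no other terms).
-/

namespace WNH
open Filter Topology Metric
universe u
variable {X : Type u} [NormedAddCommGroup X] [NormedSpace ℂ X]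

theorem P7g_expand (S : X →L[ℂ] X) (μ : ℂ) (J : ℕ) (x : X)
    (hx : ((S - μ • (1 : X →L[ℂ] X)) ^ (J + 1)) x = 0) (n : ℕ) :
    (S ^ n) x = ∑ m ∈ Finset.range (J + 1),
      ((n.choose m : ℂ) * μ ^ (n - m)) • ((S - μ • (1 : X →L[ℂ] X)) ^ m) x := by
  set N : X →L[ℂ] X := S - μ • (1 : X →L[ℂ] X) with hN
  have hS : S = N + μ • (1 : X →L[ℂ] X) := by rw [hN, sub_add_cancel]
  have hc : Commute N (μ • (1 : X →L[ℂ] X)) := (Commute.one_right N).smul_right μ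
  have h1 : (S ^ n) x = ∑ m ∈ Finset.range (n + 1),
      ((n.choose m : ℂ) * μ ^ (n - m)) • (N ^ m) x := by
    rw [hS, hc.add_pow]
    rw [_root_.sum_apply]
    refine Finset.sum_congr rfl fun m _ => ?_
    rw [smul_pow, one_pow]
    show (N ^ m) ((μ ^ (n - m) • (1 : X →L[ℂ] X)) (((n.choose m : ℕ) : X →L[ℂ] X) x)) = _
    have e : ((n.choose m : ℕ) : X →L[ℂ] X) x = (n.choose m : ℂ) • x := by
      rw [← nsmul_one]
      show (n.choose m) • x = _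
      rw [Nat.cast_smul_eq_nsmul]
    rw [e]
    show (N ^ m) (μ ^ (n - m) • (n.choose m : ℂ) • x) = _
    rw [map_smul, map_smul, smul_smul, mul_comm]
  rw [h1]
  have h2 : ∀ m, J + 1 ≤ m → (N ^ m) x = 0 := by
    intro m hm
    obtain ⟨k, rfl⟩ := Nat.exists_eq_add_of_le hm
    rw [add_comm, pow_add]
    show (N ^ k) ((N ^ (J + 1)) x) = 0
    rw [hx, map_zero]
  have e1 : ∑ m ∈ Finset.range (n + 1), ((n.choose m : ℂ) * μ ^ (n - m)) • (N ^ m) x =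
      ∑ m ∈ Finset.range (n + 1 + (J + 1)), ((n.choose m : ℂ) * μ ^ (n - m)) • (N ^ m) x := by
    refine Finset.sum_subset (Finset.range_mono (by omega)) fun m _ hm => ?_
    rw [Finset.mem_range] at hm
    rw [Nat.choose_eq_zero_of_lt (by omega)]
    simp
  have e2 : ∑ m ∈ Finset.range (J + 1), ((n.choose m : ℂ) * μ ^ (n - m)) • (N ^ m) x =
      ∑ m ∈ Finset.range (n + 1 + (J + 1)), ((n.choose m : ℂ) * μ ^ (n - m)) • (N ^ m) x := by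
    refine Finset.sum_subset (Finset.range_mono (by omega)) fun m _ hm => ?_
    rw [Finset.mem_range] at hm
    rw [h2 m (by omega), smul_zero]
  rw [e1, e2]

theorem P7g_term (μ : ℂ) (hμ : 1 ≤ ‖μ‖) (n m : ℕ) :
    ‖(n.choose m : ℂ) * μ ^ (n - m)‖ ≤ (n : ℝ) ^ m * ‖μ‖ ^ n := by
  rw [norm_mul, norm_pow, Complex.norm_natCast]
  have h1 : ((n.choose m : ℕ) : ℝ) ≤ (n : ℝ) ^ m := by
    exact_mod_cast Nat.choose_le_pow n m
  have h2 : ‖μ‖ ^ (n - m) ≤ ‖μ‖ ^ n := pow_le_pow_right₀ hμ (Nat.sub_le _ _)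
  exact mul_le_mul h1 h2 (by positivity) (by positivity)

theorem jordan_upper (S : X →L[ℂ] X) (μ : ℂ) (hμ : 1 ≤ ‖μ‖) (J : ℕ) (x : X)
    (hx : ((S - μ • (1 : X →L[ℂ] X)) ^ (J + 1)) x = 0) :
    ∃ D : ℝ, ∀ n : ℕ, ‖(S ^ n) x‖ ≤ D * ((n : ℝ) + 1) ^ J * ‖μ‖ ^ n := by
  refine ⟨∑ m ∈ Finset.range (J + 1), ‖((S - μ • (1 : X →L[ℂ] X)) ^ m) x‖, fun n => ?_⟩
  rw [P7g_expand S μ J x hx n, Finset.sum_mul, Finset.sum_mul]
  refine norm_sum_le_of_le _ fun m hm => ?_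
  rw [Finset.mem_range] at hm
  rw [norm_smul]
  have h1 := P7g_term μ hμ n m
  have h2 : (n : ℝ) ^ m ≤ ((n : ℝ) + 1) ^ J := by
    calc (n : ℝ) ^ m ≤ ((n : ℝ) + 1) ^ m := by gcongr; linarith
      _ ≤ ((n : ℝ) + 1) ^ J := pow_le_pow_right₀ (by linarith [Nat.cast_nonneg (α := ℝ) n]) (by omega)
  calc ‖(n.choose m : ℂ) * μ ^ (n - m)‖ * ‖((S - μ • (1 : X →L[ℂ] X)) ^ m) x‖
      ≤ (((n : ℝ) + 1) ^ J * ‖μ‖ ^ n) * ‖((S - μ • (1 : X →L[ℂ] X)) ^ m) x‖ := by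
        gcongr
        exact h1.trans (by gcongr)
    _ = ‖((S - μ • (1 : X →L[ℂ] X)) ^ m) x‖ * ((n : ℝ) + 1) ^ J * ‖μ‖ ^ n := by ring

theorem jordan_lower (S : X →L[ℂ] X) (μ : ℂ) (hμ : 1 ≤ ‖μ‖) (J : ℕ) (x : X)
    (hx : ((S - μ • (1 : X →L[ℂ] X)) ^ (J + 1)) x = 0)
    (hx' : ((S - μ • (1 : X →L[ℂ] X)) ^ J) x ≠ 0) :
    ∃ c : ℝ, 0 < c ∧ ∀ᶠ n : ℕ in atTop, c * (n : ℝ) ^ J * ‖μ‖ ^ n ≤ ‖(S ^ n) x‖ := by
  set N : X →L[ℂ] X := S - μ • (1 : X →L[ℂ] X) with hN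
  set D : ℝ := ∑ m ∈ Finset.range J, ‖(N ^ m) x‖ with hD
  have hD0 : 0 ≤ D := Finset.sum_nonneg fun m _ => norm_nonneg _
  have hμ0 : 0 < ‖μ‖ := by linarith
  have hx0 : 0 < ‖(N ^ J) x‖ := norm_pos_iff.2 hx'
  set c₀ : ℝ := ‖(N ^ J) x‖ / (‖μ‖ ^ J * (2 ^ J * (J.factorial : ℝ))) with hc₀
  have hc₀pos : 0 < c₀ := by positivity
  refine ⟨c₀ / 2, by positivity, ?_⟩
  filter_upwards [eventually_ge_atTop (2 * J), eventually_ge_atTop 1,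
    (tendsto_natCast_atTop_atTop (R := ℝ)).eventually_ge_atTop (2 * D / c₀)] with n hn hn1 hn2
  have hn0 : (0 : ℝ) < n := by exact_mod_cast hn1
  rw [P7g_expand S μ J x hx n, Finset.sum_range_succ]
  have hmain : c₀ * (n : ℝ) ^ J * ‖μ‖ ^ n ≤ ‖((n.choose J : ℂ) * μ ^ (n - J)) • (N ^ J) x‖ := by
    rw [norm_smul, norm_mul, norm_pow, Complex.norm_natCast]
    have h1 : ((n + 1 - J : ℕ) : ℝ) ^ J ≤ (J.factorial : ℝ) * (n.choose J : ℝ) := by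
      have := Nat.pow_sub_le_descFactorial n J
      rw [Nat.descFactorial_eq_factorial_mul_choose] at this
      exact_mod_cast this
    have h2 : (n : ℝ) / 2 ≤ ((n + 1 - J : ℕ) : ℝ) := by
      rw [div_le_iff₀ (by norm_num)]
      have : n ≤ (n + 1 - J) * 2 := by omega
      exact_mod_cast this
    have h3 : ((n : ℝ) / 2) ^ J ≤ (J.factorial : ℝ) * (n.choose J : ℝ) :=
      (pow_le_pow_left₀ (by positivity) h2 J).trans h1
    have h4 : (n : ℝ) ^ J ≤ 2 ^ J * (J.factorial : ℝ) * (n.choose J : ℝ) := by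
      rw [div_pow, div_le_iff₀ (by positivity)] at h3
      linarith
    have h5 : ‖μ‖ ^ n = ‖μ‖ ^ (n - J) * ‖μ‖ ^ J := by
      rw [← pow_add]
      congr 1
      omega
    rw [hc₀, h5]
    calc ‖(N ^ J) x‖ / (‖μ‖ ^ J * (2 ^ J * (J.factorial : ℝ))) * (n : ℝ) ^ J * (‖μ‖ ^ (n - J) * ‖μ‖ ^ J)
        ≤ ‖(N ^ J) x‖ / (‖μ‖ ^ J * (2 ^ J * (J.factorial : ℝ))) *
          (2 ^ J * (J.factorial : ℝ) * (n.choose J : ℝ)) * (‖μ‖ ^ (n - J) * ‖μ‖ ^ J) := by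
          gcongr
      _ = (n.choose J : ℝ) * ‖μ‖ ^ (n - J) * ‖(N ^ J) x‖ := by
          field_simp
  have hrest : ‖∑ m ∈ Finset.range J, ((n.choose m : ℂ) * μ ^ (n - m)) • (N ^ m) x‖ ≤
      c₀ / 2 * (n : ℝ) ^ J * ‖μ‖ ^ n := by
    have h1 : ‖∑ m ∈ Finset.range J, ((n.choose m : ℂ) * μ ^ (n - m)) • (N ^ m) x‖ ≤
        ∑ m ∈ Finset.range J, ‖(N ^ m) x‖ * ((n : ℝ) ^ J / n * ‖μ‖ ^ n) := by
      refine norm_sum_le_of_le _ fun m hm => ?_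
      rw [Finset.mem_range] at hm
      rw [norm_smul]
      have h2 : (n : ℝ) ^ m ≤ (n : ℝ) ^ J / n := by
        rw [le_div_iff₀ hn0, ← pow_succ]
        exact pow_le_pow_right₀ (by exact_mod_cast hn1) (by omega)
      calc ‖(n.choose m : ℂ) * μ ^ (n - m)‖ * ‖(N ^ m) x‖ ≤
            ((n : ℝ) ^ J / n * ‖μ‖ ^ n) * ‖(N ^ m) x‖ := by
            gcongr
            exact (P7g_term μ hμ n m).trans (by gcongr)
        _ = _ := by ring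
    rw [← Finset.sum_mul] at h1
    have h3 : D / n ≤ c₀ / 2 := by
      rw [div_le_iff₀ hn0]
      rw [div_le_iff₀ hc₀pos] at hn2
      linarith
    calc _ ≤ D * ((n : ℝ) ^ J / n * ‖μ‖ ^ n) := h1
      _ = D / n * ((n : ℝ) ^ J * ‖μ‖ ^ n) := by ring
      _ ≤ c₀ / 2 * ((n : ℝ) ^ J * ‖μ‖ ^ n) := by gcongr
      _ = c₀ / 2 * (n : ℝ) ^ J * ‖μ‖ ^ n := by ring
  have h6 : ∀ a b : X, ‖b‖ - ‖a‖ ≤ ‖a + b‖ := by
    intro a b
    have : b = (a + b) - a := by abel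
    have h7 : ‖b‖ ≤ ‖a + b‖ + ‖a‖ := by
      calc ‖b‖ = ‖(a + b) - a‖ := by rw [← this]
        _ ≤ _ := norm_sub_le _ _
    linarith
  refine le_trans ?_ (h6 _ _)
  linarith

end WNH
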