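import Pool.Agent.WNH.P1
import Pool.Agent.WNH.P7g
import Pool.Agent.WNH.P8

/-!
Row [WN-P7c]. Uses `notW_lower` (P1), `jordan_upper`, `jordan_lower` (P7g), `W_of_sub` (P8).
Jordan chains at `μ`, `‖μ‖ > 1`, have bounded length when `¬ W S`.

Proof. Suppose not: for every `N` there is `x` with `(S - μ)^(N+1) x = 0`, `(S - μ)^N x ≠ 0`.
Let `V₀ = ⋃_j ker (S - μ)^j` (an increasing union of submodules, `S`-invariant), `Y` its
topological closure (closed, complete, `S`-invariant), `SY` the restriction; `¬ W SY` (`W_of_sub`).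
P1 for `SY` gives `y₀, g₀, ε, v`; choose `y ∈ V₀` with `‖y - y₀‖ < ε`, `(S - μ)^(J+1) y = 0` for some
`J`. By `jordan_upper`, `ε² ‖SY^n‖ ≤ ‖g₀ (SY^n y) - v‖ ≤ ‖g₀‖ D (n+1)^J ‖μ‖^n + ‖v‖
≤ D' (n+1)^J ‖μ‖^n`. Take `x` with `(S - μ)^(J+2) x = 0`, `(S - μ)^(J+1) x ≠ 0`; `x ∈ Y`, and by
`jordan_lower`, `c n^(J+1) ‖μ‖^n ≤ ‖S^n x‖ ≤ ‖SY^n‖ ‖x‖ ≤ D'' (n+1)^J ‖μ‖^n` for large `n`:
contradiction.
-/

namespace WNH
open Filter Topology Metric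
universe u
variable {X : Type u} [NormedAddCommGroup X] [NormedSpace ℂ X] [CompleteSpace X]

/-- generalised eigenvectors -/
def P7c_V (N : X →L[ℂ] X) : Submodule ℂ X where
  carrier := {x | ∃ j : ℕ, (N ^ j) x = 0}
  zero_mem' := ⟨0, map_zero _⟩
  add_mem' := by
    rintro x y ⟨j, hj⟩ ⟨k, hk⟩
    refine ⟨j + k, ?_⟩
    have h1 : (N ^ (j + k)) x = 0 := by
      rw [add_comm, pow_add]
      show (N ^ k) ((N ^ j) x) = 0
      rw [hj, map_zero]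
    have h2 : (N ^ (j + k)) y = 0 := by
      rw [pow_add]
      show (N ^ j) ((N ^ k) y) = 0
      rw [hk, map_zero]
    rw [map_add, h1, h2, add_zero]
  smul_mem' := by
    rintro c x ⟨j, hj⟩
    exact ⟨j, by rw [map_smul, hj, smul_zero]⟩

theorem chains_bounded (S : X →L[ℂ] X) (hS : ¬ W S) (μ : ℂ) (hμ : 1 < ‖μ‖) :
    ∃ N : ℕ, ∀ x : X, ((S - μ • (1 : X →L[ℂ] X)) ^ (N + 1)) x = 0 →
      ((S - μ • (1 : X →L[ℂ] X)) ^ N) x = 0 := by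
  by_contra hcon
  push Not at hcon
  set N : X →L[ℂ] X := S - μ • (1 : X →L[ℂ] X) with hN
  have hcomm : Commute S N := by
    rw [hN]
    exact (Commute.refl S).sub_right ((Commute.one_right S).smul_right μ)
  set V := P7c_V N with hV
  have hSV : ∀ x ∈ V, S x ∈ V := by
    rintro x ⟨j, hj⟩
    refine ⟨j, ?_⟩
    have h1 : N ^ j * S = S * N ^ j := (hcomm.pow_right j).eq.symm
    have h2 : (N ^ j) (S x) = S ((N ^ j) x) := congrArg (fun f : X →L[ℂ] X => f x) h1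
    rw [h2, hj, map_zero]
  have hSY : ∀ y : V.topologicalClosure, S (y : X) ∈ V.topologicalClosure := by
    intro y
    have hy : (y : X) ∈ closure (V : Set X) := y.2
    exact map_mem_closure S.continuous hy (fun x hx => hSV x hx)
  let SY : V.topologicalClosure →L[ℂ] V.topologicalClosure :=
    (S.comp V.topologicalClosure.subtypeL).codRestrict V.topologicalClosure hSY
  have hcl : IsClosed (V.topologicalClosure : Set X) := V.isClosed_topologicalClosure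
  have : CompleteSpace V.topologicalClosure := hcl.completeSpace_coe
  have hWY : ¬ W SY := by
    intro hw
    exact hS (W_of_sub S SY V.topologicalClosure.subtypeL (fun y => rfl) (fun y => rfl) hw)
  have hiter : ∀ (n : ℕ) (y : V.topologicalClosure), (((SY ^ n) y : V.topologicalClosure) : X) =
      (S ^ n) (y : X) := by
    intro n
    induction n with
    | zero => intro y; rfl
    | succ n ih =>
      intro y
      rw [pow_succ, pow_succ]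
      show (((SY ^ n) (SY y) : V.topologicalClosure) : X) = (S ^ n) (S (y : X))
      rw [ih]
      rfl
  obtain ⟨y₀, g₀, ε, v, hε, hlow⟩ := notW_lower SY hWY
  have hden : ∃ y : V.topologicalClosure, (y : X) ∈ V ∧ ‖y - y₀‖ < ε := by
    have hy : (y₀ : X) ∈ closure (V : Set X) := y₀.2
    obtain ⟨z, hz, hd⟩ := Metric.mem_closure_iff.1 hy ε hε
    refine ⟨⟨z, V.le_topologicalClosure hz⟩, hz, ?_⟩
    rw [dist_comm, dist_eq_norm] at hd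
    exact hd
  obtain ⟨y, ⟨J, hJ⟩, hyd⟩ := hden
  have hJ' : (N ^ (J + 1)) (y : X) = 0 := by
    rw [pow_succ']
    show N ((N ^ J) (y : X)) = 0
    rw [hJ, map_zero]
  obtain ⟨D, hD⟩ := jordan_upper S μ hμ.le J (y : X) hJ'
  have hμn : ∀ n : ℕ, 1 ≤ ((n : ℝ) + 1) ^ J * ‖μ‖ ^ n := by
    intro n
    have h1 : (1 : ℝ) ≤ ((n : ℝ) + 1) ^ J := one_le_pow₀ (by linarith [Nat.cast_nonneg (α := ℝ) n])
    have h2 : (1 : ℝ) ≤ ‖μ‖ ^ n := one_le_pow₀ hμ.le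
    nlinarith
  set D' : ℝ := ‖g₀‖ * D + ‖v‖ with hD'
  have hup : ∀ n : ℕ, ε ^ 2 * ‖SY ^ n‖ ≤ D' * (((n : ℝ) + 1) ^ J * ‖μ‖ ^ n) := by
    intro n
    have h1 := hlow y g₀ hyd (by simpa using hε) n
    have h2 : ‖(SY ^ n) y‖ ≤ D * (((n : ℝ) + 1) ^ J * ‖μ‖ ^ n) := by
      have h3 : ‖(SY ^ n) y‖ = ‖(S ^ n) (y : X)‖ := by
        rw [← hiter]
        rfl
      rw [h3, ← mul_assoc]
      exact hD n
    calc ε ^ 2 * ‖SY ^ n‖ ≤ ‖g₀ ((SY ^ n) y) - v‖ := h1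
      _ ≤ ‖g₀ ((SY ^ n) y)‖ + ‖v‖ := norm_sub_le _ _
      _ ≤ ‖g₀‖ * (D * (((n : ℝ) + 1) ^ J * ‖μ‖ ^ n)) + ‖v‖ * (((n : ℝ) + 1) ^ J * ‖μ‖ ^ n) := by
        refine add_le_add ((g₀.le_opNorm _).trans ?_) ?_
        · exact mul_le_mul_of_nonneg_left h2 (norm_nonneg _)
        · exact le_mul_of_one_le_right (norm_nonneg _) (hμn n)
      _ = D' * (((n : ℝ) + 1) ^ J * ‖μ‖ ^ n) := by
        rw [hD']
        ring
  obtain ⟨x, hx1, hx2⟩ := hcon (J + 1)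
  obtain ⟨c, hc, hlo⟩ := jordan_lower S μ hμ.le (J + 1) x hx1 hx2
  have hxV : x ∈ V := ⟨J + 1 + 1, hx1⟩
  have hxn : ∀ n : ℕ, ‖(S ^ n) x‖ ≤ ‖SY ^ n‖ * ‖x‖ := by
    intro n
    have h1 : ‖(SY ^ n) ⟨x, V.le_topologicalClosure hxV⟩‖ = ‖(S ^ n) x‖ := by
      have := hiter n ⟨x, V.le_topologicalClosure hxV⟩
      rw [← this]
      rfl
    rw [← h1]
    exact (SY ^ n).le_opNorm _
  have hev := (tendsto_natCast_atTop_atTop (R := ℝ)).eventually_gt_atTop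
    (D' * 2 ^ J * ‖x‖ / (c * ε ^ 2))
  obtain ⟨n, ⟨hn1, hn2⟩, hn3⟩ := ((hlo.and hev).and (eventually_ge_atTop 1)).exists
  have hn0 : (1 : ℝ) ≤ n := by exact_mod_cast hn3
  have h1 : ε ^ 2 * (c * (n : ℝ) ^ (J + 1) * ‖μ‖ ^ n) ≤
      D' * (((n : ℝ) + 1) ^ J * ‖μ‖ ^ n) * ‖x‖ := by
    calc ε ^ 2 * (c * (n : ℝ) ^ (J + 1) * ‖μ‖ ^ n) ≤ ε ^ 2 * (‖SY ^ n‖ * ‖x‖) :=
          mul_le_mul_of_nonneg_left (hn1.trans (hxn n)) (by positivity)
      _ = (ε ^ 2 * ‖SY ^ n‖) * ‖x‖ := by ring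
      _ ≤ D' * (((n : ℝ) + 1) ^ J * ‖μ‖ ^ n) * ‖x‖ :=
          mul_le_mul_of_nonneg_right (hup n) (norm_nonneg _)
  have hD'0 : 0 ≤ D' := by
    have := hup 0
    have h2 : 0 ≤ ε ^ 2 * ‖SY ^ 0‖ := by positivity
    have h3 : (((0 : ℕ) : ℝ) + 1) ^ J * ‖μ‖ ^ 0 = 1 := by simp
    rw [h3, mul_one] at this
    linarith
  have h2 : ((n : ℝ) + 1) ^ J ≤ 2 ^ J * (n : ℝ) ^ J := by
    rw [← mul_pow]
    exact pow_le_pow_left₀ (by positivity) (by linarith) J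
  have hμpos : 0 < ‖μ‖ ^ n := by positivity
  have hnpos : 0 < (n : ℝ) ^ J := by positivity
  have h3 : ε ^ 2 * (c * (n : ℝ) ^ (J + 1) * ‖μ‖ ^ n) ≤
      D' * ((2 ^ J * (n : ℝ) ^ J) * ‖μ‖ ^ n) * ‖x‖ := by
    refine h1.trans ?_
    gcongr
  have h4 : (c * ε ^ 2 * n) * ((n : ℝ) ^ J * ‖μ‖ ^ n) ≤
      (D' * 2 ^ J * ‖x‖) * ((n : ℝ) ^ J * ‖μ‖ ^ n) := by
    calc (c * ε ^ 2 * n) * ((n : ℝ) ^ J * ‖μ‖ ^ n) = ε ^ 2 * (c * (n : ℝ) ^ (J + 1) * ‖μ‖ ^ n) := by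
          rw [pow_succ]; ring
      _ ≤ D' * ((2 ^ J * (n : ℝ) ^ J) * ‖μ‖ ^ n) * ‖x‖ := h3
      _ = _ := by ring
  have h5 := le_of_mul_le_mul_right h4 (by positivity)
  rw [div_lt_iff₀ (by positivity)] at hn2
  linarith

end WNH
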