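import Pool.Agent.WNH.P7a
import Pool.Agent.WNH.P7c

/-!
Row [WN-P7d]. Uses `top_eigen` (P7a), `chains_bounded` (P7c).

Proof. Let `E` be the finite set of eigenvalues `μ` of `S` with `‖μ‖ = gr S` (`top_eigen`), `N μ` the
number of `chains_bounded` (`‖μ‖ = gr S > 1`), `p = ∏_{μ ∈ E} (X - C μ)^(N μ)`. It is nonzero and its
roots are in `E`. Let `‖μ‖ = gr S` and `p(S) (S - μ) x = 0`. All polynomials in `S` commute.
If `μ ∉ E`: `(S - μ) (p(S) x) = 0` and `S - μ` is injective, so `p(S) x = 0`.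
If `μ ∈ E`: `p = (X - C μ)^(N μ) p₁`, `(S - μ)^(N μ + 1) (p₁(S) x) = 0`, so
`(S - μ)^(N μ) (p₁(S) x) = 0`, i.e. `p(S) x = 0`.
-/

namespace WNH
open Filter Topology Metric
universe u
variable {X : Type u} [NormedAddCommGroup X] [NormedSpace ℂ X] [CompleteSpace X]

theorem top_poly (S : X →L[ℂ] X) (hS : ¬ W S) (hgr : 1 < gr S) :
    ∃ p : Polynomial ℂ, p ≠ 0 ∧ (∀ z : ℂ, p.IsRoot z → ‖z‖ = gr S) ∧
      ∀ (μ : ℂ) (x : X), ‖μ‖ = gr S → (Polynomial.aeval S p) (S x - μ • x) = 0 →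
        (Polynomial.aeval S p) x = 0 := by
  classical
  obtain ⟨-, hfin⟩ := top_eigen S hS hgr
  have hch : ∀ μ : ℂ, ∃ N : ℕ, ‖μ‖ = gr S → ∀ x : X, ((S - μ • (1 : X →L[ℂ] X)) ^ (N + 1)) x = 0 →
      ((S - μ • (1 : X →L[ℂ] X)) ^ N) x = 0 := by
    intro μ
    by_cases hμ : ‖μ‖ = gr S
    · obtain ⟨N, hN⟩ := chains_bounded S hS μ (by rw [hμ]; exact hgr)
      exact ⟨N, fun _ => hN⟩
    · exact ⟨0, fun h => absurd h hμ⟩
  choose N hN using hch
  set E : Finset ℂ := hfin.toFinset with hE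
  have hEm : ∀ μ, μ ∈ E ↔ ‖μ‖ = gr S ∧ ∃ x : X, x ≠ 0 ∧ S x = μ • x := by
    intro μ
    rw [hE, Set.Finite.mem_toFinset]
    rfl
  have hB : ∀ μ : ℂ, Polynomial.aeval S (Polynomial.X - Polynomial.C μ) = S - μ • (1 : X →L[ℂ] X) := by
    intro μ
    rw [map_sub, Polynomial.aeval_X, Polynomial.aeval_C, Algebra.algebraMap_eq_smul_one]
  have hBx : ∀ (μ : ℂ) (x : X), S x - μ • x = (S - μ • (1 : X →L[ℂ] X)) x := fun μ x => rfl
  refine ⟨∏ μ ∈ E, (Polynomial.X - Polynomial.C μ) ^ N μ, ?_, ?_, ?_⟩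
  · rw [Finset.prod_ne_zero_iff]
    intro μ _
    exact pow_ne_zero _ (Polynomial.X_sub_C_ne_zero μ)
  · intro z hz
    rw [Polynomial.IsRoot, Polynomial.eval_prod, Finset.prod_eq_zero_iff] at hz
    obtain ⟨μ, hμ, hz⟩ := hz
    rw [Polynomial.eval_pow, Polynomial.eval_sub, Polynomial.eval_X, Polynomial.eval_C] at hz
    have h0 : N μ ≠ 0 := by
      intro h2
      rw [h2, pow_zero] at hz
      exact absurd hz one_ne_zero
    have h1 : z - μ = 0 := (pow_eq_zero_iff h0).1 hz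
    rw [sub_eq_zero.1 h1]
    exact ((hEm μ).1 hμ).1
  · intro μ x hμ hx
    by_cases hμE : μ ∈ E
    · have hp : (∏ μ ∈ E, (Polynomial.X - Polynomial.C μ) ^ N μ : Polynomial ℂ) =
          (Polynomial.X - Polynomial.C μ) ^ N μ *
            ∏ ν ∈ E.erase μ, (Polynomial.X - Polynomial.C ν) ^ N ν :=
        (Finset.mul_prod_erase E _ hμE).symm
      rw [hp] at hx ⊢
      set p₁ : Polynomial ℂ := ∏ ν ∈ E.erase μ, (Polynomial.X - Polynomial.C ν) ^ N ν with hp₁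
      rw [map_mul, map_pow, hB, mul_apply_eq_comp] at hx ⊢
      apply hN μ hμ
      have h1 : (S - μ • (1 : X →L[ℂ] X)) ((Polynomial.aeval S p₁) x) =
          (Polynomial.aeval S p₁) (S x - μ • x) := by
        rw [hBx, ← hB, ← mul_apply_eq_comp, ← mul_apply_eq_comp, ← map_mul,
          ← map_mul, mul_comm]
      rw [pow_succ, mul_apply_eq_comp, h1]
      exact hx
    · set p : Polynomial ℂ := ∏ μ ∈ E, (Polynomial.X - Polynomial.C μ) ^ N μ with hp
      by_contra hne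
      apply hμE
      rw [hEm]
      refine ⟨hμ, (Polynomial.aeval S p) x, hne, ?_⟩
      have h1 : (S - μ • (1 : X →L[ℂ] X)) ((Polynomial.aeval S p) x) =
          (Polynomial.aeval S p) (S x - μ • x) := by
        rw [hBx, ← hB, ← mul_apply_eq_comp, ← mul_apply_eq_comp, ← map_mul,
          ← map_mul, mul_comm]
      rw [hx, ← hBx, sub_eq_zero] at h1
      exact h1

end WNH
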