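import Pool.Agent.WNH.Defs

/-!
Row [WN-Q0]. A quadratic polynomial without zeros in the closed unit disc.
-/

namespace WNH
open Filter Topology Metric

theorem quad_bounds (a b c : ℂ) (h : ∀ s : ℂ, ‖s‖ ≤ 1 → a + b * s + c * s ^ 2 ≠ 0) :
    ‖c‖ ≤ ‖a‖ ∧ ‖b‖ ≤ 2 * ‖a‖ := by
  by_cases hc : c = 0
  · subst hc
    refine ⟨by simp, ?_⟩
    by_cases hb : b = 0
    · subst hb; simp
    · by_contra hcon
      push Not at hcon
      have hbp : 0 < ‖b‖ := norm_pos_iff.mpr hb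
      refine h (-a / b) ?_ ?_
      · rw [norm_div, norm_neg, div_le_one hbp]
        linarith [norm_nonneg a]
      · field_simp
        ring
  · obtain ⟨d, hd⟩ := IsAlgClosed.exists_eq_mul_self (b ^ 2 - 4 * a * c)
    obtain ⟨r₁, hr₁⟩ : ∃ r : ℂ, r = (-b + d) / (2 * c) := ⟨_, rfl⟩
    obtain ⟨r₂, hr₂⟩ : ∃ r : ℂ, r = (-b - d) / (2 * c) := ⟨_, rfl⟩
    have ha : a = c * r₁ * r₂ := by
      rw [hr₁, hr₂]
      field_simp
      linear_combination -hd
    have hb : b = -c * (r₁ + r₂) := by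
      rw [hr₁, hr₂]
      field_simp
      ring
    have h1 : 1 < ‖r₁‖ := by
      by_contra hcon
      push Not at hcon
      refine h r₁ hcon ?_
      rw [ha, hb]; ring
    have h2 : 1 < ‖r₂‖ := by
      by_contra hcon
      push Not at hcon
      refine h r₂ hcon ?_
      rw [ha, hb]; ring
    have hcp : 0 < ‖c‖ := norm_pos_iff.mpr hc
    have hna : ‖a‖ = ‖c‖ * (‖r₁‖ * ‖r₂‖) := by rw [ha, norm_mul, norm_mul, mul_assoc]
    refine ⟨?_, ?_⟩
    · rw [hna]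
      have : 1 ≤ ‖r₁‖ * ‖r₂‖ := by nlinarith
      nlinarith
    · have hnb : ‖b‖ ≤ ‖c‖ * (‖r₁‖ + ‖r₂‖) := by
        rw [hb, norm_mul, norm_neg]
        exact mul_le_mul_of_nonneg_left (norm_add_le _ _) hcp.le
      rw [hna]
      have h3 : ‖r₁‖ + ‖r₂‖ ≤ 2 * (‖r₁‖ * ‖r₂‖) := by nlinarith
      nlinarith

end WNH
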